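import Pool.Agent.Lib_helper91.TN.GZ

/-! Block A0: congruences for `bb` and `gg`.  `k = k0 + p k1`, `j = j0 + p j1`.
For `j0 ≤ k0`: `C(k,j) ≡ C(k0,j0) C(k1,j1) (1 + p [k1 H_{k0} - j1 H_{j0} - (k1-j1) H_{k0-j0}]) mod p²` (U1, U2 of UB),
for `j0 > k0`: `p ∣ C(k,j)`.  (Level 10 version of FR/A0f.) -/

namespace Pool.Agent.Lib_helper91.TN

open PowerSeries Finset

variable (p : ℕ) [Fact p.Prime]

/-- `x` is integral with reduction `r` mod `p²` -/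
def A0f_Rep (x : ℚ_[p]) (r : ZMod (p ^ 2)) : Prop :=
  ∃ y : ℤ_[p], (y : ℚ_[p]) = x ∧ PadicInt.toZModPow 2 y = r

variable {p}

theorem A0f_Rep_nat (n : ℕ) : A0f_Rep p (n : ℚ_[p]) (n : ZMod (p ^ 2)) :=
  ⟨(n : ℤ_[p]), by push_cast; rfl, map_natCast _ n⟩

theorem A0f_Rep_one : A0f_Rep p (1 : ℚ_[p]) 1 := ⟨1, by push_cast; rfl, map_one _⟩

theorem A0f_Rep_zero : A0f_Rep p (0 : ℚ_[p]) 0 := ⟨0, by push_cast; rfl, map_zero _⟩

theorem A0f_Rep_add {x x' : ℚ_[p]} {r r' : ZMod (p ^ 2)} (h : A0f_Rep p x r) (h' : A0f_Rep p x' r') :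
    A0f_Rep p (x + x') (r + r') := by
  obtain ⟨y, rfl, rfl⟩ := h
  obtain ⟨y', rfl, rfl⟩ := h'
  exact ⟨y + y', by push_cast; rfl, map_add _ _ _⟩

theorem A0f_Rep_sub {x x' : ℚ_[p]} {r r' : ZMod (p ^ 2)} (h : A0f_Rep p x r) (h' : A0f_Rep p x' r') :
    A0f_Rep p (x - x') (r - r') := by
  obtain ⟨y, rfl, rfl⟩ := h
  obtain ⟨y', rfl, rfl⟩ := h'
  exact ⟨y - y', by push_cast; rfl, map_sub _ _ _⟩

theorem A0f_Rep_mul {x x' : ℚ_[p]} {r r' : ZMod (p ^ 2)} (h : A0f_Rep p x r) (h' : A0f_Rep p x' r') :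
    A0f_Rep p (x * x') (r * r') := by
  obtain ⟨y, rfl, rfl⟩ := h
  obtain ⟨y', rfl, rfl⟩ := h'
  exact ⟨y * y', by push_cast; rfl, map_mul _ _ _⟩

theorem A0f_Rep_pow {x : ℚ_[p]} {r : ZMod (p ^ 2)} (h : A0f_Rep p x r) (n : ℕ) :
    A0f_Rep p (x ^ n) (r ^ n) := by
  obtain ⟨y, rfl, rfl⟩ := h
  exact ⟨y ^ n, by push_cast; rfl, map_pow _ _ _⟩

theorem A0f_Rep_sum {ι : Type} (s : Finset ι) (f : ι → ℚ_[p]) (g : ι → ZMod (p ^ 2))
    (h : ∀ i ∈ s, A0f_Rep p (f i) (g i)) : A0f_Rep p (∑ i ∈ s, f i) (∑ i ∈ s, g i) := by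
  classical
  induction s using Finset.induction_on with
  | empty => simpa using A0f_Rep_zero
  | insert a s ha ih =>
    rw [sum_insert ha, sum_insert ha]
    exact A0f_Rep_add (h a (mem_insert_self _ _)) (ih fun i hi => h i (mem_insert_of_mem hi))

theorem A0f_Rep_uniq {x : ℚ_[p]} {r r' : ZMod (p ^ 2)} (h : A0f_Rep p x r) (h' : A0f_Rep p x r') :
    r = r' := by
  obtain ⟨y, rfl, rfl⟩ := h
  obtain ⟨y', h1, rfl⟩ := h'
  have : y' = y := PadicInt.ext h1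
  rw [this]

theorem A0f_exists {x : ℚ_[p]} (h : PI 0 x) : ∃ r, A0f_Rep p x r := by
  obtain ⟨y, hy⟩ := (PI_zero_iff_exists x).1 h
  exact ⟨_, y, hy, rfl⟩

theorem A0f_PI_two {x : ℚ_[p]} {r : ZMod (p ^ 2)} (h : A0f_Rep p x r) (hr : r = 0) : PI 2 x := by
  obtain ⟨y, rfl, rfl⟩ := h
  exact (PI_zmod 2 y).2 hr

theorem A0f_zero_of_PI {x : ℚ_[p]} {r : ZMod (p ^ 2)} (h : A0f_Rep p x r) (hx : PI 2 x) : r = 0 := by
  obtain ⟨y, rfl, rfl⟩ := h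
  exact (PI_zmod 2 y).1 hx

omit [Fact p.Prime] in
theorem A0f_pp : (p : ZMod (p ^ 2)) ^ 2 = 0 := by
  have := ZMod.natCast_self (p ^ 2)
  push_cast at this
  exact this

/-- the reduction of `p x` only depends on `x` mod `p` -/
theorem A0f_p_mul {x x' : ℚ_[p]} {r r' : ZMod (p ^ 2)} (h : A0f_Rep p x r) (h' : A0f_Rep p x' r')
    (hx : PI 1 (x - x')) : (p : ZMod (p ^ 2)) * r = (p : ZMod (p ^ 2)) * r' := by
  have h1 : PI 2 ((p : ℚ_[p]) * (x - x')) := PI_mul PI_p hx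
  have h2 := A0f_zero_of_PI (A0f_Rep_mul (A0f_Rep_nat p) (A0f_Rep_sub h h')) h1
  linear_combination h2

/-- `U2` in `ℤ/p²` -/
theorem A0f_U2 (h3 : 3 ≤ p) (n0 t : ℕ) {a : ZMod (p ^ 2)} (ha : A0f_Rep p (HU p n0) a) :
    ((UU p (n0 + p * t) : ℕ) : ZMod (p ^ 2)) =
      ((UU p p : ℕ) : ZMod (p ^ 2)) ^ t * ((UU p n0 : ℕ) : ZMod (p ^ 2)) *
        (1 + (p : ZMod (p ^ 2)) * (t : ZMod (p ^ 2)) * a) := by
  have h1 := A0f_zero_of_PI (A0f_Rep_sub (A0f_Rep_nat (UU p (n0 + p * t)))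
    (A0f_Rep_mul (A0f_Rep_mul (A0f_Rep_pow (A0f_Rep_nat (UU p p)) t) (A0f_Rep_nat (UU p n0)))
      (A0f_Rep_add A0f_Rep_one (A0f_Rep_mul (A0f_Rep_mul (A0f_Rep_nat p) (A0f_Rep_nat t)) ha))))
    (U2 p h3 n0 t)
  exact sub_eq_zero.1 h1

theorem A0f_unit (n : ℕ) : IsUnit ((UU p n : ℕ) : ZMod (p ^ 2)) := by
  rw [ZMod.isUnit_iff_coprime]
  have h := (Nat.Prime.coprime_iff_not_dvd (Fact.out : p.Prime)).2 (UU_not_dvd p n)
  exact (Nat.Coprime.pow_left 2 h).symm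

/-- exact formula for `C(k,j)` without borrow -/
theorem A0f_choose (k0 k1 j0 j1 : ℕ) (h0 : k0 < p) (hj0 : j0 ≤ k0) (hj1 : j1 ≤ k1) :
    (k0 + p * k1).choose (j0 + p * j1) * (UU p (j0 + p * j1) * UU p ((k0 - j0) + p * (k1 - j1))) =
      k1.choose j1 * UU p (k0 + p * k1) := by
  have hp : p.Prime := Fact.out
  have key : ∀ a b : ℕ, a < p → (a + p * b) / p = b := fun a b h => by
    rw [Nat.add_mul_div_left _ _ hp.pos, Nat.div_eq_of_lt h, zero_add]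
  have hle : j0 + p * j1 ≤ k0 + p * k1 := add_le_add hj0 (Nat.mul_le_mul_left p hj1)
  have hsub : k0 + p * k1 - (j0 + p * j1) = (k0 - j0) + p * (k1 - j1) := by
    obtain ⟨a, rfl⟩ := Nat.exists_eq_add_of_le hj0
    obtain ⟨b, rfl⟩ := Nat.exists_eq_add_of_le hj1
    rw [Nat.add_sub_cancel_left, Nat.add_sub_cancel_left, mul_add]
    omega
  have f1 := Nat.choose_mul_factorial_mul_factorial hle
  rw [hsub] at f1
  have f2 := Nat.choose_mul_factorial_mul_factorial hj1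
  rw [U1 p (k0 + p * k1), U1 p (j0 + p * j1), U1 p ((k0 - j0) + p * (k1 - j1)),
    key k0 k1 h0, key j0 j1 (by omega), key (k0 - j0) (k1 - j1) (by omega), ← f2] at f1
  have hpow : p ^ k1 = p ^ j1 * p ^ (k1 - j1) := by
    rw [← pow_add, Nat.add_sub_cancel' hj1]
  rw [hpow] at f1
  have hpos : 0 < p ^ j1 * p ^ (k1 - j1) * (j1.factorial * (k1 - j1).factorial) := by
    have := hp.pos
    positivity
  apply Nat.eq_of_mul_eq_mul_left hpos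
  calc _ = (k0 + p * k1).choose (j0 + p * j1) * (p ^ j1 * j1.factorial * UU p (j0 + p * j1)) *
        (p ^ (k1 - j1) * (k1 - j1).factorial * UU p ((k0 - j0) + p * (k1 - j1))) := by ring
    _ = _ := f1
    _ = _ := by ring

/-- `p ∣ C(k,j)` with borrow -/
theorem A0f_dvd (k0 k1 j0 j1 : ℕ) (h0 : k0 < p) (hj : k0 < j0) (hjp : j0 < p) :
    p ∣ (k0 + p * k1).choose (j0 + p * j1) := by
  have hp : p.Prime := Fact.out
  have h := Choose.choose_modEq_choose_mod_mul_choose_div_nat (n := k0 + p * k1) (k := j0 + p * j1) (p := p)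
  have e1 : (k0 + p * k1) % p = k0 := by rw [Nat.add_mul_mod_self_left, Nat.mod_eq_of_lt h0]
  have e2 : (j0 + p * j1) % p = j0 := by rw [Nat.add_mul_mod_self_left, Nat.mod_eq_of_lt hjp]
  rw [e1, e2, Nat.choose_eq_zero_of_lt hj, zero_mul] at h
  exact (Nat.modEq_zero_iff_dvd).1 h

omit [Fact p.Prime] in
/-- the sum over `j ≤ k` as a double sum -/
theorem A0f_split {M : Type} [AddCommMonoid M] (f : ℕ → M) (k0 k1 : ℕ) (h0 : k0 < p)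
    (hf : ∀ j, k0 + p * k1 < j → f j = 0) :
    ∑ j ∈ range (k0 + p * k1 + 1), f j =
      ∑ j1 ∈ range (k1 + 1), ∑ j0 ∈ range p, f (j0 + p * j1) := by
  have h1 : ∀ n, ∑ j ∈ range (p * n), f j = ∑ j1 ∈ range n, ∑ j0 ∈ range p, f (j0 + p * j1) := by
    intro n
    induction n with
    | zero => simp
    | succ n ih =>
      rw [mul_add, mul_one, sum_range_add, ih, sum_range_succ]
      congr 1
      exact sum_congr rfl fun j _ => by rw [add_comm]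
  rw [← h1]
  refine sum_subset ?_ ?_
  · intro x hx
    rw [mem_range] at hx ⊢
    rw [mul_add, mul_one]
    omega
  · intro x _ hx
    rw [mem_range] at hx
    exact hf x (by omega)

variable (p)

/-- reductions of the harmonic numbers -/
theorem A0f_h : ∃ h : ℕ → ZMod (p ^ 2), ∀ n < p, A0f_Rep p (Hn ℚ_[p] n) (h n) := by
  classical
  have : ∀ n, ∃ r, n < p → A0f_Rep p (Hn ℚ_[p] n) r := by
    intro n
    by_cases hn : n < p
    · obtain ⟨r, hr⟩ := A0f_exists (PI_Hn p n hn)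
      exact ⟨r, fun _ => hr⟩
    · exact ⟨0, fun h => absurd h hn⟩
  choose h hh using this
  exact ⟨h, hh⟩

theorem A0f_HU_eq (n : ℕ) (hn : n < p) : HU p n = Hn ℚ_[p] n := by
  have := U3 p n
  rw [Nat.div_eq_of_lt hn] at this
  simp [Hn] at this ⊢
  exact this.symm

variable {p}

/-- the congruence for `C(k,j)` -/
theorem A0f_choose_mod (h3 : 3 ≤ p) {h : ℕ → ZMod (p ^ 2)}
    (hh : ∀ n < p, A0f_Rep p (Hn ℚ_[p] n) (h n))
    (k0 k1 j0 j1 : ℕ) (h0 : k0 < p) (hj0 : j0 ≤ k0) (hj1 : j1 ≤ k1) :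
    (((k0 + p * k1).choose (j0 + p * j1) : ℕ) : ZMod (p ^ 2)) =
      (k1.choose j1 : ZMod (p ^ 2)) * (k0.choose j0 : ZMod (p ^ 2)) *
        (1 + (p : ZMod (p ^ 2)) * ((k1 : ZMod (p ^ 2)) * h k0 - (j1 : ZMod (p ^ 2)) * h j0
          - ((k1 : ZMod (p ^ 2)) - (j1 : ZMod (p ^ 2))) * h (k0 - j0))) := by
  have hpp := A0f_pp (p := p)
  have f1 := congrArg (Nat.cast (R := ZMod (p ^ 2))) (A0f_choose (p := p) k0 k1 j0 j1 h0 hj0 hj1)
  have f2 := congrArg (Nat.cast (R := ZMod (p ^ 2))) (A0f_choose (p := p) k0 0 j0 0 h0 hj0 le_rfl)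
  have hR : ∀ n, n < p → A0f_Rep p (HU p n) (h n) := fun n hn => by
    rw [A0f_HU_eq p n hn]; exact hh n hn
  push_cast at f1 f2
  rw [A0f_U2 h3 k0 k1 (hR k0 h0), A0f_U2 h3 j0 j1 (hR j0 (by omega)),
    A0f_U2 h3 (k0 - j0) (k1 - j1) (hR (k0 - j0) (by omega))] at f1
  simp only [mul_zero, add_zero, Nat.choose_self, Nat.cast_one, one_mul] at f2
  have u1 := A0f_unit (p := p) j0
  have u2 := A0f_unit (p := p) (k0 - j0)
  have u3 := (A0f_unit (p := p) p).pow k1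
  have hpow : ((UU p p : ℕ) : ZMod (p ^ 2)) ^ k1 =
      ((UU p p : ℕ) : ZMod (p ^ 2)) ^ j1 * ((UU p p : ℕ) : ZMod (p ^ 2)) ^ (k1 - j1) := by
    rw [← pow_add, Nat.add_sub_cancel' hj1]
  have hcast : ((k1 - j1 : ℕ) : ZMod (p ^ 2)) = (k1 : ZMod (p ^ 2)) - j1 := by
    rw [Nat.cast_sub hj1]
  rw [hcast] at f1
  rw [hpow] at f1 u3
  rw [← f2] at f1
  generalize ((UU p p : ℕ) : ZMod (p ^ 2)) ^ j1 = T1 at *
  generalize ((UU p p : ℕ) : ZMod (p ^ 2)) ^ (k1 - j1) = T2 at *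
  generalize ((UU p j0 : ℕ) : ZMod (p ^ 2)) = v1 at *
  generalize ((UU p (k0 - j0) : ℕ) : ZMod (p ^ 2)) = v2 at *
  generalize (((k0 + p * k1).choose (j0 + p * j1) : ℕ) : ZMod (p ^ 2)) = C at *
  generalize (k1.choose j1 : ZMod (p ^ 2)) = C1 at *
  generalize (k0.choose j0 : ZMod (p ^ 2)) = C0 at *
  generalize (k1 : ZMod (p ^ 2)) = x at *
  generalize (j1 : ZMod (p ^ 2)) = y at *
  generalize h k0 = a at *
  generalize h j0 = b at *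
  generalize h (k0 - j0) = c at *
  generalize (p : ZMod (p ^ 2)) = P at *
  have g1 : (T1 * T2 * v1 * v2) * (C * ((1 + P * y * b) * (1 + P * (x - y) * c))) =
      (T1 * T2 * v1 * v2) * (C1 * C0 * (1 + P * x * a)) := by
    linear_combination f1
  have g2 : C * ((1 + P * y * b) * (1 + P * (x - y) * c)) = C1 * C0 * (1 + P * x * a) :=
    ((u3.mul u1).mul u2).mul_left_cancel g1
  have g3 : C * (1 + P * (y * b + (x - y) * c)) = C1 * C0 * (1 + P * x * a) := by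
    linear_combination g2 - C * (y * b * (x - y) * c) * hpp
  linear_combination (1 - P * (y * b + (x - y) * c)) * g3 + (C * (y * b + (x - y) * c) ^ 2 -
    C1 * C0 * (x * a) * (y * b + (x - y) * c)) * hpp

omit [Fact p.Prime] in
/-- the symmetry -/
theorem A0f_symm (h : ℕ → ZMod (p ^ 2)) (k0 : ℕ) :
    ∑ j ∈ range (k0 + 1), (k0.choose j : ZMod (p ^ 2)) ^ 4 * h (k0 - j) =
      ∑ j ∈ range (k0 + 1), (k0.choose j : ZMod (p ^ 2)) ^ 4 * h j := by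
  rw [← sum_range_reflect (fun j => (k0.choose j : ZMod (p ^ 2)) ^ 4 * h j) (k0 + 1)]
  refine sum_congr rfl fun j hj => ?_
  have hj' : j ≤ k0 := by rw [mem_range] at hj; omega
  have e : k0 + 1 - 1 - j = k0 - j := by omega
  rw [e, Nat.choose_symm hj']

omit [Fact p.Prime] in
theorem A0f_B (h : ℕ → ZMod (p ^ 2)) (k0 : ℕ) (x y : ZMod (p ^ 2)) :
    ∑ j ∈ range (k0 + 1), (k0.choose j : ZMod (p ^ 2)) ^ 4 * (x * h k0 - y * h j - (x - y) * h (k0 - j)) =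
      x * ∑ j ∈ range (k0 + 1), (k0.choose j : ZMod (p ^ 2)) ^ 4 * (h k0 - h j) := by
  have h1 := A0f_symm h k0
  have e1 : ∑ j ∈ range (k0 + 1), (k0.choose j : ZMod (p ^ 2)) ^ 4 * (x * h k0 - y * h j - (x - y) * h (k0 - j))
      = x * ∑ j ∈ range (k0 + 1), (k0.choose j : ZMod (p ^ 2)) ^ 4 * h k0
        - y * ∑ j ∈ range (k0 + 1), (k0.choose j : ZMod (p ^ 2)) ^ 4 * h j
        - (x - y) * ∑ j ∈ range (k0 + 1), (k0.choose j : ZMod (p ^ 2)) ^ 4 * h (k0 - j) := by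
    rw [mul_sum, mul_sum, mul_sum, ← sum_sub_distrib, ← sum_sub_distrib]
    exact sum_congr rfl fun j _ => by ring
  have e2 : ∑ j ∈ range (k0 + 1), (k0.choose j : ZMod (p ^ 2)) ^ 4 * (h k0 - h j)
      = ∑ j ∈ range (k0 + 1), (k0.choose j : ZMod (p ^ 2)) ^ 4 * h k0
        - ∑ j ∈ range (k0 + 1), (k0.choose j : ZMod (p ^ 2)) ^ 4 * h j := by
    rw [← sum_sub_distrib]
    exact sum_congr rfl fun j _ => by ring
  rw [e1, e2, h1]
  ring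

theorem A0f_gg {h : ℕ → ZMod (p ^ 2)} (hh : ∀ n < p, A0f_Rep p (Hn ℚ_[p] n) (h n))
    (k0 : ℕ) (h0 : k0 < p) : A0f_Rep p (gg ℚ_[p] k0)
      (4 * ∑ j ∈ range (k0 + 1), (k0.choose j : ZMod (p ^ 2)) ^ 4 * (h k0 - h j)) := by
  unfold gg
  have h4 : A0f_Rep p (4 : ℚ_[p]) 4 := by simpa using A0f_Rep_nat (p := p) 4
  refine A0f_Rep_mul h4 (A0f_Rep_sum _ _ _ fun j hj => ?_)
  rw [mem_range] at hj
  exact A0f_Rep_mul (A0f_Rep_pow (A0f_Rep_nat _) 4) (A0f_Rep_sub (hh _ h0) (hh _ (by omega)))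

/-- terms with borrow vanish -/
theorem A0f_cube (k0 k1 j0 j1 : ℕ) (h0 : k0 < p) (hj : k0 < j0) (hjp : j0 < p) :
    (((k0 + p * k1).choose (j0 + p * j1) : ℕ) : ZMod (p ^ 2)) ^ 4 = 0 := by
  obtain ⟨c, hc⟩ := A0f_dvd k0 k1 j0 j1 h0 hj hjp
  have hpp := A0f_pp (p := p)
  rw [hc]
  push_cast
  linear_combination ((p : ZMod (p ^ 2)) ^ 2 * (c : ZMod (p ^ 2)) ^ 4) * hpp

omit [Fact p.Prime] in
theorem A0f_sum_p {M : Type} [AddCommMonoid M] (f : ℕ → M) (k0 : ℕ) (h0 : k0 < p)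
    (hf : ∀ j, k0 < j → j < p → f j = 0) :
    ∑ j ∈ range p, f j = ∑ j ∈ range (k0 + 1), f j := by
  symm
  refine sum_subset ?_ ?_
  · intro x hx
    rw [mem_range] at hx ⊢
    omega
  · intro x hx hx'
    rw [mem_range] at hx hx'
    exact hf x (by omega) hx

variable (p)

theorem A0a (hp : 3 < p) (k0 k1 : ℕ) (h0 : k0 < p) :
    PI 2 ((bb (k0 + p * k1) : ℚ_[p])
      - (bb k1 : ℚ_[p]) * ((bb k0 : ℚ_[p]) + (p : ℚ_[p]) * (k1 : ℚ_[p]) * gg ℚ_[p] k0)) := by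
  obtain ⟨h, hh⟩ := A0f_h p
  refine A0f_PI_two (A0f_Rep_sub (A0f_Rep_nat _) (A0f_Rep_mul (A0f_Rep_nat _)
    (A0f_Rep_add (A0f_Rep_nat _) (A0f_Rep_mul (A0f_Rep_mul (A0f_Rep_nat _) (A0f_Rep_nat _))
      (A0f_gg hh k0 h0))))) ?_
  have hpp := A0f_pp (p := p)
  have e1 : ((bb (k0 + p * k1) : ℕ) : ZMod (p ^ 2)) = ∑ j1 ∈ range (k1 + 1), ∑ j0 ∈ range (k0 + 1),
      ((k1.choose j1 : ZMod (p ^ 2)) ^ 4 * (k0.choose j0 : ZMod (p ^ 2)) ^ 4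
        + (k1.choose j1 : ZMod (p ^ 2)) ^ 4 * (4 * (p : ZMod (p ^ 2)) *
          ((k0.choose j0 : ZMod (p ^ 2)) ^ 4 * ((k1 : ZMod (p ^ 2)) * h k0 - (j1 : ZMod (p ^ 2)) * h j0
          - ((k1 : ZMod (p ^ 2)) - (j1 : ZMod (p ^ 2))) * h (k0 - j0))))) := by
    unfold bb
    rw [A0f_split (p := p) (fun j => (k0 + p * k1).choose j ^ 4) k0 k1 h0 (fun j hj => by
      rw [Nat.choose_eq_zero_of_lt hj]; norm_num)]
    push_cast
    refine sum_congr rfl fun j1 hj1 => ?_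
    rw [A0f_sum_p _ k0 h0 (fun j0 hj hj' => A0f_cube k0 k1 j0 j1 h0 hj hj')]
    refine sum_congr rfl fun j0 hj0 => ?_
    rw [mem_range] at hj0 hj1
    rw [A0f_choose_mod (by omega) hh k0 k1 j0 j1 h0 (by omega) (by omega)]
    generalize ((k1 : ZMod (p ^ 2)) * h k0 - (j1 : ZMod (p ^ 2)) * h j0
          - ((k1 : ZMod (p ^ 2)) - (j1 : ZMod (p ^ 2))) * h (k0 - j0)) = B
    linear_combination ((k1.choose j1 : ZMod (p ^ 2)) ^ 4 * (k0.choose j0 : ZMod (p ^ 2)) ^ 4 *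
      (6 * B ^ 2 + 4 * p * B ^ 3 + p ^ 2 * B ^ 4)) * hpp
  have e2 : ∀ n, ((bb n : ℕ) : ZMod (p ^ 2)) = ∑ j ∈ range (n + 1), (n.choose j : ZMod (p ^ 2)) ^ 4 := by
    intro n
    unfold bb
    push_cast
    rfl
  rw [e1, e2 k1, e2 k0, sum_mul, sub_eq_zero]
  refine sum_congr rfl fun j1 _ => ?_
  rw [sum_add_distrib, ← mul_sum, ← mul_sum, ← mul_sum, A0f_B]
  ring

theorem A0b (hp : 3 < p) (k0 k1 : ℕ) (h0 : k0 < p) (h1 : k1 < p) :
    PI 2 ((p : ℚ_[p]) * gg ℚ_[p] (k0 + p * k1)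
      - (gg ℚ_[p] k1 * (bb k0 : ℚ_[p])
        + (p : ℚ_[p]) * gg ℚ_[p] k0 * ((bb k1 : ℚ_[p]) + (k1 : ℚ_[p]) * gg ℚ_[p] k1))) := by
  obtain ⟨h, hh⟩ := A0f_h p
  have hp0 : (p : ℚ_[p]) ≠ 0 := by exact_mod_cast (Fact.out : p.Prime).ne_zero
  -- reduction of `p H_j`
  have hH : ∀ j0 j1, j0 < p → j1 < p → A0f_Rep p ((p : ℚ_[p]) * Hn ℚ_[p] (j0 + p * j1))
      ((p : ZMod (p ^ 2)) * h j0 + h j1) := by
    intro j0 j1 hj0 hj1
    have e1 : (j0 + p * j1) / p = j1 := by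
      rw [Nat.add_mul_div_left _ _ (Fact.out : p.Prime).pos, Nat.div_eq_of_lt hj0, zero_add]
    have e2 : (p : ℚ_[p]) * Hn ℚ_[p] (j0 + p * j1) =
        (p : ℚ_[p]) * HU p (j0 + p * j1) + Hn ℚ_[p] j1 := by
      rw [U3 p (j0 + p * j1), e1]
      field_simp
    rw [e2]
    obtain ⟨r, hr⟩ := A0f_exists (PI_HU p (j0 + p * j1))
    have hr' : A0f_Rep p (HU p j0) (h j0) := by
      rw [A0f_HU_eq p j0 hj0]; exact hh j0 hj0
    have e3 := A0f_p_mul hr hr' (HU_block p (by omega) j0 j1)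
    rw [← e3]
    exact A0f_Rep_add (A0f_Rep_mul (A0f_Rep_nat p) hr) (hh j1 hj1)
  have h4 : A0f_Rep p (4 : ℚ_[p]) 4 := by simpa using A0f_Rep_nat (p := p) 4
  have hpp := A0f_pp (p := p)
  have e1 : A0f_Rep p ((p : ℚ_[p]) * gg ℚ_[p] (k0 + p * k1))
      (4 * ∑ j1 ∈ range (k1 + 1), ∑ j0 ∈ range (k0 + 1),
        ((k1.choose j1 : ZMod (p ^ 2)) ^ 4 * ((p : ZMod (p ^ 2)) *
            ((k0.choose j0 : ZMod (p ^ 2)) ^ 4 * (h k0 - h j0)))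
          + (k1.choose j1 : ZMod (p ^ 2)) ^ 4 * (h k1 - h j1) * (k0.choose j0 : ZMod (p ^ 2)) ^ 4
          + (k1.choose j1 : ZMod (p ^ 2)) ^ 4 * (h k1 - h j1) * (4 * (p : ZMod (p ^ 2)) *
          ((k0.choose j0 : ZMod (p ^ 2)) ^ 4 * ((k1 : ZMod (p ^ 2)) * h k0 - (j1 : ZMod (p ^ 2)) * h j0
          - ((k1 : ZMod (p ^ 2)) - (j1 : ZMod (p ^ 2))) * h (k0 - j0)))))) := by
    have e2 : (p : ℚ_[p]) * gg ℚ_[p] (k0 + p * k1) = 4 * ∑ j1 ∈ range (k1 + 1), ∑ j0 ∈ range p,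
        (((k0 + p * k1).choose (j0 + p * j1) : ℕ) : ℚ_[p]) ^ 4 *
          ((p : ℚ_[p]) * Hn ℚ_[p] (k0 + p * k1) - (p : ℚ_[p]) * Hn ℚ_[p] (j0 + p * j1)) := by
      unfold gg
      rw [A0f_split (p := p) (fun j => (((k0 + p * k1).choose j : ℕ) : ℚ_[p]) ^ 4 *
        (Hn ℚ_[p] (k0 + p * k1) - Hn ℚ_[p] j)) k0 k1 h0 (fun j hj => by
        rw [Nat.choose_eq_zero_of_lt hj]; simp)]
      rw [← mul_assoc, mul_comm (p : ℚ_[p]) 4, mul_assoc, mul_sum]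
      congr 1
      refine sum_congr rfl fun j1 _ => ?_
      rw [mul_sum]
      exact sum_congr rfl fun j0 _ => by ring
    rw [e2]
    refine A0f_Rep_mul h4 (A0f_Rep_sum _ _ _ fun j1 hj1 => ?_)
    rw [mem_range] at hj1
    have e4 : A0f_Rep p (∑ j0 ∈ range p,
        (((k0 + p * k1).choose (j0 + p * j1) : ℕ) : ℚ_[p]) ^ 4 *
          ((p : ℚ_[p]) * Hn ℚ_[p] (k0 + p * k1) - (p : ℚ_[p]) * Hn ℚ_[p] (j0 + p * j1)))
        (∑ j0 ∈ range p, (((k0 + p * k1).choose (j0 + p * j1) : ℕ) : ZMod (p ^ 2)) ^ 4 *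
          (((p : ZMod (p ^ 2)) * h k0 + h k1) - ((p : ZMod (p ^ 2)) * h j0 + h j1))) := by
      refine A0f_Rep_sum _ _ _ fun j0 hj0 => ?_
      rw [mem_range] at hj0
      exact A0f_Rep_mul (A0f_Rep_pow (A0f_Rep_nat _) 4)
        (A0f_Rep_sub (hH k0 k1 h0 h1) (hH j0 j1 hj0 (by omega)))
    have e5 := A0f_sum_p (p := p) (fun j0 =>
      (((k0 + p * k1).choose (j0 + p * j1) : ℕ) : ZMod (p ^ 2)) ^ 4 *
          (((p : ZMod (p ^ 2)) * h k0 + h k1) - ((p : ZMod (p ^ 2)) * h j0 + h j1))) k0 h0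
      (fun j0 hj hj' => by
      rw [A0f_cube k0 k1 j0 j1 h0 hj hj', zero_mul])
    rw [e5] at e4
    convert e4 using 1
    refine sum_congr rfl fun j0 hj0 => ?_
    rw [mem_range] at hj0
    rw [A0f_choose_mod (by omega) hh k0 k1 j0 j1 h0 (by omega) (by omega)]
    generalize ((k1 : ZMod (p ^ 2)) * h k0 - (j1 : ZMod (p ^ 2)) * h j0
          - ((k1 : ZMod (p ^ 2)) - (j1 : ZMod (p ^ 2))) * h (k0 - j0)) = B
    linear_combination (-((k1.choose j1 : ZMod (p ^ 2)) ^ 4 * (k0.choose j0 : ZMod (p ^ 2)) ^ 4 *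
      ((6 * B ^ 2 + 4 * p * B ^ 3 + p ^ 2 * B ^ 4) * (p * (h k0 - h j0) + (h k1 - h j1)) + 4 * B * (h k0 - h j0)))) * hpp
  refine A0f_PI_two (A0f_Rep_sub e1 (A0f_Rep_add (A0f_Rep_mul (A0f_gg hh k1 h1) (A0f_Rep_nat _))
    (A0f_Rep_mul (A0f_Rep_mul (A0f_Rep_nat _) (A0f_gg hh k0 h0))
      (A0f_Rep_add (A0f_Rep_nat _) (A0f_Rep_mul (A0f_Rep_nat _) (A0f_gg hh k1 h1)))))) ?_
  have e2 : ∀ n, ((bb n : ℕ) : ZMod (p ^ 2)) = ∑ j ∈ range (n + 1), (n.choose j : ZMod (p ^ 2)) ^ 4 := by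
    intro n
    unfold bb
    push_cast
    rfl
  have e3 : ∀ j1 ∈ range (k1 + 1), ∑ j0 ∈ range (k0 + 1),
        ((k1.choose j1 : ZMod (p ^ 2)) ^ 4 * ((p : ZMod (p ^ 2)) *
            ((k0.choose j0 : ZMod (p ^ 2)) ^ 4 * (h k0 - h j0)))
          + (k1.choose j1 : ZMod (p ^ 2)) ^ 4 * (h k1 - h j1) * (k0.choose j0 : ZMod (p ^ 2)) ^ 4
          + (k1.choose j1 : ZMod (p ^ 2)) ^ 4 * (h k1 - h j1) * (4 * (p : ZMod (p ^ 2)) *
          ((k0.choose j0 : ZMod (p ^ 2)) ^ 4 * ((k1 : ZMod (p ^ 2)) * h k0 - (j1 : ZMod (p ^ 2)) * h j0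
          - ((k1 : ZMod (p ^ 2)) - (j1 : ZMod (p ^ 2))) * h (k0 - j0))))) =
      (k1.choose j1 : ZMod (p ^ 2)) ^ 4 * ((p : ZMod (p ^ 2)) *
          ∑ j ∈ range (k0 + 1), (k0.choose j : ZMod (p ^ 2)) ^ 4 * (h k0 - h j))
        + (k1.choose j1 : ZMod (p ^ 2)) ^ 4 * (h k1 - h j1) *
          ((∑ j ∈ range (k0 + 1), (k0.choose j : ZMod (p ^ 2)) ^ 4) + 4 * (p : ZMod (p ^ 2)) *
            ((k1 : ZMod (p ^ 2)) *
              ∑ j ∈ range (k0 + 1), (k0.choose j : ZMod (p ^ 2)) ^ 4 * (h k0 - h j))) := by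
    intro j1 _
    rw [sum_add_distrib, sum_add_distrib, ← mul_sum, ← mul_sum, ← mul_sum, ← mul_sum, ← mul_sum, A0f_B]
    ring
  rw [sum_congr rfl e3, sum_add_distrib, ← sum_mul, ← sum_mul, e2 k1, e2 k0]
  ring

end Pool.Agent.Lib_helper91.TN
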