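import Pool.Agent.Lib_helper91.TN.C4

/-! Block Z12: the differential equations of `FF`, `GG` and the first integral of `FF`.
Z2: the theta-derivative of `PD (2F θ²F - (θF)²) - (12X+128X²) F θF - (4X+60X²) F²` is `2F` times Z1; constant coefficient 0 (th_ext). -/

namespace Pool.Agent.Lib_helper91.TN

open PowerSeries Finset

variable (K : Type) [Field K] [CharZero K]

omit [CharZero K] in
theorem Z12_Hn_succ (n : ℕ) : Hn K (n + 1) = Hn K n + ((n : K) + 1)⁻¹ := by
  unfold Hn
  rw [Finset.sum_Ioc_succ_top (Nat.zero_le n)]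
  push_cast
  rfl

theorem Z1 : PD K * th (th (th (FF K))) =
    X * (18 * th (th (FF K)) + 10 * th (FF K) + 2 * FF K)
      + X ^ 2 * (192 * th (th (FF K)) + 188 * th (FF K) + 60 * FF K) := by
  have h : th (th (th (FF K))) = X * (C (12 : K) * th (th (th (FF K))) + C (18 : K) * th (th (FF K)) + C (10 : K) * th (FF K) + C (2 : K) * FF K)
      + X * (X * (C (64 : K) * th (th (th (FF K))) + C (192 : K) * th (th (FF K)) + C (188 : K) * th (FF K) + C (60 : K) * FF K)) := by
    ext n
    rcases n with _ | _ | n
    · simp [coeff_th]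
    · rw [map_add, coeff_succ_X_mul, coeff_succ_X_mul]
      simp only [map_add, coeff_C_mul, coeff_th, FF, coeff_mk, coeff_zero_X_mul]
      simp [bb, Finset.sum_range_succ]
    · rw [map_add, coeff_succ_X_mul, coeff_succ_X_mul, coeff_succ_X_mul]
      simp only [map_add, coeff_C_mul, coeff_th, FF, coeff_mk]
      have h' := bb_recK K n
      push_cast
      linear_combination h'
  have e64 : (64 : PowerSeries K) = C (64 : K) := (map_ofNat C 64).symm
  have e12 : (12 : PowerSeries K) = C (12 : K) := (map_ofNat C 12).symm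
  have e18 : (18 : PowerSeries K) = C (18 : K) := (map_ofNat C 18).symm
  have e10 : (10 : PowerSeries K) = C (10 : K) := (map_ofNat C 10).symm
  have e2 : (2 : PowerSeries K) = C (2 : K) := (map_ofNat C 2).symm
  have e192 : (192 : PowerSeries K) = C (192 : K) := (map_ofNat C 192).symm
  have e188 : (188 : PowerSeries K) = C (188 : K) := (map_ofNat C 188).symm
  have e60 : (60 : PowerSeries K) = C (60 : K) := (map_ofNat C 60).symm
  unfold PD
  rw [e64, e12, e18, e10, e2, e192, e188, e60]
  linear_combination h

theorem ZG : PD K * th (th (th (GG K))) =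
    X * (18 * th (th (GG K)) + 10 * th (GG K) + 2 * GG K)
      + X ^ 2 * (192 * th (th (GG K)) + 188 * th (GG K) + 60 * GG K)
      - (3 * th (th (FF K)) - X * (36 * th (th (FF K)) + 36 * th (FF K) + 10 * FF K)
        - X ^ 2 * (192 * th (th (FF K)) + 384 * th (FF K) + 188 * FF K)) := by
  have h : th (th (th (GG K))) = X * (C (12 : K) * th (th (th (GG K))) + C (18 : K) * th (th (GG K)) + C (10 : K) * th (GG K) + C (2 : K) * GG K
        + C (36 : K) * th (th (FF K)) + C (36 : K) * th (FF K) + C (10 : K) * FF K)
      + X * (X * (C (64 : K) * th (th (th (GG K))) + C (192 : K) * th (th (GG K)) + C (188 : K) * th (GG K) + C (60 : K) * GG K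
        + C (192 : K) * th (th (FF K)) + C (384 : K) * th (FF K) + C (188 : K) * FF K))
      - C (3 : K) * th (th (FF K)) := by
    ext n
    rcases n with _ | _ | n
    · simp [coeff_th, constantCoeff_th]
    · rw [map_sub, map_add, coeff_succ_X_mul, coeff_succ_X_mul]
      simp only [map_add, coeff_C_mul, coeff_th, FF, GG, coeff_mk, coeff_zero_X_mul]
      have h0 : Hn K 0 = 0 := by simp [Hn]
      have h1 : Hn K 1 = 1 := by simp [Hn]
      simp [bb, gg, h0, h1, Finset.sum_range_succ]
      norm_num
    · rw [map_sub, map_add, coeff_succ_X_mul, coeff_succ_X_mul, coeff_succ_X_mul]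
      simp only [map_add, coeff_C_mul, coeff_th, FF, GG, coeff_mk]
      have h' := gg_rec K n
      push_cast
      linear_combination h'
  have e64 : (64 : PowerSeries K) = C (64 : K) := (map_ofNat C 64).symm
  have e12 : (12 : PowerSeries K) = C (12 : K) := (map_ofNat C 12).symm
  have e18 : (18 : PowerSeries K) = C (18 : K) := (map_ofNat C 18).symm
  have e10 : (10 : PowerSeries K) = C (10 : K) := (map_ofNat C 10).symm
  have e2 : (2 : PowerSeries K) = C (2 : K) := (map_ofNat C 2).symm
  have e3 : (3 : PowerSeries K) = C (3 : K) := (map_ofNat C 3).symm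
  have e192 : (192 : PowerSeries K) = C (192 : K) := (map_ofNat C 192).symm
  have e188 : (188 : PowerSeries K) = C (188 : K) := (map_ofNat C 188).symm
  have e60 : (60 : PowerSeries K) = C (60 : K) := (map_ofNat C 60).symm
  have e36 : (36 : PowerSeries K) = C (36 : K) := (map_ofNat C 36).symm
  have e384 : (384 : PowerSeries K) = C (384 : K) := (map_ofNat C 384).symm
  unfold PD
  rw [e64, e12, e18, e10, e2, e192, e188, e60, e36, e384, e3]
  linear_combination h

theorem th_PD : th (PD K) = - (12 * X + 128 * X ^ 2) := by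
  unfold PD
  simp only [th_mul, th_sub, th_pow, th_one, th_X, th_ofNat]
  push_cast
  simp only [pow_one]
  ring

theorem Z2 : PD K * (2 * FF K * th (th (FF K)) - (th (FF K)) ^ 2) =
    (12 * X + 128 * X ^ 2) * FF K * th (FF K) + (4 * X + 60 * X ^ 2) * (FF K) ^ 2 := by
  have h1 := Z1 K
  have h2 := th_PD K
  apply th_ext
  · simp only [th_mul, th_sub, th_add, th_pow, th_X, th_ofNat, h2]
    push_cast
    simp only [pow_one]
    linear_combination (2 * FF K) * h1
  · simp [constantCoeff_th]

end Pool.Agent.Lib_helper91.TN
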