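import Pool.Agent.Lib_helper91.TN.UB
import Pool.Agent.Lib_helper91.TN.Z12

/-! Block GZ: p-integrality of `gg k` for `k < p`, and of the power series (`H_n` is p-integral for `n < p`). -/

namespace Pool.Agent.Lib_helper91.TN

open PowerSeries Finset

variable (p : ℕ) [Fact p.Prime]

theorem PI_Hn (k : ℕ) (h : k < p) : PI 0 (Hn ℚ_[p] k) := by
  unfold Hn
  refine PI_sum _ _ fun j hj => ?_
  rw [Finset.mem_Ioc] at hj
  exact PI_natCast_inv j (Nat.not_dvd_of_pos_of_lt (by omega) (by omega))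

theorem PI_gg (k : ℕ) (h : k < p) : PI 0 (gg ℚ_[p] k) := by
  unfold gg
  refine PI_mul (i := 0) (j := 0) (by simpa using PI_natCast (p := p) 4) (PI_sum _ _ fun j hj => ?_)
  rw [Finset.mem_range] at hj
  exact PI_mul (i := 0) (j := 0) (PI_pow (PI_natCast _) 4)
    (PI_sub (PI_Hn p k h) (PI_Hn p j (by omega)))

theorem PI_gl (k : ℕ) (h : k < p) : PI 1 (gg ℚ_[p] k - (gl p k : ℚ_[p])) := by
  have h1 : ‖gg ℚ_[p] k‖ ≤ 1 := by
    have := PI_gg p k h
    unfold PI at this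
    simpa using this
  unfold gl
  rw [dif_pos h1]
  set y : ℤ_[p] := ⟨gg ℚ_[p] k, h1⟩ with hy
  have e : gg ℚ_[p] k - (((PadicInt.toZMod y).val : ℕ) : ℚ_[p]) =
      ((y - (((PadicInt.toZMod y).val : ℕ) : ℤ_[p]) : ℤ_[p]) : ℚ_[p]) := by
    push_cast
    rfl
  rw [e, UB_PI1_iff, map_sub, map_natCast, ZMod.natCast_zmod_val, sub_self]

theorem PO_FF (T : ℕ) : PO 0 T (FF ℚ_[p]) := by
  intro n _
  rw [FF, PowerSeries.coeff_mk]
  exact PI_natCast _

theorem GZ_inv_FF (T : ℕ) : PO 0 T (FF ℚ_[p])⁻¹ :=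
  PO_inv (PO_FF p T) (by rw [constantCoeff_FF]; exact norm_one)

theorem GZ_CBs (T : ℕ) (c : ℤ) : PO 0 T (CBs ℚ_[p] (c : ℚ_[p])) := by
  intro n _
  rw [CBs, PowerSeries.coeff_mk]
  exact PI_mul (i := 0) (j := 0) (PI_natCast _) (PI_pow (PI_intCast c) n)

theorem PO_WW (T : ℕ) : PO 0 T (WW ℚ_[p]) := by
  refine PO_mul_left ?_ (GZ_inv_FF p T)
  unfold CB
  refine PO_mul_left ?_ ?_
  · have := GZ_CBs p T 4
    simpa using this
  · have := GZ_CBs p T (-1)
    simpa using this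

theorem PO_FT (T : ℕ) : PO 0 T (FT p) := by
  intro n _
  rw [FT, PowerSeries.coeff_mk]
  split_ifs
  · exact PI_natCast _
  · exact PI_zero 0

theorem PO_GT (T : ℕ) : PO 0 T (GT p) := by
  intro n _
  rw [GT, PowerSeries.coeff_mk]
  split_ifs with h
  · exact PI_gg p n h
  · exact PI_zero 0

theorem constantCoeff_FT : constantCoeff (FT p) = 1 := by
  have hp : p.Prime := Fact.out
  rw [← PowerSeries.coeff_zero_eq_constantCoeff_apply, FT, PowerSeries.coeff_mk, if_pos hp.pos,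
    bb_zero]
  simp

theorem PO_RR (T : ℕ) : PO 0 T (RR p) :=
  PO_mul_left (PO_GT p T) (PO_inv (PO_FT p T) (by rw [constantCoeff_FT]; exact norm_one))

theorem PO_GG : PO 0 (nz p) (GG ℚ_[p]) := by
  intro n hn
  rw [GG, PowerSeries.coeff_mk]
  unfold nz at hn
  exact PI_gg p n hn

theorem PO_EE : PO 0 (nz p) (EE ℚ_[p]) :=
  PO_mul_left (PO_GG p) (GZ_inv_FF p _)

end Pool.Agent.Lib_helper91.TN
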