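import Pool.Agent.Lib_helper91.TN.Z3

/-! Block Z5: `θ E = W - 1`, `E = G/F` (level 10 version of FR/Z5). -/

namespace Pool.Agent.Lib_helper91.TN

open PowerSeries Finset

/-- the differential operator of order 3 -/
noncomputable def Z5_L {K : Type} [Field K] (f : PowerSeries K) : PowerSeries K :=
  PD K * th (th (th f)) - (X * (18 * th (th f) + 10 * th f + 2 * f)
    + X ^ 2 * (192 * th (th f) + 188 * th f + 60 * f))

/-- the operator `L₁` -/
noncomputable def Z5_L1 {K : Type} [Field K] (f : PowerSeries K) : PowerSeries K :=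
  3 * th (th f) - X * (36 * th (th f) + 36 * th f + 10 * f)
    - X ^ 2 * (192 * th (th f) + 384 * th f + 188 * f)

theorem Z5_coeff_ofNat_mul {K : Type} [Field K] (m n : ℕ) [m.AtLeastTwo] (f : PowerSeries K) :
    coeff n ((OfNat.ofNat m : PowerSeries K) * f) = (OfNat.ofNat m : K) * coeff n f := by
  have h : (OfNat.ofNat m : PowerSeries K) = C (OfNat.ofNat m : K) := (map_ofNat C m).symm
  rw [h, coeff_C_mul]

theorem Z5_uniq {K : Type} [Field K] [CharZero K] {f : PowerSeries K} (h : Z5_L f = 0)
    (h0 : constantCoeff f = 0) : f = 0 := by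
  have e : th (th (th f)) = X * (12 * th (th (th f)) + 18 * th (th f) + 10 * th f + 2 * f
      + X * (64 * th (th (th f)) + 192 * th (th f) + 188 * th f + 60 * f)) := by
    unfold Z5_L PD at h
    linear_combination h
  have h1 : ∀ n, coeff n f = 0 := by
    intro n
    induction n using Nat.strong_induction_on with
    | _ n ih =>
      rcases n with _ | n
      · rw [coeff_zero_eq_constantCoeff_apply, h0]
      · have h2 := congrArg (coeff (n + 1)) e
        have c1 : coeff n (12 * th (th (th f))) = 0 := by
          rw [Z5_coeff_ofNat_mul 12]; simp only [coeff_th]; rw [ih n (by omega)]; simp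
        have c2 : coeff n (18 * th (th f)) = 0 := by
          rw [Z5_coeff_ofNat_mul 18]; simp only [coeff_th]; rw [ih n (by omega)]; simp
        have c3 : coeff n (10 * th f) = 0 := by
          rw [Z5_coeff_ofNat_mul 10]; simp only [coeff_th]; rw [ih n (by omega)]; simp
        have c4 : coeff n (2 * f) = 0 := by
          rw [Z5_coeff_ofNat_mul 2]; rw [ih n (by omega)]; simp
        have c5 : coeff n (X * (64 * th (th (th f)) + 192 * th (th f) + 188 * th f + 60 * f)) = 0 := by
          rcases n with _ | k
          · simp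
          · rw [coeff_succ_X_mul, map_add, map_add, map_add, Z5_coeff_ofNat_mul 64,
              Z5_coeff_ofNat_mul 192, Z5_coeff_ofNat_mul 188, Z5_coeff_ofNat_mul 60]
            simp only [coeff_th]
            rw [ih k (by omega)]
            simp
        rw [coeff_succ_X_mul, map_add, map_add, map_add, map_add, c1, c2, c3, c4, c5] at h2
        simp only [coeff_th] at h2
        have p1 : ((n + 1 : ℕ) : K) ≠ 0 := by exact_mod_cast Nat.succ_ne_zero n
        simp only [add_zero] at h2
        rcases mul_eq_zero.1 h2 with h3 | h3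
        · exact absurd h3 p1
        · rcases mul_eq_zero.1 h3 with h3 | h3
          · exact absurd h3 p1
          · rcases mul_eq_zero.1 h3 with h3 | h3
            · exact absurd h3 p1
            · exact h3
  ext n
  rw [h1 n, map_zero]

variable (K : Type) [Field K] [CharZero K]

theorem Z5_LG : Z5_L (GG K) = - Z5_L1 (FF K) := by
  have h := ZG K
  unfold Z5_L Z5_L1
  linear_combination h

theorem Z5_LE {E : PowerSeries K} (hE : th E = WW K - 1) :
    Z5_L (E * FF K) = - Z5_L1 (FF K) := by
  have hF : constantCoeff (FF K) ≠ 0 := by rw [constantCoeff_FF]; exact one_ne_zero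
  have hF0 : FF K ≠ 0 := by intro h; rw [h, map_zero] at hF; exact hF rfl
  have hCB0 : CB K ≠ 0 := by
    intro h
    have := Z3 K
    rw [h] at this
    simp at this
  have hWF := Z3_WF K
  set F := FF K with hFd
  set W := WW K with hWd
  set B := CB K with hBd
  set P := PD K with hPd
  have z1 := Z1 K
  have z2 := Z2 K
  have z3 := Z3 K
  have tP := th_PD K
  rw [← hFd, ← hPd] at z1 z2
  rw [← hBd, ← hPd] at z3
  rw [← hPd] at tP
  -- derivatives of `W F = B`
  have w1 : th W * F + W * th F = th B := by rw [← th_mul, hWF]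
  have b1 : P * th B = (6 * X + 64 * X ^ 2) * B := by
    have h := congrArg th z3
    rw [th_mul, tP, th_one, sq, th_mul] at h
    have h2 : (2 * B) * (P * th B - (6 * X + 64 * X ^ 2) * B) = 0 := by linear_combination h
    rcases mul_eq_zero.1 h2 with h3 | h3
    · rcases mul_eq_zero.1 h3 with h4 | h4
      · have h5 := congrArg constantCoeff h4
        rw [map_ofNat, map_zero] at h5
        exact absurd h5 two_ne_zero
      · exact absurd h4 hCB0
    · exact sub_eq_zero.1 h3
  have b2 : P * th (th B) = (18 * X + 192 * X ^ 2) * th B + (6 * X + 128 * X ^ 2) * B := by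
    have h := congrArg th b1
    rw [th_mul, tP, th_mul, th_add, th_ofNat_mul, th_X, th_ofNat_mul, th_X_pow] at h
    push_cast at h
    linear_combination h
  -- derivatives of `E F`
  have e1 : th (E * F) = B - F + E * th F := by
    rw [th_mul, hE]
    linear_combination hWF
  have e2 : th (th (E * F)) = th B - 2 * th F + W * th F + E * th (th F) := by
    rw [e1, th_add, th_sub, th_mul, hE]
    ring
  have e3 : th (th (th (E * F))) = th (th B) - 3 * th (th F) + th W * th F + 2 * W * th (th F) +
      E * th (th (th F)) := by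
    rw [e2, th_add, th_add, th_sub, th_ofNat_mul, th_mul, th_mul, hE]
    ring
  have hP : P = 1 - 12 * X - 64 * X ^ 2 := rfl
  unfold Z5_L Z5_L1
  rw [← hPd, e3, e2, e1]
  have hF3 : F * F ≠ 0 := mul_ne_zero hF0 hF0
  -- multiply by `F²`
  have main : (F * F) * (P * (th (th B) + th W * th F + 2 * W * th (th F)) -
      X * (18 * (th B + W * th F) + 10 * B) - X ^ 2 * (192 * (th B + W * th F) + 188 * B)) = 0 := by
    have w3 : F * F * th W = F * th B - B * th F := by
      linear_combination F * w1 - th F * hWF
    linear_combination (F * F) * b2 + P * th F * w3 + F * th F * b1 + B * z2 +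
      (F * (P * 2 * th (th F) - (18 * X + 192 * X ^ 2) * th F)) * hWF
  have h4 := (mul_eq_zero.1 main).resolve_left hF3
  linear_combination h4 + E * z1 - 3 * th (th F) * hP

theorem Z5 : th (EE K) = WW K - 1 := by
  have hF : constantCoeff (FF K) ≠ 0 := by rw [constantCoeff_FF]; exact one_ne_zero
  obtain ⟨E, hE0, hE⟩ := exists_th_eq (WW K - 1) (by
    rw [map_sub, constantCoeff_WW, map_one, sub_self])
  have h1 := Z5_LE K hE
  have h2 := Z5_LG K
  have h3 : Z5_L (GG K - E * FF K) = 0 := by
    have h4 : Z5_L (GG K - E * FF K) = Z5_L (GG K) - Z5_L (E * FF K) := by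
      unfold Z5_L
      simp only [th_sub]
      ring
    rw [h4, h1, h2, sub_self]
  have h4 := Z5_uniq h3 (by rw [map_sub, constantCoeff_GG, map_mul, hE0, zero_mul, sub_zero])
  have h5 : EE K = E := by
    unfold EE
    rw [sub_eq_zero.1 h4, mul_assoc, PowerSeries.mul_inv_cancel _ hF, mul_one]
  rw [h5, hE]

/-- consequence used in A3 -/
theorem Z5' : (FF K) ^ 2 + (FF K * th (GG K) - GG K * th (FF K)) = (FF K) ^ 2 * WW K := by
  have hF : constantCoeff (FF K) ≠ 0 := by rw [constantCoeff_FF]; exact one_ne_zero
  have h1 : EE K * FF K = GG K := by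
    unfold EE
    rw [mul_assoc, PowerSeries.inv_mul_cancel _ hF, mul_one]
  have h2 : th (GG K) = th (EE K) * FF K + EE K * th (FF K) := by rw [← th_mul, h1]
  rw [h2, Z5]
  linear_combination th (FF K) * h1

end Pool.Agent.Lib_helper91.TN
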