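import Pool.Agent.Lib_helper91.TN.POApi

/-! Block A4.  FROB: `φ g ≡ g^p mod p` for integral `g` (reduce to `ℤ_[p]`, then to `ZMod p`:
`MvPowerSeries.map_frobenius_expand` or `PowerSeries` analog / `expand` in characteristic p).
A4 (logarithm): let `δ = g^p/φg - 1`, `p ∣ δ`, `δ(0)=0`; `Λ = p λ - φλ` satisfies `θΛ (1+δ) = θδ` and `Λ(0)=0`.
For `L_N = ∑_{k=1}^N (-1)^{k+1} δ^k/k`: `θL_N (1+δ) = θδ (1 - (-δ)^N)`, so `Λ - L_N` is divisible by `X^{N+1}`;
`L_N ≡ δ mod p²` since `p^k/k ∈ p²ℤ_p` for `k ≥ 2` (`p ≥ 3`). -/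

namespace Pool.Agent.Lib_helper91.TN

open PowerSeries Finset

variable (p : ℕ) [Fact p.Prime]

theorem A4_frobZ (f : PowerSeries (ZMod p)) : ph p (ZMod p) f = f ^ p := by
  have h := MvPowerSeries.map_frobenius_expand (σ := Unit) (R := ZMod p) p
    (Nat.Prime.ne_zero Fact.out) (f := f)
  rw [← h]
  apply MvPowerSeries.ext
  intro n
  rw [MvPowerSeries.coeff_map]
  have : ∀ a : ZMod p, frobenius (ZMod p) p a = a := fun a => by
    rw [frobenius_def, ZMod.pow_card]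
  rw [this]
  rfl

theorem frob (g : PowerSeries ℚ_[p]) (hg : ∀ T, PO 0 T g) (T : ℕ) : PO 1 T (ph p ℚ_[p] g - g ^ p) := by
  have h1 : ∀ n, ∃ y : ℤ_[p], (y : ℚ_[p]) = coeff n g := fun n =>
    (PI_zero_iff_exists _).1 (hg (n + 1) n (Nat.lt_succ_self n))
  choose y hy using h1
  set G : PowerSeries ℤ_[p] := PowerSeries.mk y with hG
  have hgG : g = PowerSeries.map PadicInt.Coe.ringHom G := by
    ext n
    rw [PowerSeries.coeff_map, hG, PowerSeries.coeff_mk, ← hy n]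
    rfl
  have h2 : ph p ℚ_[p] g - g ^ p = PowerSeries.map PadicInt.Coe.ringHom (ph p ℤ_[p] G - G ^ p) := by
    rw [map_sub, map_pow, map_ph, ← hgG]
  have h3 : PowerSeries.map (PadicInt.toZMod (p := p)) (ph p ℤ_[p] G - G ^ p) = 0 := by
    rw [map_sub, map_pow, map_ph, A4_frobZ, sub_self]
  intro n _
  rw [h2, PowerSeries.coeff_map]
  have h4 := congrArg (coeff n) h3
  rw [PowerSeries.coeff_map, map_zero] at h4
  have h5 : coeff n (ph p ℤ_[p] G - G ^ p) ∈ RingHom.ker (PadicInt.toZMod (p := p)) := h4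
  rw [PadicInt.ker_toZMod, PadicInt.maximalIdeal_eq_span_p, Ideal.mem_span_singleton] at h5
  obtain ⟨c, hc⟩ := h5
  rw [hc, map_mul]
  have h6 : PI 1 ((PadicInt.Coe.ringHom (p := p)) (p : ℤ_[p])) := by
    rw [map_natCast]
    exact PI_p
  have h7 : PI 0 ((PadicInt.Coe.ringHom (p := p)) c) := (PI_zero_iff_exists _).2 ⟨c, rfl⟩
  exact PI_mul h6 h7

theorem A4_pk (h3 : 3 ≤ p) (k : ℕ) (hk : 2 ≤ k) : PI 2 ((p : ℚ_[p]) ^ k * ((k : ℕ) : ℚ_[p])⁻¹) := by
  have hp : p.Prime := Fact.out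
  obtain ⟨v, m, hm, hkm⟩ := Nat.exists_eq_pow_mul_and_not_dvd (by omega : k ≠ 0) p hp.ne_one
  have hp0 : (p : ℚ_[p]) ≠ 0 := by exact_mod_cast hp.ne_zero
  have hm0 : m ≠ 0 := by
    rintro rfl
    exact hm (dvd_zero p)
  have hv : v + 2 ≤ k := by
    by_contra hcon
    have h1 : k ≤ v + 1 := by omega
    have h2 : 3 ^ v ≤ p ^ v := Nat.pow_le_pow_left h3 v
    have h3' : p ^ v ≤ k := by
      conv_rhs => rw [hkm]
      exact Nat.le_mul_of_pos_right _ (Nat.pos_of_ne_zero hm0)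
    have h4 : v + 1 < 3 ^ v := by
      have : 1 ≤ v := by omega
      clear hkm hcon h1 h2 h3'
      induction v, this using Nat.le_induction with
      | base => norm_num
      | succ n hn ih =>
        rw [pow_succ]
        omega
    omega
  have hk' : ((k : ℕ) : ℚ_[p]) = (p : ℚ_[p]) ^ v * (m : ℚ_[p]) := by
    conv_lhs => rw [hkm]
    push_cast
    rfl
  have h5 : (p : ℚ_[p]) ^ k * ((k : ℕ) : ℚ_[p])⁻¹ = (p : ℚ_[p]) ^ (k - v) * ((m : ℕ) : ℚ_[p])⁻¹ := by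
    rw [hk']
    have hm0' : (m : ℚ_[p]) ≠ 0 := by exact_mod_cast hm0
    have : (p : ℚ_[p]) ^ k = (p : ℚ_[p]) ^ (k - v) * (p : ℚ_[p]) ^ v := by
      rw [← pow_add]
      congr 1
      omega
    rw [this]
    field_simp
  rw [h5]
  have h6 : PI (k - v) ((p : ℚ_[p]) ^ (k - v)) := by
    have := (PI_natCast_iff (p := p) (k - v) (p ^ (k - v))).2 (dvd_refl _)
    rwa [Nat.cast_pow] at this
  have h7 := PI_mul h6 (PI_natCast_inv m hm)
  exact PI_mono (by omega) h7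

/-- the truncated logarithm -/
noncomputable def A4_L (d : PowerSeries ℚ_[p]) (N : ℕ) : PowerSeries ℚ_[p] :=
  ∑ k ∈ range N, C ((-1 : ℚ_[p]) ^ k * (((k + 1 : ℕ)) : ℚ_[p])⁻¹) * d ^ (k + 1)

theorem A4_thL (d : PowerSeries ℚ_[p]) (N : ℕ) :
    th (A4_L p d N) = (∑ k ∈ range N, (-d) ^ k) * th d := by
  induction N with
  | zero => simp [A4_L, th_zero]
  | succ N ih =>
    unfold A4_L at ih ⊢
    rw [Finset.sum_range_succ, Finset.sum_range_succ, th_add, ih, th_C_mul, th_pow, Nat.add_sub_cancel,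
      add_mul]
    congr 1
    have h1 : (((N + 1 : ℕ)) : PowerSeries ℚ_[p]) = C (((N + 1 : ℕ)) : ℚ_[p]) := by
      rw [map_natCast]
    have h0 : (((N + 1 : ℕ)) : ℚ_[p]) ≠ 0 := by exact_mod_cast Nat.succ_ne_zero N
    rw [h1]
    have h2 : C ((-1 : ℚ_[p]) ^ N * (((N + 1 : ℕ)) : ℚ_[p])⁻¹) * (C (((N + 1 : ℕ)) : ℚ_[p]) * d ^ N * th d) =
        C ((-1 : ℚ_[p]) ^ N * (((N + 1 : ℕ)) : ℚ_[p])⁻¹ * (((N + 1 : ℕ)) : ℚ_[p])) * (d ^ N * th d) := by
      rw [map_mul (C : ℚ_[p] →+* PowerSeries ℚ_[p]) ((-1 : ℚ_[p]) ^ N * (((N + 1 : ℕ)) : ℚ_[p])⁻¹)]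
      ring
    rw [h2, inv_mul_cancel_right₀ h0, map_pow, map_neg, map_one, neg_pow d N]
    ring

theorem A4_Lmod (h3 : 3 ≤ p) (d : PowerSeries ℚ_[p]) (T : ℕ) (hd : PO 1 T d) (N : ℕ) :
    PO 2 T (A4_L p d (N + 1) - d) := by
  obtain ⟨e, he, hde⟩ := (PO_iff_exists d).1 hd
  unfold A4_L
  rw [Finset.sum_range_succ']
  have h1 : C ((-1 : ℚ_[p]) ^ 0 * (((0 + 1 : ℕ)) : ℚ_[p])⁻¹) * d ^ (0 + 1) = d := by simp
  rw [h1, add_sub_cancel_right]
  apply PO_sum
  intro k _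
  have h2 : C ((-1 : ℚ_[p]) ^ (k + 1) * (((k + 1 + 1 : ℕ)) : ℚ_[p])⁻¹) * d ^ (k + 1 + 1) =
      C ((-1 : ℚ_[p]) ^ (k + 1) * ((p : ℚ_[p]) ^ (k + 2) * (((k + 2 : ℕ)) : ℚ_[p])⁻¹)) * e ^ (k + 2) := by
    rw [hde]
    rw [show k + 1 + 1 = k + 2 from rfl]
    rw [mul_pow, pow_one]
    have h3 : ((p : PowerSeries ℚ_[p])) = C (p : ℚ_[p]) := by rw [map_natCast]
    rw [h3]
    simp only [map_mul, map_pow]
    ring
  rw [h2]
  apply PO_mul_right _ (PO_pow he _)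
  apply PO_C
  have h4 : PI 0 ((-1 : ℚ_[p]) ^ (k + 1)) := by
    have := PI_intCast (p := p) ((-1) ^ (k + 1))
    push_cast at this
    exact this
  have h5 := PI_mul h4 (A4_pk p h3 (k + 2) (by omega))
  rwa [zero_add] at h5

theorem A4 (h3 : 3 ≤ p) (g lam : PowerSeries ℚ_[p]) (hg0 : constantCoeff g = 1)
    (hg : ∀ T, PO 0 T g) (hl0 : constantCoeff lam = 0) (hl : th lam * g = th g) (T : ℕ) :
    PO 2 T ((p : PowerSeries ℚ_[p]) * lam - ph p ℚ_[p] lam - (g ^ p * (ph p ℚ_[p] g)⁻¹ - 1)) := by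
  have hp : p.Prime := Fact.out
  have hphg0 : constantCoeff (ph p ℚ_[p] g) = 1 := by rw [constantCoeff_ph, hg0]
  have hphg0' : constantCoeff (ph p ℚ_[p] g) ≠ 0 := by rw [hphg0]; exact one_ne_zero
  have hinv : ph p ℚ_[p] g * (ph p ℚ_[p] g)⁻¹ = 1 := PowerSeries.mul_inv_cancel _ hphg0'
  set h : PowerSeries ℚ_[p] := ph p ℚ_[p] g with hh
  set d : PowerSeries ℚ_[p] := g ^ p * h⁻¹ - 1 with hd
  have hU : g ^ p * h⁻¹ = 1 + d := by rw [hd]; ring
  have hphI : ∀ T', PO 0 T' h := fun T' =>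
    PO_ph (n0 := T') (by nlinarith [hp.one_lt]) (hg T')
  have hinvI : ∀ T', PO 0 T' h⁻¹ := fun T' => PO_inv (hphI T') (by rw [hphg0, norm_one])
  have hd1 : ∀ T', PO 1 T' d := by
    intro T'
    have e1 : d = -((h - g ^ p) * h⁻¹) := by
      rw [hd]
      linear_combination hinv
    rw [e1]
    exact PO_neg (PO_mul_right (frob p g hg T') (hinvI T'))
  have hd0 : constantCoeff d = 0 := by
    rw [hd, map_sub, map_mul, map_pow, hg0, PowerSeries.constantCoeff_inv, hphg0]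
    simp
  set Lam : PowerSeries ℚ_[p] := (p : PowerSeries ℚ_[p]) * lam - ph p ℚ_[p] lam with hLam
  have hthh : th h = (p : PowerSeries ℚ_[p]) * (ph p ℚ_[p] (th lam) * h) := by
    rw [hh, th_ph, ← hl, map_mul]
  have hthL : th Lam = (p : PowerSeries ℚ_[p]) * th lam - (p : PowerSeries ℚ_[p]) * ph p ℚ_[p] (th lam) := by
    rw [hLam, th_sub, th_natCast_mul, th_ph]
  have hthd : th d = (1 + d) * th Lam := by
    have e1 : th d = th (g ^ p * h⁻¹) := by rw [hd, th_sub, th_one, sub_zero]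
    rw [e1, th_mul, th_pow, th_inv h hphg0', hthh, hthL, ← hU, ← hl]
    have e2 : g ^ p = g ^ (p - 1) * g := by
      rw [← pow_succ]
      congr 1
      have := hp.one_lt
      omega
    rw [e2]
    have e3 : h⁻¹ ^ 2 * h = h⁻¹ := by
      rw [sq, mul_assoc, mul_comm h⁻¹ h, hinv, mul_one]
    linear_combination (-(g ^ (p - 1) * g) * (p : PowerSeries ℚ_[p]) * ph p ℚ_[p] (th lam)) * e3
  have hthLN : (1 + d) * (th (Lam - A4_L p d (T + 1))) = (-d) ^ (T + 1) * th d := by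
    rw [th_sub, mul_sub, ← hthd, A4_thL]
    have e1 : (1 + d) * ∑ k ∈ range (T + 1), (-d) ^ k = 1 - (-d) ^ (T + 1) := by
      have := mul_neg_geom_sum (-d) (T + 1)
      rw [sub_neg_eq_add] at this
      exact this
    linear_combination (-th d) * e1
  have hdX : X ∣ d := PowerSeries.X_dvd_iff.2 hd0
  have hdX' : (X : PowerSeries ℚ_[p]) ^ (T + 1) ∣ (1 + d) * (th (Lam - A4_L p d (T + 1))) := by
    rw [hthLN]
    exact Dvd.dvd.mul_right (pow_dvd_pow_of_dvd ((dvd_neg).2 hdX) _) _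
  have hunit : IsUnit (1 + d) := by
    rw [PowerSeries.isUnit_iff_constantCoeff, map_add, map_one, hd0, add_zero]
    exact isUnit_one
  have hX : (X : PowerSeries ℚ_[p]) ^ (T + 1) ∣ th (Lam - A4_L p d (T + 1)) :=
    (hunit.dvd_mul_left).1 hdX'
  have hcoef : ∀ n < T, coeff n (Lam - A4_L p d (T + 1)) = 0 := by
    intro n hn
    rcases Nat.eq_zero_or_pos n with h0 | h0
    · subst h0
      rw [PowerSeries.coeff_zero_eq_constantCoeff_apply, map_sub, hLam, map_sub, map_mul, hl0,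
        constantCoeff_ph, hl0, mul_zero, sub_zero, zero_sub, neg_eq_zero]
      unfold A4_L
      rw [map_sum]
      apply Finset.sum_eq_zero
      intro k _
      rw [map_mul, map_pow, hd0, zero_pow (Nat.succ_ne_zero k), mul_zero]
    · have e1 := (PowerSeries.X_pow_dvd_iff.1 hX) n (by omega)
      rw [coeff_th] at e1
      rcases mul_eq_zero.1 e1 with h | h
      · exfalso
        have : (n : ℚ_[p]) ≠ 0 := by exact_mod_cast h0.ne'
        exact this h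
      · exact h
  have hfin : Lam - d = (Lam - A4_L p d (T + 1)) + (A4_L p d (T + 1) - d) := by ring
  rw [hfin]
  apply PO_add
  · intro n hn
    rw [hcoef n hn]
    exact PI_zero 2
  · exact A4_Lmod p h3 d T (hd1 T) T

end Pool.Agent.Lib_helper91.TN
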