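import Pool.Agent.Lib_helper91.TN.A6

/-! Block A7.  `A_i = λ_i + E(z_i)`, `θA_i = l_i W(z_i) - e_i` (`th_cmp` with `Y = 1`, `μ = l_i`; Z5), `e_1 = 1`, `e_2 = d`.
By `hW`: `θA_2 = d θA_1`, so `A_2 = d A_1` (`th_ext`), so the two A6 congruences give
`(pRR(z2)+δ2) φ(W(z2)) ≡ d (pRR(z1)+δ1) φ(W(z1))`; multiply by `φl1 φl2` and divide by `Ω = φ(l2 W(z2)) = d φ(l1 W(z1))`
(integral, `Ω(0) = d` a p-unit). -/

namespace Pool.Agent.Lib_helper91.TN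

open PowerSeries Finset

variable (p : ℕ) [Fact p.Prime]

theorem A7_lam (g : PowerSeries ℚ_[p]) (hg0 : constantCoeff g = 1) :
    ∃ lam : PowerSeries ℚ_[p], constantCoeff lam = 0 ∧ th lam * g = th g := by
  have h0 : constantCoeff (th g * g⁻¹) = 0 := by
    rw [map_mul, constantCoeff_th, zero_mul]
  obtain ⟨lam, h1, h2⟩ := exists_th_eq (th g * g⁻¹) h0
  refine ⟨lam, h1, ?_⟩
  rw [h2, mul_assoc, PowerSeries.inv_mul_cancel _ (by rw [hg0]; exact one_ne_zero), mul_one]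

/-- the derivative of `A = λ + E(z)` -/
theorem A7_der (e : ℕ) (he : 1 ≤ e) (g l lam : PowerSeries ℚ_[p]) (hg0 : constantCoeff g = 1)
    (hl : l * g = (e : PowerSeries ℚ_[p]) * g + th g) (hlam : th lam * g = th g) :
    th (lam + cmp (EE ℚ_[p]) (X ^ e * g)) =
      l * cmp (WW ℚ_[p]) (X ^ e * g) - (e : PowerSeries ℚ_[p]) := by
  have hz0 : constantCoeff (X ^ e * g) = 0 := by
    rw [map_mul, map_pow, constantCoeff_X, zero_pow (by omega), zero_mul]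
  have hg : g ≠ 0 := by
    rintro rfl
    rw [map_zero] at hg0
    exact zero_ne_one hg0
  have h1 : th lam = l - (e : PowerSeries ℚ_[p]) := by
    apply mul_right_cancel₀ hg
    rw [hlam, sub_mul, hl]
    ring
  have h2 : (1 : PowerSeries ℚ_[p]) * th (X ^ e * g) = l * (X ^ e * g) := by
    rw [th_mul, th_X_pow]
    calc (1 : PowerSeries ℚ_[p]) * ((e : PowerSeries ℚ_[p]) * X ^ e * g + X ^ e * th g)
        = X ^ e * ((e : PowerSeries ℚ_[p]) * g + th g) := by ring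
      _ = l * (X ^ e * g) := by rw [← hl]; ring
  have h3 := th_cmp (EE ℚ_[p]) (X ^ e * g) 1 l hz0 h2
  rw [one_mul, Z5, cmp_sub _ _ _ hz0, cmp_one _ hz0] at h3
  rw [th_add, h1, h3]
  ring

theorem A7_int (e : ℕ) (g l : PowerSeries ℚ_[p]) (hg0 : constantCoeff g = 1)
    (hg : ∀ T, PO 0 T g) (hl : l * g = (e : PowerSeries ℚ_[p]) * g + th g) (T : ℕ) :
    PO 0 T l := by
  apply PO_of_mul (hg T) (by rw [hg0, norm_one])
  rw [mul_comm, hl]
  exact PO_add (PO_mul_left (PO_natCast e T) (hg T)) (PO_th (hg T))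

theorem A7 (hp : 3 < p) (d : ℕ) (hd : 1 ≤ d) (hpd : ¬ p ∣ d) (g1 g2 l1 l2 : PowerSeries ℚ_[p])
    (h10 : constantCoeff g1 = 1) (h20 : constantCoeff g2 = 1)
    (hg1 : ∀ T, PO 0 T g1) (hg2 : ∀ T, PO 0 T g2)
    (hl1 : l1 * g1 = g1 + th g1) (hl2 : l2 * g2 = (d : PowerSeries ℚ_[p]) * g2 + th g2)
    (hW : l2 * cmp (WW ℚ_[p]) (X ^ d * g2) = (d : PowerSeries ℚ_[p]) * l1 * cmp (WW ℚ_[p]) (X * g1)) :
    PO 2 (T0 p)
      (((p : PowerSeries ℚ_[p]) * cmp (RR p) (X ^ d * g2) + (g2 ^ p * (ph p ℚ_[p] g2)⁻¹ - 1))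
          * ph p ℚ_[p] l1
        - ((p : PowerSeries ℚ_[p]) * cmp (RR p) (X * g1) + (g1 ^ p * (ph p ℚ_[p] g1)⁻¹ - 1))
          * ph p ℚ_[p] l2) := by
  obtain ⟨lam1, hlam10, hlam1⟩ := A7_lam p g1 h10
  obtain ⟨lam2, hlam20, hlam2⟩ := A7_lam p g2 h20
  have hl1' : l1 * g1 = ((1 : ℕ) : PowerSeries ℚ_[p]) * g1 + th g1 := by
    rw [Nat.cast_one, one_mul]; exact hl1
  have hX1 : (X ^ 1 * g1 : PowerSeries ℚ_[p]) = X * g1 := by rw [pow_one]
  have hz10 : constantCoeff (X * g1 : PowerSeries ℚ_[p]) = 0 := by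
    rw [map_mul, constantCoeff_X, zero_mul]
  have hz20 : constantCoeff (X ^ d * g2 : PowerSeries ℚ_[p]) = 0 := by
    rw [map_mul, map_pow, constantCoeff_X, zero_pow (by omega), zero_mul]
  have hA1 := A7_der p 1 le_rfl g1 l1 lam1 h10 hl1' hlam1
  have hA2 := A7_der p d hd g2 l2 lam2 h20 hl2 hlam2
  have h61 := A6 p hp 1 le_rfl g1 lam1 h10 hg1 hlam10 hlam1
  have h62 := A6 p hp d hd g2 lam2 h20 hg2 hlam20 hlam2
  rw [hX1] at hA1 h61
  set A1 := lam1 + cmp (EE ℚ_[p]) (X * g1) with hA1def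
  set A2 := lam2 + cmp (EE ℚ_[p]) (X ^ d * g2) with hA2def
  have hA : A2 = (d : PowerSeries ℚ_[p]) * A1 := by
    apply th_ext
    · rw [th_natCast_mul, hA1, hA2, hW, Nat.cast_one]
      ring
    · rw [map_mul, hA1def, hA2def, map_add, map_add, hlam10, hlam20,
        constantCoeff_cmp _ _ hz10, constantCoeff_cmp _ _ hz20, constantCoeff_EE]
      ring
  set c1 := (p : PowerSeries ℚ_[p]) * cmp (RR p) (X * g1) + (g1 ^ p * (ph p ℚ_[p] g1)⁻¹ - 1)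
  set c2 := (p : PowerSeries ℚ_[p]) * cmp (RR p) (X ^ d * g2)
    + (g2 ^ p * (ph p ℚ_[p] g2)⁻¹ - 1)
  set W1 := cmp (WW ℚ_[p]) (X * g1)
  set W2 := cmp (WW ℚ_[p]) (X ^ d * g2)
  have hphI : ∀ (f : PowerSeries ℚ_[p]), (∀ T, PO 0 T f) → ∀ T, PO 0 T (ph p ℚ_[p] f) :=
    fun f hf T => PO_ph (n0 := T) (by nlinarith [Nat.Prime.one_lt (Fact.out : p.Prime)]) (hf T)
  have hl1I := A7_int p 1 g1 l1 h10 hg1 hl1'
  have hl2I := A7_int p d g2 l2 h20 hg2 hl2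
  have hW2I : ∀ T, PO 0 T W2 := fun T =>
    PO_cmp hz20 (PO_WW p T) (PO_mul_left (PO_X_pow d T) (hg2 T))
  have hl20 : constantCoeff l2 = (d : ℚ_[p]) := by
    have := congrArg (constantCoeff (R := ℚ_[p])) hl2
    rw [map_mul, map_add, map_mul, h20, constantCoeff_th, mul_one, mul_one, add_zero,
      map_natCast] at this
    exact this
  -- the product with the unit Ω
  have key : PO 2 (T0 p) (ph p ℚ_[p] (l2 * W2) * (c2 * ph p ℚ_[p] l1 - c1 * ph p ℚ_[p] l2)) := by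
    have h7 : PO 2 (T0 p) (ph p ℚ_[p] l1 * ph p ℚ_[p] l2 *
        ((d : PowerSeries ℚ_[p]) * ((p : PowerSeries ℚ_[p]) * A1 - ph p ℚ_[p] A1
            - c1 * ph p ℚ_[p] W1)
          - ((p : PowerSeries ℚ_[p]) * A2 - ph p ℚ_[p] A2 - c2 * ph p ℚ_[p] W2))) :=
      PO_mul_left (PO_mul_left (hphI l1 hl1I _) (hphI l2 hl2I _))
        (PO_sub (PO_mul_left (PO_natCast d _) h61) h62)
    have e1 : ph p ℚ_[p] (l2 * W2) = (d : PowerSeries ℚ_[p]) * ph p ℚ_[p] l1 * ph p ℚ_[p] W1 := by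
      rw [hW, map_mul, map_mul, map_natCast]
    have e2 : ph p ℚ_[p] A2 = (d : PowerSeries ℚ_[p]) * ph p ℚ_[p] A1 := by
      rw [hA, map_mul, map_natCast]
    have e : ph p ℚ_[p] (l2 * W2) * (c2 * ph p ℚ_[p] l1 - c1 * ph p ℚ_[p] l2)
        = ph p ℚ_[p] l1 * ph p ℚ_[p] l2 *
        ((d : PowerSeries ℚ_[p]) * ((p : PowerSeries ℚ_[p]) * A1 - ph p ℚ_[p] A1
            - c1 * ph p ℚ_[p] W1)
          - ((p : PowerSeries ℚ_[p]) * A2 - ph p ℚ_[p] A2 - c2 * ph p ℚ_[p] W2)) := by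
      rw [mul_sub]
      nth_rewrite 2 [e1]
      rw [map_mul, e2, hA]
      ring
    rw [e]
    exact h7
  refine PO_of_mul (hphI _ (fun T => PO_mul_left (hl2I T) (hW2I T)) _) ?_ key
  rw [constantCoeff_ph, map_mul, hl20, constantCoeff_cmp _ _ hz20, constantCoeff_WW, mul_one]
  exact norm_natCast_eq_one d hpd

end Pool.Agent.Lib_helper91.TN
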