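import Pool.Agent.Lib_helper91.TN.LSApi

/-! Block AlgApi: the rings `M.B`, `M.A`, the derivations `dB`, `dA` and evaluation. -/

namespace Pool.Agent.Lib_helper91.TN

open PowerSeries Finset

/-- additive map satisfying the Leibniz rule -/
structure IsDer {A : Type} [CommRing A] (D : A → A) : Prop where
  add : ∀ a b, D (a + b) = D a + D b
  mul : ∀ a b, D (a * b) = D a * b + a * D b

theorem IsDer.zero {A : Type} [CommRing A] {D : A → A} (h : IsDer D) : D 0 = 0 := by
  have h1 := h.add 0 0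
  rw [add_zero] at h1
  exact left_eq_add.1 h1

theorem IsDer.one {A : Type} [CommRing A] {D : A → A} (h : IsDer D) : D 1 = 0 := by
  have h1 := h.mul 1 1
  rw [mul_one, mul_one, one_mul] at h1
  exact left_eq_add.1 h1

theorem IsDer.neg {A : Type} [CommRing A] {D : A → A} (h : IsDer D) (a : A) : D (-a) = -D a := by
  have h1 := h.add a (-a)
  rw [add_neg_cancel, h.zero] at h1
  exact (neg_eq_of_add_eq_zero_right h1.symm).symm

theorem IsDer.sub {A : Type} [CommRing A] {D : A → A} (h : IsDer D) (a b : A) :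
    D (a - b) = D a - D b := by
  rw [sub_eq_add_neg, h.add, h.neg, ← sub_eq_add_neg]

theorem IsDer.intCast {A : Type} [CommRing A] {D : A → A} (h : IsDer D) (c : ℤ) : D (c : A) = 0 := by
  have h1 : D (c • (1 : A)) = c • D (1 : A) := map_zsmul (AddMonoidHom.mk' D h.add) c 1
  rw [h.one, smul_zero, zsmul_eq_mul, mul_one] at h1
  exact h1

theorem IsDer.pow {A : Type} [CommRing A] {D : A → A} (h : IsDer D) (a : A) (n : ℕ) :
    D (a ^ n) = (n : A) * a ^ (n - 1) * D a := by
  induction n with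
  | zero => simp [h.one]
  | succ n ih =>
    rw [pow_succ, h.mul, ih, Nat.add_sub_cancel]
    rcases n with _ | n
    · simp
    · rw [Nat.add_sub_cancel]
      push_cast
      ring

/-- chain rule -/
theorem AlgApi_chain {A : Type} [CommRing A] {D : A → A} (h : IsDer D) (x : A)
    (f : Polynomial ℤ) :
    D (Polynomial.aeval x f) = Polynomial.aeval x (Polynomial.derivative f) * D x := by
  induction f using Polynomial.induction_on' with
  | add f g hf hg => rw [map_add, h.add, hf, hg, Polynomial.derivative_add, map_add, add_mul]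
  | monomial n c =>
    rw [Polynomial.aeval_monomial, Polynomial.derivative_monomial, Polynomial.aeval_monomial, h.mul,
      h.pow, eq_intCast, h.intCast, eq_intCast]
    push_cast
    ring

theorem IsDer.dq {A : Type} [CommRing A] {D : A → A} (h : IsDer D) (a : A) :
    IsDer (dq D a) := by
  refine ⟨fun u v => ?_, fun u v => ?_⟩
  · ext
    · simp only [TN.dq, QuadraticAlgebra.re_add, QuadraticAlgebra.im_add, h.add]
      ring
    · simp only [TN.dq, QuadraticAlgebra.re_add, QuadraticAlgebra.im_add, h.add]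
      ring
  · ext
    · simp only [TN.dq, QuadraticAlgebra.re_add, QuadraticAlgebra.im_add, QuadraticAlgebra.re_mul,
        QuadraticAlgebra.im_mul, h.add, h.mul, h.zero]
      ring
    · simp only [TN.dq, QuadraticAlgebra.re_add, QuadraticAlgebra.im_add, QuadraticAlgebra.re_mul,
        QuadraticAlgebra.im_mul, h.add, h.mul, h.zero]
      ring

namespace MD

variable (M : MD)

theorem isDer_dB : IsDer M.dB :=
  IsDer.dq (D := fun f : Polynomial ℤ => Polynomial.derivative f)
    ⟨fun _ _ => Polynomial.derivative_add, fun _ _ => Polynomial.derivative_mul⟩ M.E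

theorem isDer_dA : IsDer M.dA :=
  IsDer.dq M.isDer_dB M.D

/-- `iB` as a ring homomorphism -/
noncomputable def iBh : M.B →+* M.A where
  toFun := M.iB
  map_one' := rfl
  map_zero' := rfl
  map_add' a b := by
    unfold iB
    ext <;> simp
  map_mul' a b := by
    unfold iB
    ext <;> simp

theorem iBh_apply (b : M.B) : M.iBh b = M.iB b := rfl

theorem AlgApi_two (u : M.A) : 2 * u = u + u := two_mul u

theorem dA_iB (b : M.B) : M.dA (M.iB b) = 2 * M.YY * M.iB (M.dB b) := by
  rw [mul_assoc, AlgApi_two]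
  ext : 1
  · simp only [dA, iB, YY, dq, QuadraticAlgebra.re_add, QuadraticAlgebra.re_mul, M.isDer_dB.zero]
    ring
  · simp only [dA, iB, YY, dq, QuadraticAlgebra.im_add, QuadraticAlgebra.im_mul, M.isDer_dB.zero]
    ring

/-- conjugation `Y ↦ -Y` -/
noncomputable def cj (a : M.A) : M.A := ⟨a.re, -a.im⟩

theorem cj_H2 : M.cj M.H2 = M.H1 := rfl

theorem cj_H1 : M.cj M.H1 = M.H2 := by
  show (⟨M.S, - -M.Q⟩ : M.A) = ⟨M.S, M.Q⟩
  rw [neg_neg]

theorem cj_R2 : M.cj M.R2 = M.R1 := rfl

theorem cj_add (a b : M.A) : M.cj (a + b) = M.cj a + M.cj b := by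
  ext : 1
  · simp only [cj, QuadraticAlgebra.re_add]
  · simp only [cj, QuadraticAlgebra.im_add]
    ring

theorem cj_mul (a b : M.A) : M.cj (a * b) = M.cj a * M.cj b := by
  ext : 1
  · simp only [cj, QuadraticAlgebra.re_mul]
    ring
  · simp only [cj, QuadraticAlgebra.im_mul]
    ring

theorem cj_iB (b : M.B) : M.cj (M.iB b) = M.iB b := by
  show (⟨b, -0⟩ : M.A) = ⟨b, 0⟩
  rw [neg_zero]

theorem dA_cj (a : M.A) : M.dA (M.cj a) = -M.cj (M.dA a) := by
  ext : 1
  · simp only [dA, cj, dq, QuadraticAlgebra.re_neg, M.isDer_dB.neg]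
    ring
  · simp only [dA, cj, dq, QuadraticAlgebra.im_neg, M.isDer_dB.neg]
    ring

namespace Pt

variable {M} {T : Type} [CommRing T] (P : M.Pt T)

theorem evP_apply (f : Polynomial ℤ) : P.evP f = Polynomial.aeval P.x f := rfl

theorem evB_apply (b : M.B) : P.evB b = P.evP b.re + P.evP b.im * P.η := rfl

theorem ev_apply (a : M.A) : P.ev a = P.evB a.re + P.evB a.im * P.Y := rfl

theorem evB_iP (f : Polynomial ℤ) : P.evB (M.iP f) = P.evP f := by
  rw [evB_apply]
  show P.evP f + P.evP 0 * P.η = P.evP f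
  rw [map_zero, zero_mul, add_zero]

theorem evB_eta : P.evB M.eta = P.η := by
  rw [evB_apply]
  show P.evP 0 + P.evP 1 * P.η = P.η
  rw [map_zero, map_one, one_mul, zero_add]

theorem evB_D : P.evB M.D = P.Y ^ 2 := P.hY.symm

theorem evP_E : P.evP M.E = P.η ^ 2 := P.hη.symm

theorem ev_iB (b : M.B) : P.ev (M.iB b) = P.evB b := by
  rw [ev_apply]
  show P.evB b + P.evB 0 * P.Y = P.evB b
  rw [map_zero, zero_mul, add_zero]

theorem ev_YY : P.ev M.YY = P.Y := by
  rw [ev_apply]
  show P.evB 0 + P.evB 1 * P.Y = P.Y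
  rw [map_zero, map_one, one_mul, zero_add]

theorem ev_H2 : P.ev M.H2 = P.evB M.S + P.evB M.Q * P.Y := rfl

theorem ev_H1 : P.ev M.H1 = P.evB M.S - P.evB M.Q * P.Y := by
  rw [ev_apply]
  show P.evB M.S + P.evB (-M.Q) * P.Y = _
  rw [map_neg]
  ring

theorem ev_R2 : P.ev M.R2 = P.evB M.U + P.evB M.V * P.Y := rfl

theorem ev_R1 : P.ev M.R1 = P.evB M.U - P.evB M.V * P.Y := by
  rw [ev_apply]
  show P.evB M.U + P.evB (-M.V) * P.Y = _
  rw [map_neg]
  ring

theorem neg_evB (b : M.B) : P.neg.evB b = P.evB b := rfl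

theorem neg_ev (a : M.A) : P.neg.ev a = P.ev (M.cj a) := by
  rw [ev_apply, ev_apply, neg_evB, neg_evB]
  show P.evB a.re + P.evB a.im * (-P.Y) = P.evB a.re + P.evB (-a.im) * P.Y
  rw [map_neg]
  ring

end Pt

theorem AlgApi_thL (K : Type) [Field K] : IsDer (thL : LaurentSeries K → LaurentSeries K) :=
  ⟨thL_add, thL_mul⟩

theorem AlgApi_two_ne (K : Type) [Field K] [CharZero K] : (2 : LaurentSeries K) ≠ 0 := by
  intro h
  have h1 : (2 : LaurentSeries K) = cL K (C (2 : K)) := by
    rw [show (2 : LaurentSeries K) = cL K 2 from (map_ofNat (cL K) 2).symm]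
    rfl
  rw [h1] at h
  have h2 := coeff_cL (C (2 : K)) 0
  rw [h] at h2
  simp at h2

/-- the derivation `dB` on expansions at the cusp -/
theorem AlgApi_dB (K : Type) [Field K] [CharZero K] (P : M.Pt (LaurentSeries K))
    (hx : P.x = mon K (-2)) (b : M.B) :
    P.evB (M.dB b) = (-P.η * mon K 2) * thL (P.evB b) := by
  have hD := AlgApi_thL K
  have hxθ : thL P.x = -2 * P.x := by
    rw [hx, thL_mon]
    push_cast
    ring
  have hxm : mon K 2 * P.x = 1 := by
    rw [hx, ← mon_add]
    exact mon_zero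
  have hch : ∀ f : Polynomial ℤ, thL (P.evP f) = P.evP (Polynomial.derivative f) * (-2 * P.x) := by
    intro f
    rw [← hxθ]
    exact AlgApi_chain hD P.x f
  have hη : P.η * thL P.η = -P.x * P.evP (Polynomial.derivative M.E) := by
    have h1 : thL (P.η ^ 2) = thL (P.evP M.E) := by rw [Pt.evP_E]
    rw [hD.pow, hch] at h1
    apply mul_left_cancel₀ (AlgApi_two_ne K)
    have h2 : ((2 : ℕ) : LaurentSeries K) * P.η ^ (2 - 1) * thL P.η = 2 * (P.η * thL P.η) := by
      rw [show 2 - 1 = 1 from rfl, pow_one]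
      push_cast
      ring
    rw [h2] at h1
    rw [h1]
    ring
  have e1 : P.evB (M.dB b) = (2 * P.evP M.E * P.evP (Polynomial.derivative b.im)
      + P.evP b.im * P.evP (Polynomial.derivative M.E))
      + 2 * P.evP (Polynomial.derivative b.re) * P.η := by
    rw [Pt.evB_apply]
    show P.evP (2 * M.E * Polynomial.derivative b.im + b.im * Polynomial.derivative M.E)
      + P.evP (2 * Polynomial.derivative b.re) * P.η = _
    simp only [map_add, map_mul, map_ofNat]
  rw [e1, Pt.evB_apply, hD.add, hD.mul, hch, hch, Pt.evP_E]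
  linear_combination (P.evP b.im * mon K 2) * hη
    + (-P.evP b.im * P.evP (Polynomial.derivative M.E)
      - 2 * P.η * P.evP (Polynomial.derivative b.re)
      - 2 * P.η ^ 2 * P.evP (Polynomial.derivative b.im)) * hxm

/-- the derivation `dA` on expansions at the cusp -/
theorem ev_dA (K : Type) [Field K] [CharZero K] (P : M.Pt (LaurentSeries K)) (hx : P.x = mon K (-2))
    (hη : P.η ≠ 0) (hY : P.Y ≠ 0) (a : M.A) :
    P.ev (M.dA a) = (-2 * P.Y * P.η * mon K 2) * thL (P.ev a) := by
  have hD := AlgApi_thL K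
  have hB := M.AlgApi_dB K P hx
  have hYθ : 2 * (P.Y * thL P.Y) = thL (P.evB M.D) := by
    rw [Pt.evB_D, hD.pow, show 2 - 1 = 1 from rfl, pow_one]
    push_cast
    ring
  have e1 : P.ev (M.dA a) = (2 * P.evB M.D * P.evB (M.dB a.im) + P.evB a.im * P.evB (M.dB M.D))
      + 2 * P.evB (M.dB a.re) * P.Y := by
    rw [Pt.ev_apply]
    show P.evB (2 * M.D * M.dB a.im + a.im * M.dB M.D) + P.evB (2 * M.dB a.re) * P.Y = _
    simp only [map_add, map_mul, map_ofNat]
  rw [e1, hB, hB, hB, ← hYθ, Pt.evB_D, Pt.ev_apply, hD.add, hD.mul]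
  ring

end MD

end Pool.Agent.Lib_helper91.TN
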