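import Pool.Agent.Lib_helper91.TN.Ricc
import Pool.Agent.Lib_helper91.TN.LD

/-! Block Modid: `F(z2) = μ F(z1)` and `l2 W(z2) = d l1 W(z1)`, `z2 = X^d/u2`, `z1 = X/u1`.
All in the field `LaurentSeries K`; `υ = -2 Y η X²`, `∂ = υ thL`, so `ev (dA a) = ∂ (ev a)` (ev_dA; `η, Y ≠ 0`), `ord υ = 2-w-e`.
`h_i = ev H_i/κ = 1/z_i`, `ρ = ev R2/ev W = d μ`, `Λ = ev L/ev Ld`, `m = ev Mt/ev Nt`  (`ev L, ev Ld, ev Nt ≠ 0`: lead_evB at the exact pole order).
 (i)  `(∂h2)² = ρ Λ (h2-16)(h2+4)` (D3);  (ii) `(∂h1)² = ρ⁻¹ Λ (h1-16)(h1+4)` (D3 at the conjugate point: apply `cj` to D3, dA_cj, D2);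
 (iii) `∂ρ = m ρ` (D4);  (iv) `2∂m - m ∂Λ/Λ = 8Λ(ρ (h2+15)/h2² - ρ⁻¹ (h1+15)/h1²)` (D5).
Modid1: `V_i = ∂F_i/F_i`; `ricc` for `z2` (`Θ = ρΛ`) and `z1` (`Θ = ρ⁻¹Λ`).  `V := V1 + m` satisfies
 `2∂V + V² = 8ρΛ(h2+15)/h2² + V (m + ∂Λ/Λ)`, the equation of `V2`.  So `δ = V2 - V1 - m` satisfies `2∂δ = δ (∂(ρΛ)/(ρΛ) - V2 - V1 - m)`.
 If `δ ≠ 0`: divide by `υ δ` and take constant coefficients (thL_log): `2 ord δ = ord Λ - 0 = 2 ord υ` (by (i), `ord ρ = 0`), but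
 `δ = υ (θF2/F2 - θF1/F1 - θρ/ρ)` and the bracket is `cL` of a series with zero constant term, so `ord δ > ord υ`.  Contradiction.
 Hence `θ(F2/(ρF1)) = 0`, so `F2 = μ F1` (constant terms 1).
Modid2: squares: `(υ l2 W(z2))² = (∂h2)²/(h2² P(z2) F2²) = ρΛ/F2²` (Z3' composed) and `(υ d l1 W(z1))² = d² ρ⁻¹Λ/F1²`, equal by Modid1 (`ρ = dμ`);
 constant coefficients of `l2 W(z2)`, `d l1 W(z1)` are both `d`, so they are equal. -/

namespace Pool.Agent.Lib_helper91.TN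

open PowerSeries Finset

theorem Modid_cL_ne {K : Type} [Field K] {u : PowerSeries K} (hu : constantCoeff u ≠ 0) :
    cL K u ≠ 0 := by
  intro h0
  have h1 : cL K u = cL K 0 := by rw [h0, map_zero]
  have h2 := cL_injective h1
  rw [h2, map_zero] at hu
  exact hu rfl

theorem Modid_two_ne (K : Type) [Field K] [CharZero K] : (2 : LaurentSeries K) ≠ 0 := by
  have h1 : cL K (2 : PowerSeries K) ≠ 0 := Modid_cL_ne (by rw [map_ofNat]; exact two_ne_zero)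
  rwa [map_ofNat] at h1

/-- the algebra behind `modid1` -/
theorem Modid_alg (L : Type) [Field L] (Λ dΛ m dm ρ dρ h1 h2 V1 dV1 V2 dV2 : L)
    (hΛ : Λ ≠ 0) (hρ : ρ ≠ 0) (h10 : h1 ≠ 0) (h20 : h2 ≠ 0)
    (e3 : dρ = m * ρ)
    (e4 : 2 * dm * Λ - m * dΛ =
      4 * Λ ^ 2 * (ρ * (h2 + 15) * (h2⁻¹) ^ 2 - ρ⁻¹ * (h1 + 15) * (h1⁻¹) ^ 2))
    (r2 : 2 * dV2 + V2 ^ 2 = 4 * (ρ * Λ) * (h2 + 15) * (h2⁻¹) ^ 2
      + V2 * ((dρ * Λ + ρ * dΛ) * (ρ * Λ)⁻¹))
    (r1 : 2 * dV1 + V1 ^ 2 = 4 * (ρ⁻¹ * Λ) * (h1 + 15) * (h1⁻¹) ^ 2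
      + V1 * ((-dρ * (ρ⁻¹) ^ 2 * Λ + ρ⁻¹ * dΛ) * (ρ⁻¹ * Λ)⁻¹)) :
    2 * (dV2 - dV1 - dm) = (V2 - V1 - m) * (dΛ * Λ⁻¹ - V2 - V1) := by
  have g2 : (dρ * Λ + ρ * dΛ) * (ρ * Λ)⁻¹ = m + dΛ * Λ⁻¹ := by
    rw [e3]; field_simp
  have g1 : (-dρ * (ρ⁻¹) ^ 2 * Λ + ρ⁻¹ * dΛ) * (ρ⁻¹ * Λ)⁻¹ = -m + dΛ * Λ⁻¹ := by
    rw [e3]; field_simp
  have g4 : 2 * dm = m * (dΛ * Λ⁻¹) +
      4 * Λ * (ρ * (h2 + 15) * (h2⁻¹) ^ 2 - ρ⁻¹ * (h1 + 15) * (h1⁻¹) ^ 2) := by
    have : 2 * dm = (m * dΛ + (2 * dm * Λ - m * dΛ)) * Λ⁻¹ := by field_simp; ring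
    rw [this, e4]
    field_simp
  rw [g2] at r2
  rw [g1] at r1
  linear_combination r2 - r1 - g4

namespace MD

variable (M : MD)

theorem Modid_evB_ne (hM : M.Valid) (K : Type) [Field K] [CharZero K] (P : M.LPt K) {b : M.B}
    (hb : b ≠ 0) : P.toPt.evB b ≠ 0 := by
  have key : ∀ n : ℕ, M.wd n b → M.ld n b ≠ 0 → P.toPt.evB b ≠ 0 := by
    intro n h1 h2 h0
    have h3 := (M.lead_evB hM K P n b h1).2
    rw [h0] at h3
    apply h2
    have h4 : ((M.ld n b : ℤ) : K) = 0 := by rw [← h3]; simp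
    exact_mod_cast h4
  by_cases him : b.im = 0
  · have hre : b.re ≠ 0 := by
      intro hre
      apply hb
      ext1
      · exact hre
      · exact him
    refine key (2 * b.re.natDegree) ⟨le_refl _, Or.inl him⟩ ?_
    unfold ld
    rw [if_pos (by omega), Nat.mul_div_cancel_left _ (by norm_num : 0 < 2)]
    exact Polynomial.leadingCoeff_ne_zero.2 hre
  · by_cases hlt : 2 * b.im.natDegree + M.e < 2 * b.re.natDegree
    · refine key (2 * b.re.natDegree) ⟨le_refl _, Or.inr hlt.le⟩ ?_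
      unfold ld
      rw [if_pos (by omega), Nat.mul_div_cancel_left _ (by norm_num : 0 < 2)]
      apply Polynomial.leadingCoeff_ne_zero.2
      intro h0
      rw [h0] at hlt
      simp at hlt
    · refine key (2 * b.im.natDegree + M.e) ⟨not_lt.1 hlt, Or.inr (le_refl _)⟩ ?_
      unfold ld
      have he := hM.he
      rw [if_neg (by omega), Nat.add_sub_cancel, Nat.mul_div_cancel_left _ (by norm_num : 0 < 2)]
      exact mul_ne_zero hM.ne0 (Polynomial.leadingCoeff_ne_zero.2 him)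

/-- the four relations at the cusp -/
theorem Modid_facts (hM : M.Valid) (K : Type) [Field K] [CharZero K] (P : M.LPt K)
    (u1 u2 μ : PowerSeries K) (h : M.LDt K P u1 u2 μ) :
    ∃ υ Λ m h1 h2 : LaurentSeries K, υ ≠ 0 ∧ Λ ≠ 0 ∧
      h1 * cL K (X * u1⁻¹) = 1 ∧ h2 * cL K (X ^ M.d * u2⁻¹) = 1 ∧
      h2 = mon K (-(M.d : ℤ)) * cL K u2 ∧
      (υ * thL h2) ^ 2 = cL K (C (M.d : K) * μ) * Λ * ((h2 - 16) * (h2 + 4)) ∧
      (υ * thL h1) ^ 2 = (cL K (C (M.d : K) * μ))⁻¹ * Λ * ((h1 - 16) * (h1 + 4)) ∧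
      υ * thL (cL K (C (M.d : K) * μ)) = m * cL K (C (M.d : K) * μ) ∧
      2 * (υ * thL m) * Λ - m * (υ * thL Λ) =
        4 * Λ ^ 2 * (cL K (C (M.d : K) * μ) * (h2 + 15) * (h2⁻¹) ^ 2
          - (cL K (C (M.d : K) * μ))⁻¹ * (h1 + 15) * (h1⁻¹) ^ 2) := by
  have hd : (M.d : K) ≠ 0 := by
    have := hM.hd
    exact_mod_cast (by omega : M.d ≠ 0)
  have hkK : (M.kap : K) ≠ 0 := by exact_mod_cast hM.nkap
  -- nonvanishing
  have hη : P.η ≠ 0 := by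
    intro h0
    have h1 := P.hηc
    rw [h0] at h1
    have h2 : (M.e0 : K) = 0 := by rw [← h1]; simp
    exact hM.ne0 (by exact_mod_cast h2)
  have hY : P.Y ≠ 0 := by
    intro h0
    have h1 := P.hYc
    rw [h0] at h1
    have h2 : (M.y0 : K) = 0 := by rw [← h1]; simp
    exact hM.ny0 (by exact_mod_cast h2)
  have hmon : mon K 2 ≠ 0 := mon_ne_zero 2
  have hL : P.toPt.evB M.L ≠ 0 := M.Modid_evB_ne hM K P hM.nL
  have hLd : P.toPt.evB M.Ld ≠ 0 := M.Modid_evB_ne hM K P hM.nLd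
  have hNt : P.toPt.evB M.Nt ≠ 0 := M.Modid_evB_ne hM K P hM.nNt
  have hW : P.toPt.evB M.W ≠ 0 := h.hW0
  have hμ0 : cL K μ ≠ 0 := Modid_cL_ne (by rw [h.cμ]; exact one_ne_zero)
  have hu1 : cL K u1 ≠ 0 := Modid_cL_ne (by rw [h.c1]; exact one_ne_zero)
  have hu2 : cL K u2 ≠ 0 := Modid_cL_ne (by rw [h.c2]; exact one_ne_zero)
  have hCd : cL K (C (M.d : K)) ≠ 0 := Modid_cL_ne (by rw [constantCoeff_C]; exact hd)
  have hCk : cL K (C (M.kap : K)) ≠ 0 := Modid_cL_ne (by rw [constantCoeff_C]; exact hkK)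
  -- the derivation
  have hdA := M.ev_dA K P.toPt P.hx hη hY
  set υ : LaurentSeries K := -2 * P.Y * P.η * mon K 2 with hυ
  have h2L : (2 : LaurentSeries K) ≠ 0 := Modid_two_ne K
  have hυ0 : υ ≠ 0 := mul_ne_zero (mul_ne_zero (mul_ne_zero (neg_ne_zero.2 h2L) hY) hη) hmon
  have hkint : ((M.kap : ℤ) : LaurentSeries K) = cL K (C (M.kap : K)) := by
    rw [map_intCast, map_intCast]
  -- names
  set κ := cL K (C (M.kap : K)) with hκ
  set ρ := cL K (C (M.d : K) * μ) with hρ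
  have hρ0 : ρ ≠ 0 := by rw [hρ, map_mul]; exact mul_ne_zero hCd hμ0
  set W := P.toPt.evB M.W with hWd
  set L := P.toPt.evB M.L with hLdef
  set Ld := P.toPt.evB M.Ld with hLddef
  set Nt := P.toPt.evB M.Nt with hNtd
  set Mt := P.toPt.evB M.Mt with hMtd
  set h2 : LaurentSeries K := mon K (-(M.d : ℤ)) * cL K u2 with hh2
  set h1 : LaurentSeries K := mon K (-1) * cL K u1 with hh1
  have h10 : h1 ≠ 0 := mul_ne_zero (mon_ne_zero _) hu1
  have h20 : h2 ≠ 0 := mul_ne_zero (mon_ne_zero _) hu2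
  have eH2 : P.toPt.ev M.H2 = κ * h2 := by rw [h.hH2, hh2]; ring
  have eH1 : P.toPt.ev M.H1 = κ * h1 := by rw [h.hH1, hh1]; ring
  have eR2 : P.toPt.ev M.R2 = ρ * W := by rw [h.hR2, hρ, map_mul]; ring
  have eR1 : P.toPt.ev M.R1 = ρ⁻¹ * W := by
    have h3 := h.hR1
    rw [← hWd] at h3
    have h4 : ρ * P.toPt.ev M.R1 = W := by
      rw [← h3, hρ, map_mul]; ring
    rw [← h4]; field_simp
  have tκ : ∀ f : LaurentSeries K, thL (κ * f) = κ * thL f := by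
    intro f
    rw [thL_mul, hκ, thL_C]; ring
  refine ⟨υ, L * Ld⁻¹, Mt * Nt⁻¹, h1, h2, hυ0, mul_ne_zero hL (inv_ne_zero hLd), ?_, ?_, rfl, ?_, ?_,
    ?_, ?_⟩
  · have h3 : cL K u1 * cL K u1⁻¹ = 1 := by
      rw [← map_mul, PowerSeries.mul_inv_cancel _ (by rw [h.c1]; exact one_ne_zero), map_one]
    rw [hh1, map_mul, cL_X]
    calc mon K (-1) * cL K u1 * (mon K 1 * cL K u1⁻¹)
        = mon K (-1) * mon K 1 * (cL K u1 * cL K u1⁻¹) := by ring
      _ = 1 := by rw [h3, ← mon_add, neg_add_cancel, mon_zero, mul_one]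
  · have h3 : cL K u2 * cL K u2⁻¹ = 1 := by
      rw [← map_mul, PowerSeries.mul_inv_cancel _ (by rw [h.c2]; exact one_ne_zero), map_one]
    rw [hh2, map_mul, map_pow, cL_X, mon_pow, mul_one]
    calc mon K (-(M.d : ℤ)) * cL K u2 * (mon K (M.d : ℤ) * cL K u2⁻¹)
        = mon K (-(M.d : ℤ)) * mon K (M.d : ℤ) * (cL K u2 * cL K u2⁻¹) := by ring
      _ = 1 := by rw [h3, ← mon_add, neg_add_cancel, mon_zero, mul_one]
  · -- D3
    have h3 := congrArg P.toPt.ev hM.D3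
    simp only [map_mul, map_pow, map_sub, map_add, map_intCast, map_ofNat, Pt.ev_iB, hdA, eH2, eR2,
      hkint, tκ] at h3
    simp only [← hWd, ← hLdef, ← hLddef] at h3
    have h4 : W * Ld * κ ^ 2 ≠ 0 := mul_ne_zero (mul_ne_zero hW hLd) (pow_ne_zero 2 hCk)
    apply mul_left_cancel₀ h4
    have h5 : Ld * Ld⁻¹ = 1 := mul_inv_cancel₀ hLd
    linear_combination h3 - W * κ ^ 2 * ρ * L * (h2 - 16) * (h2 + 4) * h5
  · -- D3 at the conjugate point
    have h3 := congrArg P.toPt.neg.ev hM.D3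
    have d1 : P.toPt.neg.ev (M.dA M.H2) = -(υ * (κ * thL h1)) := by
      rw [Pt.neg_ev]
      have h4 := M.dA_cj M.H2
      rw [cj_H2] at h4
      have h5 : M.cj (M.dA M.H2) = -M.dA M.H1 := by rw [h4, neg_neg]
      rw [h5, map_neg, hdA, eH1, tκ]
    have d2 : P.toPt.neg.ev M.R2 = ρ⁻¹ * W := by rw [Pt.neg_ev, cj_R2, eR1]
    have d3 : P.toPt.neg.ev M.H2 = κ * h1 := by rw [Pt.neg_ev, cj_H2, eH1]
    simp only [map_mul, map_pow, map_sub, map_add, map_intCast, map_ofNat, Pt.ev_iB, Pt.neg_evB, d1,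
      d2, d3, hkint] at h3
    simp only [← hWd, ← hLdef, ← hLddef] at h3
    have h4 : W * Ld * κ ^ 2 ≠ 0 := mul_ne_zero (mul_ne_zero hW hLd) (pow_ne_zero 2 hCk)
    apply mul_left_cancel₀ h4
    have h5 : Ld * Ld⁻¹ = 1 := mul_inv_cancel₀ hLd
    linear_combination h3 - W * κ ^ 2 * ρ⁻¹ * L * (h1 - 16) * (h1 + 4) * h5
  · -- D4
    have h3 := congrArg P.toPt.ev hM.D4
    simp only [map_mul, map_pow, map_sub, map_add, map_intCast, map_ofNat, Pt.ev_iB, hdA, eR2,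
      thL_mul] at h3
    simp only [← hWd, ← hNtd, ← hMtd] at h3
    have h4 : Nt * W ^ 2 ≠ 0 := mul_ne_zero hNt (pow_ne_zero 2 hW)
    apply mul_left_cancel₀ h4
    have h5 : Nt * Nt⁻¹ = 1 := mul_inv_cancel₀ hNt
    linear_combination h3 - W ^ 2 * Mt * ρ * h5
  · -- D5
    have h3 := congrArg P.toPt.ev hM.D5
    simp only [map_mul, map_pow, map_sub, map_add, map_intCast, map_ofNat, Pt.ev_iB, hdA, eR2, eR1,
      eH1, eH2, hkint] at h3
    simp only [← hWd, ← hNtd, ← hMtd, ← hLdef, ← hLddef] at h3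
    have t1 : thL (L * Ld⁻¹) = (Ld * thL L - L * thL Ld) * (Ld⁻¹) ^ 2 := by
      rw [thL_mul, thL_inv _ hLd]; field_simp; ring
    have t2 : thL (Mt * Nt⁻¹) = (Nt * thL Mt - Mt * thL Nt) * (Nt⁻¹) ^ 2 := by
      rw [thL_mul, thL_inv _ hNt]; field_simp; ring
    rw [t1, t2]
    have h4 : W * κ ^ 4 * (h1 * h2) ^ 2 ≠ 0 :=
      mul_ne_zero (mul_ne_zero hW (pow_ne_zero 4 hCk)) (pow_ne_zero 2 (mul_ne_zero h10 h20))
    clear_value W κ h1 h2 L Ld Nt Mt υ ρ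
    apply mul_left_cancel₀ h4
    field_simp
    field_simp at h3
    linear_combination h3

theorem Modid_ord_unique {K : Type} [Field K] {f : LaurentSeries K} {a b : ℤ} (ha : OL a f)
    (ha0 : f.coeff a ≠ 0) (hb : OL b f) (hb0 : f.coeff b ≠ 0) : a = b := by
  rcases lt_trichotomy a b with h | h | h
  · exact absurd (hb a h) ha0
  · exact h
  · exact absurd (ha b h) hb0

theorem modid1 (hM : M.Valid) (K : Type) [Field K] [CharZero K] (P : M.LPt K)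
    (u1 u2 μ : PowerSeries K) (h : M.LDt K P u1 u2 μ) :
    cmp (FF K) (X ^ M.d * u2⁻¹) = μ * cmp (FF K) (X * u1⁻¹) := by
  obtain ⟨υ, Λ, m, h1, h2, hυ, hΛ, hz1, hz2, hh2, e1, e2, e3, e4⟩ := M.Modid_facts hM K P u1 u2 μ h
  have hd1 := hM.hd
  have hd : (M.d : K) ≠ 0 := by exact_mod_cast (by omega : M.d ≠ 0)
  have c1 : constantCoeff (X * u1⁻¹ : PowerSeries K) = 0 := by simp
  have c2 : constantCoeff (X ^ M.d * u2⁻¹ : PowerSeries K) = 0 := by
    rw [map_mul, map_pow, constantCoeff_X, zero_pow (by omega), zero_mul]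
  set ρ := cL K (C (M.d : K) * μ) with hρ
  have hρ0 : ρ ≠ 0 := Modid_cL_ne (by rw [map_mul, h.cμ, constantCoeff_C, mul_one]; exact hd)
  set G1 := cmp (FF K) (X * u1⁻¹) with hG1
  set G2 := cmp (FF K) (X ^ M.d * u2⁻¹) with hG2
  have cG1 : constantCoeff G1 = 1 := by rw [hG1, constantCoeff_cmp _ _ c1, constantCoeff_FF]
  have cG2 : constantCoeff G2 = 1 := by rw [hG2, constantCoeff_cmp _ _ c2, constantCoeff_FF]
  have F10 : cL K G1 ≠ 0 := Modid_cL_ne (by rw [cG1]; exact one_ne_zero)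
  have F20 : cL K G2 ≠ 0 := Modid_cL_ne (by rw [cG2]; exact one_ne_zero)
  have h10 : h1 ≠ 0 := left_ne_zero_of_mul_eq_one hz1
  have h20 : h2 ≠ 0 := left_ne_zero_of_mul_eq_one hz2
  -- logarithmic derivatives
  set b1 : LaurentSeries K := thL (cL K G1) * (cL K G1)⁻¹ with hb1
  set b2 : LaurentSeries K := thL (cL K G2) * (cL K G2)⁻¹ with hb2
  set r : LaurentSeries K := thL ρ * ρ⁻¹ with hr
  have r1 := ricc K υ _ c1 h1 (cL K G1) (υ * b1) (ρ⁻¹ * Λ) hz1 rfl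
    (by rw [hb1, mul_assoc, mul_assoc, inv_mul_cancel₀ F10, mul_one])
    (by rw [e2]) (mul_ne_zero (inv_ne_zero hρ0) hΛ)
  have r2 := ricc K υ _ c2 h2 (cL K G2) (υ * b2) (ρ * Λ) hz2 rfl
    (by rw [hb2, mul_assoc, mul_assoc, inv_mul_cancel₀ F20, mul_one])
    (by rw [e1]) (mul_ne_zero hρ0 hΛ)
  have em : m = υ * r := by
    rw [hr, ← mul_assoc, e3, mul_assoc, mul_inv_cancel₀ hρ0, mul_one]
  have main := Modid_alg (LaurentSeries K) Λ (υ * thL Λ) m (υ * thL m) ρ (υ * thL ρ) h1 h2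
    (υ * b1) (υ * thL (υ * b1)) (υ * b2) (υ * thL (υ * b2)) hΛ hρ0 h10 h20 e3 e4
    (by rw [thL_mul ρ Λ] at r2; linear_combination r2)
    (by
      rw [thL_mul ρ⁻¹ Λ, thL_inv _ hρ0] at r1
      linear_combination r1)
  -- the difference
  set δ : LaurentSeries K := υ * (b2 - b1 - r) with hδ
  have hδ' : 2 * (υ * thL δ) = δ * (υ * (thL Λ * Λ⁻¹ - b2 - b1)) := by
    have t1 : thL δ = thL (υ * b2) - thL (υ * b1) - thL m := by
      rw [← thL_sub, ← thL_sub, hδ, em]; congr 1; ring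
    rw [t1, hδ]
    rw [em] at main ⊢
    linear_combination main
  have o1 : OL 0 (cL K G1) := OL_cL _
  have o2 : OL 0 (cL K G2) := OL_cL _
  have oρ : OL 0 ρ := OL_cL _
  have k1 : (cL K G1).coeff 0 = 1 := by
    have := coeff_cL G1 0
    rw [Nat.cast_zero] at this
    rw [this, coeff_zero_eq_constantCoeff_apply, cG1]
  have k2 : (cL K G2).coeff 0 = 1 := by
    have := coeff_cL G2 0
    rw [Nat.cast_zero] at this
    rw [this, coeff_zero_eq_constantCoeff_apply, cG2]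
  have kρ : ρ.coeff 0 = (M.d : K) := by
    have := coeff_cL (C (M.d : K) * μ) 0
    rw [Nat.cast_zero] at this
    rw [hρ, this, coeff_zero_eq_constantCoeff_apply, map_mul, constantCoeff_C, h.cμ, mul_one]
  obtain ⟨l1a, l1b⟩ := thL_log o1 (by rw [k1]; exact one_ne_zero)
  obtain ⟨l2a, l2b⟩ := thL_log o2 (by rw [k2]; exact one_ne_zero)
  obtain ⟨lρa, lρb⟩ := thL_log oρ (by rw [kρ]; exact hd)
  rw [← hb1] at l1a l1b
  rw [← hb2] at l2a l2b
  rw [← hr] at lρa lρb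
  have hδ0 : δ = 0 := by
    by_contra hne
    obtain ⟨a, ha, ha0⟩ := exists_order hne
    obtain ⟨b, hb, hb0⟩ := exists_order hΛ
    obtain ⟨c, hc, hc0⟩ := exists_order hυ
    obtain ⟨_, la⟩ := thL_log ha ha0
    obtain ⟨_, lb⟩ := thL_log hb hb0
    -- 2a = b
    have s1 : 2 * (thL δ * δ⁻¹) = thL Λ * Λ⁻¹ - b2 - b1 := by
      have h3 : υ * δ ≠ 0 := mul_ne_zero hυ hne
      apply mul_left_cancel₀ h3
      have h4 : δ * δ⁻¹ = 1 := mul_inv_cancel₀ hne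
      linear_combination hδ' + 2 * υ * thL δ * h4
    have s2 := congrArg (fun f : LaurentSeries K => f.coeff 0) s1
    have s3 : (2 * (thL δ * δ⁻¹) : LaurentSeries K).coeff 0 = 2 * (a : K) := by
      rw [two_mul, HahnSeries.coeff_add, la]; ring
    simp only [s3, HahnSeries.coeff_sub, lb, l1b, l2b] at s2
    have s4 : 2 * a = b := by
      have : ((2 * a : ℤ) : K) = (b : K) := by push_cast; linear_combination s2
      exact_mod_cast this
    -- b = 2c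
    have oh2 : OL (-(M.d : ℤ)) h2 := by
      have := OL_mul (OL_mon (R := K) (-(M.d : ℤ))) (OL_cL u2)
      rw [add_zero] at this
      rw [hh2]; exact this
    have kh2 : h2.coeff (-(M.d : ℤ)) = 1 := by
      have := coeff_mul_OL (OL_mon (R := K) (-(M.d : ℤ))) (OL_cL u2)
      rw [add_zero] at this
      rw [hh2, this, coeff_mon, if_pos rfl, one_mul]
      have h3 := coeff_cL u2 0
      rw [Nat.cast_zero] at h3
      rw [h3, coeff_zero_eq_constantCoeff_apply, h.c2]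
    have oth2 : OL (-(M.d : ℤ)) (thL h2) := OL_thL oh2
    have kth2 : (thL h2).coeff (-(M.d : ℤ)) = -(M.d : K) := by
      rw [coeff_thL, kh2]; push_cast; ring
    have oc : ∀ q : ℤ, OL (-(M.d : ℤ)) (h2 + (q : LaurentSeries K)) ∧
        (h2 + (q : LaurentSeries K)).coeff (-(M.d : ℤ)) = 1 := by
      intro q
      refine ⟨OL_add oh2 (OL_mono (by omega) (OL_intCast q)), ?_⟩
      rw [HahnSeries.coeff_add, kh2, OL_intCast q _ (by omega), add_zero]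
    obtain ⟨p1, p2⟩ := oc (-16)
    obtain ⟨p3, p4⟩ := oc 4
    have q1 : (h2 + ((-16 : ℤ) : LaurentSeries K)) = h2 - 16 := by push_cast; ring
    have q2 : (h2 + ((4 : ℤ) : LaurentSeries K)) = h2 + 4 := by push_cast; ring
    rw [q1] at p1 p2
    rw [q2] at p3 p4
    have L1 : OL (2 * (c + -(M.d : ℤ))) ((υ * thL h2) ^ 2) := by
      have := OL_pow (OL_mul hc oth2) 2
      exact_mod_cast this
    have L2 : ((υ * thL h2) ^ 2).coeff (2 * (c + -(M.d : ℤ))) ≠ 0 := by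
      have h3 := coeff_pow_OL (OL_mul hc oth2) 2
      have h4 := coeff_mul_OL hc oth2
      rw [h4, kth2] at h3
      push_cast at h3
      rw [h3]
      exact pow_ne_zero 2 (mul_ne_zero hc0 (neg_ne_zero.2 hd))
    have R1 : OL (0 + b + (-(M.d : ℤ) + -(M.d : ℤ))) (ρ * Λ * ((h2 - 16) * (h2 + 4))) :=
      OL_mul (OL_mul oρ hb) (OL_mul p1 p3)
    have R2 : (ρ * Λ * ((h2 - 16) * (h2 + 4))).coeff (0 + b + (-(M.d : ℤ) + -(M.d : ℤ))) ≠ 0 := by
      rw [coeff_mul_OL (OL_mul oρ hb) (OL_mul p1 p3), coeff_mul_OL oρ hb, coeff_mul_OL p1 p3, p2, p4,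
        kρ, mul_one, mul_one]
      exact mul_ne_zero hd hb0
    rw [← e1] at R1 R2
    have s5 := Modid_ord_unique L1 L2 R1 R2
    -- a > c
    have s6 : OL 1 (b2 - b1 - r) := by
      intro n hn
      rcases lt_or_eq_of_le (Int.lt_add_one_iff.1 hn : n ≤ 0) with h3 | h3
      · rw [HahnSeries.coeff_sub, HahnSeries.coeff_sub, l2a n h3, l1a n h3, lρa n h3]; ring
      · rw [h3, HahnSeries.coeff_sub, HahnSeries.coeff_sub, l2b, l1b, lρb]; simp
    have s7 : OL (c + 1) δ := OL_mul hc s6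
    apply ha0
    apply s7
    omega
  -- conclusion
  have hb : b2 - b1 - r = 0 := by
    rcases mul_eq_zero.1 (hδ ▸ hδ0 : υ * (b2 - b1 - r) = 0) with h3 | h3
    · exact absurd h3 hυ
    · exact h3
  have hq : thL (cL K G2 * (ρ * cL K G1)⁻¹) = 0 := by
    rw [thL_mul, thL_inv _ (mul_ne_zero hρ0 F10), thL_mul]
    have h3 : thL (cL K G2) = b2 * cL K G2 := by
      rw [hb2, mul_assoc, inv_mul_cancel₀ F20, mul_one]
    have h4 : thL (cL K G1) = b1 * cL K G1 := by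
      rw [hb1, mul_assoc, inv_mul_cancel₀ F10, mul_one]
    have h5 : thL ρ = r * ρ := by
      rw [hr, mul_assoc, inv_mul_cancel₀ hρ0, mul_one]
    have h6 : (ρ * cL K G1) * (ρ * cL K G1)⁻¹ = 1 := mul_inv_cancel₀ (mul_ne_zero hρ0 F10)
    rw [h3, h4, h5]
    linear_combination (cL K G2 * (ρ * cL K G1)⁻¹) * hb
      - (r + b1) * cL K G2 * (ρ * cL K G1)⁻¹ * h6
  have hq2 := thL_eq_zero hq
  set κ := (cL K G2 * (ρ * cL K G1)⁻¹).coeff 0 with hκ
  have hq3 : cL K G2 = cL K (C κ * (C (M.d : K) * μ * G1)) := by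
    have h6 : (ρ * cL K G1) * (ρ * cL K G1)⁻¹ = 1 := mul_inv_cancel₀ (mul_ne_zero hρ0 F10)
    rw [map_mul, map_mul, ← hρ]
    calc cL K G2 = (cL K G2 * (ρ * cL K G1)⁻¹) * (ρ * cL K G1) := by
          linear_combination (-cL K G2) * h6
      _ = _ := by rw [hq2]
  have hq4 := cL_injective hq3
  have hq5 := congrArg (fun f => constantCoeff f) hq4
  simp only [map_mul, constantCoeff_C, cG1, cG2, h.cμ, mul_one] at hq5
  rw [hq4]
  calc C κ * (C (M.d : K) * μ * G1) = C (κ * (M.d : K)) * (μ * G1) := by rw [map_mul]; ring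
    _ = μ * G1 := by rw [← hq5, map_one, one_mul]

theorem modid2 (hM : M.Valid) (K : Type) [Field K] [CharZero K] (P : M.LPt K)
    (u1 u2 μ : PowerSeries K) (h : M.LDt K P u1 u2 μ) (l1 l2 : PowerSeries K)
    (hl1 : l1 * u1⁻¹ = u1⁻¹ + th u1⁻¹) (hl2 : l2 * u2⁻¹ = (M.d : PowerSeries K) * u2⁻¹ + th u2⁻¹) :
    l2 * cmp (WW K) (X ^ M.d * u2⁻¹) = (M.d : PowerSeries K) * l1 * cmp (WW K) (X * u1⁻¹) := by
  have hF := M.modid1 hM K P u1 u2 μ h
  obtain ⟨υ, Λ, m, h1, h2, hυ, hΛ, hz1, hz2, hh2, e1, e2, e3, e4⟩ := M.Modid_facts hM K P u1 u2 μ h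
  have hd1 := hM.hd
  have hd : (M.d : K) ≠ 0 := by exact_mod_cast (by omega : M.d ≠ 0)
  have c1 : constantCoeff (X * u1⁻¹ : PowerSeries K) = 0 := by simp
  have c2 : constantCoeff (X ^ M.d * u2⁻¹ : PowerSeries K) = 0 := by
    rw [map_mul, map_pow, constantCoeff_X, zero_pow (by omega), zero_mul]
  have tz1 : th (X * u1⁻¹) = l1 * (X * u1⁻¹) := by
    rw [th_mul, th_X]; linear_combination (-X) * hl1
  have tz2 : th (X ^ M.d * u2⁻¹) = l2 * (X ^ M.d * u2⁻¹) := by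
    rw [th_mul, th_X_pow]; linear_combination (-X ^ M.d) * hl2
  set ρ := cL K (C (M.d : K) * μ) with hρ
  have hρ0 : ρ ≠ 0 := Modid_cL_ne (by rw [map_mul, h.cμ, constantCoeff_C, mul_one]; exact hd)
  set z1 : PowerSeries K := X * u1⁻¹ with hz1d
  set z2 : PowerSeries K := X ^ M.d * u2⁻¹ with hz2d
  -- the composed relation Z3
  have z3 : ∀ z : PowerSeries K, constantCoeff z = 0 →
      (cmp (WW K) z) ^ 2 * (cmp (FF K) z) ^ 2 * (1 - 12 * z - 64 * z ^ 2) = 1 := by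
    intro z hz
    have h3 := congrArg (fun f => cmp f z) (Z3' K)
    have c28 : cmp (12 : PowerSeries K) z = 12 := cmp_ofNat 12 z hz
    have c128 : cmp (64 : PowerSeries K) z = 64 := cmp_ofNat 64 z hz
    simpa only [PD, cmp_mul _ _ z hz, cmp_sub _ _ z hz, cmp_pow _ z hz,
      cmp_one z hz, cmp_X z hz, c28, c128] using h3
  have w1 := congrArg (cL K) (z3 z1 c1)
  have w2 := congrArg (cL K) (z3 z2 c2)
  have hFL := congrArg (cL K) hF
  simp only [map_mul, map_sub, map_pow, map_one, map_ofNat] at w1 w2 hFL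
  -- derivatives of `h`
  have dh : ∀ (g : LaurentSeries K) (z l : PowerSeries K), g * cL K z = 1 → th z = l * z →
      thL g = -(cL K l * g) := by
    intro g z l h3 h4
    have h5 : thL (g * cL K z) = 0 := by
      rw [h3]
      have := thL_intCast (R := K) 1
      simpa using this
    rw [thL_mul, thL_cL, h4, map_mul] at h5
    linear_combination g * h5 - (thL g + g * cL K l) * h3
  have d1 := dh h1 z1 l1 hz1 tz1
  have d2 := dh h2 z2 l2 hz2 tz2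
  -- squares
  have q1 : υ ^ 2 * cL K l1 ^ 2 = ρ⁻¹ * Λ * (1 - 12 * cL K z1 - 64 * cL K z1 ^ 2) := by
    rw [d1] at e2
    have h3 : (υ * -(cL K l1 * h1)) ^ 2 * cL K z1 ^ 2 =
        ρ⁻¹ * Λ * ((h1 - 16) * (h1 + 4)) * cL K z1 ^ 2 := by rw [e2]
    linear_combination h3 + (-(υ ^ 2 * cL K l1 ^ 2) * (h1 * cL K z1 + 1)
      + ρ⁻¹ * Λ * (h1 * cL K z1 + 1) - 12 * ρ⁻¹ * Λ * cL K z1) * hz1
  have q2 : υ ^ 2 * cL K l2 ^ 2 = ρ * Λ * (1 - 12 * cL K z2 - 64 * cL K z2 ^ 2) := by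
    rw [d2] at e1
    have h3 : (υ * -(cL K l2 * h2)) ^ 2 * cL K z2 ^ 2 =
        ρ * Λ * ((h2 - 16) * (h2 + 4)) * cL K z2 ^ 2 := by rw [e1]
    linear_combination h3 + (-(υ ^ 2 * cL K l2 ^ 2) * (h2 * cL K z2 + 1)
      + ρ * Λ * (h2 * cL K z2 + 1) - 12 * ρ * Λ * cL K z2) * hz2
  have cG1 : constantCoeff (cmp (FF K) z1) = 1 := by rw [constantCoeff_cmp _ _ c1, constantCoeff_FF]
  have F10 : cL K (cmp (FF K) z1) ≠ 0 := Modid_cL_ne (by rw [cG1]; exact one_ne_zero)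
  have hμ0 : cL K μ ≠ 0 := Modid_cL_ne (by rw [h.cμ]; exact one_ne_zero)
  have eρ : ρ = (M.d : LaurentSeries K) * cL K μ := by
    rw [hρ, map_mul, map_natCast, map_natCast]
  have sq : (l2 * cmp (WW K) z2) ^ 2 = ((M.d : PowerSeries K) * l1 * cmp (WW K) z1) ^ 2 := by
    apply cL_injective
    simp only [map_mul, map_pow, map_natCast]
    set F1 := cL K (cmp (FF K) z1)
    set F2 := cL K (cmp (FF K) z2)
    set W1 := cL K (cmp (WW K) z1)
    set W2 := cL K (cmp (WW K) z2)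
    set P1 := 1 - 12 * cL K z1 - 64 * cL K z1 ^ 2
    set P2 := 1 - 12 * cL K z2 - 64 * cL K z2 ^ 2
    have t1 : (υ * F1) ^ 2 * cL K μ ^ 2 * ρ ≠ 0 := by
      refine mul_ne_zero (mul_ne_zero ?_ ?_) hρ0
      · exact pow_ne_zero 2 (mul_ne_zero hυ F10)
      · exact pow_ne_zero 2 hμ0
    apply mul_left_cancel₀ t1
    have hρi : ρ * ρ⁻¹ = 1 := mul_inv_cancel₀ hρ0
    have A2 : (υ * F1) ^ 2 * cL K μ ^ 2 * ρ * (cL K l2 * W2) ^ 2 = ρ ^ 2 * Λ := by
      calc (υ * F1) ^ 2 * cL K μ ^ 2 * ρ * (cL K l2 * W2) ^ 2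
          = (υ ^ 2 * cL K l2 ^ 2) * ρ * W2 ^ 2 * (cL K μ * F1) ^ 2 := by ring
        _ = (ρ * Λ * P2) * ρ * W2 ^ 2 * F2 ^ 2 := by rw [q2, ← hFL]
        _ = ρ ^ 2 * Λ * (W2 ^ 2 * F2 ^ 2 * P2) := by ring
        _ = ρ ^ 2 * Λ := by rw [w2, mul_one]
    have A1 : (υ * F1) ^ 2 * cL K μ ^ 2 * ρ * ((M.d : LaurentSeries K) * cL K l1 * W1) ^ 2
        = ρ ^ 2 * Λ := by
      calc (υ * F1) ^ 2 * cL K μ ^ 2 * ρ * ((M.d : LaurentSeries K) * cL K l1 * W1) ^ 2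
          = (υ ^ 2 * cL K l1 ^ 2) * ρ * W1 ^ 2 * F1 ^ 2 * ((M.d : LaurentSeries K) * cL K μ) ^ 2 := by
            ring
        _ = (ρ⁻¹ * Λ * P1) * ρ * W1 ^ 2 * F1 ^ 2 * ρ ^ 2 := by rw [q1, ← eρ]
        _ = (ρ * ρ⁻¹) * Λ * ρ ^ 2 * (W1 ^ 2 * F1 ^ 2 * P1) := by ring
        _ = ρ ^ 2 * Λ := by rw [w1, hρi]; ring
    rw [A2, A1]
  have cu1 : constantCoeff u1⁻¹ = 1 := by
    rw [constantCoeff_inv, h.c1, inv_one]
  have cu2 : constantCoeff u2⁻¹ = 1 := by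
    rw [constantCoeff_inv, h.c2, inv_one]
  have cl1 : constantCoeff l1 = 1 := by
    have := congrArg (fun f => constantCoeff f) hl1
    simpa [cu1, constantCoeff_th] using this
  have cl2 : constantCoeff l2 = (M.d : K) := by
    have := congrArg (fun f => constantCoeff f) hl2
    simpa [cu2, constantCoeff_th] using this
  rcases sq_eq_sq_iff_eq_or_eq_neg.1 sq with h3 | h3
  · exact h3
  · exfalso
    have h4 := congrArg (fun f => constantCoeff f) h3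
    simp only [map_mul, map_neg, cl1, cl2, constantCoeff_cmp _ _ c1, constantCoeff_cmp _ _ c2,
      constantCoeff_WW, mul_one, map_natCast] at h4
    have h5 : 2 * (M.d : K) = 0 := by linear_combination h4
    exact mul_ne_zero two_ne_zero hd h5

end MD

end Pool.Agent.Lib_helper91.TN
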