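import Pool.Agent.Lib_helper91.TN.LD

/-! Block ORD: order of the cleared factor `Lm` at both cusps.
`Lm = d^p W^(2p+1) (∂H2)^p sA NB(W) (H1 H2)^(p-1)`, pole orders: `W: om`, `∂H2 = -2YηX² θ(ev H2)`: `≤ d + w + e - 2`,
`sA = 8E^(2p)D^p`: `4ep + 2wp` (`E = η²`, `D = Y²`), `NB(W)`: `≤ 2ep + om p`
(terms `2E^p W0(x^p)`, `W1(x^p)(E^p+E(x^p)) η^p`, by degrees; `wd om W`), `H1 H2`: `d+1`. -/

namespace Pool.Agent.Lib_helper91.TN

open PowerSeries Finset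

/-- order of a polynomial in `X^{-c}` -/
theorem ORD_hom {K : Type} [Field K] (φ : Polynomial ℤ →+* LaurentSeries K) (c : ℕ)
    (hφ : φ Polynomial.X = mon K (-(c : ℤ))) (f : Polynomial ℤ) (N : ℕ) (h : c * f.natDegree ≤ N) :
    OL (-(N : ℤ)) (φ f) := by
  rw [f.as_sum_range_C_mul_X_pow, map_sum]
  refine OL_sum _ _ (fun i hi => ?_)
  rw [map_mul, map_pow, hφ, mon_pow]
  have hC : φ (Polynomial.C (f.coeff i)) = ((f.coeff i : ℤ) : LaurentSeries K) :=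
    eq_intCast (φ.comp Polynomial.C) (f.coeff i)
  rw [hC]
  have hi' : i ≤ f.natDegree := by
    have := Finset.mem_range.mp hi
    omega
  have h1 : OL (0 + (i : ℤ) * -(c : ℤ)) (((f.coeff i : ℤ) : LaurentSeries K) * mon K (i * -(c : ℤ))) :=
    OL_mul (OL_intCast _) (OL_mon _)
  refine OL_mono ?_ h1
  have h2 : c * i ≤ N := le_trans (Nat.mul_le_mul_left c hi') h
  have h3 : (c : ℤ) * (i : ℤ) ≤ (N : ℤ) := by exact_mod_cast h2
  nlinarith [h3]

/-- orders: powers -/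
theorem ORD_pow {K : Type} [Field K] {a : ℕ} {f : LaurentSeries K} (hf : OL (-(a : ℤ)) f) (n : ℕ) :
    OL (-((n * a : ℕ) : ℤ)) (f ^ n) := by
  have h := OL_pow hf n
  have e : (-((n * a : ℕ) : ℤ)) = (n : ℤ) * -(a : ℤ) := by push_cast; ring
  rw [e]
  exact h

theorem ORD_mul {K : Type} [Field K] {a b : ℕ} {f g : LaurentSeries K} (hf : OL (-(a : ℤ)) f)
    (hg : OL (-(b : ℤ)) g) : OL (-((a + b : ℕ) : ℤ)) (f * g) := by
  have h := OL_mul hf hg
  have e : (-((a + b : ℕ) : ℤ)) = -(a : ℤ) + -(b : ℤ) := by push_cast; ring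
  rw [e]
  exact h

theorem ORD_mono {K : Type} [Field K] {a b : ℕ} {f : LaurentSeries K} (hf : OL (-(a : ℤ)) f)
    (h : a ≤ b) : OL (-(b : ℤ)) f := OL_mono (by omega) hf

theorem ORD_int {K : Type} [Field K] (c : ℤ) : OL (-((0 : ℕ) : ℤ)) (c : LaurentSeries K) := by
  have := OL_intCast (R := K) c
  simpa using this

theorem ORD_nat {K : Type} [Field K] (c : ℕ) : OL (-((0 : ℕ) : ℤ)) (c : LaurentSeries K) := by
  have := OL_intCast (R := K) (c : ℤ)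
  simpa using this

/-- the arithmetic of the pole orders -/
theorem ORD_arith (p d w e om : ℕ) (hp : 1 ≤ p) :
    -((p * (3 * om + 2 * d + 1 + (w + e - 2) + 6 * e + 2 * w) + om : ℕ) : ℤ) + ((d : ℤ) + 1)
      ≤ -((p * 0 + (2 * p + 1) * om + p * (d + (w + e - 2)) + (2 * p * (2 * e) + p * (2 * w))
        + (p * (2 * e) + p * om) + (p - 1) * (d + 1) : ℕ) : ℤ) := by
  obtain ⟨q, rfl⟩ : ∃ q, p = q + 1 := ⟨p - 1, by omega⟩
  generalize w + e - 2 = r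
  simp only [Nat.add_sub_cancel]
  push_cast
  apply le_of_eq
  ring

namespace MD

variable (M : MD) (p : ℕ) [Fact p.Prime]

theorem ORD_evX {T : Type} [CommRing T] (P : M.Pt T) : P.evP Polynomial.X = P.x := by
  rw [Pt.evP_apply, Polynomial.aeval_X]

section gen

variable {K : Type} [Field K] (P : M.Pt (LaurentSeries K))

theorem ORD_x (hx : P.x = mon K (-2)) (f : Polynomial ℤ) (N : ℕ) (h : 2 * f.natDegree ≤ N) :
    OL (-(N : ℤ)) (P.evP f) := by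
  refine ORD_hom P.evP 2 ?_ f N h
  rw [M.ORD_evX, hx]
  rfl

theorem ORD_xp (hx : P.x = mon K (-2)) (f : Polynomial ℤ) (N : ℕ) (h : 2 * f.natDegree ≤ N) :
    OL (-((p * N : ℕ) : ℤ)) (P.evP (Polynomial.expand ℤ p f)) := by
  refine ORD_hom (P.evP.comp (Polynomial.expand ℤ p : Polynomial ℤ →ₐ[ℤ] Polynomial ℤ).toRingHom)
    (2 * p) ?_ f (p * N) ?_
  · have h1 : (P.evP.comp (Polynomial.expand ℤ p : Polynomial ℤ →ₐ[ℤ] Polynomial ℤ).toRingHom)
        Polynomial.X = P.evP (Polynomial.X ^ p) := by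
      rw [← Polynomial.expand_X (R := ℤ) p]
      rfl
    rw [h1, map_pow, M.ORD_evX, hx, mon_pow]
    congr 1
    push_cast
    ring
  · calc 2 * p * f.natDegree = p * (2 * f.natDegree) := by ring
      _ ≤ p * N := Nat.mul_le_mul_left p h

theorem ORD_B (hx : P.x = mon K (-2)) (hη : OL (-(M.e : ℤ)) P.η) (n : ℕ) (b : M.B) (h : M.wd n b) :
    OL (-(n : ℤ)) (P.evB b) := by
  rw [Pt.evB_apply]
  refine OL_add (M.ORD_x P hx _ _ h.1) ?_
  rcases h.2 with h0 | h0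
  · rw [h0, map_zero, zero_mul]
    intro k _
    rfl
  · exact ORD_mono (ORD_mul (M.ORD_x P hx b.im (2 * b.im.natDegree) le_rfl) hη) h0

/-- order of `NB b` -/
theorem ORD_NB (hx : P.x = mon K (-2)) (hE : M.E.natDegree ≤ M.e) (hη : OL (-(M.e : ℤ)) P.η) (n : ℕ)
    (b : M.B) (h : M.wd n b) : OL (-((p * (2 * M.e) + p * n : ℕ) : ℤ)) (P.evB (M.NB p b)) := by
  have hE1 : OL (-((p * (2 * M.e) : ℕ) : ℤ)) (P.evP (M.E ^ p)) := by
    rw [map_pow]
    exact ORD_pow (M.ORD_x P hx M.E (2 * M.e) (by omega)) p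
  have hE2 : OL (-((p * (2 * M.e) : ℕ) : ℤ)) (P.evP (Polynomial.expand ℤ p M.E)) :=
    M.ORD_xp p P hx M.E (2 * M.e) (by omega)
  have hEs : OL (-((p * (2 * M.e) : ℕ) : ℤ)) (P.evP (M.Es p)) := by
    rw [Es, map_add]
    exact OL_add hE1 hE2
  rw [NB, map_add, map_mul, map_pow, Pt.evB_iP, Pt.evB_iP, Pt.evB_eta, map_mul, map_mul, map_mul]
  refine OL_add ?_ ?_
  · have h2 : OL (-((0 : ℕ) : ℤ)) (P.evP 2) := by
      have h3 : P.evP 2 = ((2 : ℤ) : LaurentSeries K) := by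
        rw [map_ofNat]; norm_num
      rw [h3]
      exact ORD_int 2
    have := ORD_mul (ORD_mul h2 hE1) (M.ORD_xp p P hx b.re n h.1)
    exact ORD_mono this (by omega)
  · rcases h.2 with h0 | h0
    · rw [h0, map_zero, map_zero, zero_mul, zero_mul]
      intro k _
      rfl
    · have := ORD_mul (ORD_mul (M.ORD_xp p P hx b.im (2 * b.im.natDegree) le_rfl) hEs) (ORD_pow hη p)
      refine ORD_mono this ?_
      have h3 : p * (2 * b.im.natDegree) + p * M.e ≤ p * n := by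
        rw [← mul_add]
        exact Nat.mul_le_mul_left p h0
      omega

theorem ORD_gen [CharZero K] (hM : M.Valid) (hx : P.x = mon K (-2)) (hη : OL (-(M.e : ℤ)) P.η)
    (hY : OL (-(M.w : ℤ)) P.Y) (hη0 : P.η ≠ 0) (hY0 : P.Y ≠ 0) :
    OL (-((p * M.tot + M.om : ℕ) : ℤ) + (M.d + 1)) (P.ev (M.Lm p)) := by
  have hW : OL (-(M.om : ℤ)) (P.evB M.W) := M.ORD_B P hx hη _ _ hM.hWw
  have hH2 : OL (-(M.d : ℤ)) (P.ev M.H2) := by
    rw [Pt.ev_H2]
    refine OL_add (M.ORD_B P hx hη _ _ hM.hSw) ?_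
    have := ORD_mul (M.ORD_B P hx hη _ _ hM.hQw) hY
    exact ORD_mono this (by have := hM.hwd; omega)
  have hdH : OL (-((M.d + (M.w + M.e - 2) : ℕ) : ℤ)) (P.ev (M.dA M.H2)) := by
    rw [ev_dA M K P hx hη0 hY0]
    have h2 : OL (-((0 : ℕ) : ℤ)) (-2 : LaurentSeries K) := by
      have h3 : (-2 : LaurentSeries K) = ((-2 : ℤ) : LaurentSeries K) := by norm_num
      rw [h3]
      exact ORD_int (-2)
    have h4 := OL_mul (ORD_mul (ORD_mul h2 hY) hη) (OL_mon (R := K) 2)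
    have h5 := OL_mul h4 (OL_thL hH2)
    refine OL_mono ?_ h5
    have := hM.hwe
    omega
  have hHH : OL (-((M.d + 1 : ℕ) : ℤ)) (P.ev (M.H1 * M.H2)) := by
    have e1 : P.ev (M.H1 * M.H2) = P.evB (M.S ^ 2 - M.Q ^ 2 * M.D) := by
      rw [map_mul, Pt.ev_H1, Pt.ev_H2, map_sub, map_mul, map_pow, map_pow, Pt.evB_D]
      ring
    rw [e1]
    exact M.ORD_B P hx hη _ _ hM.hNw
  have hD : OL (-((2 * M.w : ℕ) : ℤ)) (P.evB M.D) := by
    rw [Pt.evB_D]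
    exact ORD_pow hY 2
  have hs : OL (-((2 * p * (2 * M.e) + p * (2 * M.w) : ℕ) : ℤ)) (P.ev (M.sA p)) := by
    rw [sA, Pt.ev_iB, map_mul, map_mul, Pt.evB_iP, map_pow, map_pow]
    have h8 : OL (-((0 : ℕ) : ℤ)) (P.evB 8) := by
      have h3 : P.evB 8 = ((8 : ℤ) : LaurentSeries K) := by
        rw [map_ofNat]; norm_num
      rw [h3]
      exact ORD_int 8
    have hE := M.ORD_x P hx M.E (2 * M.e) (by have := hM.hE; omega)
    have := ORD_mul (ORD_mul h8 (ORD_pow hE (2 * p))) (ORD_pow hD p)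
    exact ORD_mono this (by omega)
  have hN := M.ORD_NB p P hx hM.hE hη _ _ hM.hWw
  have hHH' : OL (-((M.d + 1 : ℕ) : ℤ)) (P.ev M.H1 * P.ev M.H2) := by
    rw [← map_mul P.ev M.H1 M.H2]
    exact hHH
  have hd' : OL (-((0 : ℕ) : ℤ)) (P.ev (M.d : M.A)) := by
    have h3 : P.ev (M.d : M.A) = ((M.d : ℕ) : LaurentSeries K) := map_natCast P.ev M.d
    rw [h3]
    exact ORD_nat M.d
  unfold MD.Lm
  simp only [map_mul, map_pow, Pt.ev_iB]
  have h1 := ORD_mul (ORD_mul (ORD_mul (ORD_mul (ORD_mul (ORD_pow hd' p)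
    (ORD_pow hW (2 * p + 1))) (ORD_pow hdH p)) hs) hN) (ORD_pow hHH' (p - 1))
  refine OL_mono ?_ h1
  have hp1 : 1 ≤ p := (Fact.out : p.Prime).one_le
  rw [tot]
  exact ORD_arith p M.d M.w M.e M.om hp1

end gen

theorem ORD_Lm (hM : M.Valid) (hG : M.Good p) (P : M.LPt ℚ_[p]) :
    OL (-((p * M.tot + M.om : ℕ) : ℤ) + (M.d + 1)) (P.toPt.ev (M.Lm p)) ∧
    OL (-((p * M.tot + M.om : ℕ) : ℤ) + (M.d + 1)) (P.toPt.neg.ev (M.Lm p)) := by
  have hη0 : P.η ≠ 0 := by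
    intro h
    have h1 := P.hηc
    rw [h] at h1
    have h2 : (M.e0 : ℚ_[p]) = 0 := h1.symm
    exact hM.ne0 (by exact_mod_cast h2)
  have hY0 : P.Y ≠ 0 := by
    intro h
    have h1 := P.hYc
    rw [h] at h1
    have h2 : (M.y0 : ℚ_[p]) = 0 := h1.symm
    exact hM.ny0 (by exact_mod_cast h2)
  refine ⟨M.ORD_gen p P.toPt hM P.hx P.hηo P.hYo hη0 hY0, ?_⟩
  exact M.ORD_gen p P.toPt.neg hM P.hx P.hηo (OL_neg P.hYo) hη0 (neg_ne_zero.mpr hY0)

end MD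

end Pool.Agent.Lib_helper91.TN
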