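import Pool.Agent.Lib_helper91.TN.FRB

/-! Block VAN: vanishing.
(B) if `b = b0(x)+b1(x)η ∈ M.B` has `TL 2 T (evB b)` with `T ≥ 1` then `p²` divides `b0`, `b1`: induction on the pole order `n`: the leading
coefficient `ld n b` is `≡ 0 mod p²`, so we can remove the leading term.
(A) `ev f + ev' f = 2 evB f.re`; `ev f - ev' f = 2 evB f.im * Y`, and `Y⁻¹` is integral of order `w ≥ 0` (`y0` unit). -/

namespace Pool.Agent.Lib_helper91.TN

open PowerSeries Finset

namespace MD

variable (M : MD) (p : ℕ) [Fact p.Prime]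

/-- coefficientwise form of `wd` -/
theorem VAN_wd (n : ℕ) (b : M.B) (h0 : ∀ i, n < 2 * i → b.re.coeff i = 0)
    (h1 : ∀ j, n < 2 * j + M.e → b.im.coeff j = 0) : M.wd n b := by
  constructor
  · by_contra hc
    push Not at hc
    have h2 := h0 _ hc
    rw [Polynomial.coeff_natDegree, Polynomial.leadingCoeff_eq_zero] at h2
    rw [h2] at hc
    simp at hc
  · by_contra hc
    push Not at hc
    obtain ⟨hc1, hc2⟩ := hc
    have h2 := h1 _ hc2
    rw [Polynomial.coeff_natDegree, Polynomial.leadingCoeff_eq_zero] at h2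
    exact hc1 h2

theorem VAN_PI_int (j : ℕ) (a : ℤ) (h : PI j ((a : ℤ) : ℚ_[p])) : (p : ℤ) ^ j ∣ a := by
  have h1 := (Padic.norm_int_le_pow_iff_dvd (p := p) a j).mp h
  exact_mod_cast h1

theorem VAN_int_PI (j : ℕ) (a : ℤ) (h : (p : ℤ) ^ j ∣ a) : PI j ((a : ℤ) : ℚ_[p]) := by
  refine (Padic.norm_int_le_pow_iff_dvd (p := p) a j).mpr ?_
  exact_mod_cast h

theorem VAN_p2 (P : M.Pt (LaurentSeries ℚ_[p])) :
    IL 2 (P.evB (M.iP (Polynomial.C ((p : ℤ) ^ 2)))) := by
  have h : P.evB (M.iP (Polynomial.C ((p : ℤ) ^ 2))) =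
      (p : LaurentSeries ℚ_[p]) * (p : LaurentSeries ℚ_[p]) := by
    have h1 : (Polynomial.C ((p : ℤ) ^ 2) : Polynomial ℤ) = (p : Polynomial ℤ) * (p : Polynomial ℤ) := by
      simp [sq]
    rw [Pt.evB_iP, h1, map_mul, map_natCast]
  rw [h]
  exact IL_mul IL_p IL_p

theorem VAN_ind (hM : M.Valid) (hG : M.Good p) (P : M.LPt ℚ_[p]) (iη : IL 0 P.η) (n : ℕ) :
    ∀ b : M.B, (∀ i, n ≤ 2 * i → b.re.coeff i = 0) → (∀ j, n ≤ 2 * j + M.e → b.im.coeff j = 0) →
      TL 2 1 (P.toPt.evB b) → (∀ i, (p : ℤ) ^ 2 ∣ b.re.coeff i) ∧ (∀ i, (p : ℤ) ^ 2 ∣ b.im.coeff i) := by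
  induction n with
  | zero =>
    intro b h0 h1 _
    refine ⟨fun i => ?_, fun i => ?_⟩
    · rw [h0 i (Nat.zero_le _)]; exact dvd_zero _
    · rw [h1 i (Nat.zero_le _)]; exact dvd_zero _
  | succ n ih =>
    intro b h0 h1 hT
    have hw : M.wd n b := M.VAN_wd n b (fun i hi => h0 i (by omega)) (fun j hj => h1 j (by omega))
    have hl := (M.lead_evB hM ℚ_[p] P n b hw).2
    have hl1 : PI 2 ((M.ld n b : ℤ) : ℚ_[p]) := by
      rw [← hl]
      exact hT _ (by omega)
    have hl2 := VAN_PI_int p 2 _ hl1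
    have he := hM.he
    by_cases hn : n % 2 = 0
    · -- even: remove the leading term of `b.re`
      rw [ld, if_pos hn] at hl2
      obtain ⟨c, hc⟩ := hl2
      have key : TL 2 1 (P.toPt.evB (b - M.iP (Polynomial.C ((p : ℤ) ^ 2)) *
          M.iP (Polynomial.C c * Polynomial.X ^ (n / 2)))) := by
        rw [map_sub, map_mul]
        exact TL_sub hT (TL_of_IL 1 (IL_mul_right (M.VAN_p2 p P.toPt) (M.IL_evB p P.toPt P.hx iη _)))
      have hre : ∀ i, (b - M.iP (Polynomial.C ((p : ℤ) ^ 2)) *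
          M.iP (Polynomial.C c * Polynomial.X ^ (n / 2))).re.coeff i =
          b.re.coeff i - (p : ℤ) ^ 2 * (if i = n / 2 then c else 0) := by
        intro i
        have : (b - M.iP (Polynomial.C ((p : ℤ) ^ 2)) *
          M.iP (Polynomial.C c * Polynomial.X ^ (n / 2))).re =
          b.re - Polynomial.C ((p : ℤ) ^ 2) * (Polynomial.C c * Polynomial.X ^ (n / 2)) := by
          simp [iP]
        rw [this, Polynomial.coeff_sub, Polynomial.coeff_C_mul, Polynomial.coeff_C_mul,
          Polynomial.coeff_X_pow]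
        simp
      have him : (b - M.iP (Polynomial.C ((p : ℤ) ^ 2)) *
          M.iP (Polynomial.C c * Polynomial.X ^ (n / 2))).im = b.im := by
        simp [iP]
      have h2 := ih _ (fun i hi => by
        rw [hre]
        by_cases h : i = n / 2
        · rw [if_pos h, h, hc]; ring
        · rw [if_neg h, h0 i (by omega)]; ring) (fun j hj => by
        rw [him]
        apply h1
        omega) key
      refine ⟨fun i => ?_, fun i => ?_⟩
      · have h3 := h2.1 i
        rw [hre] at h3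
        have h4 := dvd_add h3 (Dvd.intro (if i = n / 2 then c else 0) rfl : (p : ℤ) ^ 2 ∣ (p : ℤ) ^ 2 * (if i = n / 2 then c else 0))
        rwa [sub_add_cancel] at h4
      · have h3 := h2.2 i
        rwa [him] at h3
    · rw [ld, if_neg hn] at hl2
      by_cases hne : n < M.e
      · -- no term of `b.im`
        exact ih b (fun i hi => h0 i (by omega)) (fun j hj => h1 j (by omega)) hT
      · have hcop : IsCoprime ((p : ℤ) ^ 2) M.e0 := by
          apply IsCoprime.pow_left
          rw [Int.isCoprime_iff_gcd_eq_one]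
          have := hG.he0
          have hp : Prime (p : ℤ) := Nat.prime_iff_prime_int.mp Fact.out
          exact (Int.isCoprime_iff_gcd_eq_one).mp ((Prime.coprime_iff_not_dvd hp).mpr this)
        have hl3 := hcop.dvd_of_dvd_mul_left hl2
        obtain ⟨c, hc⟩ := hl3
        have key : TL 2 1 (P.toPt.evB (b - M.iP (Polynomial.C ((p : ℤ) ^ 2)) *
            (M.iP (Polynomial.C c * Polynomial.X ^ ((n - M.e) / 2)) * M.eta))) := by
          rw [map_sub, map_mul]
          exact TL_sub hT (TL_of_IL 1 (IL_mul_right (M.VAN_p2 p P.toPt) (M.IL_evB p P.toPt P.hx iη _)))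
        have hre : (b - M.iP (Polynomial.C ((p : ℤ) ^ 2)) *
            (M.iP (Polynomial.C c * Polynomial.X ^ ((n - M.e) / 2)) * M.eta)).re = b.re := by
          simp [iP, eta]
        have him : ∀ i, (b - M.iP (Polynomial.C ((p : ℤ) ^ 2)) *
            (M.iP (Polynomial.C c * Polynomial.X ^ ((n - M.e) / 2)) * M.eta)).im.coeff i =
            b.im.coeff i - (p : ℤ) ^ 2 * (if i = (n - M.e) / 2 then c else 0) := by
          intro i
          have : (b - M.iP (Polynomial.C ((p : ℤ) ^ 2)) *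
            (M.iP (Polynomial.C c * Polynomial.X ^ ((n - M.e) / 2)) * M.eta)).im =
            b.im - Polynomial.C ((p : ℤ) ^ 2) * (Polynomial.C c * Polynomial.X ^ ((n - M.e) / 2)) := by
            simp [iP, eta]
          rw [this, Polynomial.coeff_sub, Polynomial.coeff_C_mul, Polynomial.coeff_C_mul,
            Polynomial.coeff_X_pow]
          simp
        have h2 := ih _ (fun i hi => by
          rw [hre]
          apply h0
          omega) (fun j hj => by
          rw [him]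
          by_cases h : j = (n - M.e) / 2
          · rw [if_pos h, h, hc]; ring
          · rw [if_neg h, h1 j (by omega)]; ring) key
        refine ⟨fun i => ?_, fun i => ?_⟩
        · have h3 := h2.1 i
          rwa [hre] at h3
        · have h3 := h2.2 i
          rw [him] at h3
          have h4 := dvd_add h3 (Dvd.intro (if i = (n - M.e) / 2 then c else 0) rfl : (p : ℤ) ^ 2 ∣ (p : ℤ) ^ 2 * (if i = (n - M.e) / 2 then c else 0))
          rwa [sub_add_cancel] at h4

theorem VAN_B (hM : M.Valid) (hG : M.Good p) (P : M.LPt ℚ_[p]) (iη : IL 0 P.η) (T : ℤ) (hT : 1 ≤ T)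
    (b : M.B) (h : TL 2 T (P.toPt.evB b)) : ∃ c : M.B, b = (p : M.B) ^ 2 * c := by
  have h1 := M.VAN_ind p hM hG P iη (2 * b.re.natDegree + 2 * b.im.natDegree + M.e + 1) b
    (fun i hi => Polynomial.coeff_eq_zero_of_natDegree_lt (by omega))
    (fun i hi => Polynomial.coeff_eq_zero_of_natDegree_lt (by omega)) (TL_mono le_rfl hT h)
  obtain ⟨c0, hc0⟩ := (Polynomial.C_dvd_iff_dvd_coeff _ _).mpr h1.1
  obtain ⟨c1, hc1⟩ := (Polynomial.C_dvd_iff_dvd_coeff _ _).mpr h1.2
  refine ⟨⟨c0, c1⟩, ?_⟩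
  have hp2 : (p : M.B) ^ 2 = ⟨Polynomial.C ((p : ℤ) ^ 2), 0⟩ := by
    rw [sq]
    ext1
    · simp [sq]
    · simp
  rw [hp2]
  ext1
  · simp [hc0]
  · simp [hc1]

theorem VAN_half (hp : 3 < p) (T : ℤ) (f : LaurentSeries ℚ_[p]) (h : TL 2 T (2 * f)) : TL 2 T f := by
  intro n hn
  have h1 := h n hn
  have h2 : (2 * f).coeff n = 2 * f.coeff n := by
    rw [two_mul, HahnSeries.coeff_add, two_mul]
  rw [h2] at h1
  unfold PI at h1 ⊢
  have h3 : ‖(2 : ℚ_[p])‖ = 1 := by
    have h4 : ¬ (p ∣ 2) := by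
      intro h
      have := Nat.le_of_dvd (by norm_num) h
      omega
    have h5 := (Padic.norm_natCast_eq_one_iff (p := p) (n := 2)).mpr
      ((Nat.Prime.coprime_iff_not_dvd Fact.out).mpr h4)
    exact_mod_cast h5
  rwa [norm_mul, h3, one_mul] at h1

theorem VAN (hM : M.Valid) (hG : M.Good p) (P : M.LPt ℚ_[p]) (iη : IL 0 P.η) (iY : IL 0 P.Y)
    (f : M.A) (h1 : TL 2 1 (P.toPt.ev f)) (h2 : TL 2 1 (P.toPt.neg.ev f)) :
    ∃ g : M.A, f = (p : M.A) ^ 2 * g := by
  rw [Pt.neg_ev] at h2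
  have e1 : P.toPt.ev f = P.toPt.evB f.re + P.toPt.evB f.im * P.toPt.Y := Pt.ev_apply _ _
  have e2 : P.toPt.ev (M.cj f) = P.toPt.evB f.re - P.toPt.evB f.im * P.toPt.Y := by
    rw [Pt.ev_apply, cj]
    simp only [map_neg]
    ring
  have a1 : TL 2 1 (P.toPt.evB f.re) := by
    apply VAN_half p hG.h3
    have := TL_add h1 h2
    rw [e1, e2] at this
    convert this using 1
    ring
  have a2 : TL 2 1 (P.toPt.evB f.im * P.toPt.Y) := by
    apply VAN_half p hG.h3
    have := TL_sub h1 h2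
    rw [e1, e2] at this
    convert this using 1
    ring
  have hYn : ‖P.Y.coeff (-(M.w : ℤ))‖ = 1 := by
    rw [P.hYc]
    have hp : Nat.Prime p := Fact.out
    have := hG.hy0
    rw [Padic.norm_intCast_eq_one_iff]
    have hp : Prime (p : ℤ) := Nat.prime_iff_prime_int.mp Fact.out
    exact ((Prime.coprime_iff_not_dvd hp).mpr this).symm
  obtain ⟨u1, u2⟩ := exists_unit_int iY P.hYo hYn
  have hY0 : P.Y ≠ 0 := by
    intro h
    rw [h] at hYn
    simp at hYn
  have a3 := TL_mul u1 u2 a2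
  have a4 : P.Y⁻¹ * (P.toPt.evB f.im * P.toPt.Y) = P.toPt.evB f.im := by
    field_simp
  rw [a4, neg_neg] at a3
  obtain ⟨c0, hc0⟩ := M.VAN_B p hM hG P iη 1 le_rfl f.re a1
  obtain ⟨c1, hc1⟩ := M.VAN_B p hM hG P iη (1 + (M.w : ℤ)) (by omega) f.im a3
  refine ⟨⟨c0, c1⟩, ?_⟩
  have hp2 : (p : M.A) ^ 2 = M.iBh ((p : M.B) ^ 2) := by
    rw [map_pow, map_natCast]
  rw [hp2, iBh_apply, iB]
  ext1
  · simp [hc0]
  · simp [hc1]

end MD

end Pool.Agent.Lib_helper91.TN
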