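import Pool.Agent.Lib_helper91.TN.JH
import Pool.Agent.Lib_helper91.TN.ORD
import Pool.Agent.Lib_helper91.TN.VAN
import Pool.Agent.Lib_helper91.TN.Modid

/-! Block BIGJ: `p² ∣ Jh` in `M.A` for large `p`.
exists_LPt, exists_LD, LD_int, modid1, modid2, JJ (with `l1, l2` defined by `l_i = e_i + θg_i/g_i`), then JH at `P` (`e1=1, e2=d, c=d`) and at `P.neg`
(`e1=d, e2=1`, roles of `u1, u2` exchanged, `μ⁻¹`, `c = d⁻¹` by `hR1`), ORD, and `Big`: `T0 - (p tot + om) + (d+1) ≥ 1`; VAN. -/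

namespace Pool.Agent.Lib_helper91.TN

open PowerSeries Finset

theorem BIGJ_norm (p : ℕ) [Fact p.Prime] (n : ℤ) (h : ¬ (p : ℤ) ∣ n) : ‖((n : ℤ) : ℚ_[p])‖ = 1 := by
  have h1 : ‖((n : ℤ) : ℚ_[p])‖ ≤ 1 := Padic.norm_int_le_one n
  refine le_antisymm h1 (not_lt.1 fun h2 => h ?_)
  exact Padic.norm_intCast_lt_one_iff.1 h2

theorem BIGJ_const {K : Type} [Field K] (u : PowerSeries K) (h : constantCoeff u = 1) :
    constantCoeff u⁻¹ = 1 := by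
  rw [PowerSeries.constantCoeff_inv, h, inv_one]

theorem MD.Jh_dvd (M : MD) (p : ℕ) [Fact p.Prime] (hM : M.Valid) (hG : M.Good p) (hB : M.Big p) :
    ∃ g : M.A, M.Jh p = (p : M.A) ^ 2 * g := by
  obtain ⟨P, iη, iY⟩ := M.exists_LPt hM p hG
  obtain ⟨u1, u2, μ, hL⟩ := M.exists_LD hM ℚ_[p] P
  obtain ⟨iu1, iu2, iμ⟩ := M.LD_int hM p hG P iη iY u1 u2 μ hL
  have hpp : p.Prime := Fact.out
  have h3 : 3 < p := hG.h3
  have hdp : ¬ p ∣ M.d := fun h => hG.hd (by exact_mod_cast h)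
  have nd : ‖((M.d : ℕ) : ℚ_[p])‖ = 1 := norm_natCast_eq_one M.d hdp
  have d0 : ((M.d : ℕ) : ℚ_[p]) ≠ 0 := by
    intro h
    rw [h, norm_zero] at nd
    exact zero_ne_one nd
  have hη0 : P.η ≠ 0 := by
    intro h
    have h1 := P.hηc
    rw [h, HahnSeries.coeff_zero] at h1
    exact hM.ne0 (by exact_mod_cast h1.symm)
  have hY0 : P.Y ≠ 0 := by
    intro h
    have h1 := P.hYc
    rw [h, HahnSeries.coeff_zero] at h1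
    exact hM.ny0 (by exact_mod_cast h1.symm)
  have c1 := BIGJ_const u1 hL.c1
  have c2 := BIGJ_const u2 hL.c2
  have cμ := BIGJ_const μ hL.cμ
  have ne1 : constantCoeff u1 ≠ 0 := by rw [hL.c1]; exact one_ne_zero
  have ne2 : constantCoeff u2 ≠ 0 := by rw [hL.c2]; exact one_ne_zero
  have neμ : constantCoeff μ ≠ 0 := by rw [hL.cμ]; exact one_ne_zero
  have ig1 : ∀ T, PO 0 T u1⁻¹ := fun T => PO_inv (iu1 T) (by rw [hL.c1, norm_one])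
  have ig2 : ∀ T, PO 0 T u2⁻¹ := fun T => PO_inv (iu2 T) (by rw [hL.c2, norm_one])
  have igμ : ∀ T, PO 0 T μ⁻¹ := fun T => PO_inv (iμ T) (by rw [hL.cμ, norm_one])
  set l1 : PowerSeries ℚ_[p] := 1 + th u1⁻¹ * u1 with hl1d
  set l2 : PowerSeries ℚ_[p] := (M.d : PowerSeries ℚ_[p]) + th u2⁻¹ * u2 with hl2d
  have hl1 : l1 * u1⁻¹ = u1⁻¹ + th u1⁻¹ := by
    rw [hl1d, add_mul, one_mul, mul_assoc, PowerSeries.mul_inv_cancel u1 ne1, mul_one]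
  have hl2 : l2 * u2⁻¹ = (M.d : PowerSeries ℚ_[p]) * u2⁻¹ + th u2⁻¹ := by
    rw [hl2d, add_mul, mul_assoc (th u2⁻¹), PowerSeries.mul_inv_cancel u2 ne2, mul_one]
  have hF := M.modid1 hM ℚ_[p] P u1 u2 μ hL
  have hW := M.modid2 hM ℚ_[p] P u1 u2 μ hL l1 l2 hl1 hl2
  obtain ⟨J1, J2⟩ := JJ p h3 M.d hM.hd hdp u1⁻¹ u2⁻¹ l1 l2 μ c1 c2 ig1 ig2 hl1 hl2 hL.cμ hF hW
  obtain ⟨w', hw, iw⟩ : ∃ w' : LaurentSeries ℚ_[p], P.toPt.evB M.W * w' = 1 ∧ IL 0 w' := by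
    obtain ⟨o, c⟩ := M.lead_evB hM ℚ_[p] P M.om M.W hM.hWw
    rw [hM.hW0] at c
    have hn : ‖(P.toPt.evB M.W).coeff (-(M.om : ℤ))‖ = 1 := by
      rw [c]
      exact BIGJ_norm p M.w0 hG.hw0
    have i := M.IL_evB p P.toPt P.hx iη M.W
    refine ⟨(P.toPt.evB M.W)⁻¹, mul_inv_cancel₀ hL.hW0, (exists_unit_int i o hn).1⟩
  obtain ⟨O1, O2⟩ := M.ORD_Lm p hM hG P
  have t1 := M.JH p hM hG P.toPt P.hx iη iY hη0 hY0 w' hw iw 1 M.d le_rfl hdp u1 u2 μ l2 hL.c1 hL.c2 hL.cμ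
    iu1 iu2 iμ hl2 (M.d : ℚ_[p]) nd hL.hH2 (by simpa using hL.hH1) hL.hR2 J1 _ O1
  have cd : ‖((M.d : ℕ) : ℚ_[p])⁻¹‖ = 1 := by rw [norm_inv, nd, inv_one]
  have hCC : cL ℚ_[p] (C ((M.d : ℕ) : ℚ_[p])⁻¹) * cL ℚ_[p] (C ((M.d : ℕ) : ℚ_[p])) = 1 := by
    rw [← map_mul, ← map_mul, inv_mul_cancel₀ d0, map_one, map_one]
  have hμμ : cL ℚ_[p] μ * cL ℚ_[p] μ⁻¹ = 1 := by
    rw [← map_mul, PowerSeries.mul_inv_cancel μ neμ, map_one]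
  have t2 := M.JH p hM hG P.toPt.neg P.hx iη
    (show IL 0 (-P.Y) from IL_neg iY) hη0 (show -P.Y ≠ 0 from neg_ne_zero.2 hY0) w'
    (by rw [MD.Pt.neg_evB]; exact hw) iw M.d 1 hM.hd (by
      intro h
      exact hpp.one_lt.ne' (Nat.dvd_one.1 h))
    u2 u1 μ⁻¹ l1 hL.c2 hL.c1 cμ iu2 iu1 igμ (by rw [hl1]; simp) ((M.d : ℕ) : ℚ_[p])⁻¹ cd
    (by
      rw [MD.Pt.neg_ev, MD.cj_H2]
      simpa using hL.hH1)
    (by
      rw [MD.Pt.neg_ev, MD.cj_H1]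
      exact hL.hH2)
    (by
      rw [MD.Pt.neg_ev, MD.cj_R2, MD.Pt.neg_evB, ← hL.hR1]
      linear_combination (-(P.toPt.ev M.R1)) * (cL ℚ_[p] μ * cL ℚ_[p] μ⁻¹) * hCC
        - (P.toPt.ev M.R1) * hμμ)
    J2 _ O2
  have hbig : p * M.tot + M.om ≤ T0 p := hB
  have hge : (1 : ℤ) ≤ (T0 p : ℤ) + (-((p * M.tot + M.om : ℕ) : ℤ) + (M.d + 1)) := by
    have : ((p * M.tot + M.om : ℕ) : ℤ) ≤ (T0 p : ℤ) := by exact_mod_cast hbig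
    have : (0 : ℤ) ≤ (M.d : ℤ) := Int.natCast_nonneg _
    linarith
  exact M.VAN p hM hG P iη iY (M.Jh p) (TL_mono le_rfl hge t1) (TL_mono le_rfl hge t2)

end Pool.Agent.Lib_helper91.TN
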