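import Pool.Agent.Lib_helper91.TN.CMN

/-! Block FIN: the final algebra.  `L2` unit: `L2 - L1 = L1 (s d M0 - 1)`, so `L1` is a unit, hence `L2`; `M0` unit by hM.
χ = 1: J0 times `a`, hk: `p g0 = pm f0`.  J1 times `a`, cancel `L2 (L2-L1) M0`: `a f1 + b f0 = b (p f0 + p g1 - pm f1)`.
  If `f0` is a unit: `f0 (p f0 + p g1 - pm f1) = p (f0² + f0 g1 - g0 f1) = p f0 χP`, so the claim.
  Otherwise `p f0 = 0`, so `p f1 = 0`, J2: `p f2 M0 (L2²-L1²) = 0`, `p f2 = 0`, contradiction to hS.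
χ = -1: `tL2 = L1`, `tM0 = M̄`, `tM1 = M̄1`, `a M̄1 = -b M̄ (L1-L2)`, `d M̄ L2 = s L1`, `d M0 L1 = s L2`.  J0 times `p`: `p f0 = 0`; hS: `p f1 = p g0 = 0`,
  `p g1 = -p χP`; J0: `f0 = 0`; J1 times `a d`: `s L1 (L1-L2) (a f1 + b p χP) = 0`. -/

namespace Pool.Agent.Lib_helper91.TN

open PowerSeries Finset

theorem FIN_cancel {R : Type} [CommRing R] {u x : R} (hu : IsUnit u) (h : u * x = 0) : x = 0 :=
  (hu.mul_right_eq_zero).1 h

theorem FIN_units {R : Type} [CommRing R] (d s L1 L2 M0 Mb : R) (hM : d ^ 2 * M0 * Mb = 1)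
    (hs : s * s = 1) (hs' : L2 = s * d * M0 * L1) (ud : IsUnit d) (um : IsUnit (L2 - L1)) :
    IsUnit M0 ∧ IsUnit Mb ∧ IsUnit L1 ∧ IsUnit L2 ∧ IsUnit s := by
  have h1 : IsUnit M0 := IsUnit.of_mul_eq_one (d ^ 2 * Mb) (by linear_combination hM)
  have h2 : IsUnit Mb := IsUnit.of_mul_eq_one (d ^ 2 * M0) (by linear_combination hM)
  have h3 : IsUnit s := IsUnit.of_mul_eq_one s hs
  have h4 : IsUnit L1 := by
    have e : L2 - L1 = (s * d * M0 - 1) * L1 := by rw [hs']; ring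
    rw [e] at um
    exact isUnit_of_mul_isUnit_right um
  refine ⟨h1, h2, h4, ?_, h3⟩
  rw [hs']
  exact ((h3.mul ud).mul h1).mul h4

theorem FIN_one {R : Type} [CommRing R] (p a b d s L1 L2 M0 Mb M1 F0 F1 G0 G1 pm : R)
    (hM : d ^ 2 * M0 * Mb = 1) (hk : a * M1 = -b * M0 * (L2 - L1)) (hs : s * s = 1)
    (hs' : L2 = s * d * M0 * L1) (ub : IsUnit b) (ud : IsUnit d) (um : IsUnit (L2 - L1))
    (J0 : M1 * (p * G0 - pm * F0) = 0)
    (J1 : L2 * (F1 * (L2 * M0 - L1 * M0) - M1 * F0) + M1 * L2 * (p * F0 + p * G1 - pm * F1) = 0) :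
    p * G0 = pm * F0 ∧ a * F1 + b * F0 = b * (p * F0 + p * G1 - pm * F1) := by
  obtain ⟨u1, u2, u3, u4, u5⟩ := FIN_units d s L1 L2 M0 Mb hM hs hs' ud um
  constructor
  · have e : (b * M0 * (L2 - L1)) * (p * G0 - pm * F0) = 0 := by
      linear_combination (p * G0 - pm * F0) * hk - a * J0
    exact sub_eq_zero.1 (FIN_cancel ((ub.mul u1).mul um) e)
  · have e : (L2 * M0 * (L2 - L1)) * (a * F1 + b * F0 - b * (p * F0 + p * G1 - pm * F1)) = 0 := by
      linear_combination a * J1 + (L2 * F0 - L2 * (p * F0 + p * G1 - pm * F1)) * hk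
    exact sub_eq_zero.1 (FIN_cancel ((u4.mul u1).mul um) e)

theorem FIN_two {R : Type} [CommRing R] (p a b d s L1 L2 M0 Mb M1 M1b F0 F1 G0 G1 pm q P : R)
    (hpp : p * p = 0) (hq : pm = p * q)
    (hM : d ^ 2 * M0 * Mb = 1) (hkb : a * M1b = -b * Mb * (L1 - L2)) (hs : s * s = 1)
    (hs' : L2 = s * d * M0 * L1) (hsb : L1 = s * d * Mb * L2)
    (ud : IsUnit d) (um : IsUnit (L2 - L1)) (uM : IsUnit (M0 - Mb))
    (J0 : L1 * (F0 * (Mb - M0)) + M1b * (p * G0 - pm * F0) = 0)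
    (J1 : L1 * (F1 * (L2 * Mb - L1 * M0) - M1 * F0)
      + M1b * L2 * (p * F0 + p * G1 - pm * F1) = 0)
    (hS : p * F0 = 0 → p * F1 = 0 ∧ p * G0 = 0 ∧ p * (G1 + P) = 0) :
    a * F1 + b * F0 = -(b * p * P) ∧ F0 = 0 ∧ p * G0 = 0 ∧ p * (G1 + P) = 0 := by
  obtain ⟨u1, u2, u3, u4, u5⟩ := FIN_units d s L1 L2 M0 Mb hM hs hs' ud um
  have h1 : p * F0 = 0 := by
    have e : (L1 * (M0 - Mb)) * (p * F0) = 0 := by
      rw [hq] at J0
      linear_combination (-p) * J0 + (M1b * (G0 - q * F0)) * hpp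
    exact FIN_cancel (u3.mul uM) e
  obtain ⟨h2, h3, h4⟩ := hS h1
  have h5 : F0 = 0 := by
    have e : (L1 * (M0 - Mb)) * F0 = 0 := by
      rw [hq] at J0
      linear_combination (-1) * J0 + M1b * h3 - (M1b * q) * h1
    exact FIN_cancel (u3.mul uM) e
  have h6 : (s * L1 * (L2 - L1)) * (a * F1 + b * p * P) = 0 := by
    rw [hq, h5] at J1
    -- J1 : L1 * (F1 * (L2*Mb - L1*M0)) + M1b*L2*(p*G1 - p*q*F1) = 0
    have e1 : d * (L2 * Mb) = s * L1 := by
      linear_combination (-s) * hsb - (d * Mb * L2) * hs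
    have e2 : d * (L1 * M0) = s * L2 := by
      linear_combination (-s) * hs' - (d * M0 * L1) * hs
    linear_combination (-(a * d)) * J1 + (a * L1 * F1) * (e1 - e2)
      + (d * L2 * (p * G1 - p * q * F1)) * hkb - (b * (L1 - L2) * (p * G1 - p * q * F1)) * e1
      - (b * (L1 - L2) * s * L1) * h4 + (b * (L1 - L2) * s * L1 * q) * h2
  have h7 := FIN_cancel ((u5.mul u3).mul um) h6
  refine ⟨?_, h5, h3, h4⟩
  rw [h5]
  linear_combination h7

theorem FIN_tau_tau (p : ℕ) (D0 : ℤ) (u : QK p D0) : tau p D0 (-1) (tau p D0 (-1) u) = u := by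
  unfold tau
  ext <;> simp

theorem FIN_int (p : ℕ) (D0 : ℤ) (n : ℤ) : ((n : ℤ) : QK p D0) = iK p D0 (n : ZMod (p ^ 2)) := by
  rw [map_intCast]

theorem FIN_nat (p : ℕ) (D0 : ℤ) (n : ℕ) : ((n : ℕ) : QK p D0) = iK p D0 (n : ZMod (p ^ 2)) := by
  rw [map_natCast]

theorem FIN_tau_int (p : ℕ) (D0 χ : ℤ) (n : ℤ) : tau p D0 χ ((n : ℤ) : QK p D0) = (n : QK p D0) := by
  rw [FIN_int, tau_iK]

theorem FIN_inj (p : ℕ) (D0 : ℤ) {x y : ZMod (p ^ 2)} (h : iK p D0 x = iK p D0 y) : x = y := by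
  have := congrArg QuadraticAlgebra.re h
  exact this

theorem FIN_unit (p : ℕ) [Fact p.Prime] (x : ZMod (p ^ 2)) :
    IsUnit x ∨ (p : ZMod (p ^ 2)) * x = 0 := by
  have hp : p.Prime := Fact.out
  have : NeZero (p ^ 2) := ⟨pow_ne_zero 2 hp.ne_zero⟩
  obtain ⟨n, rfl⟩ := ZMod.natCast_zmod_surjective x
  by_cases h : p ∣ n
  · right
    obtain ⟨m, rfl⟩ := h
    have : ((p ^ 2 : ℕ) : ZMod (p ^ 2)) = 0 := ZMod.natCast_self _
    push_cast at this ⊢
    linear_combination (m : ZMod (p ^ 2)) * this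
  · left
    rw [ZMod.isUnit_iff_coprime]
    exact Nat.Coprime.pow_right 2 ((Nat.Prime.coprime_iff_not_dvd hp).2 h).symm

theorem FIN (p : ℕ) [Fact p.Prime] (hp : 3 < p) (D0 χ : ℤ) (hχ : χ = 1 ∨ χ = -1) (a b d s : ℤ)
    (L1 L2 M0 M1 : QK p D0) (hN : MD.Num p D0 a b d s L1 L2 M0 M1)
    (f0 f1 f2 g0 g1 χP pm q : ZMod (p ^ 2)) (hq : pm = (p : ZMod (p ^ 2)) * q)
    (J0 : tau p D0 χ L2 * (iK p D0 f0 * (tau p D0 χ M0 - M0))
      + tau p D0 χ M1 * ((p : QK p D0) * iK p D0 g0 - iK p D0 pm * iK p D0 f0) = 0)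
    (J1 : tau p D0 χ L2 * (iK p D0 f1 * (L2 * tau p D0 χ M0 - L1 * M0) - M1 * iK p D0 f0)
      + tau p D0 χ M1 * L2 * ((p : QK p D0) * iK p D0 f0 + (p : QK p D0) * iK p D0 g1
        - iK p D0 pm * iK p D0 f1) = 0)
    (J2 : (p : QK p D0) * iK p D0 f0 = 0 → (p : QK p D0) * iK p D0 f1 = 0 →
      (p : QK p D0) * (iK p D0 f2 * (L2 ^ 2 * tau p D0 χ M0 - L1 ^ 2 * M0)) = 0)
    (hW : (p : ZMod (p ^ 2)) * (f0 ^ 2 + (f0 * g1 - g0 * f1) - f0 * χP) = 0)
    (hS : (p : ZMod (p ^ 2)) * f0 = 0 → (p : ZMod (p ^ 2)) * f1 = 0 ∧ (p : ZMod (p ^ 2)) * g0 = 0 ∧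
      (p : ZMod (p ^ 2)) * (g1 + χP) = 0 ∧ (p : ZMod (p ^ 2)) * f2 ≠ 0) :
    (a : ZMod (p ^ 2)) * f1 + (b : ZMod (p ^ 2)) * f0
      = (b : ZMod (p ^ 2)) * (p : ZMod (p ^ 2)) * χP * (χ : ZMod (p ^ 2)) ∧
    (p : ZMod (p ^ 2)) * ((a : ZMod (p ^ 2)) * f0 + (a : ZMod (p ^ 2)) * g1 + (b : ZMod (p ^ 2)) * g0)
      = (a : ZMod (p ^ 2)) * (p : ZMod (p ^ 2)) * χP * (χ : ZMod (p ^ 2)) ∧
    (χ = -1 → f0 = 0 ∧ (p : ZMod (p ^ 2)) * g0 = 0) ∧
    (χ = 1 → (p : ZMod (p ^ 2)) * g0 = pm * f0) := by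
  have hppZ : (p : ZMod (p ^ 2)) * (p : ZMod (p ^ 2)) = 0 := by
    have : ((p ^ 2 : ℕ) : ZMod (p ^ 2)) = 0 := ZMod.natCast_self _
    push_cast at this
    linear_combination this
  have hss : (s : QK p D0) * (s : QK p D0) = 1 := by
    rcases hN.hs with h | h <;> rw [h] <;> simp
  rcases hχ with rfl | rfl
  · simp only [tau_one_eq] at J0 J1 J2
    have J0' : M1 * ((p : QK p D0) * iK p D0 g0 - iK p D0 pm * iK p D0 f0) = 0 := by
      linear_combination J0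
    obtain ⟨k1, k2⟩ := FIN_one (p : QK p D0) a b d s L1 L2 M0 (tau p D0 (-1) M0) M1 (iK p D0 f0)
      (iK p D0 f1) (iK p D0 g0) (iK p D0 g1) (iK p D0 pm) hN.hM hN.hk hss hN.hs' hN.ub hN.ud hN.um
      J0' J1
    have k1' : (p : ZMod (p ^ 2)) * g0 = pm * f0 := by
      apply FIN_inj p D0
      rw [map_mul, map_mul, map_natCast]
      exact k1
    have k2' : (a : ZMod (p ^ 2)) * f1 + (b : ZMod (p ^ 2)) * f0
        = b * (p * f0 + p * g1 - pm * f1) := by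
      apply FIN_inj p D0
      simp only [map_mul, map_natCast, map_add, map_sub, map_intCast]
      exact k2
    rcases FIN_unit p f0 with hu | hz
    · have e : f0 * ((p : ZMod (p ^ 2)) * f0 + p * g1 - pm * f1 - p * χP) = 0 := by
        linear_combination hW + f1 * k1'
      have e2 := FIN_cancel hu e
      refine ⟨?_, ?_, fun h => absurd h (by norm_num), fun _ => k1'⟩
      · rw [k2']
        push_cast
        linear_combination (b : ZMod (p ^ 2)) * e2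
      · push_cast
        linear_combination ((a : ZMod (p ^ 2)) + pm * (b : ZMod (p ^ 2))) * e2
          + (b : ZMod (p ^ 2)) * k1' + pm * k2' + (q * (b : ZMod (p ^ 2)) * χP) * hppZ
          + ((b : ZMod (p ^ 2)) * (p : ZMod (p ^ 2)) * χP) * hq
    · exfalso
      obtain ⟨s1, s2, s3, s4⟩ := hS hz
      apply s4
      have z0 : (p : QK p D0) * iK p D0 f0 = 0 := by
        rw [FIN_nat, ← map_mul, hz, map_zero]
      have z1 : (p : QK p D0) * iK p D0 f1 = 0 := by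
        rw [FIN_nat, ← map_mul, s1, map_zero]
      have z2 := J2 z0 z1
      obtain ⟨u1, u2, u3, u4, u5⟩ := FIN_units (d : QK p D0) s L1 L2 M0 _ hN.hM hss hN.hs' hN.ud hN.um
      have z3 : (M0 * (L2 - L1) * (L2 + L1)) * ((p : QK p D0) * iK p D0 f2) = 0 := by
        linear_combination z2
      have z4 := FIN_cancel ((u1.mul hN.um).mul hN.up) z3
      apply FIN_inj p D0
      rw [map_mul, map_natCast, map_zero]
      exact z4
  · have t1 : tau p D0 (-1) L2 = L1 := hN.hL.symm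
    have t2 : tau p D0 (-1) L1 = L2 := by rw [hN.hL, FIN_tau_tau]
    have hneg : ∀ u v : QK p D0, tau p D0 (-1) (u - v) = tau p D0 (-1) u - tau p D0 (-1) v := by
      intro u v
      unfold tau
      ext <;> simp <;> ring
    have hneg' : ∀ u : QK p D0, tau p D0 (-1) (-u) = -tau p D0 (-1) u := by
      intro u
      unfold tau
      ext <;> simp
    have hmul : ∀ u v : QK p D0, tau p D0 (-1) (u * v) = tau p D0 (-1) u * tau p D0 (-1) v :=
      fun u v => tau_mul p D0 (-1) (Or.inr rfl) u v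
    have hkb : (a : QK p D0) * tau p D0 (-1) M1 = -(b : QK p D0) * tau p D0 (-1) M0 * (L1 - L2) := by
      have := congrArg (tau p D0 (-1)) hN.hk
      rw [hmul, hmul, hmul, hneg, hneg', t1, t2, FIN_tau_int, FIN_tau_int] at this
      exact this
    have hsb : L1 = (s : QK p D0) * (d : QK p D0) * tau p D0 (-1) M0 * L2 := by
      have := congrArg (tau p D0 (-1)) hN.hs'
      rw [hmul, hmul, hmul, t1, t2, FIN_tau_int, FIN_tau_int] at this
      exact this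
    rw [t1] at J0 J1
    have hpp : (p : QK p D0) * (p : QK p D0) = 0 := by
      have := QK_p_sq p D0
      rwa [sq] at this
    obtain ⟨key, kf0, kg0, kg1⟩ := FIN_two (p : QK p D0) a b d s L1 L2 M0 (tau p D0 (-1) M0) M1 (tau p D0 (-1) M1)
      (iK p D0 f0) (iK p D0 f1) (iK p D0 g0) (iK p D0 g1) (iK p D0 pm) (iK p D0 q) (iK p D0 χP)
      hpp (by rw [hq, map_mul, map_natCast]) hN.hM hkb hss hN.hs' hsb hN.ud hN.um hN.uM J0 J1
      (by
        intro h
        have h' : (p : ZMod (p ^ 2)) * f0 = 0 := by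
          apply FIN_inj p D0
          rw [map_mul, map_natCast, map_zero]
          exact h
        obtain ⟨s1, s2, s3, s4⟩ := hS h'
        refine ⟨?_, ?_, ?_⟩
        · rw [FIN_nat, ← map_mul, s1, map_zero]
        · rw [FIN_nat, ← map_mul, s2, map_zero]
        · rw [FIN_nat, ← map_add, ← map_mul, s3, map_zero])
    have f0z : f0 = 0 := by
      apply FIN_inj p D0
      rw [kf0, map_zero]
    have g0z : (p : ZMod (p ^ 2)) * g0 = 0 := by
      apply FIN_inj p D0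
      rw [map_mul, map_natCast, map_zero]
      exact kg0
    have g1z : (p : ZMod (p ^ 2)) * (g1 + χP) = 0 := by
      apply FIN_inj p D0
      rw [map_mul, map_natCast, map_add, map_zero]
      exact kg1
    refine ⟨?_, ?_, fun _ => ⟨f0z, g0z⟩, fun h => absurd h (by norm_num)⟩
    · apply FIN_inj p D0
      simp only [map_mul, map_natCast, map_add, map_intCast]
      rw [key]
      push_cast
      ring
    · push_cast
      linear_combination ((p : ZMod (p ^ 2)) * (a : ZMod (p ^ 2))) * f0z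
        + (a : ZMod (p ^ 2)) * g1z + (b : ZMod (p ^ 2)) * g0z

end Pool.Agent.Lib_helper91.TN
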