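import Pool.Agent.Lib_helper91.TN.A8b

/-! Block SS: supersingular points.  In `(ZMod p)[X]` put `f = ∑_{k<p} bb k X^k`, `g = ∑_{k<p} gl k X^k`, `P = 1-28X-128X²`, `θ = X d/dX`.
A8 (all terms have degree `≤ 2p-2 < T0 p`): `f² + fθg - gθf = f P^q`.   A8b: `P(2fθ²f-(θf)²) = (28X+256X²) fθf + (8X+96X²) f²`.
SSW: evaluate at `v`.
SS: let `n ≥ 1` be the multiplicity of the root `v ≠ 0` of `f` (`n < p` since `deg f < p`, `f(0)=1`), `f = (X-v)^n u`, `u(v) ≠ 0`.
 A8b at order `2n-2`: `P(v) v² u(v)² (2n(n-1) - n²) = 0`, so `n = 2`: `θf(v) = 0`, `θ²f(v) = 2v²u(v) ≠ 0`.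
 A8: `f ∣ g θf` gives `(X-v) ∣ g`; compare the coefficient of `(X-v)²`: `-θg(v) = P(v)^q`.
See Lib_helper57/AP/A9.lean for the passage from `PO` to `(ZMod p)[X]`. -/

namespace Pool.Agent.Lib_helper91.TN

open PowerSeries Finset

/-- the algebra of the supersingular points -/
theorem SS_alg {K : Type} [Field K] (f g P c1 c2 Q : Polynomial K) (v : K) (hf0 : f ≠ 0) (hv : v ≠ 0)
    (hfv : f.eval v = 0) (hn : ∀ n : ℕ, 0 < n → n ≤ f.natDegree → (n : K) ≠ 0)
    (hn2 : ∀ n : ℕ, 0 < n → n ≤ f.natDegree → (n : K) = 2 → n = 2) (h2 : (2 : K) ≠ 0)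
    (hP : P.eval v ≠ 0)
    (hb : P * (2 * f * (Polynomial.X * Polynomial.derivative (Polynomial.X * Polynomial.derivative f))
        - (Polynomial.X * Polynomial.derivative f) ^ 2)
      = c1 * f * (Polynomial.X * Polynomial.derivative f) + c2 * f ^ 2)
    (ha : f ^ 2 + (f * (Polynomial.X * Polynomial.derivative g)
      - g * (Polynomial.X * Polynomial.derivative f)) = f * Q) :
    (Polynomial.X * Polynomial.derivative f).eval v = 0 ∧ g.eval v = 0 ∧
      (Polynomial.X * Polynomial.derivative g).eval v = -Q.eval v ∧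
      (Polynomial.X * Polynomial.derivative (Polynomial.X * Polynomial.derivative f)).eval v ≠ 0 := by
  obtain ⟨u, hu, hud⟩ := Polynomial.exists_eq_pow_rootMultiplicity_mul_and_not_dvd f hf0 v
  set n := Polynomial.rootMultiplicity v f with hndef
  have hnpos : 0 < n := (Polynomial.rootMultiplicity_pos hf0).2 hfv
  have hnle : n ≤ f.natDegree := by
    have h1 : (Polynomial.X - Polynomial.C v) ^ n ∣ f := Polynomial.pow_rootMultiplicity_dvd f v
    have h3 := Polynomial.natDegree_le_of_dvd h1 hf0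
    rwa [Polynomial.natDegree_pow, Polynomial.natDegree_X_sub_C, mul_one] at h3
  have huv : u.eval v ≠ 0 := fun h0 => hud (Polynomial.dvd_iff_isRoot.2 h0)
  obtain ⟨t, ht⟩ : ∃ t, n = t + 1 := ⟨n - 1, by omega⟩
  set Z : Polynomial K := Polynomial.X - Polynomial.C v with hZ
  have hZ0 : Z ≠ 0 := Polynomial.X_sub_C_ne_zero v
  have hZd : Polynomial.derivative Z = 1 := by
    rw [hZ, Polynomial.derivative_sub, Polynomial.derivative_X, Polynomial.derivative_C, sub_zero]
  have hZv : Z.eval v = 0 := by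
    rw [hZ, Polynomial.eval_sub, Polynomial.eval_X, Polynomial.eval_C, sub_self]
  clear_value n
  subst ht
  clear_value Z
  set A : Polynomial K := ((t : Polynomial K) + 1) * Polynomial.X * u
    + Z * (Polynomial.X * Polynomial.derivative u) with hA
  have hA1 : Polynomial.X * Polynomial.derivative f = Z ^ t * A := by
    rw [hu, Polynomial.derivative_mul, Polynomial.derivative_pow, hZd, hA]
    simp only [Nat.add_sub_cancel, Polynomial.C_eq_natCast]
    push_cast
    ring
  set B : Polynomial K := (t : Polynomial K) * A + Z * Polynomial.derivative A with hB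
  have hB1 : Z * (Polynomial.X * Polynomial.derivative (Polynomial.X * Polynomial.derivative f))
      = Z ^ t * (Polynomial.X * B) := by
    rw [hA1, Polynomial.derivative_mul, Polynomial.derivative_pow, hZd, hB]
    rcases t with _ | t
    · simp only [Nat.cast_zero, pow_zero, map_zero]
      ring
    · simp only [Nat.add_sub_cancel, Polynomial.C_eq_natCast]
      push_cast
      ring
  have hAv : A.eval v = ((t : K) + 1) * v * u.eval v := by
    rw [hA]
    simp only [Polynomial.eval_add, Polynomial.eval_mul, Polynomial.eval_natCast,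
      Polynomial.eval_one, Polynomial.eval_X, hZv]
    ring
  have hBv : B.eval v = (t : K) * A.eval v := by
    rw [hB]
    simp only [Polynomial.eval_add, Polynomial.eval_mul, Polynomial.eval_natCast, hZv]
    ring
  -- the multiplicity is two
  have hkey : Z ^ (2 * t) * (P * (2 * u * (Polynomial.X * B) - A ^ 2))
      = Z ^ (2 * t) * (Z * (c1 * u * A + c2 * Z * u ^ 2)) := by
    have e1 : P * (2 * f * (Polynomial.X * Polynomial.derivative (Polynomial.X * Polynomial.derivative f))
        - (Polynomial.X * Polynomial.derivative f) ^ 2)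
        = Z ^ (2 * t) * (P * (2 * u * (Polynomial.X * B) - A ^ 2)) := by
      have e2' : ∀ E : Polynomial K, Z * E = Z ^ t * (Polynomial.X * B) →
          f * E = Z ^ (2 * t) * (u * (Polynomial.X * B)) := by
        intro E hE
        rw [hu]
        calc Z ^ (t + 1) * u * E = Z ^ t * u * (Z * E) := by ring
          _ = Z ^ t * u * (Z ^ t * (Polynomial.X * B)) := by rw [hE]
          _ = _ := by ring
      have e2 := e2' _ hB1
      calc _ = P * (2 * (f * (Polynomial.X * Polynomial.derivative (Polynomial.X *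
              Polynomial.derivative f))) - (Polynomial.X * Polynomial.derivative f) ^ 2) := by ring
        _ = P * (2 * (Z ^ (2 * t) * (u * (Polynomial.X * B))) - (Z ^ t * A) ^ 2) := by
            rw [e2, hA1]
        _ = _ := by ring
    rw [← e1, hb, hA1]
    conv_lhs => rw [hu]
    ring
  have hkey2 := mul_left_cancel₀ (pow_ne_zero (2 * t) hZ0) hkey
  have hkey3 := congrArg (Polynomial.eval v) hkey2
  simp only [Polynomial.eval_mul, Polynomial.eval_sub, Polynomial.eval_X, Polynomial.eval_add,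
    Polynomial.eval_pow, Polynomial.eval_ofNat, hZv, zero_mul] at hkey3
  rw [hBv, hAv] at hkey3
  have ht2 : (((t + 1 : ℕ) : ℕ) : K) = 2 := by
    have e3 : P.eval v * (2 * u.eval v * (v * ((t : K) * (((t : K) + 1) * v * u.eval v)))
        - (((t : K) + 1) * v * u.eval v) ^ 2)
        = (P.eval v * v ^ 2 * u.eval v ^ 2 * (((t + 1 : ℕ) : ℕ) : K)) * ((((t + 1 : ℕ) : ℕ) : K) - 2) := by
      push_cast
      ring
    rw [e3] at hkey3
    have hne : P.eval v * v ^ 2 * u.eval v ^ 2 * (((t + 1 : ℕ) : ℕ) : K) ≠ 0 :=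
      mul_ne_zero (mul_ne_zero (mul_ne_zero hP (pow_ne_zero 2 hv)) (pow_ne_zero 2 huv))
        (hn _ hnpos hnle)
    exact sub_eq_zero.1 ((mul_eq_zero.1 hkey3).resolve_left hne)
  have ht1 : t = 1 := by
    have := hn2 _ hnpos hnle ht2
    omega
  subst ht1
  have hAv' : A.eval v = 2 * v * u.eval v := by
    rw [hAv]; push_cast; ring
  have hAne : A.eval v ≠ 0 := by
    rw [hAv']
    exact mul_ne_zero (mul_ne_zero h2 hv) huv
  have hθθ : Polynomial.X * Polynomial.derivative (Polynomial.X * Polynomial.derivative f)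
      = Polynomial.X * B := by
    rw [pow_one] at hB1
    exact mul_left_cancel₀ hZ0 hB1
  -- the second relation
  have hg1 : Z * (Z ^ 2 * u ^ 2 + u * (Polynomial.X * Polynomial.derivative g) - u * Q) = g * A := by
    have e4 : Z * (Z * (Z ^ 2 * u ^ 2 + u * (Polynomial.X * Polynomial.derivative g) - u * Q))
        = Z * (g * A) := by
      have e5 := ha
      rw [hA1] at e5
      rw [hu] at e5
      linear_combination e5
    exact mul_left_cancel₀ hZ0 e4
  have hgv : g.eval v = 0 := by
    have e6 := congrArg (Polynomial.eval v) hg1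
    simp only [Polynomial.eval_mul, hZv, zero_mul] at e6
    exact (mul_eq_zero.1 e6.symm).resolve_right hAne
  obtain ⟨w, hw⟩ : Z ∣ g := by
    by_cases hZdef : Z = Polynomial.X - Polynomial.C v
    · rw [hZdef]; exact Polynomial.dvd_iff_isRoot.2 hgv
    · exact absurd hZ hZdef
  have hg2 : Z ^ 2 * u ^ 2 + u * (Polynomial.X * Polynomial.derivative g) - u * Q = w * A := by
    have e7 : Z * (Z ^ 2 * u ^ 2 + u * (Polynomial.X * Polynomial.derivative g) - u * Q)
        = Z * (w * A) := by
      rw [hg1]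
      conv_lhs => rw [hw]
      ring
    exact mul_left_cancel₀ hZ0 e7
  have hθg : (Polynomial.X * Polynomial.derivative g).eval v = v * w.eval v := by
    rw [hw, Polynomial.derivative_mul, hZd]
    simp only [Polynomial.eval_mul, Polynomial.eval_add, Polynomial.eval_X, Polynomial.eval_one, hZv]
    ring
  have hg3 := congrArg (Polynomial.eval v) hg2
  have hg4 : u.eval v * (Polynomial.X * Polynomial.derivative g).eval v - u.eval v * Q.eval v
      = w.eval v * A.eval v := by
    rw [← Polynomial.eval_mul, ← Polynomial.eval_mul, ← Polynomial.eval_mul, ← hg2]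
    simp only [Polynomial.eval_sub, Polynomial.eval_add, Polynomial.eval_mul, Polynomial.eval_pow, hZv]
    ring
  refine ⟨?_, hgv, ?_, ?_⟩
  · rw [hA1]
    simp only [Polynomial.eval_mul, Polynomial.eval_pow, hZv]
    ring
  · rw [hθg] at hg4 ⊢
    rw [hAv'] at hg4
    have e8 : u.eval v * (v * w.eval v + Q.eval v) = 0 := by
      linear_combination -hg4
    have e9 := (mul_eq_zero.1 e8).resolve_left huv
    linear_combination e9
  · rw [hθθ, Polynomial.eval_mul, Polynomial.eval_X, hBv]
    push_cast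
    rw [one_mul]
    exact mul_ne_zero hv hAne

variable (p : ℕ) [Fact p.Prime]

/-- `f` over `ℤ` -/
noncomputable def SS_F (p : ℕ) : Polynomial ℤ := ∑ k ∈ range p, Polynomial.C (bb k : ℤ) * Polynomial.X ^ k
/-- `g` over `ℤ` -/
noncomputable def SS_G (p : ℕ) [Fact p.Prime] : Polynomial ℤ :=
  ∑ k ∈ range p, Polynomial.C (gl p k : ℤ) * Polynomial.X ^ k
/-- the discriminant over `ℤ` -/
noncomputable def SS_D : Polynomial ℤ := 1 - 12 * Polynomial.X - 64 * Polynomial.X ^ 2

theorem SS_coeff (a : ℕ → ℕ) (n : ℕ) :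
    (∑ k ∈ range p, Polynomial.C (a k : ℤ) * Polynomial.X ^ k : Polynomial ℤ).coeff n
      = if n < p then (a n : ℤ) else 0 := by
  rw [Polynomial.finsetSum_coeff]
  by_cases hn : n < p
  · rw [if_pos hn, Finset.sum_eq_single n]
    · simp
    · intro k _ hk
      simp [Polynomial.coeff_X_pow, hk.symm]
    · intro h
      exact absurd (Finset.mem_range.2 hn) h
  · rw [if_neg hn]
    apply Finset.sum_eq_zero
    intro k hk
    rw [Finset.mem_range] at hk
    have : n ≠ k := by omega
    simp [Polynomial.coeff_X_pow, this]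

theorem SS_FT : FT p = cst ℚ_[p] (SS_F p) := by
  ext n
  rw [coeff_cst]
  unfold FT SS_F
  rw [PowerSeries.coeff_mk, SS_coeff]
  split_ifs <;> simp

theorem SS_GT (T : ℕ) : PO 1 T (GT p - cst ℚ_[p] (SS_G p)) := by
  intro n _
  rw [map_sub, coeff_cst]
  unfold GT SS_G
  rw [PowerSeries.coeff_mk, SS_coeff]
  split_ifs with h
  · have := PI_gl p n h
    simpa using this
  · simpa using (PI_zero 1)

theorem SS_PD : PD ℚ_[p] = cst ℚ_[p] SS_D := A8_cst p

/-- the polynomial of A8 -/
noncomputable def SS_P (p : ℕ) [Fact p.Prime] : Polynomial ℤ :=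
  (SS_F p) ^ 2 + (SS_F p * (Polynomial.X * Polynomial.derivative (SS_G p))
    - SS_G p * (Polynomial.X * Polynomial.derivative (SS_F p)))
    - SS_F p * SS_D ^ ((p - 1) / 2)

theorem SS_PO (hp : 3 < p) : PO 1 (T0 p) (cst ℚ_[p] (SS_P p)) := by
  have h8 := A8 p hp
  have e0 : cst ℚ_[p] (SS_P p) =
    (cst ℚ_[p] (SS_F p)) ^ 2 + (cst ℚ_[p] (SS_F p) * th (cst ℚ_[p] (SS_G p))
      - cst ℚ_[p] (SS_G p) * th (cst ℚ_[p] (SS_F p)))
      - cst ℚ_[p] (SS_F p) * (cst ℚ_[p] SS_D) ^ ((p - 1) / 2) := by
    unfold SS_P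
    rw [th_cst, th_cst]
    simp only [map_sub, map_add, map_mul, map_pow]
  rw [e0]
  rw [SS_FT, SS_PD] at h8
  set F := cst ℚ_[p] (SS_F p) with hF
  set G := cst ℚ_[p] (SS_G p) with hG
  set B := (cst ℚ_[p] SS_D) ^ ((p - 1) / 2) with hB
  have hdG : PO 1 (T0 p) (GT p - G) := SS_GT p _
  have hF0 : PO 0 (T0 p) F := PO_cst _ _
  have e : F ^ 2 + (F * th G - G * th F) - F * B
      = (F ^ 2 + (F * th (GT p) - GT p * th F) - F * B)
        - (F * th (GT p - G) - (GT p - G) * th F) := by
    rw [th_sub]; ring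
  rw [e]
  refine PO_sub h8 (PO_sub ?_ ?_)
  · exact PO_mul_left hF0 (PO_th hdG)
  · exact PO_mul_right hdG (PO_th hF0)

theorem SS_degs (a : ℕ → ℕ) :
    (∑ k ∈ range p, Polynomial.C (a k : ℤ) * Polynomial.X ^ k : Polynomial ℤ).natDegree ≤ p - 1 := by
  refine Polynomial.natDegree_sum_le_of_forall_le _ _ fun k hk => ?_
  rw [Finset.mem_range] at hk
  refine (Polynomial.natDegree_C_mul_X_pow_le _ _).trans (by omega)

theorem SS_degX (f : Polynomial ℤ) (d : ℕ) (h : f.natDegree ≤ d) :
    (Polynomial.X * Polynomial.derivative f).natDegree ≤ d := by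
  by_cases h0 : f.natDegree = 0
  · have : Polynomial.derivative f = 0 := by
      rw [Polynomial.eq_C_of_natDegree_eq_zero h0, Polynomial.derivative_C]
    rw [this, mul_zero]; simp
  · have h1 := Polynomial.natDegree_derivative_lt h0
    have h2 := Polynomial.natDegree_mul_le (p := (Polynomial.X : Polynomial ℤ))
      (q := Polynomial.derivative f)
    rw [Polynomial.natDegree_X] at h2
    omega

theorem SS_deg (hp : 3 < p) : (SS_P p).natDegree < T0 p := by
  have hF : (SS_F p).natDegree ≤ p - 1 := SS_degs p _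
  have hG : (SS_G p).natDegree ≤ p - 1 := SS_degs p _
  have hXF := SS_degX _ _ hF
  have hXG := SS_degX _ _ hG
  have hT : 2 * p ≤ T0 p := by
    unfold T0 nz
    rw [Nat.mul_comm 2 p]
    exact Nat.mul_le_mul_left _ (by omega)
  have hD : SS_D.natDegree ≤ 2 := by
    unfold SS_D
    compute_degree
  have hB : (SS_D ^ ((p - 1) / 2)).natDegree ≤ p - 1 := by
    refine (Polynomial.natDegree_pow_le).trans ?_
    calc (p - 1) / 2 * SS_D.natDegree ≤ (p - 1) / 2 * 2 := Nat.mul_le_mul_left _ hD
      _ ≤ p - 1 := Nat.div_mul_le_self _ _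
  have key : (SS_P p).natDegree ≤ (p - 1) + (p - 1) := by
    unfold SS_P
    refine (Polynomial.natDegree_sub_le _ _).trans (max_le ((Polynomial.natDegree_add_le _ _).trans
      (max_le ?_ ((Polynomial.natDegree_sub_le _ _).trans (max_le ?_ ?_)))) ?_)
    · refine (Polynomial.natDegree_pow_le).trans ?_
      omega
    · exact (Polynomial.natDegree_mul_le).trans (by omega)
    · exact (Polynomial.natDegree_mul_le).trans (by omega)
    · exact (Polynomial.natDegree_mul_le).trans (by omega)
  omega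

theorem SS_zero (f : Polynomial ℤ) (T : ℕ) (h : PO 1 T (cst ℚ_[p] f)) (hT : f.natDegree < T) :
    f.map (Int.castRingHom (ZMod p)) = 0 := by
  ext n
  rw [Polynomial.coeff_map, Polynomial.coeff_zero]
  by_cases hn : n < T
  · have h1 := h n hn
    rw [coeff_cst, PI_intCast_iff, pow_one] at h1
    simpa using (ZMod.intCast_zmod_eq_zero_iff_dvd _ p).2 h1
  · rw [Polynomial.coeff_eq_zero_of_natDegree_lt (by omega)]
    simp

theorem SS_eval (a : ℕ → ℕ) (v : ZMod p) :
    ((∑ k ∈ range p, Polynomial.C (a k : ℤ) * Polynomial.X ^ k : Polynomial ℤ).map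
      (Int.castRingHom (ZMod p))).eval v = sm p 0 a v := by
  unfold sm
  rw [Polynomial.map_sum, Polynomial.eval_finsetSum]
  refine Finset.sum_congr rfl fun k _ => ?_
  simp

theorem SS_eval1 (a : ℕ → ℕ) (v : ZMod p) :
    (Polynomial.X * Polynomial.derivative ((∑ k ∈ range p, Polynomial.C (a k : ℤ) *
      Polynomial.X ^ k : Polynomial ℤ).map (Int.castRingHom (ZMod p)))).eval v = sm p 1 a v := by
  unfold sm
  rw [Polynomial.map_sum, Polynomial.derivative_sum, Finset.mul_sum, Polynomial.eval_finsetSum]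
  refine Finset.sum_congr rfl fun k _ => ?_
  rcases k with _ | k
  · simp
  · simp only [Polynomial.map_mul, Polynomial.map_C, Polynomial.map_pow, Polynomial.map_X,
      Polynomial.derivative_C_mul_X_pow, Polynomial.eval_mul, Polynomial.eval_X,
      Polynomial.eval_C, Polynomial.eval_pow, Nat.add_sub_cancel]
    simp
    ring

theorem SS_eval2 (a : ℕ → ℕ) (v : ZMod p) :
    (Polynomial.X * Polynomial.derivative (Polynomial.X * Polynomial.derivative
      ((∑ k ∈ range p, Polynomial.C (a k : ℤ) * Polynomial.X ^ k : Polynomial ℤ).map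
        (Int.castRingHom (ZMod p))))).eval v = sm p 2 a v := by
  unfold sm
  rw [Polynomial.map_sum, Polynomial.derivative_sum, Finset.mul_sum, Polynomial.derivative_sum,
    Finset.mul_sum, Polynomial.eval_finsetSum]
  refine Finset.sum_congr rfl fun k _ => ?_
  rcases k with _ | k
  · simp
  · have e1 : Polynomial.X * Polynomial.derivative ((Polynomial.C (a (k + 1) : ℤ) *
        Polynomial.X ^ (k + 1) : Polynomial ℤ).map (Int.castRingHom (ZMod p)))
        = Polynomial.C (((a (k + 1) : ℕ) : ZMod p) * ((k + 1 : ℕ) : ZMod p)) *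
          Polynomial.X ^ (k + 1) := by
      simp only [Polynomial.map_mul, Polynomial.map_C, Polynomial.map_pow, Polynomial.map_X,
        Polynomial.derivative_C_mul_X_pow, Nat.add_sub_cancel]
      simp
      ring
    rw [e1]
    simp only [Polynomial.derivative_C_mul_X_pow, Polynomial.eval_mul, Polynomial.eval_X,
      Polynomial.eval_C, Polynomial.eval_pow, Nat.add_sub_cancel]
    ring

theorem SS_A (hp : 3 < p) (f g D : Polynomial (ZMod p))
    (hf : f = (SS_F p).map (Int.castRingHom (ZMod p))) (hg : g = (SS_G p).map (Int.castRingHom (ZMod p)))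
    (hD : D = SS_D.map (Int.castRingHom (ZMod p))) :
    f ^ 2 + (f * (Polynomial.X * Polynomial.derivative g) - g * (Polynomial.X * Polynomial.derivative f))
      = f * D ^ ((p - 1) / 2) := by
  have hA := SS_zero p (SS_P p) (T0 p) (SS_PO p hp) (SS_deg p hp)
  unfold SS_P at hA
  rw [Polynomial.map_sub, Polynomial.map_add, Polynomial.map_sub, Polynomial.map_mul,
    Polynomial.map_mul, Polynomial.map_mul, Polynomial.map_mul, Polynomial.map_mul,
    Polynomial.map_pow, Polynomial.map_pow, Polynomial.map_X, ← Polynomial.derivative_map,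
    ← Polynomial.derivative_map, ← hf, ← hg, ← hD] at hA
  exact sub_eq_zero.1 hA

/-- the polynomial of A8b -/
noncomputable def SS_R (p : ℕ) : Polynomial ℤ :=
  SS_D * (2 * SS_F p * (Polynomial.X * Polynomial.derivative (Polynomial.X *
      Polynomial.derivative (SS_F p))) - (Polynomial.X * Polynomial.derivative (SS_F p)) ^ 2)
      - ((12 * Polynomial.X + 128 * Polynomial.X ^ 2) * SS_F p *
          (Polynomial.X * Polynomial.derivative (SS_F p))
        + (4 * Polynomial.X + 60 * Polynomial.X ^ 2) * (SS_F p) ^ 2)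

theorem SS_RPO (hp : 3 < p) (T : ℕ) : PO 1 T (cst ℚ_[p] (SS_R p)) := by
  have h8 := A8b p hp T
  rw [SS_FT, SS_PD, th_cst, th_cst] at h8
  unfold SS_R
  simp only [map_sub, map_add, map_mul, map_pow, map_ofNat, cst_X] at h8 ⊢
  exact h8

theorem SS_B (hp : 3 < p) (f D : Polynomial (ZMod p))
    (hf : f = (SS_F p).map (Int.castRingHom (ZMod p)))
    (hD : D = SS_D.map (Int.castRingHom (ZMod p))) :
    D * (2 * f * (Polynomial.X * Polynomial.derivative (Polynomial.X * Polynomial.derivative f))
        - (Polynomial.X * Polynomial.derivative f) ^ 2)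
      = (12 * Polynomial.X + 128 * Polynomial.X ^ 2) * f * (Polynomial.X * Polynomial.derivative f)
        + (4 * Polynomial.X + 60 * Polynomial.X ^ 2) * f ^ 2 := by
  have hB := SS_zero p (SS_R p) _ (SS_RPO p hp _) (Nat.lt_succ_self _)
  unfold SS_R at hB
  have e1 : (Polynomial.X * Polynomial.derivative (SS_F p)).map (Int.castRingHom (ZMod p))
      = Polynomial.X * Polynomial.derivative f := by
    rw [Polynomial.map_mul, Polynomial.map_X, ← Polynomial.derivative_map, ← hf]
  have e2 : (Polynomial.X * Polynomial.derivative (Polynomial.X * Polynomial.derivative (SS_F p))).map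
      (Int.castRingHom (ZMod p))
      = Polynomial.X * Polynomial.derivative (Polynomial.X * Polynomial.derivative f) := by
    rw [Polynomial.map_mul, Polynomial.map_X, ← Polynomial.derivative_map, e1]
  have e3 : (12 * Polynomial.X + 128 * Polynomial.X ^ 2 : Polynomial ℤ).map (Int.castRingHom (ZMod p))
      = 12 * Polynomial.X + 128 * Polynomial.X ^ 2 := by simp
  have e4 : (4 * Polynomial.X + 60 * Polynomial.X ^ 2 : Polynomial ℤ).map (Int.castRingHom (ZMod p))
      = 4 * Polynomial.X + 60 * Polynomial.X ^ 2 := by simp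
  have e5 : ∀ D F A B c1 c2 : Polynomial ℤ,
      (D * (2 * F * B - A ^ 2) - (c1 * F * A + c2 * F ^ 2)).map (Int.castRingHom (ZMod p))
      = D.map (Int.castRingHom (ZMod p)) * (2 * F.map (Int.castRingHom (ZMod p)) *
          B.map (Int.castRingHom (ZMod p)) - A.map (Int.castRingHom (ZMod p)) ^ 2)
        - (c1.map (Int.castRingHom (ZMod p)) * F.map (Int.castRingHom (ZMod p)) *
          A.map (Int.castRingHom (ZMod p)) + c2.map (Int.castRingHom (ZMod p)) *
          F.map (Int.castRingHom (ZMod p)) ^ 2) := by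
    intro D F A B c1 c2
    simp only [Polynomial.map_sub, Polynomial.map_add, Polynomial.map_mul, Polynomial.map_pow,
      Polynomial.map_ofNat]
  rw [e5, e1, e2, e3, e4, ← hf, ← hD] at hB
  exact sub_eq_zero.1 hB

theorem SS_Dv (v : ZMod p) :
    (SS_D.map (Int.castRingHom (ZMod p))).eval v = 1 - 12 * v - 64 * v ^ 2 := by
  unfold SS_D
  simp

theorem SSW (hp : 3 < p) (v : ZMod p) :
    (sm p 0 bb v) ^ 2 + (sm p 0 bb v * sm p 1 (gl p) v - sm p 0 (gl p) v * sm p 1 bb v)
      = sm p 0 bb v * (1 - 12 * v - 64 * v ^ 2) ^ ((p - 1) / 2) := by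
  have h := SS_A p hp _ _ _ rfl rfl rfl
  have h1 := congrArg (Polynomial.eval v) h
  have E0 : ((SS_F p).map (Int.castRingHom (ZMod p))).eval v = sm p 0 bb v := SS_eval p bb v
  have E1 : (Polynomial.X * Polynomial.derivative ((SS_F p).map
    (Int.castRingHom (ZMod p)))).eval v = sm p 1 bb v := SS_eval1 p bb v
  have G0 : ((SS_G p).map (Int.castRingHom (ZMod p))).eval v = sm p 0 (gl p) v := SS_eval p _ v
  have G1 : (Polynomial.X * Polynomial.derivative ((SS_G p).map
    (Int.castRingHom (ZMod p)))).eval v = sm p 1 (gl p) v := SS_eval1 p _ v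
  rw [Polynomial.eval_mul, Polynomial.eval_X] at E1 G1
  simp only [Polynomial.eval_sub, Polynomial.eval_add, Polynomial.eval_mul, Polynomial.eval_pow,
    Polynomial.eval_X, E0, E1, G0, G1, SS_Dv] at h1
  exact h1

theorem SS (hp : 3 < p) (v : ZMod p) (hv : v ≠ 0) (hP : 1 - 12 * v - 64 * v ^ 2 ≠ 0)
    (h : sm p 0 bb v = 0) :
    sm p 1 bb v = 0 ∧ sm p 0 (gl p) v = 0 ∧
      sm p 1 (gl p) v = -(1 - 12 * v - 64 * v ^ 2) ^ ((p - 1) / 2) ∧ sm p 2 bb v ≠ 0 := by
  have hD := SS_Dv p v
  have E0 : ((SS_F p).map (Int.castRingHom (ZMod p))).eval v = sm p 0 bb v := SS_eval p bb v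
  have E1 : (Polynomial.X * Polynomial.derivative ((SS_F p).map
    (Int.castRingHom (ZMod p)))).eval v = sm p 1 bb v := SS_eval1 p bb v
  have E2 : (Polynomial.X * Polynomial.derivative (Polynomial.X * Polynomial.derivative
    ((SS_F p).map (Int.castRingHom (ZMod p))))).eval v = sm p 2 bb v := SS_eval2 p bb v
  have G0 : ((SS_G p).map (Int.castRingHom (ZMod p))).eval v = sm p 0 (gl p) v := SS_eval p _ v
  have G1 : (Polynomial.X * Polynomial.derivative ((SS_G p).map
    (Int.castRingHom (ZMod p)))).eval v = sm p 1 (gl p) v := SS_eval1 p _ v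
  have hF : (SS_F p).natDegree ≤ p - 1 := SS_degs p _
  have hFd : ((SS_F p).map (Int.castRingHom (ZMod p))).natDegree ≤ p - 1 :=
    (Polynomial.natDegree_map_le).trans hF
  have hf0 : (SS_F p).map (Int.castRingHom (ZMod p)) ≠ 0 := by
    intro h0
    have h1 : ((SS_F p).map (Int.castRingHom (ZMod p))).coeff 0 = 1 := by
      rw [Polynomial.coeff_map]
      unfold SS_F
      rw [SS_coeff p bb 0, if_pos (by omega)]
      simp [bb]
    rw [h0, Polynomial.coeff_zero] at h1
    exact zero_ne_one h1
  have hA := SS_A p hp _ _ _ rfl rfl rfl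
  have hB := SS_B p hp _ _ rfl rfl
  have h2 : (2 : ZMod p) ≠ 0 := by
    intro h0
    have h1 := (ZMod.natCast_eq_zero_iff 2 p).1 (by exact_mod_cast h0)
    have := Nat.le_of_dvd (by norm_num) h1
    omega
  generalize (SS_F p).map (Int.castRingHom (ZMod p)) = f at *
  generalize (SS_G p).map (Int.castRingHom (ZMod p)) = g at *
  generalize SS_D.map (Int.castRingHom (ZMod p)) = D at *
  have hn1 : ∀ n : ℕ, 0 < n → n ≤ f.natDegree → (n : ZMod p) ≠ 0 := by
    intro n hn hn' h0
    have h1 := (ZMod.natCast_eq_zero_iff _ _).1 h0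
    have h3 := Nat.le_of_dvd hn h1
    omega
  have hn2 : ∀ n : ℕ, 0 < n → n ≤ f.natDegree → (n : ZMod p) = 2 → n = 2 := by
    intro n hn hn' h0
    have h1 : ((n : ℕ) : ZMod p) = ((2 : ℕ) : ZMod p) := by
      push_cast
      exact h0
    rw [ZMod.natCast_eq_natCast_iff'] at h1
    rw [Nat.mod_eq_of_lt (by omega), Nat.mod_eq_of_lt (by omega)] at h1
    exact h1
  have key := SS_alg f g D _ _ _ v hf0 hv (by rw [E0, h]) hn1 hn2 h2 (by rw [hD]; exact hP) hB hA
  rw [E1, G0, G1, E2, Polynomial.eval_pow, hD] at key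
  exact key

end Pool.Agent.Lib_helper91.TN
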