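import Mathlib

/-! block CBS: the sum of central binomial coefficients modulo `p`. -/

namespace Pool.Agent.Lib_helper91.TN

open Finset

/-- `C(2i, i) = (-4)^i C(q, i)` modulo `p = 2q + 1`, for `i < p`. -/
theorem CBS_term (p : ℕ) [Fact p.Prime] (q : ℕ) (hq : p = 2 * q + 1) (i : ℕ) (hi : i < p) :
    (Nat.centralBinom i : ZMod p) = (-4) ^ i * ((q.choose i : ℕ) : ZMod p) := by
  have h2q : (2 : ZMod p) * (q : ZMod p) = -1 := by
    have h : ((2 * q + 1 : ℕ) : ZMod p) = 0 := by
      rw [← hq]
      exact ZMod.natCast_self p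
    push_cast at h
    linear_combination h
  induction i with
  | zero => simp
  | succ i ih =>
    have ih' := ih (by omega)
    have hne : ((i + 1 : ℕ) : ZMod p) ≠ 0 := by
      intro h
      rw [ZMod.natCast_eq_zero_iff] at h
      exact absurd (Nat.le_of_dvd (by omega) h) (by omega)
    have h1 : ((i + 1 : ℕ) : ZMod p) * (Nat.centralBinom (i + 1) : ZMod p) =
        2 * (2 * (i : ZMod p) + 1) * (Nat.centralBinom i : ZMod p) := by
      have := Nat.succ_mul_centralBinom_succ i
      have h := congrArg (Nat.cast : ℕ → ZMod p) this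
      push_cast at h ⊢
      exact h
    have h2 : ((i + 1 : ℕ) : ZMod p) * ((q.choose (i + 1) : ℕ) : ZMod p) =
        ((q : ZMod p) - i) * ((q.choose i : ℕ) : ZMod p) := by
      rcases Nat.lt_or_ge q i with h | h
      · rw [Nat.choose_eq_zero_of_lt h, Nat.choose_eq_zero_of_lt (by omega)]
        simp
      · have := Nat.choose_succ_right_eq q i
        have h' := congrArg (Nat.cast : ℕ → ZMod p) this
        push_cast [Nat.cast_sub h] at h' ⊢
        linear_combination h'
    apply mul_left_cancel₀ hne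
    rw [h1, ih', pow_succ]
    linear_combination (-(-4) ^ i * (-4)) * h2 + 2 * (-4) ^ i * ((q.choose i : ℕ) : ZMod p) * h2q

theorem CBS (p : ℕ) [Fact p.Prime] (hp : 2 < p) (t : ZMod p) :
    ∑ i ∈ range p, (Nat.centralBinom i : ZMod p) * t ^ i = (1 - 4 * t) ^ ((p - 1) / 2) := by
  obtain ⟨q, hq⟩ : ∃ q, p = 2 * q + 1 := by
    rcases (Fact.out : p.Prime).eq_two_or_odd' with h | ⟨q, h⟩
    · omega
    · exact ⟨q, h⟩
  have hq2 : (p - 1) / 2 = q := by omega
  rw [hq2]
  have h1 : (1 - 4 * t) ^ q = ∑ i ∈ range (q + 1), (-4) ^ i * ((q.choose i : ℕ) : ZMod p) * t ^ i := by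
    rw [show (1 - 4 * t : ZMod p) = (-4 * t) + 1 by ring, add_pow]
    refine Finset.sum_congr rfl fun i _ => ?_
    rw [one_pow, mul_pow]
    ring
  rw [h1]
  rw [Finset.sum_congr rfl fun i hi => by
    rw [CBS_term p q hq i (Finset.mem_range.mp hi)]]
  symm
  apply Finset.sum_subset
  · intro i hi
    rw [Finset.mem_range] at *
    omega
  · intro i _ hi
    rw [Finset.mem_range, not_lt] at hi
    rw [Nat.choose_eq_zero_of_lt (by omega)]
    simp

end Pool.Agent.Lib_helper91.TN
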