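import Pool.Agent.Lib_helper91.TN.Defs

/-! Modular correspondence data of degree 13 on `X_0(10)+` (checked in ChkV). -/

namespace Pool.Agent.Lib_helper91.TN

/-- data as lists of coefficients (constant term first); a pair stands for `re + im η` -/
structure LDat where
  d : ℕ
  e : ℕ
  w : ℕ
  om : ℕ
  e0 : ℤ
  y0 : ℤ
  w0 : ℤ
  kap : ℤ
  E : List ℤ
  D : List ℤ × List ℤ
  S : List ℤ × List ℤ
  Q : List ℤ × List ℤ
  U : List ℤ × List ℤ
  V : List ℤ × List ℤ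
  W : List ℤ × List ℤ
  L : List ℤ × List ℤ
  Ld : List ℤ × List ℤ
  Mt : List ℤ × List ℤ
  Nt : List ℤ × List ℤ

/-- the data with polynomials -/
noncomputable def LDat.toMD (T : LDat) : MD where
  d := T.d
  e := T.e
  w := T.w
  om := T.om
  e0 := T.e0
  y0 := T.y0
  w0 := T.w0
  kap := T.kap
  E := pl T.E
  D := ⟨pl T.D.1, pl T.D.2⟩
  S := ⟨pl T.S.1, pl T.S.2⟩
  Q := ⟨pl T.Q.1, pl T.Q.2⟩
  U := ⟨pl T.U.1, pl T.U.2⟩
  V := ⟨pl T.V.1, pl T.V.2⟩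
  W := ⟨pl T.W.1, pl T.W.2⟩
  L := ⟨pl T.L.1, pl T.L.2⟩
  Ld := ⟨pl T.Ld.1, pl T.Ld.2⟩
  Mt := ⟨pl T.Mt.1, pl T.Mt.2⟩
  Nt := ⟨pl T.Nt.1, pl T.Nt.2⟩

/-- degree 13 -/
def T13 : LDat where
  d := 13
  e := 3
  w := 4
  om := 11
  e0 := 2
  y0 := 1
  w0 := 26
  kap := 4
  E := [0, -4, 1, 4]
  D := ([-16, 8, -89, 18, 1], [-40, -6, 4])
  S := ([-8, -26, 65, 130, -26, -52, 13], [-18, 53, 70, -66, 8, 1])
  Q := ([0, 15, -5, -15, 5], [3, -1, -3, 1])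
  U := ([20, 423, -506, -2478, -150, 939], [-31, -1098, -930, 702, 85])
  V := ([-12, -102, 178, 248], [-34, 70, 84])
  W := ([52, -377, -260, 2158, 1664, 195], [169, 468, 1170, 364, 13])
  L := ([832, -8944, -6552, 23816, 35048, 8008, 208], [2912, 5096, 18200, 10296, 936])
  Ld := ([1, 1], [])
  Mt := ([-64, -160, -12, 252, 8], [136, 28, 52])
  Nt := ([1, 3, 1], [1])

/-- degree 13 -/
noncomputable def M13 : MD := T13.toMD

end Pool.Agent.Lib_helper91.TN
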