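import Pool.Agent.Lib_helper91.TN.AlgApi
import Pool.Agent.Lib_helper91.TN.Data

/-! Block ChkP: the CM points and the unit conditions.  All numbers in `GoodPt`, `Good` have prime factors in {2,3,5,13}. -/

namespace Pool.Agent.Lib_helper91.TN

/-- value of a list of coefficients -/
def ChkP_l : List ℤ → ℤ → ℤ
  | [], _ => 0
  | a :: l, x => a + x * ChkP_l l x

/-- value of the derivative of a list of coefficients -/
def ChkP_d : List ℤ → ℤ → ℤ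
  | [], _ => 0
  | _ :: l, x => ChkP_l l x + x * ChkP_d l x

theorem ChkP_pl (l : List ℤ) (x : ℤ) : (pl l).eval x = ChkP_l l x := by
  induction l with
  | nil => simp [pl, ChkP_l]
  | cons a l ih => simp [pl, ChkP_l, ih]

theorem ChkP_dl (l : List ℤ) (x : ℤ) :
    (Polynomial.derivative (pl l)).eval x = ChkP_d l x := by
  induction l with
  | nil => simp [pl, ChkP_d]
  | cons a l ih => simp [pl, ChkP_d, ih, ChkP_pl]

/-- value of a pair -/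
def ChkP_e (b : List ℤ × List ℤ) (x n : ℤ) : ℤ := ChkP_l b.1 x + ChkP_l b.2 x * n

/-- value of the derivative of a pair -/
def ChkP_b (E : List ℤ) (b : List ℤ × List ℤ) (x n : ℤ) : ℤ :=
  2 * ChkP_l E x * ChkP_d b.2 x + ChkP_l b.2 x * ChkP_d E x + 2 * ChkP_d b.1 x * n

theorem ChkP_evI (T : LDat) (b : List ℤ × List ℤ) (x n : ℤ) :
    T.toMD.evI x n (⟨pl b.1, pl b.2⟩ : T.toMD.B) = ChkP_e b x n := by
  simp only [MD.evI, ChkP_e, ChkP_pl]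

theorem ChkP_evdB (T : LDat) (b : List ℤ × List ℤ) (x n : ℤ) :
    T.toMD.evI x n (T.toMD.dB (⟨pl b.1, pl b.2⟩ : T.toMD.B)) = ChkP_b T.E b x n := by
  have hE : T.toMD.E = pl T.E := rfl
  simp only [MD.evI, MD.dB, dq, ChkP_b, hE, Polynomial.eval_add, Polynomial.eval_mul,
    ChkP_pl, ChkP_dl, Polynomial.eval_ofNat]

/-- the check of a point on lists -/
def ChkP_pt (T : LDat) (x0 n0 m a b s : ℤ) : Prop :=
  n0 ^ 2 = ChkP_l T.E x0 ∧ ChkP_e T.Q x0 n0 = 0 ∧ ChkP_e T.S x0 n0 = T.kap * m ∧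
  a * ChkP_e T.Mt x0 n0 * m * T.kap =
    4 * b * ChkP_e T.Nt x0 n0 * ChkP_e T.D x0 n0 * ChkP_b T.E T.Q x0 n0 ∧
  (s = 1 ∨ s = -1) ∧
  ChkP_b T.E T.S x0 n0 * ChkP_e T.W x0 n0 =
    s * (ChkP_b T.E T.S x0 n0 * ChkP_e T.U x0 n0
      - ChkP_b T.E T.Q x0 n0 * ChkP_e T.V x0 n0 * ChkP_e T.D x0 n0) ∧
  ChkP_b T.E T.Q x0 n0 * ChkP_e T.W x0 n0 =
    s * (ChkP_b T.E T.S x0 n0 * ChkP_e T.V x0 n0 - ChkP_b T.E T.Q x0 n0 * ChkP_e T.U x0 n0)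

theorem ChkP_point (T : LDat) (x0 n0 m a b s : ℤ) (h : ChkP_pt T x0 n0 m a b s) :
    T.toMD.Point x0 n0 m a b s := by
  obtain ⟨h1, h2, h3, h4, h5, h6, h7⟩ := h
  have eE : T.toMD.E.eval x0 = ChkP_l T.E x0 := ChkP_pl _ _
  have eQ : T.toMD.evI x0 n0 T.toMD.Q = ChkP_e T.Q x0 n0 := ChkP_evI T T.Q x0 n0
  have eS : T.toMD.evI x0 n0 T.toMD.S = ChkP_e T.S x0 n0 := ChkP_evI T T.S x0 n0
  have eM : T.toMD.evI x0 n0 T.toMD.Mt = ChkP_e T.Mt x0 n0 := ChkP_evI T T.Mt x0 n0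
  have eN : T.toMD.evI x0 n0 T.toMD.Nt = ChkP_e T.Nt x0 n0 := ChkP_evI T T.Nt x0 n0
  have eD : T.toMD.evI x0 n0 T.toMD.D = ChkP_e T.D x0 n0 := ChkP_evI T T.D x0 n0
  have eU : T.toMD.evI x0 n0 T.toMD.U = ChkP_e T.U x0 n0 := ChkP_evI T T.U x0 n0
  have eV : T.toMD.evI x0 n0 T.toMD.V = ChkP_e T.V x0 n0 := ChkP_evI T T.V x0 n0
  have eW : T.toMD.evI x0 n0 T.toMD.W = ChkP_e T.W x0 n0 := ChkP_evI T T.W x0 n0
  have edQ : T.toMD.evI x0 n0 (T.toMD.dB T.toMD.Q) = ChkP_b T.E T.Q x0 n0 := ChkP_evdB T T.Q x0 n0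
  have edS : T.toMD.evI x0 n0 (T.toMD.dB T.toMD.S) = ChkP_b T.E T.S x0 n0 := ChkP_evdB T T.S x0 n0
  have ek : T.toMD.kap = T.kap := rfl
  refine ⟨?_, ?_, ?_, ?_, h5, ?_, ?_⟩
  · rw [eE]; exact h1
  · rw [eQ]; exact h2
  · rw [eS, ek]; exact h3
  · rw [eM, eN, eD, edQ, ek]; exact h4
  · rw [edS, edQ, eW, eU, eV, eD]; exact h6
  · rw [edS, edQ, eW, eU, eV]; exact h7

theorem P13a : M13.Point 1 (-1) 12 2 1 1 := by
  refine ChkP_point T13 _ _ _ _ _ _ ?_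
  unfold ChkP_pt
  decide

theorem P13b : M13.Point (-1) (-1) (-20) 3 1 1 := by
  refine ChkP_point T13 _ _ _ _ _ _ ?_
  unfold ChkP_pt
  decide

theorem D13a : M13.evI 1 (-1) M13.D = -36 := by
  refine (ChkP_evI T13 T13.D _ _).trans ?_
  decide

theorem D13b : M13.evI (-1) (-1) M13.D = -100 := by
  refine (ChkP_evI T13 T13.D _ _).trans ?_
  decide

/-- product of the small primes which occur -/
def ChkP_R : ℕ := 2 * 3 * 5 * 13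

theorem ChkP_nd (p : ℕ) (hp : p.Prime) (h : 17 ≤ p) (N : ℤ) (hN : N.natAbs ∣ ChkP_R ^ 12) :
    ¬ (p : ℤ) ∣ N := by
  intro hd
  have h1 : p ∣ N.natAbs := by
    have := Int.natAbs_dvd_natAbs.mpr hd
    simpa using this
  have h2 : p ∣ ChkP_R := hp.dvd_of_dvd_pow (h1.trans hN)
  unfold ChkP_R at h2
  simp only [hp.dvd_mul] at h2
  rcases h2 with ((h2 | h2) | h2) | h2 <;>
  · have := Nat.le_of_dvd (by norm_num) h2
    omega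

/-- the divisibility conditions of a point on lists -/
def ChkP_gp (R : ℕ) (T : LDat) (x0 n0 m b : ℤ) : Prop :=
  x0.natAbs ∣ R ∧ n0.natAbs ∣ R ∧ m.natAbs ∣ R ∧ b.natAbs ∣ R ∧
  ((m - 16) * (m + 4)).natAbs ∣ R ∧ (ChkP_e T.D x0 n0).natAbs ∣ R ∧
  (ChkP_b T.E T.Q x0 n0).natAbs ∣ R ∧ (ChkP_b T.E T.S x0 n0).natAbs ∣ R ∧
  (ChkP_e T.V x0 n0).natAbs ∣ R ∧ (ChkP_e T.W x0 n0).natAbs ∣ R ∧ (ChkP_e T.Nt x0 n0).natAbs ∣ R

theorem ChkP_goodpt (R : ℕ) (T : LDat) (x0 n0 m b : ℤ) (p : ℕ)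
    (hR : ∀ N : ℤ, N.natAbs ∣ R → ¬ (p : ℤ) ∣ N) (h : ChkP_gp R T x0 n0 m b) :
    T.toMD.GoodPt x0 n0 m b p := by
  obtain ⟨h1, h2, h3, h4, h5, h6, h7, h8, h9, h10, h11⟩ := h
  have eN : T.toMD.evI x0 n0 T.toMD.Nt = ChkP_e T.Nt x0 n0 := ChkP_evI T T.Nt x0 n0
  have eD : T.toMD.evI x0 n0 T.toMD.D = ChkP_e T.D x0 n0 := ChkP_evI T T.D x0 n0
  have eV : T.toMD.evI x0 n0 T.toMD.V = ChkP_e T.V x0 n0 := ChkP_evI T T.V x0 n0
  have eW : T.toMD.evI x0 n0 T.toMD.W = ChkP_e T.W x0 n0 := ChkP_evI T T.W x0 n0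
  have edQ : T.toMD.evI x0 n0 (T.toMD.dB T.toMD.Q) = ChkP_b T.E T.Q x0 n0 := ChkP_evdB T T.Q x0 n0
  have edS : T.toMD.evI x0 n0 (T.toMD.dB T.toMD.S) = ChkP_b T.E T.S x0 n0 := ChkP_evdB T T.S x0 n0
  refine ⟨hR _ h1, hR _ h2, hR _ h3, hR _ h4, hR _ h5, ?_, ?_, ?_, ?_, ?_, ?_⟩
  · rw [eD]; exact hR _ h6
  · rw [edQ]; exact hR _ h7
  · rw [edS]; exact hR _ h8
  · rw [eV]; exact hR _ h9
  · rw [eW]; exact hR _ h10
  · rw [eN]; exact hR _ h11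

variable (p : ℕ) (hp : p.Prime)

include hp

theorem good13 (h : 97 ≤ p) : M13.Good p := by
  refine ⟨by omega, ?_, ?_, ?_, ?_, ?_⟩
  · exact ChkP_nd p hp (by omega) ((13 : ℕ) : ℤ) (by decide)
  · exact ChkP_nd p hp (by omega) 2 (by decide)
  · exact ChkP_nd p hp (by omega) 1 (by decide)
  · exact ChkP_nd p hp (by omega) 26 (by decide)
  · exact ChkP_nd p hp (by omega) 4 (by decide)

theorem G13a (h : 97 ≤ p) : M13.GoodPt 1 (-1) 12 1 p := by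
  refine ChkP_goodpt (ChkP_R ^ 12) T13 _ _ _ _ p (ChkP_nd p hp (by omega)) ?_
  unfold ChkP_gp
  decide

theorem G13b (h : 97 ≤ p) : M13.GoodPt (-1) (-1) (-20) 1 p := by
  refine ChkP_goodpt (ChkP_R ^ 12) T13 _ _ _ _ p (ChkP_nd p hp (by omega)) ?_
  unfold ChkP_gp
  decide

theorem big13 (h : 97 ≤ p) : M13.Big p := by
  have h1 : M13.tot = 91 := by decide
  have h2 : M13.om = 11 := rfl
  unfold MD.Big T0 nz
  rw [h1, h2]
  have h4 := Nat.mul_le_mul_left p h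
  omega

end Pool.Agent.Lib_helper91.TN
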