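import Pool.Agent.Lib_helper91.TN.C4

/-! Block PS: the Paule-Schneider identity.
With `P_k(x) = C(x,k)` and `A_J(x) = ∑_{k≤J} (x-2k) P_k(x)⁴`:
 `(x+1) A_J(x+1) + 2(2x+1) A_J(x) = P_J(x)⁴ (5x² - 6xJ + 2J² + 4x - 2J + 1)`.  Differentiate at `x = n`, `J = n+1`. -/

namespace Pool.Agent.Lib_helper91.TN

open Finset

section PSAux

variable {K : Type} [Field K]

/-- the certificate -/
noncomputable def psr (x m : Polynomial K) : Polynomial K :=
  5 * x ^ 2 - 6 * x * m + 2 * m ^ 2 + 4 * x - 2 * m + 1

/-- the sum -/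
noncomputable def psA (x : Polynomial K) (J : ℕ) : Polynomial K :=
  ∑ k ∈ range (J + 1), (x - 2 * (k : Polynomial K)) * C4B x k ^ 4

theorem ps_tele [CharZero K] (x : Polynomial K) (J : ℕ) :
    ∑ k ∈ range (J + 1), ((x + 1) * ((x + 1 - 2 * (k : Polynomial K)) * C4B (x + 1) k ^ 4)
      + 2 * (2 * x + 1) * ((x - 2 * (k : Polynomial K)) * C4B x k ^ 4)) =
    C4B x J ^ 4 * psr x (J : Polynomial K) := by
  induction J with
  | zero =>
    simp [C4B, psr]
    ring
  | succ k ih =>
    rw [sum_range_succ, ih, C4B_pascal]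
    have h := C4B_succ x k
    refine mul_left_cancel₀ (pow_ne_zero 4 (C4_ne (K := K) k)) ?_
    push_cast
    unfold psr
    generalize C4B x (k + 1) = A at *
    generalize C4B x k = B at *
    generalize (k : Polynomial K) = m at *
    linear_combination ((x + 1) * (x + 1 - 2 * (m + 1)) * (((m + 1) * A + (m + 1) * B) ^ 3 +
      ((m + 1) * A + (m + 1) * B) ^ 2 * (B * (x - m) + (m + 1) * B) +
      ((m + 1) * A + (m + 1) * B) * (B * (x - m) + (m + 1) * B) ^ 2 + (B * (x - m) + (m + 1) * B) ^ 3)
      + (2 * (2 * x + 1) * (x - 2 * (m + 1))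
        - (5 * x ^ 2 - 6 * x * (m + 1) + 2 * (m + 1) ^ 2 + 4 * x - 2 * (m + 1) + 1)) *
        (((m + 1) * A) ^ 3 + ((m + 1) * A) ^ 2 * (B * (x - m)) + ((m + 1) * A) * (B * (x - m)) ^ 2
          + (B * (x - m)) ^ 3)) * h

theorem ps_main [CharZero K] (x : Polynomial K) (J : ℕ) :
    (x + 1) * psA (x + 1) J + 2 * (2 * x + 1) * psA x J =
    C4B x J ^ 4 * psr x (J : Polynomial K) := by
  rw [← ps_tele, psA, psA, mul_sum, mul_sum, ← sum_add_distrib]

theorem ps_sym [CharZero K] (c : ℕ) :
    ∑ k ∈ range (c + 1), ((c : K) - 2 * (k : K)) * (c.choose k : K) ^ 4 = 0 := by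
  have h : ∑ k ∈ range (c + 1), ((c : K) - 2 * (k : K)) * (c.choose k : K) ^ 4 =
      -∑ k ∈ range (c + 1), ((c : K) - 2 * (k : K)) * (c.choose k : K) ^ 4 := by
    conv_lhs => rw [← sum_range_reflect]
    rw [← sum_neg_distrib]
    refine sum_congr rfl fun k hk => ?_
    rw [mem_range] at hk
    have h3 : c + 1 - 1 - k = c - k := by omega
    rw [h3, Nat.choose_symm (by omega), Nat.cast_sub (by omega)]
    ring
  exact self_eq_neg.1 h

theorem psA_eval [CharZero K] (x : Polynomial K) (t : K) (c J : ℕ) (hx : x.eval t = c)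
    (hJ : c ≤ J) : (psA x J).eval t = 0 := by
  rw [psA, Polynomial.eval_finsetSum, ← ps_sym (K := K) c]
  symm
  refine (sum_subset (range_mono (by omega)) fun k _ hk => ?_).trans (sum_congr rfl fun k _ => ?_)
  · rw [mem_range, not_lt] at hk
    rw [Nat.choose_eq_zero_of_lt (by omega)]
    simp
  · rw [Polynomial.eval_mul, Polynomial.eval_pow, C4B_eval x t c hx k, Polynomial.eval_sub,
      Polynomial.eval_mul, hx, Polynomial.eval_ofNat, Polynomial.eval_natCast]

theorem psA_deriv [CharZero K] (x : Polynomial K) (hx1 : Polynomial.derivative x = 1) (t : K)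
    (c J : ℕ) (hx : x.eval t = c) (hJ : c ≤ J) :
    (Polynomial.derivative (psA x J)).eval t =
      (bb c : K) + 2 * ∑ k ∈ range (c + 1), (k : K) * (4 * ((c.choose k : ℕ) : K) ^ 4 *
        (Hn K c - Hn K k)) - (c : K) * gg K c := by
  have h1 : (Polynomial.derivative (psA x J)).eval t =
      ∑ k ∈ range (J + 1), ((C4B x k).eval t ^ 4 + ((c : K) - 2 * (k : K)) *
        (4 * (C4B x k).eval t ^ 3 * (Polynomial.derivative (C4B x k)).eval t)) := by
    rw [psA, Polynomial.derivative_sum, Polynomial.eval_finsetSum]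
    refine sum_congr rfl fun k _ => ?_
    rw [Polynomial.derivative_mul, Polynomial.derivative_pow, Polynomial.derivative_sub, hx1]
    simp only [Polynomial.derivative_mul, Polynomial.derivative_natCast,
      Polynomial.derivative_ofNat, Polynomial.eval_mul, Polynomial.eval_add, Polynomial.eval_sub,
      Polynomial.eval_pow, Polynomial.eval_natCast, Polynomial.eval_ofNat, Polynomial.eval_one,
      Polynomial.eval_C, hx, zero_mul, mul_zero, add_zero, Polynomial.eval_zero, sub_zero]
    push_cast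
    ring
  have h2 : ∑ k ∈ range (J + 1), ((C4B x k).eval t ^ 4 + ((c : K) - 2 * (k : K)) *
        (4 * (C4B x k).eval t ^ 3 * (Polynomial.derivative (C4B x k)).eval t)) =
      ∑ k ∈ range (c + 1), ((C4B x k).eval t ^ 4 + ((c : K) - 2 * (k : K)) *
        (4 * (C4B x k).eval t ^ 3 * (Polynomial.derivative (C4B x k)).eval t)) := by
    symm
    refine sum_subset (range_mono (by omega)) fun k _ hk => ?_
    rw [mem_range, not_lt] at hk
    rw [C4B_eval x t c hx k, Nat.choose_eq_zero_of_lt (by omega)]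
    simp
  rw [h1, h2, ← sum_range_reflect, bb, gg, mul_sum, mul_sum, mul_sum]
  push_cast
  rw [← sum_add_distrib, ← sum_sub_distrib]
  refine sum_congr rfl fun k hk => ?_
  rw [mem_range] at hk
  rw [C4B_eval x t c hx, C4B_deriv x hx1 t c hx (c - k) (by omega),
    show c - (c - k) = k by omega, Nat.choose_symm (by omega), Nat.cast_sub (by omega)]
  ring

end PSAux

/-- block PS (Paule–Schneider) -/
theorem PS (K : Type) [Field K] [CharZero K] (n : ℕ) :
    2 * ∑ k ∈ range (n + 1), (k : K) * (4 * ((n.choose k : ℕ) : K) ^ 4 * (Hn K n - Hn K k)) =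
      (n : K) * gg K n - (bb n : K) + (-1) ^ n * ((Nat.centralBinom n : ℕ) : K) := by
  suffices h : (bb n : K) + 2 * ∑ k ∈ range (n + 1), (k : K) * (4 * ((n.choose k : ℕ) : K) ^ 4 *
      (Hn K n - Hn K k)) - (n : K) * gg K n = (-1) ^ n * ((Nat.centralBinom n : ℕ) : K) by
    linear_combination h
  induction n with
  | zero => simp [bb, gg, Hn]
  | succ n ih =>
    have e1 : (Polynomial.X + 1 : Polynomial K).eval (n : K) = ((n + 1 : ℕ) : K) := by
      simp
    have e2 : (Polynomial.X : Polynomial K).eval (n : K) = ((n : ℕ) : K) := by simp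
    have h := congrArg (fun f => (Polynomial.derivative f).eval (n : K))
      (ps_main (K := K) Polynomial.X (n + 1))
    have hP : (C4B (Polynomial.X : Polynomial K) (n + 1)).eval (n : K) = 0 := by
      rw [C4B_eval _ _ n (by simp), Nat.choose_eq_zero_of_lt (by omega), Nat.cast_zero]
    simp only [Polynomial.derivative_mul, Polynomial.derivative_add,
      Polynomial.derivative_pow, Polynomial.derivative_X, Polynomial.derivative_one,
      Polynomial.derivative_ofNat, Polynomial.eval_mul, Polynomial.eval_add,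
      Polynomial.eval_pow, Polynomial.eval_X, Polynomial.eval_one, Polynomial.eval_ofNat, hP,
      Polynomial.eval_C, Polynomial.eval_zero] at h
    rw [psA_eval _ _ (n + 1) (n + 1) e1 le_rfl, psA_eval _ _ n (n + 1) e2 (by omega),
      psA_deriv _ (by simp) _ (n + 1) (n + 1) e1 le_rfl,
      psA_deriv _ (by simp) _ n (n + 1) e2 (by omega), ih] at h
    have hc : ((n : K) + 1) * ((Nat.centralBinom (n + 1) : ℕ) : K) =
        2 * (2 * (n : K) + 1) * ((Nat.centralBinom n : ℕ) : K) := by
      exact_mod_cast congrArg (Nat.cast : ℕ → K) (Nat.succ_mul_centralBinom_succ n)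
    have hn : ((n : K) + 1) ≠ 0 := by exact_mod_cast Nat.succ_ne_zero n
    refine mul_left_cancel₀ hn ?_
    rw [pow_succ]
    norm_num at h
    push_cast at h ⊢
    linear_combination h + (-1) ^ n * hc

end Pool.Agent.Lib_helper91.TN
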