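import Pool.Agent.Lib_helper91.TN.CHO
import Pool.Agent.Lib_helper91.TN.PS
import Pool.Agent.Lib_helper91.TN.GZ

/-! Block RED2: `∑_{n<p} n S_n(x)` modulo `p²`.  Put `n = p-1-j`, `k = p-1-i`; CHO gives
`C(p-1-j,i-j)⁴ ≡ C(i,j)⁴ (1 - 4p(H_i-H_j))`, then PS. -/

namespace Pool.Agent.Lib_helper91.TN

open PowerSeries Finset

theorem RED2_reindex {R : Type} [AddCommMonoid R] (p : ℕ) (F : ℕ → ℕ → R) :
    ∑ n ∈ range p, ∑ k ∈ range (n + 1), F n k =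
      ∑ i ∈ range p, ∑ j ∈ range (i + 1), F (p - 1 - j) (p - 1 - i) := by
  rw [sum_sigma', sum_sigma']
  refine sum_nbij' (fun z => ⟨p - 1 - z.2, p - 1 - z.1⟩) (fun z => ⟨p - 1 - z.2, p - 1 - z.1⟩)
    ?_ ?_ ?_ ?_ ?_
  · rintro ⟨n, k⟩ h
    simp only [mem_sigma, mem_range] at h ⊢
    omega
  · rintro ⟨n, k⟩ h
    simp only [mem_sigma, mem_range] at h ⊢
    omega
  · rintro ⟨n, k⟩ h
    simp only [mem_sigma, mem_range] at h
    have h1 : p - 1 - (p - 1 - n) = n := by omega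
    have h2 : p - 1 - (p - 1 - k) = k := by omega
    simp only [h1, h2]
  · rintro ⟨n, k⟩ h
    simp only [mem_sigma, mem_range] at h
    have h1 : p - 1 - (p - 1 - n) = n := by omega
    have h2 : p - 1 - (p - 1 - k) = k := by omega
    simp only [h1, h2]
  · rintro ⟨n, k⟩ h
    simp only [mem_sigma, mem_range] at h
    have h1 : p - 1 - (p - 1 - n) = n := by omega
    have h2 : p - 1 - (p - 1 - k) = k := by omega
    simp only [h1, h2]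

theorem RED2_sum (p : ℕ) (x : ℤ) : ∑ n ∈ range p, (n : ℤ) * Sx n x =
    ∑ i ∈ range p, x ^ (p - 1 - i) * ∑ j ∈ range (i + 1), ((p : ℤ) - 1 - j) *
      (((p - 1 - j).choose (i - j) : ℕ) : ℤ) ^ 4 := by
  have h1 : ∑ n ∈ range p, (n : ℤ) * Sx n x = ∑ n ∈ range p, ∑ k ∈ range (n + 1),
      (n : ℤ) * (((n.choose k : ℕ) : ℤ) ^ 4 * x ^ k) := by
    refine sum_congr rfl fun n _ => ?_
    rw [Sx, mul_sum]
  rw [h1, RED2_reindex p fun n k => (n : ℤ) * (((n.choose k : ℕ) : ℤ) ^ 4 * x ^ k)]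
  refine sum_congr rfl fun i hi => ?_
  rw [mul_sum]
  refine sum_congr rfl fun j hj => ?_
  rw [mem_range] at hi hj
  have e1 : (p - 1 - j).choose (p - 1 - i) = (p - 1 - j).choose (i - j) :=
    Nat.choose_symm_of_eq_add (by omega)
  have e2 : ((p - 1 - j : ℕ) : ℤ) = (p : ℤ) - 1 - j := by omega
  rw [e1, e2]
  ring

theorem RED2_sym (i : ℕ) : 2 * ∑ j ∈ range (i + 1), (j : ℤ) * ((i.choose j : ℕ) : ℤ) ^ 4 =
    (i : ℤ) * (bb i : ℤ) := by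
  have h : ∑ j ∈ range (i + 1), (j : ℤ) * ((i.choose j : ℕ) : ℤ) ^ 4 =
      ∑ j ∈ range (i + 1), ((i : ℤ) - j) * ((i.choose j : ℕ) : ℤ) ^ 4 := by
    conv_lhs => rw [← sum_range_reflect]
    refine sum_congr rfl fun k hk => ?_
    rw [mem_range] at hk
    rw [show i + 1 - 1 - k = i - k by omega, Nat.choose_symm (by omega), Nat.cast_sub (by omega)]
  rw [two_mul]
  nth_rewrite 2 [h]
  rw [← sum_add_distrib, bb]
  push_cast
  rw [mul_sum]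
  refine sum_congr rfl fun k _ => ?_
  ring

theorem RED2_pow4 (p : ℕ) [Fact p.Prime] (i j : ℕ) (hj : j ≤ i) (hi : i < p) :
    PI 2 (((p - 1 - j).choose (i - j) : ℚ_[p]) ^ 4
      - (i.choose j : ℚ_[p]) ^ 4 * (1 - 4 * (p : ℚ_[p]) * (Hn ℚ_[p] i - Hn ℚ_[p] j))) := by
  have h1 := CHO p i j hj hi
  have hΔ : PI 0 (Hn ℚ_[p] i - Hn ℚ_[p] j) := PI_sub (PI_Hn p i hi) (PI_Hn p j (by omega))
  have hC : PI 0 (i.choose j : ℚ_[p]) := PI_natCast _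
  have ha : PI 0 ((p - 1 - j).choose (i - j) : ℚ_[p]) := PI_natCast _
  have hs : ((-1 : ℚ_[p]) ^ (i - j)) ^ 4 = 1 := by
    rw [← pow_mul, mul_comm, pow_mul]
    norm_num
  have hs0 : PI 0 ((-1 : ℚ_[p]) ^ (i - j)) := by
    refine PI_pow ?_ _
    have := PI_intCast (p := p) (-1)
    simpa using this
  have hp1 : PI 1 (p : ℚ_[p]) := PI_p
  generalize (Hn ℚ_[p] i - Hn ℚ_[p] j) = Δ at *
  generalize ((p - 1 - j).choose (i - j) : ℚ_[p]) = a at *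
  generalize (i.choose j : ℚ_[p]) = C at *
  generalize ((-1 : ℚ_[p]) ^ (i - j)) = s at *
  generalize hP : (p : ℚ_[p]) = P at *
  have h1' : PI 0 (1 : ℚ_[p]) := by simpa using PI_natCast (p := p) 1
  have hb1 : PI 0 (1 - P * Δ) := PI_sub h1' (PI_mono (Nat.zero_le 1) (by simpa using PI_mul hp1 hΔ))
  have hb : PI 0 (s * C * (1 - P * Δ)) := by
    simpa using PI_mul (PI_mul hs0 hC) hb1
  have h2 : PI 0 (a ^ 3 + a ^ 2 * (s * C * (1 - P * Δ)) + a * (s * C * (1 - P * Δ)) ^ 2 +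
      (s * C * (1 - P * Δ)) ^ 3) := by
    refine PI_add (PI_add (PI_add (PI_pow ha 3) ?_) ?_) (PI_pow hb 3)
    · simpa using PI_mul (PI_pow ha 2) hb
    · simpa using PI_mul ha (PI_pow hb 2)
  have h3 : PI 2 ((a - s * C * (1 - P * Δ)) * (a ^ 3 + a ^ 2 * (s * C * (1 - P * Δ)) +
      a * (s * C * (1 - P * Δ)) ^ 2 + (s * C * (1 - P * Δ)) ^ 3)) := by
    simpa using PI_mul h1 h2
  have h4 : PI 2 ((P * P) * (C ^ 4 * (6 * Δ ^ 2 - 4 * P * Δ ^ 3 + P ^ 2 * Δ ^ 4))) := by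
    have h5 : PI 0 (6 * Δ ^ 2 - 4 * P * Δ ^ 3 + P ^ 2 * Δ ^ 4) := by
      have hP0 : PI 0 P := PI_mono (Nat.zero_le 1) hp1
      have h6 : PI 0 (6 : ℚ_[p]) := by simpa using PI_natCast (p := p) 6
      have h4 : PI 0 (4 : ℚ_[p]) := by simpa using PI_natCast (p := p) 4
      refine PI_add (PI_sub ?_ ?_) ?_
      · simpa using PI_mul h6 (PI_pow hΔ 2)
      · simpa using PI_mul (PI_mul h4 hP0) (PI_pow hΔ 3)
      · simpa using PI_mul (PI_pow hP0 2) (PI_pow hΔ 4)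
    simpa using PI_mul (PI_mul hp1 hp1) (PI_mul (PI_pow hC 4) h5)
  have e : a ^ 4 - C ^ 4 * (1 - 4 * P * Δ) =
      (a - s * C * (1 - P * Δ)) * (a ^ 3 + a ^ 2 * (s * C * (1 - P * Δ)) +
      a * (s * C * (1 - P * Δ)) ^ 2 + (s * C * (1 - P * Δ)) ^ 3) +
      (P * P) * (C ^ 4 * (6 * Δ ^ 2 - 4 * P * Δ ^ 3 + P ^ 2 * Δ ^ 4)) := by
    linear_combination (C ^ 4 * (1 - P * Δ) ^ 4) * hs
  rw [e]
  exact PI_add h3 h4

theorem RED2_coef (p : ℕ) [Fact p.Prime] (i : ℕ) (hi : i < p) :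
    ((p : ℤ) ^ 2) ∣ (2 * ∑ j ∈ range (i + 1), ((p : ℤ) - 1 - j) *
      (((p - 1 - j).choose (i - j) : ℕ) : ℤ) ^ 4) -
      (2 * ((p : ℤ) - 1) * bb i - i * bb i + 2 * p * gl p i +
        p * (i * gl p i - bb i + (-1) ^ i * Nat.centralBinom i)) := by
  rw [← PI_intCast_iff]
  push_cast
  have hPS := PS ℚ_[p] i
  have hsym : 2 * ∑ j ∈ range (i + 1), (j : ℚ_[p]) * ((i.choose j : ℕ) : ℚ_[p]) ^ 4 =
      (i : ℚ_[p]) * (bb i : ℚ_[p]) := by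
    exact_mod_cast congrArg (Int.cast : ℤ → ℚ_[p]) (RED2_sym i)
  have hbb : (bb i : ℚ_[p]) = ∑ j ∈ range (i + 1), ((i.choose j : ℕ) : ℚ_[p]) ^ 4 := by
    rw [bb]
    push_cast
    rfl
  have hgg : gg ℚ_[p] i = ∑ j ∈ range (i + 1), 4 * (((i.choose j : ℕ) : ℚ_[p]) ^ 4 *
      (Hn ℚ_[p] i - Hn ℚ_[p] j)) := by
    rw [gg, mul_sum]
  have e : 2 * ∑ j ∈ range (i + 1), ((p : ℚ_[p]) - 1 - j) *
      (((p - 1 - j).choose (i - j) : ℕ) : ℚ_[p]) ^ 4 -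
      (2 * ((p : ℚ_[p]) - 1) * bb i - i * bb i + 2 * p * gl p i +
        p * (i * gl p i - bb i + (-1) ^ i * Nat.centralBinom i)) =
      (∑ j ∈ range (i + 1), 2 * ((p : ℚ_[p]) - 1 - j) *
        ((((p - 1 - j).choose (i - j) : ℕ) : ℚ_[p]) ^ 4 - ((i.choose j : ℕ) : ℚ_[p]) ^ 4 *
          (1 - 4 * (p : ℚ_[p]) * (Hn ℚ_[p] i - Hn ℚ_[p] j)))) +
      ((p : ℚ_[p]) * (gg ℚ_[p] i - gl p i) * (2 + i) - 2 * ((p : ℚ_[p]) * p * gg ℚ_[p] i)) := by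
    have e1 : ∑ j ∈ range (i + 1), 2 * ((p : ℚ_[p]) - 1 - j) *
        ((((p - 1 - j).choose (i - j) : ℕ) : ℚ_[p]) ^ 4 - ((i.choose j : ℕ) : ℚ_[p]) ^ 4 *
          (1 - 4 * (p : ℚ_[p]) * (Hn ℚ_[p] i - Hn ℚ_[p] j))) =
        2 * ∑ j ∈ range (i + 1), ((p : ℚ_[p]) - 1 - j) *
          (((p - 1 - j).choose (i - j) : ℕ) : ℚ_[p]) ^ 4 -
        2 * ((p : ℚ_[p]) - 1) * ∑ j ∈ range (i + 1), ((i.choose j : ℕ) : ℚ_[p]) ^ 4 +
        2 * ∑ j ∈ range (i + 1), (j : ℚ_[p]) * ((i.choose j : ℕ) : ℚ_[p]) ^ 4 +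
        2 * (p : ℚ_[p]) * ((p : ℚ_[p]) - 1) * ∑ j ∈ range (i + 1), 4 *
          (((i.choose j : ℕ) : ℚ_[p]) ^ 4 * (Hn ℚ_[p] i - Hn ℚ_[p] j)) -
        (p : ℚ_[p]) * (2 * ∑ j ∈ range (i + 1), (j : ℚ_[p]) *
          (4 * ((i.choose j : ℕ) : ℚ_[p]) ^ 4 * (Hn ℚ_[p] i - Hn ℚ_[p] j))) := by
      simp only [mul_sum]
      rw [← sum_sub_distrib, ← sum_add_distrib, ← sum_add_distrib, ← sum_sub_distrib]
      refine sum_congr rfl fun j _ => ?_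
      ring
    rw [e1, hPS, hsym, ← hbb, ← hgg]
    ring
  rw [e]
  have hgl := PI_gl p i hi
  have hgg0 := PI_gg p i hi
  have h2 : PI 0 (2 : ℚ_[p]) := by simpa using PI_natCast (p := p) 2
  refine PI_add (PI_sum _ _ fun j hj => ?_) (PI_sub ?_ ?_)
  · rw [mem_range] at hj
    have h3 : PI 0 (2 * ((p : ℚ_[p]) - 1 - (j : ℚ_[p]))) := by
      have := PI_intCast (p := p) (2 * ((p : ℤ) - 1 - j))
      push_cast at this
      exact this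
    simpa using PI_mul h3 (RED2_pow4 p i j (by omega) hi)
  · have h3 : PI 0 ((2 : ℚ_[p]) + (i : ℚ_[p])) := by
      have := PI_natCast (p := p) (2 + i)
      push_cast at this
      exact this
    simpa using PI_mul (PI_mul (PI_p (p := p)) hgl) h3
  · simpa using PI_mul h2 (PI_mul (PI_mul (PI_p (p := p)) (PI_p (p := p))) hgg0)

/-- block RED2 -/
theorem RED2 (p : ℕ) [Fact p.Prime] (x : ℤ) (v : ZMod (p ^ 2)) (hv : v * (x : ZMod (p ^ 2)) = 1) :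
    2 * ((∑ n ∈ range p, (n : ℤ) * Sx n x : ℤ) : ZMod (p ^ 2)) =
      (x : ZMod (p ^ 2)) ^ (p - 1) * (2 * ((p : ZMod (p ^ 2)) - 1) * sm p 0 bb v - sm p 1 bb v
        + 2 * (p : ZMod (p ^ 2)) * sm p 0 (gl p) v
        + (p : ZMod (p ^ 2)) * (sm p 1 (gl p) v - sm p 0 bb v
          + ∑ i ∈ range p, (Nat.centralBinom i : ZMod (p ^ 2)) * (-v) ^ i)) := by
  have hcoef : ∀ i < p, 2 * ((∑ j ∈ range (i + 1), ((p : ℤ) - 1 - j) *
      (((p - 1 - j).choose (i - j) : ℕ) : ℤ) ^ 4 : ℤ) : ZMod (p ^ 2)) =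
      2 * ((p : ZMod (p ^ 2)) - 1) * bb i - i * bb i + 2 * p * gl p i +
        p * (i * gl p i - bb i + (-1) ^ i * Nat.centralBinom i) := by
    intro i hi
    have h := RED2_coef p i hi
    have h1 : ((p ^ 2 : ℕ) : ℤ) = (p : ℤ) ^ 2 := by push_cast; ring
    rw [← h1] at h
    have h := (ZMod.intCast_zmod_eq_zero_iff_dvd _ (p ^ 2)).2 h
    push_cast at h ⊢
    linear_combination h
  rw [RED2_sum]
  have h1 : 2 * ((∑ i ∈ range p, x ^ (p - 1 - i) * ∑ j ∈ range (i + 1), ((p : ℤ) - 1 - j) *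
      (((p - 1 - j).choose (i - j) : ℕ) : ℤ) ^ 4 : ℤ) : ZMod (p ^ 2)) =
      ∑ i ∈ range p, (x : ZMod (p ^ 2)) ^ (p - 1) * v ^ i *
        (2 * ((p : ZMod (p ^ 2)) - 1) * bb i - i * bb i + 2 * p * gl p i +
        p * (i * gl p i - bb i + (-1) ^ i * Nat.centralBinom i)) := by
    rw [Int.cast_sum, mul_sum]
    refine sum_congr rfl fun i hi => ?_
    rw [mem_range] at hi
    rw [← hcoef i hi, Int.cast_mul, Int.cast_pow]
    have h2 : (x : ZMod (p ^ 2)) ^ (p - 1 - i) = (x : ZMod (p ^ 2)) ^ (p - 1) * v ^ i := by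
      have h3 : p - 1 = (p - 1 - i) + i := by omega
      nth_rewrite 2 [h3]
      rw [pow_add, mul_assoc, ← mul_pow, mul_comm (x : ZMod (p ^ 2)) v, hv, one_pow, mul_one]
    rw [h2]
    ring
  rw [h1]
  simp only [sm, mul_sum, mul_add, mul_sub]
  simp only [← sum_sub_distrib, ← sum_add_distrib]
  refine sum_congr rfl fun i _ => ?_
  rw [neg_pow v i]
  ring

end Pool.Agent.Lib_helper91.TN
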