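import Pool.Agent.Lib_helper91.TN.CHO
import Pool.Agent.Lib_helper91.TN.RED2

/-! Block RED1: `∑_{n<p} S_n(x)` modulo `p²`. -/

namespace Pool.Agent.Lib_helper91.TN

open PowerSeries Finset

theorem RED1_sum (p : ℕ) (x : ℤ) : ∑ n ∈ range p, Sx n x =
    ∑ i ∈ range p, x ^ (p - 1 - i) * ∑ j ∈ range (i + 1),
      (((p - 1 - j).choose (i - j) : ℕ) : ℤ) ^ 4 := by
  have h1 : ∑ n ∈ range p, Sx n x = ∑ n ∈ range p, ∑ k ∈ range (n + 1),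
      (((n.choose k : ℕ) : ℤ) ^ 4 * x ^ k) := by
    refine sum_congr rfl fun n _ => ?_
    rw [Sx]
  rw [h1, RED2_reindex p fun n k => (((n.choose k : ℕ) : ℤ) ^ 4 * x ^ k)]
  refine sum_congr rfl fun i hi => ?_
  rw [mul_sum]
  refine sum_congr rfl fun j hj => ?_
  rw [mem_range] at hi hj
  have e1 : (p - 1 - j).choose (p - 1 - i) = (p - 1 - j).choose (i - j) :=
    Nat.choose_symm_of_eq_add (by omega)
  rw [e1]
  ring

theorem RED1_coef (p : ℕ) [Fact p.Prime] (i : ℕ) (hi : i < p) :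
    ((p : ℤ) ^ 2) ∣ (∑ j ∈ range (i + 1), (((p - 1 - j).choose (i - j) : ℕ) : ℤ) ^ 4) -
      ((bb i : ℤ) - p * gl p i) := by
  rw [← PI_intCast_iff]
  push_cast
  have hbb : (bb i : ℚ_[p]) = ∑ j ∈ range (i + 1), ((i.choose j : ℕ) : ℚ_[p]) ^ 4 := by
    rw [bb]
    push_cast
    rfl
  have hgg : gg ℚ_[p] i = ∑ j ∈ range (i + 1), 4 * (((i.choose j : ℕ) : ℚ_[p]) ^ 4 *
      (Hn ℚ_[p] i - Hn ℚ_[p] j)) := by
    rw [gg, mul_sum]
  have e : ∑ j ∈ range (i + 1), (((p - 1 - j).choose (i - j) : ℕ) : ℚ_[p]) ^ 4 -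
      ((bb i : ℚ_[p]) - p * gl p i) =
      (∑ j ∈ range (i + 1),
        ((((p - 1 - j).choose (i - j) : ℕ) : ℚ_[p]) ^ 4 - ((i.choose j : ℕ) : ℚ_[p]) ^ 4 *
          (1 - 4 * (p : ℚ_[p]) * (Hn ℚ_[p] i - Hn ℚ_[p] j)))) -
      (p : ℚ_[p]) * (gg ℚ_[p] i - gl p i) := by
    have e1 : ∑ j ∈ range (i + 1),
        ((((p - 1 - j).choose (i - j) : ℕ) : ℚ_[p]) ^ 4 - ((i.choose j : ℕ) : ℚ_[p]) ^ 4 *
          (1 - 4 * (p : ℚ_[p]) * (Hn ℚ_[p] i - Hn ℚ_[p] j))) =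
        ∑ j ∈ range (i + 1), (((p - 1 - j).choose (i - j) : ℕ) : ℚ_[p]) ^ 4 -
        ∑ j ∈ range (i + 1), ((i.choose j : ℕ) : ℚ_[p]) ^ 4 +
        (p : ℚ_[p]) * ∑ j ∈ range (i + 1), 4 *
          (((i.choose j : ℕ) : ℚ_[p]) ^ 4 * (Hn ℚ_[p] i - Hn ℚ_[p] j)) := by
      simp only [mul_sum]
      rw [← sum_sub_distrib, ← sum_add_distrib]
      refine sum_congr rfl fun j _ => ?_
      ring
    rw [e1, ← hbb, ← hgg]
    ring
  rw [e]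
  have hgl := PI_gl p i hi
  refine PI_sub (PI_sum _ _ fun j hj => ?_) ?_
  · rw [mem_range] at hj
    exact RED2_pow4 p i j (by omega) hi
  · simpa using PI_mul (PI_p (p := p)) hgl

/-- block RED1 -/
theorem RED1 (p : ℕ) [Fact p.Prime] (x : ℤ) (v : ZMod (p ^ 2)) (hv : v * (x : ZMod (p ^ 2)) = 1) :
    ((∑ n ∈ range p, Sx n x : ℤ) : ZMod (p ^ 2)) =
      (x : ZMod (p ^ 2)) ^ (p - 1) * (sm p 0 bb v - (p : ZMod (p ^ 2)) * sm p 0 (gl p) v) := by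
  have hcoef : ∀ i < p, ((∑ j ∈ range (i + 1),
      (((p - 1 - j).choose (i - j) : ℕ) : ℤ) ^ 4 : ℤ) : ZMod (p ^ 2)) =
      (bb i : ZMod (p ^ 2)) - p * gl p i := by
    intro i hi
    have h := RED1_coef p i hi
    have h1 : ((p ^ 2 : ℕ) : ℤ) = (p : ℤ) ^ 2 := by push_cast; ring
    rw [← h1] at h
    have h := (ZMod.intCast_zmod_eq_zero_iff_dvd _ (p ^ 2)).2 h
    push_cast at h ⊢
    linear_combination h
  rw [RED1_sum]
  have h1 : ((∑ i ∈ range p, x ^ (p - 1 - i) * ∑ j ∈ range (i + 1),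
      (((p - 1 - j).choose (i - j) : ℕ) : ℤ) ^ 4 : ℤ) : ZMod (p ^ 2)) =
      ∑ i ∈ range p, (x : ZMod (p ^ 2)) ^ (p - 1) * v ^ i *
        ((bb i : ZMod (p ^ 2)) - p * gl p i) := by
    rw [Int.cast_sum]
    refine sum_congr rfl fun i hi => ?_
    rw [mem_range] at hi
    rw [← hcoef i hi, Int.cast_mul, Int.cast_pow]
    have h2 : (x : ZMod (p ^ 2)) ^ (p - 1 - i) = (x : ZMod (p ^ 2)) ^ (p - 1) * v ^ i := by
      have h3 : p - 1 = (p - 1 - i) + i := by omega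
      nth_rewrite 2 [h3]
      rw [pow_add, mul_assoc, ← mul_pow, mul_comm (x : ZMod (p ^ 2)) v, hv, one_pow, mul_one]
    rw [h2]
  rw [h1]
  simp only [sm, mul_sum, mul_sub]
  simp only [← sum_sub_distrib]
  refine sum_congr rfl fun i _ => ?_
  ring

end Pool.Agent.Lib_helper91.TN
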