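import Pool.Agent.Lib_helper91.TN.Defs

/-! Block SMA: the small primes by kernel computation. -/

namespace Pool.Agent.Lib_helper91.TN

open Finset

/-- forces the evaluation of `n` in the kernel -/
def SMA_fr {α : Type} (n : ℕ) (f : ℕ → α) : α := Nat.rec (f 0) (fun k _ => f (k + 1)) n

theorem SMA_fr_eq {α : Type} (n : ℕ) (f : ℕ → α) : SMA_fr n f = f n := by
  cases n <;> rfl

/-- inner loop: `k` the index, `c = C(n,k)`, `t = X^k mod P`, `s` the partial sum -/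
def SMA_in (P X n : ℕ) (f : ℕ → Bool) (m : ℕ) : ℕ → ℕ → ℕ → ℕ → Bool :=
  Nat.rec (fun _ _ _ s => f s)
    (fun _ ih k c t s =>
      SMA_fr (k + 1) fun k' =>
      SMA_fr (c * (n - k) / (k + 1)) fun c' =>
      SMA_fr (t * X % P) fun t' =>
      SMA_fr ((s + c ^ 4 * t) % P) fun s' => ih k' c' t' s') m

/-- outer loop -/
def SMA_out (P X a b : ℕ) (g : ℕ → ℕ → Bool) (m : ℕ) : ℕ → ℕ → ℕ → Bool :=
  Nat.rec (fun _ A B => g A B)
    (fun _ ih n A B =>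
      SMA_fr (n + 1) fun n' =>
      SMA_in P X n (fun s =>
        SMA_fr ((A + (a * n + b) * s) % P) fun A' =>
        SMA_fr ((B + s) % P) fun B' => ih n' A' B') (n + 1) 0 1 1 0) m

/-- the sum with a natural number `X` -/
def SMA_S (X n m : ℕ) : ℕ := ∑ k ∈ range m, (n.choose k) ^ 4 * X ^ k

theorem SMA_S_succ (X n m : ℕ) : SMA_S X n (m + 1) = SMA_S X n m + (n.choose m) ^ 4 * X ^ m := by
  unfold SMA_S
  rw [sum_range_succ]

theorem SMA_in_succ (P X n : ℕ) (f : ℕ → Bool) (m k c t s : ℕ) :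
    SMA_in P X n f (m + 1) k c t s =
      SMA_in P X n f m (k + 1) (c * (n - k) / (k + 1)) (t * X % P) ((s + c ^ 4 * t) % P) := by
  show SMA_fr (k + 1) (fun k' =>
      SMA_fr (c * (n - k) / (k + 1)) fun c' =>
      SMA_fr (t * X % P) fun t' =>
      SMA_fr ((s + c ^ 4 * t) % P) fun s' => SMA_in P X n f m k' c' t' s') = _
  rw [SMA_fr_eq, SMA_fr_eq, SMA_fr_eq, SMA_fr_eq]

theorem SMA_in_eq (P X n : ℕ) (f : ℕ → Bool) (m : ℕ) : ∀ k : ℕ,
    SMA_in P X n f m k (n.choose k) (X ^ k % P) (SMA_S X n k % P) = f (SMA_S X n (k + m) % P) := by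
  induction m with
  | zero => intro k; rfl
  | succ m ih =>
    intro k
    rw [SMA_in_succ]
    have h1 : n.choose k * (n - k) / (k + 1) = n.choose (k + 1) := by
      rw [← Nat.choose_succ_right_eq, Nat.mul_div_cancel _ (Nat.succ_pos k)]
    have h2 : X ^ k % P * X % P = X ^ (k + 1) % P := by
      rw [Nat.mod_mul_mod, pow_succ]
    have h3 : (SMA_S X n k % P + n.choose k ^ 4 * (X ^ k % P)) % P = SMA_S X n (k + 1) % P := by
      rw [SMA_S_succ]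
      apply Nat.ModEq.add (Nat.mod_modEq _ _) (Nat.ModEq.mul_left _ (Nat.mod_modEq _ _))
    rw [h1, h2, h3, ih (k + 1)]
    congr 3
    omega

theorem SMA_in_full (P X n : ℕ) (hP : 1 < P) (f : ℕ → Bool) :
    SMA_in P X n f (n + 1) 0 1 1 0 = f (SMA_S X n (n + 1) % P) := by
  have h := SMA_in_eq P X n f (n + 1) 0
  rw [zero_add] at h
  rw [← h]
  have h1 : X ^ 0 % P = 1 := by rw [pow_zero]; exact Nat.mod_eq_of_lt hP
  have h2 : SMA_S X n 0 % P = 0 := by simp [SMA_S]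
  rw [h1, h2, Nat.choose_zero_right]

/-- the weighted sum -/
def SMA_A (X a b m : ℕ) : ℕ := ∑ n ∈ range m, (a * n + b) * SMA_S X n (n + 1)
/-- the plain sum -/
def SMA_B (X m : ℕ) : ℕ := ∑ n ∈ range m, SMA_S X n (n + 1)

theorem SMA_out_succ (P X a b : ℕ) (hP : 1 < P) (g : ℕ → ℕ → Bool) (m n A B : ℕ) :
    SMA_out P X a b g (m + 1) n A B =
      SMA_out P X a b g m (n + 1) ((A + (a * n + b) * (SMA_S X n (n + 1) % P)) % P)
        ((B + SMA_S X n (n + 1) % P) % P) := by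
  show SMA_fr (n + 1) (fun n' =>
      SMA_in P X n (fun s =>
        SMA_fr ((A + (a * n + b) * s) % P) fun A' =>
        SMA_fr ((B + s) % P) fun B' => SMA_out P X a b g m n' A' B') (n + 1) 0 1 1 0) = _
  rw [SMA_fr_eq, SMA_in_full P X n hP, SMA_fr_eq, SMA_fr_eq]

theorem SMA_out_eq (P X a b : ℕ) (hP : 1 < P) (g : ℕ → ℕ → Bool) (m : ℕ) : ∀ n : ℕ,
    SMA_out P X a b g m n (SMA_A X a b n % P) (SMA_B X n % P) =
      g (SMA_A X a b (n + m) % P) (SMA_B X (n + m) % P) := by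
  induction m with
  | zero => intro n; rfl
  | succ m ih =>
    intro n
    rw [SMA_out_succ P X a b hP]
    have h1 : (SMA_A X a b n % P + (a * n + b) * (SMA_S X n (n + 1) % P)) % P =
        SMA_A X a b (n + 1) % P := by
      have : SMA_A X a b (n + 1) = SMA_A X a b n + (a * n + b) * SMA_S X n (n + 1) := by
        unfold SMA_A; rw [sum_range_succ]
      rw [this]
      exact Nat.ModEq.add (Nat.mod_modEq _ _) (Nat.ModEq.mul_left _ (Nat.mod_modEq _ _))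
    have h2 : (SMA_B X n % P + SMA_S X n (n + 1) % P) % P = SMA_B X (n + 1) % P := by
      have : SMA_B X (n + 1) = SMA_B X n + SMA_S X n (n + 1) := by
        unfold SMA_B; rw [sum_range_succ]
      rw [this]
      exact Nat.ModEq.add (Nat.mod_modEq _ _) (Nat.mod_modEq _ _)
    rw [h1, h2, ih (n + 1)]
    congr 3 <;> omega

theorem SMA_out_full (P X a b p : ℕ) (hP : 1 < P) (g : ℕ → ℕ → Bool) :
    SMA_out P X a b g p 0 0 0 = g (SMA_A X a b p % P) (SMA_B X p % P) := by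
  have h := SMA_out_eq P X a b hP g p 0
  rw [zero_add] at h
  rw [← h]
  simp [SMA_A, SMA_B]

/-- the check for one prime -/
def SMA_chk (p : ℕ) (x : ℤ) (a b : ℕ) (c : ℤ) (q : Bool) : Bool :=
  SMA_fr (p ^ 2) fun P =>
  SMA_fr (x % (P : ℤ)).toNat fun X =>
  SMA_fr ((c % (P : ℤ)).toNat) fun C =>
    SMA_out P X a b (fun A B => Nat.beq A C && (q || Nat.beq B 0)) p 0 0 0

theorem SMA_cast (X : ℕ) (x : ℤ) (P n : ℕ) (h : (X : ℤ) ≡ x [ZMOD P]) :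
    ((SMA_S X n (n + 1) : ℕ) : ℤ) ≡ Sx n x [ZMOD P] := by
  unfold SMA_S Sx
  push_cast
  refine Int.ModEq.sum ?_
  intro i _
  exact Int.ModEq.mul_left _ (h.pow i)

theorem SMA_chk_spec (p : ℕ) (hp : 2 < p) (x : ℤ) (a b : ℕ) (c : ℤ) (q : Bool)
    (h : SMA_chk p x a b c q = true) :
    (p : ℤ) ^ 2 ∣ (∑ k ∈ range p, ((a : ℤ) * (k : ℤ) + b) * Sx k x) - c ∧
    (q = false → (p : ℤ) ^ 2 ∣ ∑ k ∈ range p, Sx k x) := by
  have hP : 1 < p ^ 2 := by nlinarith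
  have hP0 : (0 : ℤ) < ((p ^ 2 : ℕ) : ℤ) := by exact_mod_cast (by omega : 0 < p ^ 2)
  unfold SMA_chk at h
  rw [SMA_fr_eq, SMA_fr_eq, SMA_fr_eq, SMA_out_full _ _ _ _ _ hP] at h
  set X := (x % ((p ^ 2 : ℕ) : ℤ)).toNat with hX
  set C := (c % ((p ^ 2 : ℕ) : ℤ)).toNat with hC
  have hXx : (X : ℤ) ≡ x [ZMOD ((p ^ 2 : ℕ) : ℤ)] := by
    rw [hX, Int.toNat_of_nonneg (Int.emod_nonneg _ hP0.ne')]
    exact Int.mod_modEq _ _
  have hCc : (C : ℤ) ≡ c [ZMOD ((p ^ 2 : ℕ) : ℤ)] := by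
    rw [hC, Int.toNat_of_nonneg (Int.emod_nonneg _ hP0.ne')]
    exact Int.mod_modEq _ _
  rw [Bool.and_eq_true, Bool.or_eq_true] at h
  obtain ⟨h1, h2⟩ := h
  have h1' := Nat.eq_of_beq_eq_true h1
  have hA : ((SMA_A X a b p : ℕ) : ℤ) ≡ ∑ k ∈ range p, ((a : ℤ) * (k : ℤ) + b) * Sx k x
      [ZMOD ((p ^ 2 : ℕ) : ℤ)] := by
    unfold SMA_A
    push_cast
    refine Int.ModEq.sum ?_
    intro i _
    exact Int.ModEq.mul_left _ (by exact_mod_cast SMA_cast X x (p ^ 2) i hXx)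
  have hB : ((SMA_B X p : ℕ) : ℤ) ≡ ∑ k ∈ range p, Sx k x [ZMOD ((p ^ 2 : ℕ) : ℤ)] := by
    unfold SMA_B
    push_cast
    refine Int.ModEq.sum ?_
    intro i _
    exact_mod_cast SMA_cast X x (p ^ 2) i hXx
  constructor
  · have e1 : ((SMA_A X a b p : ℕ) : ℤ) ≡ (C : ℤ) [ZMOD ((p ^ 2 : ℕ) : ℤ)] := by
      rw [← h1']
      push_cast
      exact (Int.mod_modEq _ _).symm
    have e2 := (hA.symm.trans e1).trans hCc
    have := Int.ModEq.dvd e2.symm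
    push_cast at this
    exact this
  · intro hq
    rw [hq] at h2
    have h3 := Nat.eq_of_beq_eq_true (h2.resolve_left (by simp))
    have e1 : ((SMA_B X p : ℕ) : ℤ) ≡ 0 [ZMOD ((p ^ 2 : ℕ) : ℤ)] := by
      have : ((SMA_B X p % p ^ 2 : ℕ) : ℤ) = 0 := by rw [h3]; rfl
      push_cast at this ⊢
      rw [Int.ModEq, this, Int.zero_emod]
    have e2 := hB.symm.trans e1
    have := Int.ModEq.dvd e2.symm
    push_cast at this
    simpa using this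

/-- `(3/p)` -/
def SMA_j3 (p : ℕ) : ℤ := if p = 3 then 0 else if p % 12 = 1 ∨ p % 12 = 11 then 1 else -1
/-- `(-1/p)` -/
def SMA_j1 (p : ℕ) : ℤ := if p % 4 = 1 then 1 else -1
/-- `(-5/p)` -/
def SMA_j5 (p : ℕ) : ℤ :=
  if p = 5 then 0 else if p % 20 = 1 ∨ p % 20 = 3 ∨ p % 20 = 7 ∨ p % 20 = 9 then 1 else -1

theorem SMA_one (p : ℕ) (h2 : 2 < p) (e3 : jacobiSym 3 p = SMA_j3 p)
    (e1 : jacobiSym (-1) p = SMA_j1 p) (e5 : jacobiSym (-5) p = SMA_j5 p)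
    (c1 : SMA_chk p 12 4 3 (p * (1 + 2 * SMA_j3 p)) (!(Nat.beq (p % 4) 3)) = true)
    (c2 : SMA_chk p (-20) 6 5 (p * SMA_j1 p * (2 + 3 * SMA_j5 p)) (!(Nat.beq (p % 4) 3)) = true) :
    (p : ℤ) ^ 2 ∣ (∑ k ∈ range p, (4 * (k : ℤ) + 3) * Sx k 12) - p * (1 + 2 * jacobiSym 3 p) ∧
    (p : ℤ) ^ 2 ∣ (∑ k ∈ range p, (6 * (k : ℤ) + 5) * Sx k (-20))
      - p * jacobiSym (-1) p * (2 + 3 * jacobiSym (-5) p) ∧
    (p % 4 = 3 → (p : ℤ) ^ 2 ∣ (∑ k ∈ range p, Sx k 12) ∧ (p : ℤ) ^ 2 ∣ (∑ k ∈ range p, Sx k (-20))) := by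
  rw [e3, e1, e5]
  obtain ⟨a1, b1⟩ := SMA_chk_spec p h2 12 4 3 _ _ c1
  obtain ⟨a2, b2⟩ := SMA_chk_spec p h2 (-20) 6 5 _ _ c2
  refine ⟨by exact_mod_cast a1, by exact_mod_cast a2, ?_⟩
  intro h4
  have hb : (!(Nat.beq (p % 4) 3)) = false := by rw [h4]; rfl
  exact ⟨b1 hb, b2 hb⟩

theorem SMA (p : ℕ) (hp : p.Prime) (h2 : 2 < p) (h : p < 97) :
    (p : ℤ) ^ 2 ∣ (∑ k ∈ range p, (4 * (k : ℤ) + 3) * Sx k 12) - p * (1 + 2 * jacobiSym 3 p) ∧
    (p : ℤ) ^ 2 ∣ (∑ k ∈ range p, (6 * (k : ℤ) + 5) * Sx k (-20))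
      - p * jacobiSym (-1) p * (2 + 3 * jacobiSym (-5) p) ∧
    (p % 4 = 3 → (p : ℤ) ^ 2 ∣ (∑ k ∈ range p, Sx k 12) ∧ (p : ℤ) ^ 2 ∣ (∑ k ∈ range p, Sx k (-20))) := by
  have key : jacobiSym 3 p = SMA_j3 p ∧ jacobiSym (-1) p = SMA_j1 p ∧ jacobiSym (-5) p = SMA_j5 p ∧
      SMA_chk p 12 4 3 (p * (1 + 2 * SMA_j3 p)) (!(Nat.beq (p % 4) 3)) = true ∧
      SMA_chk p (-20) 6 5 (p * SMA_j1 p * (2 + 3 * SMA_j5 p)) (!(Nat.beq (p % 4) 3)) = true := by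
    interval_cases p
    all_goals first
      | (exfalso; revert hp; norm_num; done)
      | (refine ⟨?_, ?_, ?_, by decide +kernel, by decide +kernel⟩
         · norm_num [SMA_j3]
         · norm_num [SMA_j1]
         · norm_num [SMA_j5])
  obtain ⟨e3, e1, e5, c1, c2⟩ := key
  exact SMA_one p h2 e3 e1 e5 c1 c2

end Pool.Agent.Lib_helper91.TN
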