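import Pool.Agent.Lib_helper91.TN.BIG
import Pool.Agent.Lib_helper91.TN.ChkV
import Pool.Agent.Lib_helper91.TN.ChkP
import Pool.Agent.Lib_helper91.TN.CBS
import Pool.Agent.Lib_helper91.TN.RED1
import Pool.Agent.Lib_helper91.TN.RED2
import Pool.Agent.Lib_helper91.TN.SMA

/-! Block BaseFin: parts (b), and (a) for `p ≡ 3 mod 4`. -/

namespace Pool.Agent.Lib_helper91.TN

open Finset

theorem BF_pp (p : ℕ) : (p : ZMod (p ^ 2)) * (p : ZMod (p ^ 2)) = 0 := by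
  have : ((p ^ 2 : ℕ) : ZMod (p ^ 2)) = 0 := ZMod.natCast_self _
  push_cast at this
  linear_combination this

/-- an inverse of `m` mod `p²` -/
theorem BF_inv (p : ℕ) [Fact p.Prime] (m : ℤ) (hm : ¬ (p : ℤ) ∣ m) :
    ∃ v : ZMod (p ^ 2), v * ((m : ℤ) : ZMod (p ^ 2)) = 1 := by
  have hpp : p.Prime := Fact.out
  have hcop : IsCoprime m ((p ^ 2 : ℕ) : ℤ) := by
    have h1 : IsCoprime (p : ℤ) m :=
      (Prime.coprime_iff_not_dvd (Nat.prime_iff_prime_int.1 hpp)).2 hm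
    have h2 := (h1.pow_left (m := 2)).symm
    push_cast
    exact h2
  obtain ⟨u, w, huw⟩ := hcop
  refine ⟨((u : ℤ) : ZMod (p ^ 2)), ?_⟩
  have h1 := congrArg (Int.cast : ℤ → ZMod (p ^ 2)) huw
  push_cast at h1
  linear_combination h1 - (w : ZMod (p ^ 2)) * BF_pp p

theorem BF_dvd (p : ℕ) (x : ℤ) (h : ((x : ℤ) : ZMod (p ^ 2)) = 0) : (p : ℤ) ^ 2 ∣ x := by
  rw [show ((p : ℤ) ^ 2) = ((p ^ 2 : ℕ) : ℤ) by push_cast; rfl, ← ZMod.intCast_zmod_eq_zero_iff_dvd]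
  exact h

/-- (b) for large `p` -/
theorem BF_b (p : ℕ) [Fact p.Prime] (hp : 97 ≤ p) {x0 n0 m a s : ℤ} (hpt : M13.Point x0 n0 m a 1 s)
    (hg : M13.GoodPt x0 n0 m 1 p) (χN χC : ℤ)
    (hN : ((((m - 16) * (m + 4) * M13.evI x0 n0 M13.D : ℤ)) : ZMod p) ^ ((p - 1) / 2) = ((χN : ℤ) : ZMod p))
    (hC : ∀ v : ZMod p, v * ((m : ℤ) : ZMod p) = 1 → (1 + 4 * v) ^ ((p - 1) / 2) = ((χC : ℤ) : ZMod p)) :
    (p : ℤ) ^ 2 ∣ (∑ k ∈ range p, (2 * a * (k : ℤ) + (2 * a - 1)) * Sx k m)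
      - p * ((a - 1) * χN + a * χC) := by
  have hpp : p.Prime := Fact.out
  obtain ⟨v, hv⟩ := BF_inv p m hg.hm
  obtain ⟨χ, hχ, hχD, h1, h2, h3, h4⟩ := M13.big p valid13 (good13 p hpp hp) (big13 p hpp hp) hpt hg v hv
  have r1 := RED1 p m v hv
  have r2 := RED2 p m v hv
  have hN' : (p : ZMod (p ^ 2)) * ((((m - 16) * (m + 4) * M13.evI x0 n0 M13.D : ℤ)) : ZMod (p ^ 2)) ^ ((p - 1) / 2)
      = (p : ZMod (p ^ 2)) * ((χN : ℤ) : ZMod (p ^ 2)) := by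
    apply BIG_sub
    rw [map_pow, map_intCast, map_intCast, hN]
  have hvp : BIG_pi p v * ((m : ℤ) : ZMod p) = 1 := by
    rw [← map_intCast (BIG_pi p) m, ← map_mul, hv, map_one]
  have hC' : (p : ZMod (p ^ 2)) * (∑ i ∈ range p, (Nat.centralBinom i : ZMod (p ^ 2)) * (-v) ^ i)
      = (p : ZMod (p ^ 2)) * ((χC : ℤ) : ZMod (p ^ 2)) := by
    apply BIG_sub
    rw [map_sum, map_intCast, ← hC _ hvp]
    have h := CBS p (by omega) (-(BIG_pi p v))
    rw [show (1 + 4 * BIG_pi p v) = 1 - 4 * (-(BIG_pi p v)) by ring, ← h]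
    refine sum_congr rfl fun i _ => ?_
    rw [map_mul, map_pow, map_neg, map_natCast]
  have hm1 : (p : ZMod (p ^ 2)) * ((m : ℤ) : ZMod (p ^ 2)) ^ (p - 1) = (p : ZMod (p ^ 2)) := by
    have : (p : ZMod (p ^ 2)) * ((m : ℤ) : ZMod (p ^ 2)) ^ (p - 1) = (p : ZMod (p ^ 2)) * 1 := by
      apply BIG_sub
      rw [map_pow, map_intCast, map_one]
      apply ZMod.pow_card_sub_one_eq_one
      rw [Ne, ZMod.intCast_zmod_eq_zero_iff_dvd]
      exact hg.hm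
    rw [this, mul_one]
  apply BF_dvd
  have e1 : ((∑ k ∈ range p, (2 * a * (k : ℤ) + (2 * a - 1)) * Sx k m : ℤ) : ZMod (p ^ 2))
      = (a : ZMod (p ^ 2)) * (2 * ((∑ n ∈ range p, (n : ℤ) * Sx n m : ℤ) : ZMod (p ^ 2)))
        + (2 * (a : ZMod (p ^ 2)) - 1) * ((∑ n ∈ range p, Sx n m : ℤ) : ZMod (p ^ 2)) := by
    have : (∑ k ∈ range p, (2 * a * (k : ℤ) + (2 * a - 1)) * Sx k m : ℤ)
        = a * (2 * ∑ n ∈ range p, (n : ℤ) * Sx n m) + (2 * a - 1) * ∑ n ∈ range p, Sx n m := by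
      rw [mul_sum, mul_sum, mul_sum, ← sum_add_distrib]
      exact sum_congr rfl fun k _ => by ring
    rw [this]
    push_cast
    ring
  rw [Int.cast_sub, e1, r1, r2]
  push_cast at h1 h2 hN' ⊢
  generalize (∑ i ∈ range p, (Nat.centralBinom i : ZMod (p ^ 2)) * (-v) ^ i) = cb at *
  generalize sm p 0 bb v = f0 at *
  generalize sm p 1 bb v = f1 at *
  generalize sm p 0 (gl p) v = g0 at *
  generalize sm p 1 (gl p) v = g1 at *
  generalize ((m : ZMod (p ^ 2)) - 16) * ((m : ZMod (p ^ 2)) + 4) * ((M13.evI x0 n0 M13.D : ℤ) : ZMod (p ^ 2)) = NN at *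
  generalize (m : ZMod (p ^ 2)) ^ (p - 1) = mp at *
  generalize (p : ZMod (p ^ 2)) = P at *
  generalize NN ^ ((p - 1) / 2) = NQ at *
  linear_combination (-mp) * h1 + mp * h2 + (a - 1 : ZMod (p ^ 2)) * mp * hN' + (a : ZMod (p ^ 2)) * mp * hC'
    + ((a - 1 : ZMod (p ^ 2)) * χN + (a : ZMod (p ^ 2)) * χC) * hm1

/-- (a) for large `p` and `χ = -1` -/
theorem BF_a (p : ℕ) [Fact p.Prime] (hp : 97 ≤ p) {x0 n0 m a s : ℤ} (hpt : M13.Point x0 n0 m a 1 s)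
    (hg : M13.GoodPt x0 n0 m 1 p)
    (hD : ((M13.evI x0 n0 M13.D : ℤ) : ZMod p) ^ ((p - 1) / 2) = -1) :
    (p : ℤ) ^ 2 ∣ ∑ k ∈ range p, Sx k m := by
  have hpp : p.Prime := Fact.out
  obtain ⟨v, hv⟩ := BF_inv p m hg.hm
  obtain ⟨χ, hχ, hχD, h1, h2, h3, h4⟩ := M13.big p valid13 (good13 p hpp hp) (big13 p hpp hp) hpt hg v hv
  have r1 := RED1 p m v hv
  have hχ1 : χ = -1 := by
    rcases hχ with h | h
    · exfalso
      rw [h, hD] at hχD
      push_cast at hχD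
      have h5 : (2 : ZMod p) = 0 := by linear_combination (-1 : ZMod p) * hχD
      have h6 : ((2 : ℕ) : ZMod p) = 0 := by exact_mod_cast h5
      rw [ZMod.natCast_eq_zero_iff] at h6
      exact absurd (Nat.le_of_dvd (by norm_num) h6) (by omega)
    · exact h
  obtain ⟨k1, k2⟩ := h3 hχ1
  apply BF_dvd
  rw [r1, k1, k2]
  ring

theorem BF_sq (p : ℕ) [Fact p.Prime] (h2 : 2 < p) (c : ℤ) (hc : ¬ (p : ℤ) ∣ c) :
    ((c : ℤ) : ZMod p) ^ (2 * ((p - 1) / 2)) = 1 := by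
  have hpp : p.Prime := Fact.out
  have e : 2 * ((p - 1) / 2) = p - 1 := by
    rcases hpp.eq_two_or_odd with h | h <;> omega
  rw [e]
  apply ZMod.pow_card_sub_one_eq_one
  rwa [Ne, ZMod.intCast_zmod_eq_zero_iff_dvd]

theorem BF_leg (p : ℕ) [Fact p.Prime] (h2 : 2 < p) (c : ℤ) :
    ((c : ℤ) : ZMod p) ^ ((p - 1) / 2) = ((jacobiSym c p : ℤ) : ZMod p) := by
  have hpp : p.Prime := Fact.out
  have e : (p - 1) / 2 = p / 2 := by
    rcases hpp.eq_two_or_odd with h | h <;> omega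
  rw [e, ← jacobiSym.legendreSym.to_jacobiSym, legendreSym.eq_pow]

theorem BF_nd (p : ℕ) (hp : p.Prime) (h : 97 ≤ p) (N : ℤ) (hN : N.natAbs ∣ 30 ^ 12) : ¬ (p : ℤ) ∣ N :=
  ChkP_nd p hp (by omega) N (hN.trans (by decide))

theorem base_b1 (p : ℕ) (hp : p.Prime) (h2 : 2 < p) :
    (p : ℤ) ^ 2 ∣ (∑ k ∈ range p, (4 * (k : ℤ) + 3) * Sx k 12) - p * (1 + 2 * jacobiSym 3 p) := by
  by_cases hb : p < 97
  · exact (SMA p hp h2 hb).1
  have : Fact p.Prime := ⟨hp⟩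
  have h := BF_b p (by omega) P13a (G13a p hp (by omega)) 1 (jacobiSym 3 p)
    (by
      rw [D13a]
      have e : ((((12 : ℤ) - 16) * (12 + 4) * (-36) : ℤ) : ZMod p) = ((48 : ℤ) : ZMod p) ^ 2 := by
        push_cast
        norm_num
      rw [e, ← pow_mul, BF_sq p h2 48 (BF_nd p hp (by omega) 48 (by decide))]
      push_cast
      rfl)
    (by
      intro v hv
      have h6 := BF_sq p h2 6 (BF_nd p hp (by omega) 6 (by decide))
      have h3 : (1 + 4 * v) * ((6 : ℤ) : ZMod p) ^ 2 * v * ((3 : ℤ) : ZMod p) = ((6 : ℤ) : ZMod p) ^ 2 * (1 + 4 * v) * v * 3 := by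
        push_cast; ring
      have e : (1 + 4 * v) * ((3 : ℤ) : ZMod p) ^ 2 = ((2 : ℤ) : ZMod p) ^ 2 * ((3 : ℤ) : ZMod p) := by
        push_cast at hv ⊢
        linear_combination 3 * hv
      have e1 := congrArg (fun t => t ^ ((p - 1) / 2)) e
      simp only [mul_pow, ← pow_mul] at e1
      rw [BF_sq p h2 3 (BF_nd p hp (by omega) 3 (by decide)),
        BF_sq p h2 2 (BF_nd p hp (by omega) 2 (by decide)), mul_one, one_mul, BF_leg p h2] at e1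
      exact e1)
  have e : (∑ k ∈ range p, (2 * 2 * (k : ℤ) + (2 * 2 - 1)) * Sx k 12) - (p : ℤ) * ((2 - 1) * 1 + 2 * jacobiSym 3 p)
      = (∑ k ∈ range p, (4 * (k : ℤ) + 3) * Sx k 12) - p * (1 + 2 * jacobiSym 3 p) := by
    norm_num
  rwa [e] at h

theorem base_b2 (p : ℕ) (hp : p.Prime) (h2 : 2 < p) :
    (p : ℤ) ^ 2 ∣ (∑ k ∈ range p, (6 * (k : ℤ) + 5) * Sx k (-20))
      - p * jacobiSym (-1) p * (2 + 3 * jacobiSym (-5) p) := by
  by_cases hb : p < 97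
  · exact (SMA p hp h2 hb).2.1
  have : Fact p.Prime := ⟨hp⟩
  have hmul : jacobiSym (-1) p * jacobiSym (-5) p = jacobiSym 5 p := by
    rw [← jacobiSym.mul_left]
    norm_num
  have h := BF_b p (by omega) P13b (G13b p hp (by omega)) (jacobiSym (-1) p) (jacobiSym 5 p)
    (by
      rw [D13b]
      have e : ((((-20 : ℤ) - 16) * (-20 + 4) * (-100) : ℤ) : ZMod p) = ((-1 : ℤ) : ZMod p) * ((240 : ℤ) : ZMod p) ^ 2 := by
        push_cast
        norm_num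
      rw [e, mul_pow, ← pow_mul, BF_sq p h2 240 (BF_nd p hp (by omega) 240 (by decide)), mul_one,
        BF_leg p h2])
    (by
      intro v hv
      have e : (1 + 4 * v) * ((5 : ℤ) : ZMod p) ^ 2 = ((2 : ℤ) : ZMod p) ^ 2 * ((5 : ℤ) : ZMod p) := by
        push_cast at hv ⊢
        linear_combination (-5) * hv
      have e1 := congrArg (fun t => t ^ ((p - 1) / 2)) e
      simp only [mul_pow, ← pow_mul] at e1
      rw [BF_sq p h2 5 (BF_nd p hp (by omega) 5 (by decide)),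
        BF_sq p h2 2 (BF_nd p hp (by omega) 2 (by decide)), mul_one, one_mul, BF_leg p h2] at e1
      exact e1)
  have e : (∑ k ∈ range p, (2 * 3 * (k : ℤ) + (2 * 3 - 1)) * Sx k (-20))
        - (p : ℤ) * ((3 - 1) * jacobiSym (-1) p + 3 * jacobiSym 5 p)
      = (∑ k ∈ range p, (6 * (k : ℤ) + 5) * Sx k (-20))
      - p * jacobiSym (-1) p * (2 + 3 * jacobiSym (-5) p) := by
    rw [← hmul]
    norm_num
    ring
  rwa [e] at h

theorem base_a (p : ℕ) (hp : p.Prime) (h4 : p % 4 = 3) :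
    (p : ℤ) ^ 2 ∣ (∑ k ∈ range p, Sx k 12) ∧ (p : ℤ) ^ 2 ∣ (∑ k ∈ range p, Sx k (-20)) := by
  have h2 : 2 < p := by
    have := hp.two_le
    omega
  by_cases hb : p < 97
  · exact (SMA p hp h2 hb).2.2 h4
  have : Fact p.Prime := ⟨hp⟩
  have hq : Odd ((p - 1) / 2) := by rw [Nat.odd_iff]; omega
  have key : ∀ c : ℤ, ¬ (p : ℤ) ∣ c → ((-(c ^ 2) : ℤ) : ZMod p) ^ ((p - 1) / 2) = -1 := by
    intro c hc
    rw [Int.cast_neg, hq.neg_pow, Int.cast_pow, ← pow_mul, BF_sq p h2 c hc]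
  constructor
  · refine BF_a p (by omega) P13a (G13a p hp (by omega)) ?_
    rw [D13a]
    exact key 6 (BF_nd p hp (by omega) 6 (by decide))
  · refine BF_a p (by omega) P13b (G13b p hp (by omega)) ?_
    rw [D13b]
    exact key 10 (BF_nd p hp (by omega) 10 (by decide))

end Pool.Agent.Lib_helper91.TN
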