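import Pool.Agent.Lib_helper91.TN.ThApi

/-! Block C4: the recurrence of `c_n = ∑ C(n,k)^4` and its derivative.
With `P_k(x) = C(x,k)` (polynomial in `x`) and `q` below, as polynomials in `x`:
 `∑_{k≤J} [x³(x+1)³ P_k(x+1)⁴ - 2x³(2x+1)(3x²+3x+1) P_k(x)⁴ - 4(16x²-1)(x-k)⁴ P_k(x)⁴] = P_J(x)⁴ q(x,J)`, and
 `(x-k) P_k(x) = x P_k(x-1)`.  Evaluate, and differentiate then evaluate, at `x = n+1`, `J = n+2`. -/

namespace Pool.Agent.Lib_helper91.TN

open Finset

section C4Aux

variable {K : Type} [Field K]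

/-- the binomial coefficient of a polynomial -/
noncomputable def C4B (x : Polynomial K) : ℕ → Polynomial K
  | 0 => 1
  | k + 1 => Polynomial.C (((k : K) + 1)⁻¹) * (C4B x k * (x - (k : Polynomial K)))

theorem C4B_succ [CharZero K] (x : Polynomial K) (k : ℕ) :
    ((k : Polynomial K) + 1) * C4B x (k + 1) = C4B x k * (x - (k : Polynomial K)) := by
  have h1 : ((k : Polynomial K) + 1) = Polynomial.C ((k : K) + 1) := by simp
  have h2 : ((k : K) + 1) ≠ 0 := by exact_mod_cast Nat.succ_ne_zero k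
  rw [C4B, h1, ← mul_assoc, ← Polynomial.C_mul, mul_inv_cancel₀ h2, Polynomial.C_1, one_mul]

theorem C4_ne [CharZero K] (k : ℕ) : ((k : Polynomial K) + 1) ≠ 0 := by
  have h1 : ((k : Polynomial K) + 1) = Polynomial.C ((k : K) + 1) := by simp
  have h2 : ((k : K) + 1) ≠ 0 := by exact_mod_cast Nat.succ_ne_zero k
  rw [h1]
  exact Polynomial.C_ne_zero.2 h2

theorem C4B_pascal [CharZero K] (x : Polynomial K) (k : ℕ) :
    C4B (x + 1) (k + 1) = C4B x (k + 1) + C4B x k := by
  induction k with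
  | zero => simp [C4B]
  | succ k ih =>
    have h1 := C4B_succ (x + 1) (k + 1)
    have h2 := C4B_succ x (k + 1)
    have h3 := C4B_succ x k
    refine mul_left_cancel₀ (C4_ne (K := K) (k + 1)) ?_
    rw [h1, ih]
    push_cast at h1 h2 h3 ⊢
    linear_combination -h2 - h3

theorem C4B_shift [CharZero K] (x : Polynomial K) (k : ℕ) :
    (x - (k : Polynomial K)) * C4B x k = x * C4B (x - 1) k := by
  induction k with
  | zero => simp [C4B]
  | succ k ih =>
    have h1 := C4B_succ x k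
    have h2 := C4B_succ (x - 1) k
    refine mul_left_cancel₀ (C4_ne (K := K) k) ?_
    push_cast
    linear_combination (x - (k : Polynomial K) - 1) * h1 - x * h2 +
      (x - (k : Polynomial K) - 1) * ih

/-- the certificate -/
noncomputable def C4q (x m : Polynomial K) : Polynomial K :=
  (-x ^ 3 - 3 * x ^ 4 - 15 * x ^ 5 - 75 * x ^ 6) + m * (-12 * x ^ 3 + 8 * x ^ 4 + 260 * x ^ 5)
    + m ^ 2 * (24 * x ^ 2 + 10 * x ^ 3 - 374 * x ^ 4) + m ^ 3 * (-16 * x + 276 * x ^ 3)
    + m ^ 4 * (4 - 10 * x - 104 * x ^ 2) + m ^ 5 * (4 + 16 * x)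

theorem C4_tele [CharZero K] (x : Polynomial K) (J : ℕ) :
    ∑ k ∈ range (J + 1), (x ^ 3 * (x + 1) ^ 3 * C4B (x + 1) k ^ 4
      - (2 * x ^ 3 * (2 * x + 1) * (3 * x ^ 2 + 3 * x + 1)
        + 4 * (16 * x ^ 2 - 1) * (x - (k : Polynomial K)) ^ 4) * C4B x k ^ 4) =
    C4B x J ^ 4 * C4q x (J : Polynomial K) := by
  induction J with
  | zero =>
    simp [C4B, C4q]
    ring
  | succ k ih =>
    rw [sum_range_succ, ih, C4B_pascal]
    have h := C4B_succ x k
    refine mul_left_cancel₀ (pow_ne_zero 4 (C4_ne (K := K) k)) ?_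
    push_cast
    unfold C4q
    generalize C4B x (k + 1) = A at *
    generalize C4B x k = B at *
    generalize (k : Polynomial K) = m at *
    linear_combination (x ^ 3 * (x + 1) ^ 3 * (((m + 1) * A + (m + 1) * B) ^ 3 +
      ((m + 1) * A + (m + 1) * B) ^ 2 * (B * (x - m) + (m + 1) * B) +
      ((m + 1) * A + (m + 1) * B) * (B * (x - m) + (m + 1) * B) ^ 2 + (B * (x - m) + (m + 1) * B) ^ 3)
      - (2 * x ^ 3 * (2 * x + 1) * (3 * x ^ 2 + 3 * x + 1) + 4 * (16 * x ^ 2 - 1) * (x - (m + 1)) ^ 4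
        + ((-x ^ 3 - 3 * x ^ 4 - 15 * x ^ 5 - 75 * x ^ 6)
          + (m + 1) * (-12 * x ^ 3 + 8 * x ^ 4 + 260 * x ^ 5)
          + (m + 1) ^ 2 * (24 * x ^ 2 + 10 * x ^ 3 - 374 * x ^ 4) + (m + 1) ^ 3 * (-16 * x + 276 * x ^ 3)
          + (m + 1) ^ 4 * (4 - 10 * x - 104 * x ^ 2) + (m + 1) ^ 5 * (4 + 16 * x))) *
        (((m + 1) * A) ^ 3 + ((m + 1) * A) ^ 2 * (B * (x - m)) + ((m + 1) * A) * (B * (x - m)) ^ 2
          + (B * (x - m)) ^ 3)) * h

/-- the sum of the fourth powers -/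
noncomputable def C4S (x : Polynomial K) (J : ℕ) : Polynomial K :=
  ∑ k ∈ range (J + 1), C4B x k ^ 4

theorem C4_main [CharZero K] (x : Polynomial K) (J : ℕ) :
    x ^ 3 * (x + 1) ^ 3 * C4S (x + 1) J
      - 2 * x ^ 3 * (2 * x + 1) * (3 * x ^ 2 + 3 * x + 1) * C4S x J
      - 4 * (16 * x ^ 2 - 1) * x ^ 4 * C4S (x - 1) J =
    C4B x J ^ 4 * C4q x (J : Polynomial K) := by
  rw [← C4_tele, C4S, C4S, C4S, mul_sum, mul_sum, mul_sum, ← sum_sub_distrib,
    ← sum_sub_distrib]
  refine sum_congr rfl fun k _ => ?_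
  have h := congrArg (fun f => f ^ 4) (C4B_shift x k)
  simp only [mul_pow] at h
  linear_combination (4 * (16 * x ^ 2 - 1)) * h

theorem C4B_eval [CharZero K] (x : Polynomial K) (t : K) (c : ℕ) (hx : x.eval t = c) (k : ℕ) :
    (C4B x k).eval t = (c.choose k : K) := by
  induction k with
  | zero => simp [C4B]
  | succ k ih =>
    rw [C4B, Polynomial.eval_mul, Polynomial.eval_mul, Polynomial.eval_sub, hx, ih,
      Polynomial.eval_C, Polynomial.eval_natCast]
    have h2 : ((k : K) + 1) ≠ 0 := by exact_mod_cast Nat.succ_ne_zero k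
    rw [inv_mul_eq_iff_eq_mul₀ h2]
    rcases le_or_gt k c with h | h
    · have h3 := Nat.choose_succ_right_eq c k
      have h4 : ((c.choose (k + 1) : ℕ) : K) * ((k : K) + 1) = (c.choose k : K) * ((c : K) - k) := by
        have := congrArg (Nat.cast : ℕ → K) h3
        push_cast [Nat.cast_sub h] at this
        exact this
      rw [← h4, mul_comm]
    · rw [Nat.choose_eq_zero_of_lt h, Nat.choose_eq_zero_of_lt (by omega)]
      simp

theorem C4_Hn_succ (m : ℕ) : Hn K (m + 1) = Hn K m + ((m : K) + 1)⁻¹ := by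
  rw [Hn, Hn, ← Finset.insert_Ioc_right_eq_Ioc_add_one (by omega : 0 ≤ m), sum_insert (by simp)]
  push_cast
  ring

theorem C4B_deriv [CharZero K] (x : Polynomial K) (hx1 : Polynomial.derivative x = 1) (t : K)
    (c : ℕ) (hx : x.eval t = c) (k : ℕ) (hk : k ≤ c) :
    (Polynomial.derivative (C4B x k)).eval t = (c.choose k : K) * (Hn K c - Hn K (c - k)) := by
  induction k with
  | zero => simp [C4B]
  | succ k ih =>
    have ih' := ih (by omega)
    have h2 : ((k : K) + 1) ≠ 0 := by exact_mod_cast Nat.succ_ne_zero k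
    rw [C4B, Polynomial.derivative_C_mul, Polynomial.derivative_mul, Polynomial.derivative_sub,
      hx1, Polynomial.derivative_natCast, sub_zero, mul_one, Polynomial.eval_mul,
      Polynomial.eval_add, Polynomial.eval_mul, Polynomial.eval_sub, hx, ih',
      C4B_eval x t c hx k, Polynomial.eval_C, Polynomial.eval_natCast]
    rw [inv_mul_eq_iff_eq_mul₀ h2]
    obtain ⟨m, rfl⟩ : ∃ m, c = m + 1 + k := ⟨c - k - 1, by omega⟩
    have h3 := Nat.choose_succ_right_eq (m + 1 + k) k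
    have h4 : (((m + 1 + k).choose (k + 1) : ℕ) : K) * ((k : K) + 1) =
        ((m + 1 + k).choose k : K) * ((m : K) + 1) := by
      have := congrArg (Nat.cast : ℕ → K) h3
      rw [show m + 1 + k - k = m + 1 by omega] at this
      push_cast at this
      exact this
    rw [show m + 1 + k - k = m + 1 by omega, show m + 1 + k - (k + 1) = m by omega,
      C4_Hn_succ m]
    have h5 : ((m : K) + 1) ≠ 0 := by exact_mod_cast Nat.succ_ne_zero m
    have h6 : ((m : K) + 1) * ((m : K) + 1)⁻¹ = 1 := mul_inv_cancel₀ h5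
    push_cast
    linear_combination (-(Hn K (m + 1 + k) - Hn K m)) * h4 -
      (((m + 1 + k).choose k : ℕ) : K) * h6

theorem C4S_eval [CharZero K] (x : Polynomial K) (t : K) (c J : ℕ) (hx : x.eval t = c)
    (hJ : c ≤ J) : (C4S x J).eval t = (bb c : K) := by
  rw [C4S, Polynomial.eval_finsetSum, bb]
  push_cast
  symm
  refine (sum_subset (range_mono (by omega)) fun k _ hk => ?_).trans (sum_congr rfl fun k _ => ?_)
  · rw [mem_range, not_lt] at hk
    rw [Nat.choose_eq_zero_of_lt (by omega)]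
    simp
  · rw [Polynomial.eval_pow, C4B_eval x t c hx k]

theorem C4S_deriv [CharZero K] (x : Polynomial K) (hx1 : Polynomial.derivative x = 1) (t : K)
    (c J : ℕ) (hx : x.eval t = c) (hJ : c ≤ J) :
    (Polynomial.derivative (C4S x J)).eval t = gg K c := by
  have h1 : (Polynomial.derivative (C4S x J)).eval t =
      ∑ k ∈ range (J + 1), 4 * (C4B x k).eval t ^ 3 *
        (Polynomial.derivative (C4B x k)).eval t := by
    rw [C4S, Polynomial.derivative_sum, Polynomial.eval_finsetSum]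
    refine sum_congr rfl fun k _ => ?_
    rw [Polynomial.derivative_pow]
    simp
  rw [h1, gg, mul_sum]
  have h2 : ∑ k ∈ range (J + 1), 4 * (C4B x k).eval t ^ 3 *
        (Polynomial.derivative (C4B x k)).eval t =
      ∑ k ∈ range (c + 1), 4 * (C4B x k).eval t ^ 3 *
        (Polynomial.derivative (C4B x k)).eval t := by
    symm
    refine sum_subset (range_mono (by omega)) fun k _ hk => ?_
    rw [mem_range, not_lt] at hk
    rw [C4B_eval x t c hx k, Nat.choose_eq_zero_of_lt (by omega)]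
    simp
  rw [h2, ← sum_range_reflect]
  refine sum_congr rfl fun k hk => ?_
  rw [mem_range] at hk
  have h3 : c + 1 - 1 - k = c - k := by omega
  rw [h3, C4B_eval x t c hx, C4B_deriv x hx1 t c hx (c - k) (by omega),
    show c - (c - k) = k by omega, Nat.choose_symm (by omega)]
  ring

theorem C4_diff (a b c r q : Polynomial K)
    (h : Polynomial.X ^ 3 * (Polynomial.X + 1) ^ 3 * a
      - 2 * Polynomial.X ^ 3 * (2 * Polynomial.X + 1) * (3 * Polynomial.X ^ 2 + 3 * Polynomial.X + 1) * b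
      - 4 * (16 * Polynomial.X ^ 2 - 1) * Polynomial.X ^ 4 * c = r ^ 4 * q)
    (t : K) (ht : t ≠ 0) (hr : r.eval t = 0) :
    (t + 1) ^ 3 * a.eval t = 2 * (2 * t + 1) * (3 * t ^ 2 + 3 * t + 1) * b.eval t
      + 4 * t * (16 * t ^ 2 - 1) * c.eval t ∧
    (t + 1) ^ 3 * (Polynomial.derivative a).eval t + 3 * (t + 1) ^ 2 * a.eval t =
      2 * (2 * t + 1) * (3 * t ^ 2 + 3 * t + 1) * (Polynomial.derivative b).eval t
        + (36 * t ^ 2 + 36 * t + 10) * b.eval t +
        4 * t * (16 * t ^ 2 - 1) * (Polynomial.derivative c).eval t + (192 * t ^ 2 - 4) * c.eval t := by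
  have h1 := congrArg (Polynomial.eval t) h
  simp only [Polynomial.eval_mul, Polynomial.eval_sub, Polynomial.eval_add, Polynomial.eval_pow,
    Polynomial.eval_X, Polynomial.eval_one, Polynomial.eval_ofNat, hr] at h1
  have h2 := congrArg (fun f => (Polynomial.derivative f).eval t) h
  simp only [Polynomial.derivative_mul, Polynomial.derivative_sub, Polynomial.derivative_add,
    Polynomial.derivative_pow, Polynomial.derivative_X, Polynomial.derivative_one,
    Polynomial.derivative_ofNat, Polynomial.eval_mul, Polynomial.eval_sub, Polynomial.eval_add,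
    Polynomial.eval_pow, Polynomial.eval_X, Polynomial.eval_one, Polynomial.eval_ofNat, hr,
    Polynomial.eval_C, Polynomial.eval_zero, Polynomial.eval_natCast] at h2
  have ht3 : t ^ 3 ≠ 0 := pow_ne_zero 3 ht
  have h3 : (t + 1) ^ 3 * a.eval t = 2 * (2 * t + 1) * (3 * t ^ 2 + 3 * t + 1) * b.eval t
      + 4 * t * (16 * t ^ 2 - 1) * c.eval t := by
    refine mul_left_cancel₀ ht3 ?_
    linear_combination h1
  refine ⟨h3, mul_left_cancel₀ ht3 ?_⟩
  norm_num at h2
  linear_combination h2 - (3 * t ^ 2) * h3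

end C4Aux

theorem bb_rec' (n : ℕ) :
    ((n : ℚ) + 2) ^ 3 * (bb (n + 2) : ℚ) =
      (12 * ((n : ℚ) + 1) ^ 3 + 18 * ((n : ℚ) + 1) ^ 2 + 10 * ((n : ℚ) + 1) + 2) * (bb (n + 1) : ℚ)
        + (64 * ((n : ℚ) + 1) ^ 3 - 4 * ((n : ℚ) + 1)) * (bb n : ℚ) := by
  have ht : ((n : ℚ) + 1) ≠ 0 := by positivity
  have h := C4_diff _ _ _ _ _ (C4_main (K := ℚ) Polynomial.X (n + 2)) ((n : ℚ) + 1) ht (by
    rw [C4B_eval _ _ (n + 1) (by simp), Nat.choose_eq_zero_of_lt (by omega), Nat.cast_zero])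
  have h1 := h.1
  rw [C4S_eval _ _ (n + 2) (n + 2) (by simp; ring) le_rfl,
    C4S_eval _ _ (n + 1) (n + 2) (by simp) (by omega),
    C4S_eval _ _ n (n + 2) (by simp) (by omega)] at h1
  linear_combination h1

theorem gg_rec (K : Type) [Field K] [CharZero K] (n : ℕ) :
    ((n : K) + 2) ^ 3 * gg K (n + 2) + 3 * ((n : K) + 2) ^ 2 * (bb (n + 2) : K) =
      (12 * ((n : K) + 1) ^ 3 + 18 * ((n : K) + 1) ^ 2 + 10 * ((n : K) + 1) + 2) * gg K (n + 1)
        + (36 * ((n : K) + 1) ^ 2 + 36 * ((n : K) + 1) + 10) * (bb (n + 1) : K)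
        + (64 * ((n : K) + 1) ^ 3 - 4 * ((n : K) + 1)) * gg K n
        + (192 * ((n : K) + 1) ^ 2 - 4) * (bb n : K) := by
  have ht : ((n : K) + 1) ≠ 0 := by exact_mod_cast Nat.succ_ne_zero n
  have h := C4_diff _ _ _ _ _ (C4_main (K := K) Polynomial.X (n + 2)) ((n : K) + 1) ht (by
    rw [C4B_eval _ _ (n + 1) (by simp), Nat.choose_eq_zero_of_lt (by omega), Nat.cast_zero])
  have h1 := h.2
  have e1 : (Polynomial.X + 1 : Polynomial K).eval ((n : K) + 1) = ((n + 2 : ℕ) : K) := by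
    simp
    ring
  have e2 : (Polynomial.X : Polynomial K).eval ((n : K) + 1) = ((n + 1 : ℕ) : K) := by simp
  have e3 : (Polynomial.X - 1 : Polynomial K).eval ((n : K) + 1) = ((n : ℕ) : K) := by simp
  rw [C4S_eval _ _ (n + 2) (n + 2) e1 le_rfl,
    C4S_eval _ _ (n + 1) (n + 2) e2 (by omega),
    C4S_eval _ _ n (n + 2) e3 (by omega),
    C4S_deriv _ (by simp) _ (n + 2) (n + 2) e1 le_rfl,
    C4S_deriv _ (by simp) _ (n + 1) (n + 2) e2 (by omega),
    C4S_deriv _ (by simp) _ n (n + 2) e3 (by omega)] at h1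
  linear_combination h1

/-- the recurrence of `bb` in a field of characteristic zero -/
theorem bb_recK (K : Type) [Field K] [CharZero K] (n : ℕ) :
    ((n : K) + 2) ^ 3 * (bb (n + 2) : K) =
      (12 * ((n : K) + 1) ^ 3 + 18 * ((n : K) + 1) ^ 2 + 10 * ((n : K) + 1) + 2) * (bb (n + 1) : K)
        + (64 * ((n : K) + 1) ^ 3 - 4 * ((n : K) + 1)) * (bb n : K) := by
  have h := bb_rec' n
  have h2 : ((n : ℤ) + 2) ^ 3 * (bb (n + 2) : ℤ) =
      (12 * ((n : ℤ) + 1) ^ 3 + 18 * ((n : ℤ) + 1) ^ 2 + 10 * ((n : ℤ) + 1) + 2) * (bb (n + 1) : ℤ)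
        + (64 * ((n : ℤ) + 1) ^ 3 - 4 * ((n : ℤ) + 1)) * (bb n : ℤ) := by
    exact_mod_cast h
  exact_mod_cast congrArg (Int.cast : ℤ → K) h2

end Pool.Agent.Lib_helper91.TN
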