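import Pool.Agent.Lib_helper91.TN.UB
import Pool.Agent.Lib_helper91.TN.GZ

/-! Block CHO: `C(p-1-j,i-j) = (-1)^(i-j) C(i,j) (1 - p(H_i-H_j))` modulo `p²`. -/

namespace Pool.Agent.Lib_helper91.TN

open PowerSeries Finset

theorem CHO_norm (p : ℕ) [Fact p.Prime] (n : ℕ) (h : ¬ p ∣ n) : ‖(n : ℚ_[p])‖ = 1 :=
  norm_natCast_eq_one n h

theorem CHO_aux (p : ℕ) [Fact p.Prime] (j d : ℕ) (hi : j + d < p) :
    PI 2 (((p - 1 - j).choose d : ℚ_[p])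
      - (-1) ^ d * ((j + d).choose j : ℚ_[p]) *
        (1 - (p : ℚ_[p]) * (Hn ℚ_[p] (j + d) - Hn ℚ_[p] j))) := by
  induction d with
  | zero => simpa using PI_zero 2
  | succ d ih =>
    have ih' := ih (by omega)
    have hΔ : PI 0 (Hn ℚ_[p] (j + d) - Hn ℚ_[p] j) :=
      PI_sub (PI_Hn p _ (by omega)) (PI_Hn p j (by omega))
    have hC : PI 0 ((j + d).choose j : ℚ_[p]) := PI_natCast _
    have hs0 : PI 0 ((-1 : ℚ_[p]) ^ d) := by
      refine PI_pow ?_ _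
      have := PI_intCast (p := p) (-1)
      simpa using this
    have hnd : ¬ p ∣ d + 1 := fun h => by
      have := Nat.le_of_dvd (Nat.succ_pos d) h
      omega
    have hu : ‖((d + 1 : ℕ) : ℚ_[p])‖ = 1 := CHO_norm p _ hnd
    refine PI_of_unit_mul hu ?_
    have hi0 : ((j + d + 1 : ℕ) : ℚ_[p]) ≠ 0 := by
      rw [Nat.cast_ne_zero]; omega
    have h1 : ((d + 1 : ℕ) : ℚ_[p]) * ((p - 1 - j).choose (d + 1) : ℚ_[p]) =
        ((p : ℚ_[p]) - ((j + d + 1 : ℕ) : ℚ_[p])) * ((p - 1 - j).choose d : ℚ_[p]) := by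
      have h2 := Nat.choose_succ_right_eq (p - 1 - j) d
      have h3 : ((p - 1 - j - d : ℕ) : ℚ_[p]) = (p : ℚ_[p]) - ((j + d + 1 : ℕ) : ℚ_[p]) := by
        rw [show p - 1 - j - d = p - (j + d + 1) by omega, Nat.cast_sub (by omega)]
      rw [← h3, mul_comm, mul_comm _ ((p - 1 - j).choose d : ℚ_[p])]
      exact_mod_cast h2
    have h4 : ((d + 1 : ℕ) : ℚ_[p]) * ((j + (d + 1)).choose j : ℚ_[p]) =
        ((j + d + 1 : ℕ) : ℚ_[p]) * ((j + d).choose j : ℚ_[p]) := by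
      have h5 : (j + (d + 1)).choose j = (j + d + 1).choose (d + 1) :=
        Nat.choose_symm_of_eq_add (by omega)
      have h6 : (j + d).choose j = (j + d).choose d := Nat.choose_symm_of_eq_add (by omega)
      rw [h5, h6]
      have h7 := Nat.add_one_mul_choose_eq (j + d) d
      have h8 : (d + 1) * (j + d + 1).choose (d + 1) = (j + d + 1) * (j + d).choose d := by
        rw [h7, mul_comm]
      exact_mod_cast h8
    have h9 : Hn ℚ_[p] (j + (d + 1)) = (((j + d + 1 : ℕ) : ℚ_[p]))⁻¹ + Hn ℚ_[p] (j + d) :=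
      UB_Hn_succ ℚ_[p] (j + d)
    rw [h9]
    have e : ((d + 1 : ℕ) : ℚ_[p]) * (((p - 1 - j).choose (d + 1) : ℚ_[p]) -
        (-1) ^ (d + 1) * ((j + (d + 1)).choose j : ℚ_[p]) *
          (1 - (p : ℚ_[p]) * ((((j + d + 1 : ℕ) : ℚ_[p]))⁻¹ + Hn ℚ_[p] (j + d) - Hn ℚ_[p] j))) =
        ((p : ℚ_[p]) - ((j + d + 1 : ℕ) : ℚ_[p])) * (((p - 1 - j).choose d : ℚ_[p])
          - (-1) ^ d * ((j + d).choose j : ℚ_[p]) *
            (1 - (p : ℚ_[p]) * (Hn ℚ_[p] (j + d) - Hn ℚ_[p] j))) -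
        ((p : ℚ_[p]) * p) * ((-1) ^ d * ((j + d).choose j : ℚ_[p]) *
          (Hn ℚ_[p] (j + d) - Hn ℚ_[p] j)) := by
      have h10 : ((j + d + 1 : ℕ) : ℚ_[p]) * (((j + d + 1 : ℕ) : ℚ_[p]))⁻¹ = 1 :=
        mul_inv_cancel₀ hi0
      have h11 : (-1 : ℚ_[p]) ^ (d + 1) = -(-1) ^ d := by rw [pow_succ]; ring
      rw [h11]
      linear_combination h1 + ((-1) ^ d * (1 - (p : ℚ_[p]) *
        ((((j + d + 1 : ℕ) : ℚ_[p]))⁻¹ + Hn ℚ_[p] (j + d) - Hn ℚ_[p] j))) * h4 -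
        ((-1) ^ d * (p : ℚ_[p]) * ((j + d).choose j : ℚ_[p])) * h10
    rw [e]
    refine PI_sub ?_ ?_
    · have h12 : PI 0 ((p : ℚ_[p]) - ((j + d + 1 : ℕ) : ℚ_[p])) := PI_sub (PI_natCast _) (PI_natCast _)
      simpa using PI_mul h12 ih'
    · simpa using PI_mul (PI_mul (PI_p (p := p)) (PI_p (p := p))) (PI_mul (PI_mul hs0 hC) hΔ)

/-- block CHO -/
theorem CHO (p : ℕ) [Fact p.Prime] (i j : ℕ) (hj : j ≤ i) (hi : i < p) :
    PI 2 (((p - 1 - j).choose (i - j) : ℚ_[p])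
      - (-1) ^ (i - j) * (i.choose j : ℚ_[p]) * (1 - (p : ℚ_[p]) * (Hn ℚ_[p] i - Hn ℚ_[p] j))) := by
  obtain ⟨d, rfl⟩ := Nat.exists_eq_add_of_le hj
  rw [Nat.add_sub_cancel_left]
  exact CHO_aux p j d hi

end Pool.Agent.Lib_helper91.TN
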