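import Pool.Agent.Lib_helper91.TN.PTA

/-! Block CMN: the numbers at the CM point.  Write `κ h_i = ev H_i`, `d ev(W) Mm = ev R2`, `L_i = -v h_i'(0)` (`h_i' = dX h_i`), `M0 = Mm(0)`, `M1 = Mm'(0)`.
`ev S(0) = κ m`, `ev Q(0) = 0`, `2 n0 (ev b)'(0) = evI (dB b)` (PPt_dB), so `2 n0 κ h2'(0) = δS + δQ √D0`, `2 n0 κ h1'(0) = δS - δQ √D0`.
L2 - L1 = `-v δQ √D0/(n0 κ)`, L2 + L1 = `-v δS/(n0 κ)`.  `d W0 M0 = U0 + V0 √D0`.
`M1 = Mt0 M0/(4 n0 √D0 Nt0)`: evaluate D4 at the point: `Nt (W ∂R2 - R2 ∂W) = Mt W R2`, `∂ = 4ηY dX` (PPt_dA), `W R2' - R2 W' = d W² Mm'`.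
hk: `a M1 = -b M0 (L2-L1)` from `Point.hk`.  hs: `L2 = s d M0 L1` from `Point.hs1, hs2`.  `d² M0 τM0 = 1` from D2. -/

namespace Pool.Agent.Lib_helper91.TN

open PowerSeries Finset

namespace MD

variable (M : MD) (p : ℕ) [Fact p.Prime] {x0 n0 m a b s : ℤ}

/-- the numbers `L1, L2, M0, M1` and their relations -/
structure Num (p : ℕ) (D0 a b d s : ℤ) (L1 L2 M0 M1 : QK p D0) : Prop where
  hL : L1 = tau p D0 (-1) L2
  hM : (d : QK p D0) ^ 2 * M0 * tau p D0 (-1) M0 = 1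
  hk : (a : QK p D0) * M1 = -(b : QK p D0) * M0 * (L2 - L1)
  hs : s = 1 ∨ s = -1
  hs' : L2 = (s : QK p D0) * (d : QK p D0) * M0 * L1
  ub : IsUnit (b : QK p D0)
  ud : IsUnit (d : QK p D0)
  um : IsUnit (L2 - L1)
  up : IsUnit (L2 + L1)
  uM : IsUnit (M0 - tau p D0 (-1) M0)

omit [Fact p.Prime] in
/-- an integer prime to `p` is a unit in `QK` -/
theorem CMN_unit [hp : Fact p.Prime] (D0 c : ℤ) (hc : ¬ (p : ℤ) ∣ c) : IsUnit ((c : ℤ) : QK p D0) := by
  have h1 : IsCoprime (p : ℤ) c := by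
    rw [Int.isCoprime_iff_gcd_eq_one]
    exact Int.isCoprime_iff_gcd_eq_one.1
      ((Prime.coprime_iff_not_dvd (Nat.prime_iff_prime_int.1 hp.out)).2 hc)
  have h2 : IsCoprime ((p : ℤ) ^ 2) c := h1.pow_left
  obtain ⟨u, w, huw⟩ := h2
  have h3 : ((u : ℤ) : QK p D0) * ((p : ℕ) : QK p D0) ^ 2 + (w : QK p D0) * (c : QK p D0) = 1 := by
    have := congrArg (fun z : ℤ => (z : QK p D0)) huw
    push_cast at this
    exact this
  rw [QK_p_sq, mul_zero, zero_add] at h3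
  exact IsUnit.of_mul_eq_one (w : QK p D0) (by rw [mul_comm]; exact h3)

omit [Fact p.Prime] in
theorem CMN_sqD (D0 : ℤ) : sqD p D0 * sqD p D0 = ((D0 : ℤ) : QK p D0) := by
  unfold sqD
  ext <;> simp

omit [Fact p.Prime] in
theorem CMN_tau_int (D0 χ c : ℤ) : tau p D0 χ ((c : ℤ) : QK p D0) = (c : QK p D0) := by
  unfold tau
  ext <;> simp

omit [Fact p.Prime] in
theorem CMN_tau_neg (D0 χ : ℤ) (u : QK p D0) : tau p D0 χ (-u) = -tau p D0 χ u := by
  unfold tau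
  ext <;> simp

theorem CMN (hM : M.Valid) (hG : M.Good p) (hpt : M.Point x0 n0 m a b s)
    (hg : M.GoodPt x0 n0 m b p) (P : M.PPt p x0 n0)
    (h1 h2 Mm : PowerSeries (QK p (M.evI x0 n0 M.D))) (v : QK p (M.evI x0 n0 M.D))
    (hv : v * ((m : ℤ) : QK p (M.evI x0 n0 M.D)) = 1)
    (hh1 : ((M.kap : ℤ) : PowerSeries (QK p (M.evI x0 n0 M.D))) * h1 = P.toPt.ev M.H1)
    (hh2 : ((M.kap : ℤ) : PowerSeries (QK p (M.evI x0 n0 M.D))) * h2 = P.toPt.ev M.H2)
    (hMm : ((M.d : ℕ) : PowerSeries (QK p (M.evI x0 n0 M.D))) * P.toPt.evB M.W * Mm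
      = P.toPt.ev M.R2) :
    constantCoeff h1 = ((m : ℤ) : QK p (M.evI x0 n0 M.D)) ∧
    constantCoeff h2 = ((m : ℤ) : QK p (M.evI x0 n0 M.D)) ∧
    Num p (M.evI x0 n0 M.D) a b M.d s (-v * constantCoeff (dX h1)) (-v * constantCoeff (dX h2))
      (constantCoeff Mm) (constantCoeff (dX Mm)) := by
  have hp3 := hG.h3
  -- units
  have uκ : IsUnit ((M.kap : ℤ) : QK p (M.evI x0 n0 M.D)) := CMN_unit p _ _ hG.hkap
  have ud : IsUnit (((M.d : ℤ) : ℤ) : QK p (M.evI x0 n0 M.D)) := CMN_unit p _ _ hG.hd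
  have un : IsUnit ((n0 : ℤ) : QK p (M.evI x0 n0 M.D)) := CMN_unit p _ _ hg.hn
  have um : IsUnit ((m : ℤ) : QK p (M.evI x0 n0 M.D)) := CMN_unit p _ _ hg.hm
  have ub : IsUnit ((b : ℤ) : QK p (M.evI x0 n0 M.D)) := CMN_unit p _ _ hg.hb
  have uV : IsUnit ((M.evI x0 n0 M.V : ℤ) : QK p (M.evI x0 n0 M.D)) := CMN_unit p _ _ hg.hV
  have uW : IsUnit ((M.evI x0 n0 M.W : ℤ) : QK p (M.evI x0 n0 M.D)) := CMN_unit p _ _ hg.hW
  have uN : IsUnit ((M.evI x0 n0 M.Nt : ℤ) : QK p (M.evI x0 n0 M.D)) := CMN_unit p _ _ hg.hN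
  have udQ : IsUnit ((M.evI x0 n0 (M.dB M.Q) : ℤ) : QK p (M.evI x0 n0 M.D)) :=
    CMN_unit p _ _ hg.hQ
  have udS : IsUnit ((M.evI x0 n0 (M.dB M.S) : ℤ) : QK p (M.evI x0 n0 M.D)) :=
    CMN_unit p _ _ hg.hS
  have u2 : IsUnit ((2 : ℤ) : QK p (M.evI x0 n0 M.D)) := by
    refine CMN_unit p _ _ fun h => ?_
    have := Int.le_of_dvd (by norm_num) h
    omega
  have hsq := CMN_sqD p (M.evI x0 n0 M.D)
  have usq : IsUnit (sqD p (M.evI x0 n0 M.D)) := by
    have h := CMN_unit p (M.evI x0 n0 M.D) (M.evI x0 n0 M.D) hg.hD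
    rw [← hsq] at h
    exact isUnit_of_mul_isUnit_left h
  have uv : IsUnit v := IsUnit.of_mul_eq_one _ hv
  have u2' : IsUnit (2 : QK p (M.evI x0 n0 M.D)) := by exact_mod_cast u2
  -- the constants
  have cB : ∀ c : M.B, constantCoeff (P.toPt.evB c) =
      ((M.evI x0 n0 c : ℤ) : QK p (M.evI x0 n0 M.D)) := M.PPt_const_evB p P
  have hder := isDer_dX (R := QK p (M.evI x0 n0 M.D))
  have dBc : ∀ c : M.B, ((M.evI x0 n0 (M.dB c) : ℤ) : QK p (M.evI x0 n0 M.D)) =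
      2 * (n0 : QK p (M.evI x0 n0 M.D)) * constantCoeff (dX (P.toPt.evB c)) := by
    intro c
    have e := congrArg constantCoeff (M.PPt_dB p hp3 hg P c)
    rw [cB, map_mul, map_mul, P.hη0, map_ofNat] at e
    exact e
  have eQ : ((M.evI x0 n0 M.Q : ℤ) : QK p (M.evI x0 n0 M.D)) = 0 := by
    rw [hpt.hQ, Int.cast_zero]
  have eS : ((M.evI x0 n0 M.S : ℤ) : QK p (M.evI x0 n0 M.D)) =
      (M.kap : QK p (M.evI x0 n0 M.D)) * (m : QK p (M.evI x0 n0 M.D)) := by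
    rw [hpt.hS, Int.cast_mul]
  have e1 : constantCoeff h1 = ((m : ℤ) : QK p (M.evI x0 n0 M.D)) := by
    have e := congrArg constantCoeff hh1
    rw [Pt.ev_H1, map_mul, map_intCast, map_sub, map_mul, cB, cB, eQ, zero_mul, sub_zero, eS] at e
    exact uκ.mul_left_cancel e
  have e2 : constantCoeff h2 = ((m : ℤ) : QK p (M.evI x0 n0 M.D)) := by
    have e := congrArg constantCoeff hh2
    rw [Pt.ev_H2, map_mul, map_intCast, map_add, map_mul, cB, cB, eQ, zero_mul, add_zero, eS] at e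
    exact uκ.mul_left_cancel e
  have f1 : (M.kap : QK p (M.evI x0 n0 M.D)) * constantCoeff (dX h1) =
      constantCoeff (dX (P.toPt.evB M.S)) -
        constantCoeff (dX (P.toPt.evB M.Q)) * sqD p (M.evI x0 n0 M.D) := by
    have e := congrArg (fun f => constantCoeff (dX f)) hh1
    rw [Pt.ev_H1, hder.mul, hder.intCast, hder.sub, hder.mul, zero_mul, zero_add, map_mul,
      map_intCast, map_sub, map_add, map_mul, map_mul, cB, P.hY0, eQ, zero_mul, add_zero] at e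
    exact e
  have f2 : (M.kap : QK p (M.evI x0 n0 M.D)) * constantCoeff (dX h2) =
      constantCoeff (dX (P.toPt.evB M.S)) +
        constantCoeff (dX (P.toPt.evB M.Q)) * sqD p (M.evI x0 n0 M.D) := by
    have e := congrArg (fun f => constantCoeff (dX f)) hh2
    rw [Pt.ev_H2, hder.mul, hder.intCast, hder.add, hder.mul, zero_mul, zero_add, map_mul,
      map_intCast, map_add, map_add, map_mul, map_mul, cB, P.hY0, eQ, zero_mul, add_zero] at e
    exact e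
  have g0 : ((M.d : ℤ) : QK p (M.evI x0 n0 M.D)) *
      ((M.evI x0 n0 M.W : ℤ) : QK p (M.evI x0 n0 M.D)) * constantCoeff Mm =
      ((M.evI x0 n0 M.U : ℤ) : QK p (M.evI x0 n0 M.D)) +
        ((M.evI x0 n0 M.V : ℤ) : QK p (M.evI x0 n0 M.D)) * sqD p (M.evI x0 n0 M.D) := by
    have e := congrArg constantCoeff hMm
    rw [Pt.ev_R2, map_mul, map_mul, map_natCast, map_add, map_mul, cB, cB, cB, P.hY0] at e
    rw [Int.cast_natCast]
    exact e
  have g1 : constantCoeff (dX (P.toPt.ev M.R2)) = ((M.d : ℤ) : QK p (M.evI x0 n0 M.D)) *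
      (constantCoeff (dX (P.toPt.evB M.W)) * constantCoeff Mm +
        ((M.evI x0 n0 M.W : ℤ) : QK p (M.evI x0 n0 M.D)) * constantCoeff (dX Mm)) := by
    have e := congrArg (fun f => constantCoeff (dX f)) hMm
    have hd0 : dX ((M.d : ℕ) : PowerSeries (QK p (M.evI x0 n0 M.D))) = 0 := by
      have := hder.intCast (M.d : ℤ)
      rwa [Int.cast_natCast] at this
    rw [mul_assoc, hder.mul, hd0, zero_mul, zero_add, hder.mul, map_mul, map_natCast, map_add,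
      map_mul, map_mul, cB] at e
    rw [Int.cast_natCast]
    exact e.symm
  have g0' : constantCoeff (P.toPt.ev M.R2) = ((M.d : ℤ) : QK p (M.evI x0 n0 M.D)) *
      ((M.evI x0 n0 M.W : ℤ) : QK p (M.evI x0 n0 M.D)) * constantCoeff Mm := by
    rw [← hMm, map_mul, map_mul, map_natCast, cB, Int.cast_natCast]
  -- D4 at the point
  have g4 : 4 * (n0 : QK p (M.evI x0 n0 M.D)) * sqD p (M.evI x0 n0 M.D) *
      ((M.evI x0 n0 M.Nt : ℤ) : QK p (M.evI x0 n0 M.D)) * constantCoeff (dX Mm) =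
      ((M.evI x0 n0 M.Mt : ℤ) : QK p (M.evI x0 n0 M.D)) * constantCoeff Mm := by
    have e := congrArg (fun z => constantCoeff (P.toPt.ev z)) hM.D4
    simp only [map_mul, map_sub, Pt.ev_iB, M.PPt_dA p hp3 hg P, cB, P.hη0, P.hY0, g1, g0',
      map_ofNat] at e
    refine (ud.mul (uW.pow 2)).mul_left_cancel ?_
    linear_combination e
  have hτv : tau p (M.evI x0 n0 M.D) (-1) v = v := by
    have h := congrArg (tau p (M.evI x0 n0 M.D) (-1)) hv
    rw [tau_mul _ _ _ (Or.inr rfl), CMN_tau_int] at h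
    have h1 : tau p (M.evI x0 n0 M.D) (-1) 1 = 1 := by
      have := CMN_tau_int p (M.evI x0 n0 M.D) (-1) 1
      rwa [Int.cast_one] at this
    rw [h1, ← hv] at h
    exact um.mul_right_cancel h
  refine ⟨e1, e2, ?_, ?_, ?_, hpt.hs, ?_, ub, ud, ?_, ?_, ?_⟩
  · -- L1 = tau L2
    rw [tau_mul _ _ _ (Or.inr rfl), CMN_tau_neg, hτv]
    have h3 : constantCoeff (dX h1) = tau p (M.evI x0 n0 M.D) (-1) (constantCoeff (dX h2)) := by
      refine uκ.mul_left_cancel ?_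
      have e := M.PPt_cj p P M.H2 1
      rw [cj_H2, ← hh1, ← hh2] at e
      have h4 : ∀ h : PowerSeries (QK p (M.evI x0 n0 M.D)),
          coeff 1 (((M.kap : ℤ) : PowerSeries (QK p (M.evI x0 n0 M.D))) * h) =
            (M.kap : QK p (M.evI x0 n0 M.D)) * constantCoeff (dX h) := by
        intro h
        rw [← constantCoeff_dX, hder.mul, hder.intCast, zero_mul, zero_add, map_mul, map_intCast]
      rw [h4, h4, tau_mul _ _ _ (Or.inr rfl), CMN_tau_int] at e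
      exact e
    rw [h3]
  · -- D2
    have e := congrArg (fun z => constantCoeff (P.toPt.ev z)) hM.D2
    have ej := M.PPt_cj p P M.R2 0
    rw [cj_R2, coeff_zero_eq_constantCoeff_apply, coeff_zero_eq_constantCoeff_apply] at ej
    rw [map_mul, map_mul, ej, map_pow, map_pow, Pt.ev_iB, cB, g0', tau_mul _ _ _ (Or.inr rfl),
      tau_mul _ _ _ (Or.inr rfl), CMN_tau_int, CMN_tau_int] at e
    refine (uW.pow 2).mul_left_cancel ?_
    linear_combination e
  · -- hk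
    have hk := congrArg (fun z : ℤ => (z : QK p (M.evI x0 n0 M.D))) hpt.hk
    push_cast at hk
    have hQ' := dBc M.Q
    refine ((((((u2'.pow 2).mul un).mul usq).mul uN).mul uκ).mul um).mul_left_cancel ?_
    linear_combination (M.kap * m * a : QK p (M.evI x0 n0 M.D)) * g4 + constantCoeff Mm * hk
      + 4 * (b : QK p (M.evI x0 n0 M.D)) * (M.evI x0 n0 M.Nt : QK p (M.evI x0 n0 M.D))
        * (M.evI x0 n0 M.D : QK p (M.evI x0 n0 M.D)) * constantCoeff Mm * hQ'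
      - 4 * (n0 : QK p (M.evI x0 n0 M.D)) * sqD p (M.evI x0 n0 M.D)
        * (M.evI x0 n0 M.Nt : QK p (M.evI x0 n0 M.D)) * m * b * constantCoeff Mm * v * (f2 - f1)
      - 8 * (n0 : QK p (M.evI x0 n0 M.D)) * (M.evI x0 n0 M.Nt : QK p (M.evI x0 n0 M.D)) * b
        * constantCoeff Mm * constantCoeff (dX (P.toPt.evB M.Q)) * (v * m) * hsq
      - 8 * (n0 : QK p (M.evI x0 n0 M.D)) * (M.evI x0 n0 M.Nt : QK p (M.evI x0 n0 M.D)) * b
        * constantCoeff Mm * constantCoeff (dX (P.toPt.evB M.Q))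
        * (M.evI x0 n0 M.D : QK p (M.evI x0 n0 M.D)) * hv
  · -- hs'
    have hs1 := congrArg (fun z : ℤ => (z : QK p (M.evI x0 n0 M.D))) hpt.hs1
    have hs2 := congrArg (fun z : ℤ => (z : QK p (M.evI x0 n0 M.D))) hpt.hs2
    push_cast at hs1 hs2
    have hQ' := dBc M.Q
    have hS' := dBc M.S
    refine (((u2'.mul un).mul uκ).mul uW).mul_left_cancel ?_
    linear_combination
      - 2 * v * (M.evI x0 n0 M.W : QK p (M.evI x0 n0 M.D)) * n0 * f2
      + v * (M.evI x0 n0 M.W : QK p (M.evI x0 n0 M.D)) * hS'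
      + v * (M.evI x0 n0 M.W : QK p (M.evI x0 n0 M.D)) * sqD p (M.evI x0 n0 M.D) * hQ'
      + 2 * v * s * (((M.d : ℤ) : QK p (M.evI x0 n0 M.D)) * M.evI x0 n0 M.W * constantCoeff Mm)
        * n0 * f1
      - v * s * (((M.d : ℤ) : QK p (M.evI x0 n0 M.D)) * M.evI x0 n0 M.W * constantCoeff Mm) * hS'
      + v * s * (((M.d : ℤ) : QK p (M.evI x0 n0 M.D)) * M.evI x0 n0 M.W * constantCoeff Mm)
        * sqD p (M.evI x0 n0 M.D) * hQ'
      + v * s * ((M.evI x0 n0 (M.dB M.S) : QK p (M.evI x0 n0 M.D))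
        - (M.evI x0 n0 (M.dB M.Q) : QK p (M.evI x0 n0 M.D)) * sqD p (M.evI x0 n0 M.D)) * g0
      - v * hs1 - v * sqD p (M.evI x0 n0 M.D) * hs2
      - v * s * (M.evI x0 n0 M.V : QK p (M.evI x0 n0 M.D))
        * (M.evI x0 n0 (M.dB M.Q) : QK p (M.evI x0 n0 M.D)) * hsq
  · -- L2 - L1
    have h3 : ((M.kap : QK p (M.evI x0 n0 M.D)) * n0) *
        (-v * constantCoeff (dX h2) - -v * constantCoeff (dX h1)) =
        -(v * (M.evI x0 n0 (M.dB M.Q) : QK p (M.evI x0 n0 M.D)) * sqD p (M.evI x0 n0 M.D)) := by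
      linear_combination (-v * n0) * (f2 - f1) + v * sqD p (M.evI x0 n0 M.D) * dBc M.Q
    have h4 : IsUnit (-(v * (M.evI x0 n0 (M.dB M.Q) : QK p (M.evI x0 n0 M.D)) *
        sqD p (M.evI x0 n0 M.D))) := ((uv.mul udQ).mul usq).neg
    rw [← h3] at h4
    exact isUnit_of_mul_isUnit_right h4
  · -- L2 + L1
    have h3 : ((M.kap : QK p (M.evI x0 n0 M.D)) * n0) *
        (-v * constantCoeff (dX h2) + -v * constantCoeff (dX h1)) =
        -(v * (M.evI x0 n0 (M.dB M.S) : QK p (M.evI x0 n0 M.D))) := by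
      linear_combination (-v * n0) * (f2 + f1) + v * dBc M.S
    have h4 : IsUnit (-(v * (M.evI x0 n0 (M.dB M.S) : QK p (M.evI x0 n0 M.D)))) :=
      (uv.mul udS).neg
    rw [← h3] at h4
    exact isUnit_of_mul_isUnit_right h4
  · -- M0 - tau M0
    have hts : tau p (M.evI x0 n0 M.D) (-1) (sqD p (M.evI x0 n0 M.D)) =
        -sqD p (M.evI x0 n0 M.D) := by
      unfold tau sqD
      ext <;> simp
    have g5 := congrArg (tau p (M.evI x0 n0 M.D) (-1)) g0
    rw [tau_mul _ _ _ (Or.inr rfl), tau_mul _ _ _ (Or.inr rfl), CMN_tau_int, CMN_tau_int, tau_add,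
      tau_mul _ _ _ (Or.inr rfl), CMN_tau_int, CMN_tau_int, hts] at g5
    have h3 : (((M.d : ℤ) : QK p (M.evI x0 n0 M.D)) *
        ((M.evI x0 n0 M.W : ℤ) : QK p (M.evI x0 n0 M.D))) *
        (constantCoeff Mm - tau p (M.evI x0 n0 M.D) (-1) (constantCoeff Mm)) =
        2 * ((M.evI x0 n0 M.V : ℤ) : QK p (M.evI x0 n0 M.D)) * sqD p (M.evI x0 n0 M.D) := by
      linear_combination g0 - g5
    have h4 := (u2'.mul uV).mul usq
    rw [← h3] at h4
    exact isUnit_of_mul_isUnit_right h4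

end MD

end Pool.Agent.Lib_helper91.TN
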