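import Mathlib

/-!
Definitions for MP_f97b3c_nt (partial sums of `S_n(x) = ∑_k C(n,k)^4 x^k` mod p^2; `c_n = ∑_k C(n,k)^4`, level 10).
This library is a copy of Pool/Agent/Lib_helper91/FR (level 6) with the level 10 data.
-/

namespace Pool.Agent.Lib_helper91.TN

open PowerSeries Finset

/-! ### The sequence -/

/-- `c_n = ∑_k C(n,k)^4` -/
def bb (n : ℕ) : ℕ := ∑ k ∈ range (n + 1), (n.choose k) ^ 4

/-- the harmonic number `H_n` in a field -/
def Hn (K : Type) [Field K] (n : ℕ) : K := ∑ j ∈ Ioc 0 n, ((j : K))⁻¹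

/-- derivative of `bb`: `4 ∑ C(n,k)^4 (H_n - H_k)` -/
def gg (K : Type) [Field K] (n : ℕ) : K :=
  4 * ∑ k ∈ range (n + 1), ((n.choose k : ℕ) : K) ^ 4 * (Hn K n - Hn K k)

/-- `S_n(x) = ∑_k C(n,k)^4 x^k` -/
def Sx (n : ℕ) (x : ℤ) : ℤ := ∑ k ∈ range (n + 1), ((n.choose k : ℕ) : ℤ) ^ 4 * x ^ k

/-! ### Power series -/

/-- theta = X d/dX on power series -/
noncomputable def th {R : Type} [CommRing R] (f : PowerSeries R) : PowerSeries R :=
  PowerSeries.mk fun n => (n : R) * coeff n f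

/-- the map `f(X) ↦ f(X^p)` as a ring homomorphism -/
noncomputable def ph (p : ℕ) [Fact p.Prime] (R : Type) [CommRing R] :
    PowerSeries R →+* PowerSeries R :=
  (PowerSeries.expand p (Nat.Prime.ne_zero Fact.out) : PowerSeries R →ₐ[R] PowerSeries R).toRingHom

/-- composition `f(z(X))` (used only when `constantCoeff z = 0`) -/
noncomputable def cmp {R : Type} [CommRing R] (f z : PowerSeries R) : PowerSeries R :=
  PowerSeries.subst z f

/-- an integer polynomial as a power series over `R` -/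
noncomputable def cst (R : Type) [CommRing R] : Polynomial ℤ →+* PowerSeries R :=
  (Polynomial.coeToPowerSeries.ringHom (R := R)).comp (Polynomial.mapRingHom (Int.castRingHom R))

/-- the discriminant `(1-16X)(1+4X)` -/
noncomputable def PD (R : Type) [CommRing R] : PowerSeries R := 1 - 12 * X - 64 * X ^ 2

section char0

variable (K : Type) [Field K]

/-- `F = ∑ bb k X^k` -/
noncomputable def FF : PowerSeries K := PowerSeries.mk fun k => (bb k : K)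
/-- `∑ C(2k,k) c^k X^k = (1-4cX)^{-1/2}` -/
noncomputable def CBs (c : K) : PowerSeries K :=
  PowerSeries.mk fun k => ((Nat.centralBinom k : ℕ) : K) * c ^ k
/-- `(1-16X)^{-1/2} (1+4X)^{-1/2}` -/
noncomputable def CB : PowerSeries K := CBs K 4 * CBs K (-1)
/-- `G = ∑ gg k X^k` -/
noncomputable def GG : PowerSeries K := PowerSeries.mk fun k => gg K k
/-- `W = CB / F` -/
noncomputable def WW : PowerSeries K := CB K * (FF K)⁻¹
/-- `E = G / F` -/
noncomputable def EE : PowerSeries K := GG K * (FF K)⁻¹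

end char0

/-! ### p-adic predicates -/

section padic

variable {p : ℕ} [Fact p.Prime]

/-- `x ∈ p^j ℤ_p` -/
def PI (j : ℕ) (x : ℚ_[p]) : Prop := ‖x‖ ≤ (p : ℝ) ^ (-(j : ℤ))

/-- the coefficients of index `< T` of `f` are in `p^j ℤ_p` -/
def PO (j T : ℕ) (f : PowerSeries ℚ_[p]) : Prop := ∀ n < T, PI j (coeff n f)

end padic

/-- `FF` truncated at `p` -/
noncomputable def FT (p : ℕ) [Fact p.Prime] : PowerSeries ℚ_[p] :=
  PowerSeries.mk fun k => if k < p then (bb k : ℚ_[p]) else 0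
/-- `GG` truncated at `p` -/
noncomputable def GT (p : ℕ) [Fact p.Prime] : PowerSeries ℚ_[p] :=
  PowerSeries.mk fun k => if k < p then gg ℚ_[p] k else 0
/-- `GT/FT` -/
noncomputable def RR (p : ℕ) [Fact p.Prime] : PowerSeries ℚ_[p] := GT p * (FT p)⁻¹

/-- bound for the index of the p-integral `gg` -/
def nz (p : ℕ) : ℕ := p
/-- the truncation order -/
def T0 (p : ℕ) : ℕ := p * nz p

open Classical in
/-- an integer lift of `gg k` mod `p` (for `k < p`) -/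
noncomputable def gl (p : ℕ) [Fact p.Prime] (k : ℕ) : ℕ :=
  if h : ‖gg ℚ_[p] k‖ ≤ 1 then (PadicInt.toZMod (⟨gg ℚ_[p] k, h⟩ : ℤ_[p])).val else 0

/-- product of the `j ≤ n` prime to `p` -/
def UU (p n : ℕ) : ℕ := ∏ j ∈ (Ioc 0 n).filter (fun j => ¬ p ∣ j), j

/-- sum of the inverses of the `j ≤ n` prime to `p` -/
noncomputable def HU (p : ℕ) [Fact p.Prime] (n : ℕ) : ℚ_[p] :=
  ∑ j ∈ (Ioc 0 n).filter (fun j => ¬ p ∣ j), ((j : ℚ_[p]))⁻¹

/-! ### Laurent series -/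

/-- power series as Laurent series -/
noncomputable def cL (R : Type) [CommRing R] : PowerSeries R →+* LaurentSeries R :=
  HahnSeries.ofPowerSeries ℤ R

/-- the monomial `X^n`, `n ∈ ℤ` -/
noncomputable def mon (R : Type) [CommRing R] (n : ℤ) : LaurentSeries R := HahnSeries.single n 1

/-- theta on Laurent series -/
noncomputable def thL {R : Type} [CommRing R] (f : LaurentSeries R) : LaurentSeries R where
  coeff n := (n : R) * f.coeff n
  isPWO_support' := f.isPWO_support.mono (fun n hn => by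
    rw [Function.mem_support] at hn
    rw [HahnSeries.mem_support]
    intro h
    exact hn (by rw [h, mul_zero]))

/-- `f(X) ↦ f(X^p)` on Laurent series -/
noncomputable def phL (p : ℕ) [hp : Fact p.Prime] (R : Type) [CommRing R] :
    LaurentSeries R →+* LaurentSeries R :=
  HahnSeries.embDomainRingHom (AddMonoidHom.mulLeft (p : ℤ))
    (fun a b h => by
      have h0 : (p : ℤ) ≠ 0 := by exact_mod_cast hp.out.ne_zero
      exact mul_left_cancel₀ h0 h)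
    (fun a b => by
      have h0 : (0 : ℤ) < (p : ℤ) := by exact_mod_cast hp.out.pos
      exact mul_le_mul_iff_of_pos_left h0)

/-- the coefficients of index `< a` vanish -/
def OL {R : Type} [CommRing R] (a : ℤ) (f : LaurentSeries R) : Prop := ∀ n < a, f.coeff n = 0

/-- all coefficients are in `p^j ℤ_p` -/
def IL {p : ℕ} [Fact p.Prime] (j : ℕ) (f : LaurentSeries ℚ_[p]) : Prop := ∀ n : ℤ, PI j (f.coeff n)

/-- the coefficients of index `< T` are in `p^j ℤ_p` -/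
def TL {p : ℕ} [Fact p.Prime] (j : ℕ) (T : ℤ) (f : LaurentSeries ℚ_[p]) : Prop :=
  ∀ n < T, PI j (f.coeff n)

/-! ### Quadratic extensions with a derivation -/

/-- for a derivation `D` of `A`, the derivation `2 ω D` of `A[ω]/(ω² - a)` -/
def dq {A : Type} [CommRing A] (D : A → A) (a : A) (u : QuadraticAlgebra A a 0) :
    QuadraticAlgebra A a 0 :=
  ⟨2 * a * D u.im + u.im * D a, 2 * D u.re⟩

/-- evaluation of `A[ω]/(ω² - a)` at `(φ, y)` with `y² = φ a` -/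
def qev {A T : Type} [CommRing A] [CommRing T] (φ : A →+* T) (a : A) (y : T) (h : y ^ 2 = φ a) :
    QuadraticAlgebra A a 0 →+* T where
  toFun u := φ u.re + φ u.im * y
  map_one' := by simp [QuadraticAlgebra.re_one, QuadraticAlgebra.im_one]
  map_zero' := by simp
  map_add' u v := by simp only [QuadraticAlgebra.re_add, QuadraticAlgebra.im_add, map_add]; ring
  map_mul' u v := by
    simp only [QuadraticAlgebra.re_mul, QuadraticAlgebra.im_mul, map_add, map_mul, map_zero]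
    linear_combination (-φ u.im * φ v.im) * h

/-! ### Modular equation data -/

/-- data of a modular correspondence of degree `d` on `X_0(10)+` -/
structure MD where
  /-- degree -/
  d : ℕ
  /-- pole order of `η` at the cusp -/
  e : ℕ
  /-- pole order of `Y` -/
  w : ℕ
  /-- pole order of `W` -/
  om : ℕ
  /-- leading coefficient of `η` -/
  e0 : ℤ
  /-- leading coefficient of `Y` -/
  y0 : ℤ
  /-- leading coefficient of `W` -/
  w0 : ℤ
  /-- `κ h = S ± Q Y` -/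
  kap : ℤ
  /-- `η² = E(x)` -/
  E : Polynomial ℤ
  /-- `Y² = D(x, η)` -/
  D : QuadraticAlgebra (Polynomial ℤ) E 0
  S : QuadraticAlgebra (Polynomial ℤ) E 0
  Q : QuadraticAlgebra (Polynomial ℤ) E 0
  U : QuadraticAlgebra (Polynomial ℤ) E 0
  V : QuadraticAlgebra (Polynomial ℤ) E 0
  W : QuadraticAlgebra (Polynomial ℤ) E 0
  L : QuadraticAlgebra (Polynomial ℤ) E 0
  Ld : QuadraticAlgebra (Polynomial ℤ) E 0
  Mt : QuadraticAlgebra (Polynomial ℤ) E 0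
  Nt : QuadraticAlgebra (Polynomial ℤ) E 0

namespace MD

/-- `ℤ[x][η]/(η² - E)` -/
abbrev B (M : MD) : Type := QuadraticAlgebra (Polynomial ℤ) M.E 0
/-- `B[Y]/(Y² - D)` -/
abbrev A (M : MD) : Type := QuadraticAlgebra M.B M.D 0

variable (M : MD)

/-- the inclusion `ℤ[x] → B` -/
noncomputable def iP (f : Polynomial ℤ) : M.B := ⟨f, 0⟩
/-- the inclusion `B → A` -/
noncomputable def iB (b : M.B) : M.A := ⟨b, 0⟩
/-- `η` -/
noncomputable def eta : M.B := ⟨0, 1⟩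
/-- `Y` -/
noncomputable def YY : M.A := ⟨0, 1⟩
/-- `κ h₂` -/
noncomputable def H2 : M.A := ⟨M.S, M.Q⟩
/-- `κ h₁` -/
noncomputable def H1 : M.A := ⟨M.S, -M.Q⟩
/-- `U + V Y` -/
noncomputable def R2 : M.A := ⟨M.U, M.V⟩
/-- `U - V Y` -/
noncomputable def R1 : M.A := ⟨M.U, -M.V⟩

/-- the derivation `2 η d/dx` of `B` -/
noncomputable def dB (b : M.B) : M.B := dq (fun f => Polynomial.derivative f) M.E b
/-- the derivation `2 Y δ` of `A` -/
noncomputable def dA (a : M.A) : M.A := dq M.dB M.D a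

/-- the coefficient of pole order `n` -/
noncomputable def ld (n : ℕ) (b : M.B) : ℤ :=
  if n % 2 = 0 then b.re.coeff (n / 2) else M.e0 * b.im.coeff ((n - M.e) / 2)

/-- pole order `≤ n` at the cusp -/
def wd (n : ℕ) (b : M.B) : Prop :=
  2 * b.re.natDegree ≤ n ∧ (b.im = 0 ∨ 2 * b.im.natDegree + M.e ≤ n)

/-- all conditions on the data -/
structure Valid : Prop where
  hd : 1 ≤ M.d
  he : M.e % 2 = 1
  hwe : 2 ≤ M.w + M.e
  hwd : M.w ≤ M.d
  hwom : M.w ≤ M.om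
  hE : M.E.natDegree ≤ M.e
  hE0 : M.E.coeff M.e = M.e0 ^ 2
  hDw : M.wd (2 * M.w) M.D
  hD0 : M.ld (2 * M.w) M.D = M.y0 ^ 2
  hSw : M.wd M.d M.S
  hQw : M.wd (M.d - M.w) M.Q
  hS0 : M.ld M.d M.S + M.ld (M.d - M.w) M.Q * M.y0 = M.kap
  hNw : M.wd (M.d + 1) (M.S ^ 2 - M.Q ^ 2 * M.D)
  hN0 : M.ld (M.d + 1) (M.S ^ 2 - M.Q ^ 2 * M.D) = M.kap ^ 2
  hUw : M.wd M.om M.U
  hVw : M.wd (M.om - M.w) M.V
  hWw : M.wd M.om M.W
  hW0 : M.ld M.om M.W = M.w0
  hU0 : M.ld M.om M.U + M.ld (M.om - M.w) M.V * M.y0 = M.d * M.w0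
  ne0 : M.e0 ≠ 0
  ny0 : M.y0 ≠ 0
  nw0 : M.w0 ≠ 0
  nkap : M.kap ≠ 0
  nL : M.L ≠ 0
  nLd : M.Ld ≠ 0
  nNt : M.Nt ≠ 0
  /-- `(U+VY)(U-VY) = W²` -/
  D2 : M.R2 * M.R1 = M.iB M.W ^ 2
  /-- `(∂h₂)² = ρ Λ (h₂-16)(h₂+4)`, `ρ = (U+VY)/W`, `Λ = L/Ld` -/
  D3 : M.iB M.W * M.iB M.Ld * M.dA M.H2 ^ 2 =
    M.R2 * M.iB M.L * (M.H2 - 16 * (M.kap : M.A)) * (M.H2 + 4 * (M.kap : M.A))
  /-- `∂ρ = (Mt/Nt) ρ` -/
  D4 : M.iB M.Nt * (M.iB M.W * M.dA M.R2 - M.R2 * M.dA (M.iB M.W)) = M.iB M.Mt * M.iB M.W * M.R2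
  /-- `2 ∂m - m ∂Λ/Λ = 4 Λ (ρ (h₂+15)/h₂² - ρ⁻¹ (h₁+15)/h₁²)`, `m = Mt/Nt` -/
  D5 : M.iB M.W * (M.H1 * M.H2) ^ 2 *
      (2 * M.iB M.L * M.iB M.Ld *
          (M.iB M.Nt * M.dA (M.iB M.Mt) - M.iB M.Mt * M.dA (M.iB M.Nt))
        - M.iB M.Mt * M.iB M.Nt *
          (M.iB M.Ld * M.dA (M.iB M.L) - M.iB M.L * M.dA (M.iB M.Ld))) =
    4 * (M.kap : M.A) * M.iB M.L ^ 2 * M.iB M.Nt ^ 2 *
      (M.R2 * (M.H2 + 15 * (M.kap : M.A)) * M.H1 ^ 2
        - M.R1 * (M.H1 + 15 * (M.kap : M.A)) * M.H2 ^ 2)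

/-- units needed at the cusp -/
structure Good (p : ℕ) : Prop where
  h3 : 3 < p
  hd : ¬ (p : ℤ) ∣ M.d
  he0 : ¬ (p : ℤ) ∣ M.e0
  hy0 : ¬ (p : ℤ) ∣ M.y0
  hw0 : ¬ (p : ℤ) ∣ M.w0
  hkap : ¬ (p : ℤ) ∣ M.kap

/-- total pole order (divided by `p`) of the factors cleared in `Jh` -/
def tot : ℕ := 3 * M.om + 2 * M.d + 1 + (M.w + M.e - 2) + 6 * M.e + 2 * M.w

/-- the size condition -/
def Big (p : ℕ) : Prop := p * M.tot + M.om ≤ T0 p

/-- a point of the curve `(x,η,Y)` in a ring -/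
structure Pt (T : Type) [CommRing T] where
  x : T
  η : T
  Y : T
  hη : η ^ 2 = Polynomial.aeval x M.E
  hY : Y ^ 2 = Polynomial.aeval x M.D.re + Polynomial.aeval x M.D.im * η

namespace Pt

variable {M} {T : Type} [CommRing T] (P : M.Pt T)

/-- evaluation of `ℤ[x]` -/
noncomputable def evP : Polynomial ℤ →+* T := (Polynomial.aeval P.x : Polynomial ℤ →ₐ[ℤ] T).toRingHom
/-- evaluation of `B` -/
noncomputable def evB : M.B →+* T := qev P.evP M.E P.η P.hη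
/-- evaluation of `A` -/
noncomputable def ev : M.A →+* T := qev P.evB M.D P.Y P.hY

/-- the conjugate point `(x, η, -Y)` -/
def neg : M.Pt T where
  x := P.x
  η := P.η
  Y := -P.Y
  hη := P.hη
  hY := by rw [neg_sq]; exact P.hY

end Pt

/-- expansion at the cusp -/
structure LPt (K : Type) [Field K] extends M.Pt (LaurentSeries K) where
  hx : x = mon K (-2)
  hηo : OL (-(M.e : ℤ)) η
  hηc : η.coeff (-(M.e : ℤ)) = (M.e0 : K)
  hYo : OL (-(M.w : ℤ)) Y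
  hYc : Y.coeff (-(M.w : ℤ)) = (M.y0 : K)

/-! ### Frobenius numerators -/

variable (p : ℕ)

/-- `E^p + E(x^p)` -/
noncomputable def Es : Polynomial ℤ := M.E ^ p + Polynomial.expand ℤ p M.E
/-- `2 E^p Φ(b)` -/
noncomputable def NB (b : M.B) : M.B :=
  M.iP (2 * M.E ^ p * Polynomial.expand ℤ p b.re)
    + M.iP (Polynomial.expand ℤ p b.im * M.Es p) * M.eta ^ p
/-- `2 E^p (D^p + Φ(D))` -/
noncomputable def Ds : M.B := 2 * M.iP (M.E ^ p) * M.D ^ p + M.NB p M.D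
/-- `8 E^{2p} D^p Φ(a)` -/
noncomputable def NA (a : M.A) : M.A :=
  M.iB (4 * M.iP (M.E ^ p) * M.D ^ p * M.NB p a.re) + M.iB (M.NB p a.im * M.Ds p) * M.YY ^ p
/-- `8 E^{2p} D^p` -/
noncomputable def sA : M.A := M.iB (8 * M.iP (M.E ^ (2 * p)) * M.D ^ p)

/-- `∂(U+VY) W - (U+VY) ∂W` -/
noncomputable def Zz : M.A := M.dA M.R2 * M.iB M.W - M.R2 * M.dA (M.iB M.W)

end MD

/-- `∑_{k<p} a_k κ^k H^(p-1-k)` -/
def hom (p : ℕ) (a : ℕ → ℕ) {A : Type} [CommRing A] (κ H : A) : A :=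
  ∑ k ∈ range p, (a k : A) * κ ^ k * H ^ (p - 1 - k)

/-- the factor cleared in `Jh` -/
noncomputable def MD.Lm (M : MD) (p : ℕ) : M.A :=
  (M.d : M.A) ^ p * M.iB M.W ^ (2 * p + 1) * M.dA M.H2 ^ p * M.sA p * M.iB (M.NB p M.W)
    * (M.H1 * M.H2) ^ (p - 1)

/-- the functional equation, denominators cleared -/
noncomputable def MD.Jh (M : MD) (p : ℕ) [Fact p.Prime] : M.A :=
  (M.d : M.A) ^ (p - 1) * M.iB M.W ^ (2 * p + 1) * M.dA M.H2 ^ p * (2 * M.iB (M.iP (M.E ^ p)))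
      * M.NA p M.R2 * hom p bb (M.kap : M.A) M.H2 * M.H1 ^ (p - 1)
    - (M.d : M.A) ^ (p - 1) * M.iB M.W ^ (2 * p) * M.dA M.H2 ^ p * M.sA p * M.iB (M.NB p M.W)
      * M.R2 * hom p bb (M.kap : M.A) M.H1 * M.H2 ^ (p - 1)
    - M.Zz ^ p * M.iB (M.NB p M.W) * M.iB M.W * M.H1 ^ (p - 1)
      * (((M.kap : M.A) ^ (p - 1) * M.NA p M.H2 - M.sA p * M.H2 ^ p) * hom p bb (M.kap : M.A) M.H2
        + M.sA p * (p : M.A) * M.H2 ^ p * hom p (gl p) (M.kap : M.A) M.H2)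

/-! ### CM points -/

/-- evaluation of `B` at an integer point -/
noncomputable def MD.evI (M : MD) (x0 n0 : ℤ) (b : M.B) : ℤ := b.re.eval x0 + b.im.eval x0 * n0

/-- a CM point `(x0,n0)` with value `m` and coefficients `a n + b` -/
structure MD.Point (M : MD) (x0 n0 m a b s : ℤ) : Prop where
  hη : n0 ^ 2 = M.E.eval x0
  hQ : M.evI x0 n0 M.Q = 0
  hS : M.evI x0 n0 M.S = M.kap * m
  hk : a * M.evI x0 n0 M.Mt * m * M.kap =
    4 * b * M.evI x0 n0 M.Nt * M.evI x0 n0 M.D * M.evI x0 n0 (M.dB M.Q)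
  hs : s = 1 ∨ s = -1
  hs1 : M.evI x0 n0 (M.dB M.S) * M.evI x0 n0 M.W =
    s * (M.evI x0 n0 (M.dB M.S) * M.evI x0 n0 M.U
      - M.evI x0 n0 (M.dB M.Q) * M.evI x0 n0 M.V * M.evI x0 n0 M.D)
  hs2 : M.evI x0 n0 (M.dB M.Q) * M.evI x0 n0 M.W =
    s * (M.evI x0 n0 (M.dB M.S) * M.evI x0 n0 M.V - M.evI x0 n0 (M.dB M.Q) * M.evI x0 n0 M.U)

/-- units needed at the CM point -/
structure MD.GoodPt (M : MD) (x0 n0 m b : ℤ) (p : ℕ) : Prop where
  hx : ¬ (p : ℤ) ∣ x0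
  hn : ¬ (p : ℤ) ∣ n0
  hm : ¬ (p : ℤ) ∣ m
  hb : ¬ (p : ℤ) ∣ b
  hP : ¬ (p : ℤ) ∣ (m - 16) * (m + 4)
  hD : ¬ (p : ℤ) ∣ M.evI x0 n0 M.D
  hQ : ¬ (p : ℤ) ∣ M.evI x0 n0 (M.dB M.Q)
  hS : ¬ (p : ℤ) ∣ M.evI x0 n0 (M.dB M.S)
  hV : ¬ (p : ℤ) ∣ M.evI x0 n0 M.V
  hW : ¬ (p : ℤ) ∣ M.evI x0 n0 M.W
  hN : ¬ (p : ℤ) ∣ M.evI x0 n0 M.Nt

/-- `∑_{k<p} k^j a_k v^k` -/
def sm (p j : ℕ) (a : ℕ → ℕ) {R : Type} [CommRing R] (v : R) : R :=
  ∑ k ∈ range p, (k : R) ^ j * (a k : R) * v ^ k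

/-- polynomial from its list of coefficients (constant term first) -/
noncomputable def pl : List ℤ → Polynomial ℤ
  | [] => 0
  | a :: l => Polynomial.C a + Polynomial.X * pl l

end Pool.Agent.Lib_helper91.TN
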