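import Pool.Agent.Lib_helper91.TN.A7
import Pool.Agent.Lib_helper91.TN.A4
import Pool.Agent.Lib_helper91.TN.A5

/-! Block JJ: the functional equation (J).
`z_i = X^{e_i} g_i`, `δ_i = g_i^p/φg_i - 1`, `b_i = δ_i FT(z_i) + p GT(z_i)` (so `p ∣ b_i` by `frob`), `l_i = e_i + θg_i/g_i`.
(E_i) `F(z_i) ≡ FT(z_i) φ(F(z_i)) + b_i φ((θF)(z_i))  mod p²` (all orders): compose A1 with `z_i`; `z_i^p = φz_i (1+δ_i)`; A5, A5' with `f = F`, `f = θF`.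
`θ(F(z_i)) = l_i (θF)(z_i)` (`th_cmp`, `Y = 1`).  With `F(z2) = μ F(z1)`: `l2 (θF)(z2) = θμ F(z1) + μ l1 (θF)(z1)`, so `(E_2) - μ (E_1)`:
 `φF(z1) [FT(z2) φμ - μ FT(z1) + b2 φ(θμ/l2)] + φ((θF)(z1)) [b2 φ(μ l1/l2) - μ b1] ≡ 0 mod p²`.
The second bracket is `≡ 0 mod (p², T0)`: (hK) times `FT(z1) FT(z2)`: `b2 FT(z1) φl1 ≡ b1 FT(z2) φl2`; mod p: `FT(z2) φμ ≡ μ FT(z1)` (from (E_i) mod p), `FT(z1)` unit.
Divide by `φF(z1)` (constant term 1).  (`RR FT = GT`; `RR(z) FT(z) = GT(z)` by cmp_mul.) -/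

namespace Pool.Agent.Lib_helper91.TN

open PowerSeries Finset

variable (p : ℕ) [Fact p.Prime]

/-- the expression of (J) -/
noncomputable def JE (e1 e2 : ℕ) (g1 g2 l2 μ : PowerSeries ℚ_[p]) : PowerSeries ℚ_[p] :=
  cmp (FT p) (X ^ e2 * g2) * ph p ℚ_[p] μ - μ * cmp (FT p) (X ^ e1 * g1)
    + ph p ℚ_[p] (th μ * l2⁻¹)
      * ((g2 ^ p * (ph p ℚ_[p] g2)⁻¹ - 1) * cmp (FT p) (X ^ e2 * g2)
        + (p : PowerSeries ℚ_[p]) * cmp (GT p) (X ^ e2 * g2))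

/-- the relation (E), `F(z) ≡ FT(z) φ(F(z)) + b φ((θF)(z))` -/
theorem JJ_E (hp : 3 < p) (e : ℕ) (he : 1 ≤ e) (g : PowerSeries ℚ_[p])
    (hg0 : constantCoeff g = 1) (hg : ∀ T, PO 0 T g) :
    PO 2 (T0 p) (cmp (FF ℚ_[p]) (X ^ e * g)
      - (cmp (FT p) (X ^ e * g) * ph p ℚ_[p] (cmp (FF ℚ_[p]) (X ^ e * g))
        + ((g ^ p * (ph p ℚ_[p] g)⁻¹ - 1) * cmp (FT p) (X ^ e * g)
            + (p : PowerSeries ℚ_[p]) * cmp (GT p) (X ^ e * g))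
          * ph p ℚ_[p] (cmp (th (FF ℚ_[p])) (X ^ e * g)))) := by
  obtain ⟨η, hη, hδ⟩ := A6_eta p g hg0 hg
  rw [hδ]
  set z := X ^ e * g with hz
  have hz0 : constantCoeff z = 0 := by
    rw [hz, map_mul, map_pow, constantCoeff_X, zero_pow (by omega), zero_mul]
  have hzI : ∀ T, PO 0 T z := fun T => PO_mul_left (PO_X_pow e T) (hg T)
  set y := ph p ℚ_[p] z with hy
  have hyX : X ^ p ∣ y := by
    refine ⟨X ^ (p * (e - 1)) * ph p ℚ_[p] g, ?_⟩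
    rw [hy, hz, map_mul, map_pow, ph_X, ← mul_assoc, ← pow_add, ← pow_mul]
    congr 2
    obtain ⟨e', rfl⟩ : ∃ e', e = e' + 1 := ⟨e - 1, by omega⟩
    rw [Nat.add_sub_cancel]
    ring
  have hyI : ∀ T, PO 0 T y := fun T =>
    PO_ph (n0 := T) (by nlinarith [Nat.Prime.one_lt (Fact.out : p.Prime)]) (hzI T)
  have hyz : z ^ p = y * (1 + (p : PowerSeries ℚ_[p]) * η) := by
    rw [← hδ, hy, hz, map_mul, map_pow, ph_X, mul_pow]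
    have hu := A6_unit p g hg0
    have : ph p ℚ_[p] g * (1 + (g ^ p * (ph p ℚ_[p] g)⁻¹ - 1)) = g ^ p := by
      calc ph p ℚ_[p] g * (1 + (g ^ p * (ph p ℚ_[p] g)⁻¹ - 1))
          = (ph p ℚ_[p] g * (ph p ℚ_[p] g)⁻¹) * g ^ p := by ring
        _ = g ^ p := by rw [hu, one_mul]
    rw [mul_assoc, this]
    congr 1
    rw [← pow_mul, ← pow_mul, mul_comm]
  have h1 := PO_cmp (z := z) hz0 (A1 p hp (T0 p)) (hzI _)
  rw [cmp_sub _ _ _ hz0, cmp_add _ _ _ hz0, cmp_mul _ _ _ hz0, cmp_mul _ _ _ hz0,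
    cmp_mul _ _ _ hz0, cmp_natCast _ _ hz0, cmp_ph _ _ _ hz0, cmp_ph _ _ _ hz0, hyz] at h1
  have h5 := A5 p (FF ℚ_[p]) y η (nz p) (PO_FF p _) hyI hη hyX
  have h5' := A5' p (th (FF ℚ_[p])) y η (nz p) (PO_th (PO_FF p _)) hyI hη hyX
  rw [show p * nz p = T0 p from rfl] at h5 h5'
  rw [ph_cmp _ _ _ hz0, ph_cmp _ _ _ hz0, ← hy]
  have h6 : PO 2 (T0 p) (cmp (FT p) z * (cmp (FF ℚ_[p]) (y * (1 + (p : PowerSeries ℚ_[p]) * η))
      - (cmp (FF ℚ_[p]) y + (p : PowerSeries ℚ_[p]) * η * cmp (th (FF ℚ_[p])) y))) :=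
    PO_mul_left (PO_cmp hz0 (PO_FT p _) (hzI _)) h5
  have h7 : PO 2 (T0 p) ((p : PowerSeries ℚ_[p]) * cmp (GT p) z
      * (cmp (th (FF ℚ_[p])) (y * (1 + (p : PowerSeries ℚ_[p]) * η)) - cmp (th (FF ℚ_[p])) y)) :=
    PO_mul (PO_mul_right (PO_p _) (PO_cmp hz0 (PO_GT p _) (hzI _))) h5'
  have e8 : cmp (FF ℚ_[p]) z - (cmp (FT p) z * cmp (FF ℚ_[p]) y
        + ((p : PowerSeries ℚ_[p]) * η * cmp (FT p) z + (p : PowerSeries ℚ_[p]) * cmp (GT p) z)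
          * cmp (th (FF ℚ_[p])) y)
      = (cmp (FF ℚ_[p]) z
          - (cmp (FT p) z * cmp (FF ℚ_[p]) (y * (1 + (p : PowerSeries ℚ_[p]) * η))
            + (p : PowerSeries ℚ_[p]) * cmp (GT p) z
              * cmp (th (FF ℚ_[p])) (y * (1 + (p : PowerSeries ℚ_[p]) * η))))
        + cmp (FT p) z * (cmp (FF ℚ_[p]) (y * (1 + (p : PowerSeries ℚ_[p]) * η))
          - (cmp (FF ℚ_[p]) y + (p : PowerSeries ℚ_[p]) * η * cmp (th (FF ℚ_[p])) y))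
        + (p : PowerSeries ℚ_[p]) * cmp (GT p) z
          * (cmp (th (FF ℚ_[p])) (y * (1 + (p : PowerSeries ℚ_[p]) * η))
            - cmp (th (FF ℚ_[p])) y) := by
    ring
  rw [e8]
  exact PO_add (PO_add h1 h6) h7

theorem JJ_delta (g : PowerSeries ℚ_[p]) (hg0 : constantCoeff g = 1) (hg : ∀ T, PO 0 T g) (T : ℕ) :
    PO 1 T (g ^ p * (ph p ℚ_[p] g)⁻¹ - 1) := by
  obtain ⟨η, hη, hδ⟩ := A6_eta p g hg0 hg
  rw [hδ]
  exact PO_mul_right (PO_p T) (hη T)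

theorem JJ_th (e : ℕ) (he : 1 ≤ e) (g l : PowerSeries ℚ_[p])
    (hl : l * g = (e : PowerSeries ℚ_[p]) * g + th g) (f : PowerSeries ℚ_[p]) :
    th (cmp f (X ^ e * g)) = l * cmp (th f) (X ^ e * g) := by
  have hz0 : constantCoeff (X ^ e * g) = 0 := by
    rw [map_mul, map_pow, constantCoeff_X, zero_pow (by omega), zero_mul]
  have h2 : (1 : PowerSeries ℚ_[p]) * th (X ^ e * g) = l * (X ^ e * g) := by
    rw [th_mul, th_X_pow]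
    calc (1 : PowerSeries ℚ_[p]) * ((e : PowerSeries ℚ_[p]) * X ^ e * g + X ^ e * th g)
        = X ^ e * ((e : PowerSeries ℚ_[p]) * g + th g) := by ring
      _ = l * (X ^ e * g) := by rw [← hl]; ring
  have h3 := th_cmp f (X ^ e * g) 1 l hz0 h2
  rwa [one_mul] at h3

theorem JJ_l0 (e : ℕ) (g l : PowerSeries ℚ_[p]) (hg0 : constantCoeff g = 1)
    (hl : l * g = (e : PowerSeries ℚ_[p]) * g + th g) : constantCoeff l = (e : ℚ_[p]) := by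
  have := congrArg (constantCoeff (R := ℚ_[p])) hl
  rw [map_mul, map_add, map_mul, hg0, constantCoeff_th, mul_one, mul_one, add_zero,
    map_natCast] at this
  exact this

theorem JJ_RR (e : ℕ) (he : 1 ≤ e) (g : PowerSeries ℚ_[p]) :
    cmp (RR p) (X ^ e * g) * cmp (FT p) (X ^ e * g) = cmp (GT p) (X ^ e * g) := by
  have hz0 : constantCoeff (X ^ e * g) = 0 := by
    rw [map_mul, map_pow, constantCoeff_X, zero_pow (by omega), zero_mul]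
  rw [← cmp_mul _ _ _ hz0]
  congr 1
  unfold RR
  rw [mul_assoc, PowerSeries.inv_mul_cancel _ (by rw [constantCoeff_FT]; exact one_ne_zero),
    mul_one]

theorem JJ_gen (hp : 3 < p) (e1 e2 : ℕ) (he1 : 1 ≤ e1) (he2 : 1 ≤ e2) (hp1 : ¬ p ∣ e1)
    (hp2 : ¬ p ∣ e2) (g1 g2 l1 l2 μ : PowerSeries ℚ_[p])
    (h10 : constantCoeff g1 = 1) (h20 : constantCoeff g2 = 1)
    (hg1 : ∀ T, PO 0 T g1) (hg2 : ∀ T, PO 0 T g2)
    (hl1 : l1 * g1 = (e1 : PowerSeries ℚ_[p]) * g1 + th g1)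
    (hl2 : l2 * g2 = (e2 : PowerSeries ℚ_[p]) * g2 + th g2)
    (hμ0 : constantCoeff μ = 1)
    (hF : cmp (FF ℚ_[p]) (X ^ e2 * g2) = μ * cmp (FF ℚ_[p]) (X ^ e1 * g1))
    (hK : PO 2 (T0 p)
      (((p : PowerSeries ℚ_[p]) * cmp (RR p) (X ^ e2 * g2) + (g2 ^ p * (ph p ℚ_[p] g2)⁻¹ - 1))
          * ph p ℚ_[p] l1
        - ((p : PowerSeries ℚ_[p]) * cmp (RR p) (X ^ e1 * g1) + (g1 ^ p * (ph p ℚ_[p] g1)⁻¹ - 1))
          * ph p ℚ_[p] l2)) :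
    PO 2 (T0 p) (JE p e1 e2 g1 g2 l2 μ) := by
  have hle : T0 p ≤ p * nz p := le_refl _
  have hphI : ∀ (f : PowerSeries ℚ_[p]), (∀ T, PO 0 T f) → ∀ T, PO 0 T (ph p ℚ_[p] f) :=
    fun f hf T => PO_ph (n0 := T) (by nlinarith [Nat.Prime.one_lt (Fact.out : p.Prime)]) (hf T)
  have hz10 : constantCoeff (X ^ e1 * g1 : PowerSeries ℚ_[p]) = 0 := by
    rw [map_mul, map_pow, constantCoeff_X, zero_pow (by omega), zero_mul]
  have hz20 : constantCoeff (X ^ e2 * g2 : PowerSeries ℚ_[p]) = 0 := by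
    rw [map_mul, map_pow, constantCoeff_X, zero_pow (by omega), zero_mul]
  have hz1I : ∀ T, PO 0 T (X ^ e1 * g1) := fun T => PO_mul_left (PO_X_pow e1 T) (hg1 T)
  have hz2I : ∀ T, PO 0 T (X ^ e2 * g2) := fun T => PO_mul_left (PO_X_pow e2 T) (hg2 T)
  have hE1 := JJ_E p hp e1 he1 g1 h10 hg1
  have hE2 := JJ_E p hp e2 he2 g2 h20 hg2
  have hd1 := JJ_delta p g1 h10 hg1 (T0 p)
  have hd2 := JJ_delta p g2 h20 hg2 (T0 p)
  have ht1 := JJ_th p e1 he1 g1 l1 hl1 (FF ℚ_[p])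
  have ht2 := JJ_th p e2 he2 g2 l2 hl2 (FF ℚ_[p])
  have hr1 := JJ_RR p e1 he1 g1
  have hr2 := JJ_RR p e2 he2 g2
  have hl20 := JJ_l0 p e2 g2 l2 h20 hl2
  have hl1I := A7_int p e1 g1 l1 h10 hg1 hl1
  have hl2I := A7_int p e2 g2 l2 h20 hg2 hl2
  have hn2 : ‖constantCoeff l2‖ = 1 := by
    rw [hl20]
    exact norm_natCast_eq_one e2 hp2
  have hne2 : constantCoeff l2 ≠ 0 := by
    intro h
    rw [h, norm_zero] at hn2
    exact zero_ne_one hn2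
  have hl2i : l2 * l2⁻¹ = 1 := PowerSeries.mul_inv_cancel _ hne2
  have hl2iI : ∀ T, PO 0 T l2⁻¹ := fun T => PO_inv (hl2I T) hn2
  have hF1I : ∀ T, PO 0 T (cmp (FF ℚ_[p]) (X ^ e1 * g1)) := fun T =>
    PO_cmp hz10 (PO_FF p T) (hz1I T)
  have hF2I : ∀ T, PO 0 T (cmp (FF ℚ_[p]) (X ^ e2 * g2)) := fun T =>
    PO_cmp hz20 (PO_FF p T) (hz2I T)
  have hD1I : ∀ T, PO 0 T (cmp (th (FF ℚ_[p])) (X ^ e1 * g1)) := fun T =>
    PO_cmp hz10 (PO_th (PO_FF p T)) (hz1I T)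
  have hT1I : ∀ T, PO 0 T (cmp (FT p) (X ^ e1 * g1)) := fun T =>
    PO_cmp hz10 (PO_FT p T) (hz1I T)
  have hT2I : ∀ T, PO 0 T (cmp (FT p) (X ^ e2 * g2)) := fun T =>
    PO_cmp hz20 (PO_FT p T) (hz2I T)
  have hG1I : ∀ T, PO 0 T (cmp (GT p) (X ^ e1 * g1)) := fun T =>
    PO_cmp hz10 (PO_GT p T) (hz1I T)
  have hG2I : ∀ T, PO 0 T (cmp (GT p) (X ^ e2 * g2)) := fun T =>
    PO_cmp hz20 (PO_GT p T) (hz2I T)
  have hF10 : constantCoeff (cmp (FF ℚ_[p]) (X ^ e1 * g1)) = 1 := by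
    rw [constantCoeff_cmp _ _ hz10, constantCoeff_FF]
  have hT10 : constantCoeff (cmp (FT p) (X ^ e1 * g1)) = 1 := by
    rw [constantCoeff_cmp _ _ hz10, constantCoeff_FT]
  have hμI : ∀ T, PO 0 T μ := fun T => by
    refine PO_of_mul (hF1I T) (by rw [hF10, norm_one]) ?_
    rw [mul_comm, ← hF]
    exact hF2I T
  unfold JE
  set F1 := cmp (FF ℚ_[p]) (X ^ e1 * g1) with hF1def
  set F2 := cmp (FF ℚ_[p]) (X ^ e2 * g2) with hF2def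
  set D1 := cmp (th (FF ℚ_[p])) (X ^ e1 * g1) with hD1def
  set D2 := cmp (th (FF ℚ_[p])) (X ^ e2 * g2) with hD2def
  set A1 := cmp (FT p) (X ^ e1 * g1) with hA1def
  set A2 := cmp (FT p) (X ^ e2 * g2) with hA2def
  set B1 := cmp (GT p) (X ^ e1 * g1) with hB1def
  set B2 := cmp (GT p) (X ^ e2 * g2) with hB2def
  set R1 := cmp (RR p) (X ^ e1 * g1) with hR1def
  set R2 := cmp (RR p) (X ^ e2 * g2) with hR2def
  set d1 := g1 ^ p * (ph p ℚ_[p] g1)⁻¹ - 1 with hd1def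
  set d2 := g2 ^ p * (ph p ℚ_[p] g2)⁻¹ - 1 with hd2def
  -- the derivative of `F2 = μ F1`
  have hD2 : D2 = th μ * l2⁻¹ * F1 + μ * l1 * l2⁻¹ * D1 := by
    have h1 : l2 * D2 = th μ * F1 + μ * (l1 * D1) := by
      rw [← ht2, hF, th_mul, ← ht1]
    calc D2 = (l2 * l2⁻¹) * D2 := by rw [hl2i, one_mul]
      _ = l2⁻¹ * (l2 * D2) := by ring
      _ = _ := by rw [h1]; ring
  have hphl2 : ph p ℚ_[p] l2 * ph p ℚ_[p] l2⁻¹ = 1 := by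
    rw [← map_mul, hl2i, map_one]
  have hb1 : PO 1 (T0 p) (d1 * A1 + (p : PowerSeries ℚ_[p]) * B1) :=
    PO_add (PO_mul_right hd1 (hT1I _)) (PO_mul_right (PO_p _) (hG1I _))
  have hb2 : PO 1 (T0 p) (d2 * A2 + (p : PowerSeries ℚ_[p]) * B2) :=
    PO_add (PO_mul_right hd2 (hT2I _)) (PO_mul_right (PO_p _) (hG2I _))
  -- the main relation
  have hmain : PO 2 (T0 p) (ph p ℚ_[p] F1 * (A2 * ph p ℚ_[p] μ - μ * A1
        + ph p ℚ_[p] (th μ * l2⁻¹) * (d2 * A2 + (p : PowerSeries ℚ_[p]) * B2))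
      + ph p ℚ_[p] D1 * ((d2 * A2 + (p : PowerSeries ℚ_[p]) * B2) * ph p ℚ_[p] (μ * l1 * l2⁻¹)
        - μ * (d1 * A1 + (p : PowerSeries ℚ_[p]) * B1))) := by
    have h1 := PO_neg (PO_sub hE2 (PO_mul_left (hμI _) hE1))
    have h2 : -((F2 - (A2 * ph p ℚ_[p] F2 + (d2 * A2 + (p : PowerSeries ℚ_[p]) * B2)
          * ph p ℚ_[p] D2)) - μ * (F1 - (A1 * ph p ℚ_[p] F1
          + (d1 * A1 + (p : PowerSeries ℚ_[p]) * B1) * ph p ℚ_[p] D1))) =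
        ph p ℚ_[p] F1 * (A2 * ph p ℚ_[p] μ - μ * A1
          + ph p ℚ_[p] (th μ * l2⁻¹) * (d2 * A2 + (p : PowerSeries ℚ_[p]) * B2))
        + ph p ℚ_[p] D1 * ((d2 * A2 + (p : PowerSeries ℚ_[p]) * B2) * ph p ℚ_[p] (μ * l1 * l2⁻¹)
          - μ * (d1 * A1 + (p : PowerSeries ℚ_[p]) * B1)) := by
      rw [hD2, hF]
      simp only [map_mul, map_add]
      ring
    rwa [h2] at h1
  -- modulo `p`
  have hmodp : PO 1 (T0 p) (A2 * ph p ℚ_[p] μ - μ * A1) := by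
    have h1 := PO_mono (i := 1) (T := T0 p) (by norm_num) le_rfl hmain
    have i1 : PO 0 (T0 p) (ph p ℚ_[p] F1) := hphI _ hF1I _
    have i2 : PO 0 (T0 p) (ph p ℚ_[p] D1) := hphI _ hD1I _
    have i3 : PO 0 (T0 p) (ph p ℚ_[p] (th μ * l2⁻¹)) :=
      hphI _ (fun T => PO_mul_left (PO_th (hμI T)) (hl2iI T)) _
    have i4 : PO 0 (T0 p) (ph p ℚ_[p] (μ * l1 * l2⁻¹)) :=
      hphI _ (fun T => PO_mul_left (PO_mul_left (hμI T) (hl1I T)) (hl2iI T)) _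
    have h2 : PO 1 (T0 p) (ph p ℚ_[p] F1 * (ph p ℚ_[p] (th μ * l2⁻¹)
        * (d2 * A2 + (p : PowerSeries ℚ_[p]) * B2))) := PO_mul_left i1 (PO_mul_left i3 hb2)
    have h3 : PO 1 (T0 p) (ph p ℚ_[p] D1 * ((d2 * A2 + (p : PowerSeries ℚ_[p]) * B2)
        * ph p ℚ_[p] (μ * l1 * l2⁻¹) - μ * (d1 * A1 + (p : PowerSeries ℚ_[p]) * B1))) :=
      PO_mul_left i2 (PO_sub (PO_mul_right hb2 i4) (PO_mul_left (hμI _) hb1))
    have h4 := PO_sub (PO_sub h1 h2) h3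
    refine PO_of_mul i1 (by rw [constantCoeff_ph, hF10, norm_one]) ?_
    convert h4 using 1
    ring
  -- the second bracket
  have hsec : PO 2 (T0 p) ((d2 * A2 + (p : PowerSeries ℚ_[p]) * B2)
      * ph p ℚ_[p] (μ * l1 * l2⁻¹) - μ * (d1 * A1 + (p : PowerSeries ℚ_[p]) * B1)) := by
    have j1 : PO 0 (T0 p) (ph p ℚ_[p] μ) := hphI _ hμI _
    have j2 : PO 0 (T0 p) (ph p ℚ_[p] l2) := hphI _ hl2I _
    have h1 : PO 2 (T0 p) (ph p ℚ_[p] μ * (A1 * A2 *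
        (((p : PowerSeries ℚ_[p]) * R2 + d2) * ph p ℚ_[p] l1
          - ((p : PowerSeries ℚ_[p]) * R1 + d1) * ph p ℚ_[p] l2))) :=
      PO_mul_left j1 (PO_mul_left (PO_mul_left (hT1I _) (hT2I _)) hK)
    have h2 : PO 2 (T0 p) ((d1 * A1 + (p : PowerSeries ℚ_[p]) * B1) * ph p ℚ_[p] l2
        * (A2 * ph p ℚ_[p] μ - μ * A1)) := PO_mul (PO_mul_right hb1 j2) hmodp
    refine PO_of_mul (PO_mul_left (hT1I _) j2) ?_ (f := A1 * ph p ℚ_[p] l2) ?_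
    · rw [map_mul, hT10, one_mul, constantCoeff_ph, hn2]
    · have e : A1 * ph p ℚ_[p] l2 * ((d2 * A2 + (p : PowerSeries ℚ_[p]) * B2)
          * ph p ℚ_[p] (μ * l1 * l2⁻¹) - μ * (d1 * A1 + (p : PowerSeries ℚ_[p]) * B1)) =
          ph p ℚ_[p] μ * (A1 * A2 *
            (((p : PowerSeries ℚ_[p]) * R2 + d2) * ph p ℚ_[p] l1
              - ((p : PowerSeries ℚ_[p]) * R1 + d1) * ph p ℚ_[p] l2))
          + (d1 * A1 + (p : PowerSeries ℚ_[p]) * B1) * ph p ℚ_[p] l2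
            * (A2 * ph p ℚ_[p] μ - μ * A1) := by
        rw [← hr1, ← hr2]
        simp only [map_mul]
        linear_combination (A1 * (d2 * A2 + (p : PowerSeries ℚ_[p]) * (R2 * A2))
          * ph p ℚ_[p] μ * ph p ℚ_[p] l1) * hphl2
      rw [e]
      exact PO_add h1 h2
  refine PO_of_mul (hphI _ hF1I _) (by rw [constantCoeff_ph, hF10, norm_one]) ?_
    (f := ph p ℚ_[p] F1)
  have h5 : PO 2 (T0 p) (ph p ℚ_[p] D1 * ((d2 * A2 + (p : PowerSeries ℚ_[p]) * B2)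
      * ph p ℚ_[p] (μ * l1 * l2⁻¹) - μ * (d1 * A1 + (p : PowerSeries ℚ_[p]) * B1))) :=
    PO_mul_left (hphI _ hD1I _) hsec
  have h6 := PO_sub hmain h5
  rwa [add_sub_cancel_right] at h6

theorem JJ (hp : 3 < p) (d : ℕ) (hd : 1 ≤ d) (hpd : ¬ p ∣ d) (g1 g2 l1 l2 μ : PowerSeries ℚ_[p])
    (h10 : constantCoeff g1 = 1) (h20 : constantCoeff g2 = 1)
    (hg1 : ∀ T, PO 0 T g1) (hg2 : ∀ T, PO 0 T g2)
    (hl1 : l1 * g1 = g1 + th g1) (hl2 : l2 * g2 = (d : PowerSeries ℚ_[p]) * g2 + th g2)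
    (hμ0 : constantCoeff μ = 1)
    (hF : cmp (FF ℚ_[p]) (X ^ d * g2) = μ * cmp (FF ℚ_[p]) (X * g1))
    (hW : l2 * cmp (WW ℚ_[p]) (X ^ d * g2) = (d : PowerSeries ℚ_[p]) * l1 * cmp (WW ℚ_[p]) (X * g1)) :
    PO 2 (T0 p) (JE p 1 d g1 g2 l2 μ) ∧ PO 2 (T0 p) (JE p d 1 g2 g1 l1 μ⁻¹) := by
  have hK := A7 p hp d hd hpd g1 g2 l1 l2 h10 h20 hg1 hg2 hl1 hl2 hW
  have hX1 : (X ^ 1 * g1 : PowerSeries ℚ_[p]) = X * g1 := by rw [pow_one]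
  have hl1' : l1 * g1 = ((1 : ℕ) : PowerSeries ℚ_[p]) * g1 + th g1 := by
    rw [Nat.cast_one, one_mul]; exact hl1
  have hp1 : ¬ p ∣ 1 := Nat.Prime.not_dvd_one (Fact.out : p.Prime)
  have hμne : constantCoeff μ ≠ 0 := by rw [hμ0]; exact one_ne_zero
  constructor
  · refine JJ_gen p hp 1 d le_rfl hd hp1 hpd g1 g2 l1 l2 μ h10 h20 hg1 hg2 hl1' hl2 hμ0 ?_ ?_
    · rw [hX1]; exact hF
    · rw [hX1]; exact hK
  · refine JJ_gen p hp d 1 hd le_rfl hpd hp1 g2 g1 l2 l1 μ⁻¹ h20 h10 hg2 hg1 hl2 hl1' ?_ ?_ ?_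
    · rw [PowerSeries.constantCoeff_inv, hμ0, inv_one]
    · rw [hX1, hF, ← mul_assoc, PowerSeries.inv_mul_cancel _ hμne, one_mul]
    · rw [hX1]
      have h1 := PO_neg hK
      rwa [neg_sub] at h1

end Pool.Agent.Lib_helper91.TN
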