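import Pool.Agent.Lib_helper91.TN.POApi

/-! Block LSA: Laurent series (rings: monomials, theta, Frobenius). -/

namespace Pool.Agent.Lib_helper91.TN

open PowerSeries Finset

section ring
variable {R : Type} [CommRing R]

theorem coeff_mon (a n : ℤ) : (mon R a).coeff n = if n = a then 1 else 0 := by
  unfold mon
  split_ifs with h
  · rw [h, HahnSeries.coeff_single_same]
  · exact HahnSeries.coeff_single_of_ne h

theorem mon_add (a b : ℤ) : mon R (a + b) = mon R a * mon R b := by
  unfold mon
  rw [HahnSeries.single_mul_single, one_mul]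

theorem mon_zero : mon R 0 = 1 := rfl

theorem mon_pow (a : ℤ) (n : ℕ) : mon R a ^ n = mon R (n * a) := by
  unfold mon
  rw [HahnSeries.single_pow, one_pow, nsmul_eq_mul]

theorem coeff_mon_mul (a n : ℤ) (f : LaurentSeries R) : (mon R a * f).coeff n = f.coeff (n - a) := by
  have h := HahnSeries.coeff_single_mul_add (r := (1 : R)) (x := f) (a := n - a) (b := a)
  rw [sub_add_cancel, one_mul] at h
  exact h

theorem coeff_cL (f : PowerSeries R) (n : ℕ) : (cL R f).coeff (n : ℤ) = coeff n f :=
  HahnSeries.ofPowerSeries_apply_coeff f n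

theorem coeff_cL_neg (f : PowerSeries R) (n : ℤ) (h : n < 0) : (cL R f).coeff n = 0 := by
  unfold cL
  rw [HahnSeries.ofPowerSeries_apply]
  refine HahnSeries.embDomain_of_notMem_range ?_
  rintro ⟨m, hm⟩
  have h2 : (m : ℤ) = n := hm
  omega

theorem LSA_coeff_cL' (f : PowerSeries R) (n : ℤ) :
    (cL R f).coeff n = if n < 0 then 0 else coeff n.toNat f := by
  split_ifs with h
  · exact coeff_cL_neg f n h
  · have h2 : ((n.toNat : ℕ) : ℤ) = n := Int.toNat_of_nonneg (by omega)
    rw [← coeff_cL, h2]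

theorem cL_injective : Function.Injective (cL R) := HahnSeries.ofPowerSeries_injective

theorem cL_X : cL R X = mon R 1 := HahnSeries.ofPowerSeries_X

theorem coeff_thL (f : LaurentSeries R) (n : ℤ) : (thL f).coeff n = (n : R) * f.coeff n := rfl

theorem thL_add (f g : LaurentSeries R) : thL (f + g) = thL f + thL g := by
  ext n
  simp only [coeff_thL, HahnSeries.coeff_add]
  ring

theorem thL_sub (f g : LaurentSeries R) : thL (f - g) = thL f - thL g := by
  ext n
  simp only [coeff_thL, HahnSeries.coeff_sub]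
  ring

theorem thL_neg (f : LaurentSeries R) : thL (-f) = -thL f := by
  ext n
  simp only [coeff_thL, HahnSeries.coeff_neg]
  ring

theorem LSA_supp (f : LaurentSeries R) : (thL f).support ⊆ f.support := by
  intro n hn
  rw [HahnSeries.mem_support, coeff_thL] at hn
  rw [HahnSeries.mem_support]
  intro h
  exact hn (by rw [h, mul_zero])

theorem thL_mul (f g : LaurentSeries R) : thL (f * g) = thL f * g + f * thL g := by
  ext n
  rw [coeff_thL, HahnSeries.coeff_add,
    HahnSeries.coeff_mul_left' f.isPWO_support (LSA_supp f),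
    HahnSeries.coeff_mul_right' g.isPWO_support (LSA_supp g), HahnSeries.coeff_mul,
    Finset.mul_sum, ← Finset.sum_add_distrib]
  refine Finset.sum_congr rfl fun ij hij => ?_
  rw [Finset.mem_addAntidiagonal] at hij
  rw [coeff_thL, coeff_thL, ← hij.2.2]
  push_cast
  ring

theorem thL_intCast (c : ℤ) : thL (c : LaurentSeries R) = 0 := by
  ext n
  rw [coeff_thL, ← HahnSeries.single_zero_intCast, HahnSeries.coeff_zero]
  by_cases h : n = 0
  · rw [h]; simp
  · rw [HahnSeries.coeff_single_of_ne h, mul_zero]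

theorem LSA_thL_one : thL (1 : LaurentSeries R) = 0 := by
  have h := thL_intCast (R := R) 1
  rwa [Int.cast_one] at h

theorem thL_pow (f : LaurentSeries R) (n : ℕ) : thL (f ^ n) = (n : LaurentSeries R) * f ^ (n - 1) * thL f := by
  induction n with
  | zero => rw [pow_zero, LSA_thL_one]; simp
  | succ n ih =>
    rw [pow_succ, thL_mul, ih]
    rcases Nat.eq_zero_or_pos n with h | h
    · subst h; simp
    · have h2 : f ^ n = f ^ (n - 1) * f := by rw [← pow_succ]; congr 1; omega
      rw [Nat.add_sub_cancel, h2]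
      push_cast
      ring

theorem thL_mon (a : ℤ) : thL (mon R a) = (a : LaurentSeries R) * mon R a := by
  have h1 : (a : LaurentSeries R) = HahnSeries.single (0 : ℤ) (a : R) :=
    (HahnSeries.single_zero_intCast a).symm
  ext n
  rw [coeff_thL, h1, HahnSeries.coeff_single_zero_mul, coeff_mon]
  split_ifs with h
  · rw [h]
  · rw [mul_zero, mul_zero]

theorem thL_cL (f : PowerSeries R) : thL (cL R f) = cL R (th f) := by
  ext n
  rw [coeff_thL, LSA_coeff_cL', LSA_coeff_cL']
  split_ifs with h
  · rw [mul_zero]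
  · unfold th
    rw [PowerSeries.coeff_mk]
    congr 1
    have h2 : ((n.toNat : ℕ) : ℤ) = n := Int.toNat_of_nonneg (by omega)
    rw [← Int.cast_natCast, h2]

theorem thL_C (c : R) : thL (cL R (C c)) = 0 := by
  rw [thL_cL]
  have h : th (C c : PowerSeries R) = 0 := by
    ext n
    unfold th
    rw [PowerSeries.coeff_mk, PowerSeries.coeff_C]
    split_ifs with h
    · rw [h]; simp
    · simp
  rw [h, map_zero]

theorem thL_ofNat_mul (n : ℕ) [n.AtLeastTwo] (f : LaurentSeries R) :
    thL ((ofNat(n) : LaurentSeries R) * f) = (ofNat(n) : LaurentSeries R) * thL f := by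
  rw [thL_mul]
  have h := thL_intCast (R := R) (ofNat(n) : ℤ)
  rw [Int.cast_ofNat] at h
  rw [h, zero_mul, zero_add]

variable (p : ℕ) [Fact p.Prime]

theorem coeff_phL_mul (f : LaurentSeries R) (n : ℤ) : (phL p R f).coeff (p * n) = f.coeff n := by
  exact HahnSeries.embDomain_mk_coeff (f := fun n : ℤ => (p : ℤ) * n) _ _

theorem coeff_phL_of_not_dvd (f : LaurentSeries R) (n : ℤ) (h : ¬ (p : ℤ) ∣ n) :
    (phL p R f).coeff n = 0 := by
  refine HahnSeries.embDomain_of_notMem_range ?_
  rintro ⟨m, hm⟩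
  exact h ⟨m, hm.symm⟩

theorem phL_mon (a : ℤ) : phL p R (mon R a) = mon R (p * a) := by
  ext n
  by_cases h : (p : ℤ) ∣ n
  · obtain ⟨m, rfl⟩ := h
    have hp : (p : ℤ) ≠ 0 := by exact_mod_cast (Fact.out : p.Prime).ne_zero
    rw [coeff_phL_mul, coeff_mon, coeff_mon]
    by_cases hm : m = a
    · rw [if_pos hm, if_pos (by rw [hm])]
    · rw [if_neg hm, if_neg (fun h => hm (mul_left_cancel₀ hp h))]
  · rw [coeff_phL_of_not_dvd p _ n h, coeff_mon, if_neg]
    rintro rfl
    exact h ⟨a, rfl⟩

theorem phL_cL (f : PowerSeries R) : phL p R (cL R f) = cL R (ph p R f) := by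
  have hp0 : 0 < p := (Fact.out : p.Prime).pos
  ext n
  rw [LSA_coeff_cL']
  by_cases h : (p : ℤ) ∣ n
  · obtain ⟨m, rfl⟩ := h
    rw [coeff_phL_mul, LSA_coeff_cL']
    have hp : (0 : ℤ) < (p : ℤ) := by exact_mod_cast hp0
    by_cases hm : m < 0
    · rw [if_pos hm, if_pos (mul_neg_of_pos_of_neg hp hm)]
    · have hm' : 0 ≤ m := by omega
      rw [if_neg hm, if_neg (not_lt.mpr (mul_nonneg hp.le hm'))]
      have h2 : ((p : ℤ) * m).toNat = p * m.toNat := by
        obtain ⟨k, rfl⟩ := Int.eq_ofNat_of_zero_le hm'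
        norm_cast
      rw [h2]
      change _ = coeff (p * m.toNat) (PowerSeries.expand p (Nat.Prime.ne_zero Fact.out) f)
      rw [PowerSeries.coeff_expand_mul]
  · rw [coeff_phL_of_not_dvd p _ n h]
    split_ifs with h0
    · rfl
    · change _ = coeff n.toNat (PowerSeries.expand p (Nat.Prime.ne_zero Fact.out) f)
      rw [PowerSeries.coeff_expand, if_neg]
      intro hd
      apply h
      obtain ⟨k, hk⟩ := hd
      refine ⟨k, ?_⟩
      have h2 : ((n.toNat : ℕ) : ℤ) = n := Int.toNat_of_nonneg (by omega)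
      rw [← h2, hk]; push_cast; ring

end ring

end Pool.Agent.Lib_helper91.TN
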