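import Pool.Agent.Lib_helper91.TN.Defs

/-! Block ThApi: basic lemmas on `th`, `ph`, `cst`. -/

namespace Pool.Agent.Lib_helper91.TN

open PowerSeries Finset

section
variable {R : Type} [CommRing R]

theorem coeff_th (f : PowerSeries R) (n : ℕ) : coeff n (th f) = (n : R) * coeff n f := by
  simp [th]

theorem th_eq (f : PowerSeries R) : th f = X * derivative R f := by
  ext n
  rw [coeff_th]
  cases n with
  | zero => simp
  | succ n =>
    rw [coeff_succ_X_mul, coeff_derivative]
    push_cast
    ring

theorem constantCoeff_th (f : PowerSeries R) : constantCoeff (th f) = 0 := by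
  rw [← coeff_zero_eq_constantCoeff_apply, coeff_th]; simp

theorem th_add (f g : PowerSeries R) : th (f + g) = th f + th g := by
  ext n; simp only [coeff_th, map_add]; ring

theorem th_sub (f g : PowerSeries R) : th (f - g) = th f - th g := by
  ext n; simp only [coeff_th, map_sub]; ring

theorem th_neg (f : PowerSeries R) : th (-f) = -th f := by
  ext n; simp only [coeff_th, map_neg]; ring

theorem th_zero : th (0 : PowerSeries R) = 0 := by
  ext n; simp [coeff_th]

theorem th_C (a : R) : th (C a : PowerSeries R) = 0 := by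
  ext n
  rw [coeff_th, coeff_C]
  by_cases h : n = 0 <;> simp [h]

theorem th_one : th (1 : PowerSeries R) = 0 := by
  have := th_C (1 : R)
  simpa using this

theorem th_natCast (n : ℕ) : th ((n : PowerSeries R)) = 0 := by
  have := th_C (n : R)
  simpa using this

theorem th_ofNat (n : ℕ) [n.AtLeastTwo] : th (ofNat(n) : PowerSeries R) = 0 := by
  have := th_natCast (R := R) (OfNat.ofNat n)
  simpa using this

theorem th_mul (f g : PowerSeries R) : th (f * g) = th f * g + f * th g := by
  simp only [th_eq, Derivation.leibniz, smul_eq_mul]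
  ring

theorem th_C_mul (a : R) (f : PowerSeries R) : th (C a * f) = C a * th f := by
  rw [th_mul, th_C]; ring

theorem th_natCast_mul (n : ℕ) (f : PowerSeries R) : th ((n : PowerSeries R) * f) = (n : PowerSeries R) * th f := by
  rw [th_mul, th_natCast]; ring

theorem th_ofNat_mul (n : ℕ) [n.AtLeastTwo] (f : PowerSeries R) :
    th ((ofNat(n) : PowerSeries R) * f) = (ofNat(n) : PowerSeries R) * th f := by
  rw [th_mul, th_ofNat]; ring

theorem th_X : th (X : PowerSeries R) = X := by
  rw [th_eq, derivative_X]; ring

theorem th_X_pow (n : ℕ) : th (X ^ n : PowerSeries R) = (n : PowerSeries R) * X ^ n := by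
  ext m
  have h1 : coeff m ((n : PowerSeries R) * X ^ n) = (n : R) * coeff m (X ^ n : PowerSeries R) := by
    rw [← map_natCast (C (R := R)) n, coeff_C_mul]
  rw [coeff_th, h1, coeff_X_pow]
  by_cases h : m = n <;> simp [h]

theorem th_pow (f : PowerSeries R) (n : ℕ) : th (f ^ n) = (n : PowerSeries R) * f ^ (n - 1) * th f := by
  rw [th_eq, th_eq, derivative_pow]; ring

theorem map_th {R' : Type} [CommRing R'] (φ : R →+* R') (f : PowerSeries R) :
    PowerSeries.map φ (th f) = th (PowerSeries.map φ f) := by
  ext n; simp [coeff_th]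

theorem coeff_cst (f : Polynomial ℤ) (n : ℕ) : coeff n (cst R f) = (f.coeff n : R) := by
  simp [cst]

theorem th_cst (f : Polynomial ℤ) : th (cst R f) = cst R (Polynomial.X * Polynomial.derivative f) := by
  ext n
  rw [coeff_th, coeff_cst, coeff_cst]
  cases n with
  | zero => simp
  | succ n =>
    rw [Polynomial.coeff_X_mul, Polynomial.coeff_derivative]
    push_cast
    ring

theorem constantCoeff_cst (f : Polynomial ℤ) : constantCoeff (cst R f) = (f.coeff 0 : R) := by
  rw [← coeff_zero_eq_constantCoeff_apply, coeff_cst]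

theorem cst_X : cst R Polynomial.X = X := by
  simp [cst]

theorem cst_C (a : ℤ) : cst R (Polynomial.C a) = (a : PowerSeries R) := by
  simp [cst]

theorem map_cst {R' : Type} [CommRing R'] (φ : R →+* R') (f : Polynomial ℤ) :
    PowerSeries.map φ (cst R f) = cst R' f := by
  ext n; simp [coeff_cst]

theorem cst_injective [CharZero R] : Function.Injective (cst R) := by
  intro f g h
  ext n
  have := congrArg (coeff n) h
  rw [coeff_cst, coeff_cst] at this
  exact_mod_cast this

variable (p : ℕ) [Fact p.Prime]

theorem coeff_ph (f : PowerSeries R) (n : ℕ) :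
    coeff n (ph p R f) = if p ∣ n then coeff (n / p) f else 0 := by
  have h : ph p R f = PowerSeries.expand p (Nat.Prime.ne_zero Fact.out) f := rfl
  rw [h, coeff_expand]

theorem ph_X : ph p R X = X ^ p := by
  have h : ph p R X = PowerSeries.expand p (Nat.Prime.ne_zero Fact.out) X := rfl
  rw [h, expand_X]

theorem ph_C (a : R) : ph p R (C a) = C a := by
  have h : ph p R (C a) = PowerSeries.expand p (Nat.Prime.ne_zero Fact.out) (C a) := rfl
  rw [h, expand_C]

theorem constantCoeff_ph (f : PowerSeries R) : constantCoeff (ph p R f) = constantCoeff f := by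
  rw [← coeff_zero_eq_constantCoeff_apply, ← coeff_zero_eq_constantCoeff_apply, coeff_ph]
  simp

theorem ph_cst (f : Polynomial ℤ) : ph p R (cst R f) = cst R (Polynomial.expand ℤ p f) := by
  ext n
  rw [coeff_ph, coeff_cst, coeff_cst, Polynomial.coeff_expand (Nat.Prime.pos Fact.out)]
  by_cases h : p ∣ n <;> simp [h]

theorem map_ph {R' : Type} [CommRing R'] (φ : R →+* R') (f : PowerSeries R) :
    PowerSeries.map φ (ph p R f) = ph p R' (PowerSeries.map φ f) := by
  ext n
  rw [coeff_map, coeff_ph, coeff_ph]
  by_cases h : p ∣ n <;> simp [h]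

theorem th_ph (f : PowerSeries R) : th (ph p R f) = (p : PowerSeries R) * ph p R (th f) := by
  ext n
  have h1 : coeff n ((p : PowerSeries R) * ph p R (th f)) = (p : R) * coeff n (ph p R (th f)) := by
    rw [← map_natCast (C (R := R)) p, coeff_C_mul]
  rw [coeff_th, h1, coeff_ph, coeff_ph]
  by_cases h : p ∣ n
  · obtain ⟨m, rfl⟩ := h
    have hp : 0 < p := Nat.Prime.pos Fact.out
    simp only [dvd_mul_right, if_true, Nat.mul_div_cancel_left m hp, coeff_th]
    push_cast
    ring
  · simp [h]

/-- a power series with coefficients supported in `[0,p)` times `φ f` -/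
theorem coeff_mul_ph (A f : PowerSeries R) (hA : ∀ n, p ≤ n → coeff n A = 0) (n : ℕ) :
    coeff n (A * ph p R f) = coeff (n % p) A * coeff (n / p) f := by
  have hp : 0 < p := Nat.Prime.pos Fact.out
  rw [coeff_mul]
  rw [Finset.sum_eq_single (n % p, p * (n / p))]
  · simp only [coeff_ph, dvd_mul_right, if_true, Nat.mul_div_cancel_left _ hp]
  · rintro ⟨i, j⟩ hij hne
    rw [Finset.HasAntidiagonal.mem_antidiagonal] at hij
    simp only at hij
    simp only [coeff_ph]
    by_cases hi : p ≤ i
    · rw [hA i hi, zero_mul]
    · push Not at hi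
      by_cases hj : p ∣ j
      · exfalso
        obtain ⟨m, rfl⟩ := hj
        apply hne
        have h1 : n % p = i := by
          rw [← hij, Nat.add_mul_mod_self_left, Nat.mod_eq_of_lt hi]
        have h2 : n / p = m := by
          rw [← hij, Nat.add_mul_div_left _ _ hp, Nat.div_eq_of_lt hi, zero_add]
        rw [h1, h2]
      · simp [hj]
  · intro h
    exfalso
    apply h
    rw [Finset.HasAntidiagonal.mem_antidiagonal]
    exact Nat.mod_add_div n p

end

section field
variable {K : Type} [Field K]

theorem th_inv (f : PowerSeries K) (hf : constantCoeff f ≠ 0) : th f⁻¹ = - th f * (f⁻¹) ^ 2 := by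
  rw [th_eq, th_eq, derivative_inv']; ring

theorem ph_inv (p : ℕ) [Fact p.Prime] (f : PowerSeries K) (hf : constantCoeff f ≠ 0) :
    ph p K f⁻¹ = (ph p K f)⁻¹ := by
  rw [PowerSeries.eq_inv_iff_mul_eq_one (by rwa [constantCoeff_ph]), ← map_mul,
    PowerSeries.inv_mul_cancel _ hf, map_one]

theorem th_ext [CharZero K] {f g : PowerSeries K} (h : th f = th g)
    (h0 : constantCoeff f = constantCoeff g) : f = g := by
  ext n
  cases n with
  | zero => simpa using h0
  | succ n =>
    have := congrArg (coeff (n + 1)) h
    rw [coeff_th, coeff_th] at this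
    exact mul_left_cancel₀ (by exact_mod_cast Nat.succ_ne_zero n) this

/-- a primitive for `θ` -/
theorem exists_th_eq [CharZero K] (f : PowerSeries K) (hf : constantCoeff f = 0) :
    ∃ g : PowerSeries K, constantCoeff g = 0 ∧ th g = f := by
  refine ⟨PowerSeries.mk fun n => (n : K)⁻¹ * coeff n f, ?_, ?_⟩
  · rw [← coeff_zero_eq_constantCoeff_apply]; simp
  · ext n
    rw [coeff_th, coeff_mk]
    cases n with
    | zero => simp [hf]
    | succ n =>
      rw [← mul_assoc, mul_inv_cancel₀ (by exact_mod_cast Nat.succ_ne_zero n), one_mul]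

theorem bb_zero : bb 0 = 1 := by simp [bb]

theorem gg_zero : gg K 0 = 0 := by simp [gg, Hn]

theorem constantCoeff_FF : constantCoeff (FF K) = 1 := by
  rw [← coeff_zero_eq_constantCoeff_apply]; simp [FF, bb_zero]

theorem constantCoeff_CBs (c : K) : constantCoeff (CBs K c) = 1 := by
  rw [← coeff_zero_eq_constantCoeff_apply]; simp [CBs]

theorem constantCoeff_CB : constantCoeff (CB K) = 1 := by
  rw [CB, map_mul, constantCoeff_CBs, constantCoeff_CBs, mul_one]

theorem constantCoeff_WW : constantCoeff (WW K) = 1 := by
  rw [WW, map_mul, PowerSeries.constantCoeff_inv, constantCoeff_FF, constantCoeff_CB]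
  simp

theorem constantCoeff_GG : constantCoeff (GG K) = 0 := by
  rw [← coeff_zero_eq_constantCoeff_apply]; simp [GG, gg_zero]

theorem constantCoeff_EE : constantCoeff (EE K) = 0 := by
  rw [EE, map_mul, constantCoeff_GG, zero_mul]

end field

end Pool.Agent.Lib_helper91.TN
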