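import Pool.Agent.Lib_helper91.TN.LSB
import Pool.Agent.Lib_helper91.TN.A4

/-! Block LSC: Laurent series over `ℚ_p` (integrality). -/

namespace Pool.Agent.Lib_helper91.TN

open PowerSeries Finset

section padic
variable {p : ℕ} [Fact p.Prime]

theorem IL_mono {i j : ℕ} (h : i ≤ j) {f : LaurentSeries ℚ_[p]} (hf : IL j f) : IL i f :=
  fun n => PI_mono h (hf n)

theorem IL_zero (j : ℕ) : IL j (0 : LaurentSeries ℚ_[p]) := fun n => by
  rw [HahnSeries.coeff_zero]; exact PI_zero j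

theorem IL_add {j : ℕ} {f g : LaurentSeries ℚ_[p]} (hf : IL j f) (hg : IL j g) : IL j (f + g) :=
  fun n => by rw [HahnSeries.coeff_add]; exact PI_add (hf n) (hg n)

theorem IL_sub {j : ℕ} {f g : LaurentSeries ℚ_[p]} (hf : IL j f) (hg : IL j g) : IL j (f - g) :=
  fun n => by rw [HahnSeries.coeff_sub]; exact PI_sub (hf n) (hg n)

theorem IL_neg {j : ℕ} {f : LaurentSeries ℚ_[p]} (hf : IL j f) : IL j (-f) :=
  fun n => by rw [HahnSeries.coeff_neg]; exact PI_neg (hf n)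

theorem IL_mul {i j : ℕ} {f g : LaurentSeries ℚ_[p]} (hf : IL i f) (hg : IL j g) : IL (i + j) (f * g) := by
  intro n
  rw [HahnSeries.coeff_mul]
  exact PI_sum _ _ fun ij _ => PI_mul (hf _) (hg _)

theorem IL_mul_left {j : ℕ} {f g : LaurentSeries ℚ_[p]} (hf : IL 0 f) (hg : IL j g) : IL j (f * g) := by
  have h := IL_mul hf hg
  rwa [zero_add] at h

theorem IL_mul_right {j : ℕ} {f g : LaurentSeries ℚ_[p]} (hf : IL j f) (hg : IL 0 g) : IL j (f * g) :=
  IL_mul hf hg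

theorem IL_sum {ι : Type} (s : Finset ι) {j : ℕ} (f : ι → LaurentSeries ℚ_[p]) (h : ∀ i ∈ s, IL j (f i)) :
    IL j (∑ i ∈ s, f i) := by
  classical
  induction s using Finset.induction_on with
  | empty => rw [Finset.sum_empty]; exact IL_zero j
  | insert i s hi ih =>
    rw [Finset.sum_insert hi]
    exact IL_add (h i (Finset.mem_insert_self i s)) (ih fun k hk => h k (Finset.mem_insert_of_mem hk))

theorem IL_mon (a : ℤ) : IL 0 (mon ℚ_[p] a) := by
  intro n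
  rw [coeff_mon]
  split_ifs
  · exact POApi_one
  · exact PI_zero 0

theorem LSC_one : IL 0 (1 : LaurentSeries ℚ_[p]) := by
  rw [← mon_zero]; exact IL_mon 0

theorem IL_pow {f : LaurentSeries ℚ_[p]} (hf : IL 0 f) (n : ℕ) : IL 0 (f ^ n) := by
  induction n with
  | zero => rw [pow_zero]; exact LSC_one
  | succ n ih => rw [pow_succ]; exact IL_mul_left ih hf

theorem IL_cL {j : ℕ} {f : PowerSeries ℚ_[p]} (hf : ∀ T, PO j T f) : IL j (cL ℚ_[p] f) := by
  intro n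
  rw [LSA_coeff_cL']
  split_ifs with h
  · exact PI_zero j
  · exact hf (n.toNat + 1) _ (Nat.lt_succ_self _)

theorem IL_intCast (c : ℤ) : IL 0 (c : LaurentSeries ℚ_[p]) := by
  have h : (c : LaurentSeries ℚ_[p]) = cL ℚ_[p] (C (c : ℚ_[p])) := by
    rw [map_intCast, map_intCast]
  rw [h]
  exact IL_cL fun T => PO_C (PI_intCast c)

theorem IL_natCast (c : ℕ) : IL 0 (c : LaurentSeries ℚ_[p]) := by
  have h := IL_intCast (p := p) (c : ℤ)
  rwa [Int.cast_natCast] at h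

theorem IL_p : IL 1 (p : LaurentSeries ℚ_[p]) := by
  have h : (p : LaurentSeries ℚ_[p]) = cL ℚ_[p] (p : PowerSeries ℚ_[p]) := by
    rw [map_natCast]
  rw [h]
  exact IL_cL fun T => PO_p T

theorem PO_of_IL_cL {j : ℕ} {f : PowerSeries ℚ_[p]} (hf : IL j (cL ℚ_[p] f)) (T : ℕ) : PO j T f := by
  intro n _
  have h := hf n
  rwa [coeff_cL] at h

theorem IL_thL {j : ℕ} {f : LaurentSeries ℚ_[p]} (hf : IL j f) : IL j (thL f) := by
  intro n
  rw [coeff_thL]
  have h := PI_mul (PI_intCast (p := p) n) (hf n)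
  rwa [zero_add] at h

theorem IL_phL {j : ℕ} {f : LaurentSeries ℚ_[p]} (hf : IL j f) : IL j (phL p ℚ_[p] f) := by
  intro n
  by_cases h : (p : ℤ) ∣ n
  · obtain ⟨m, rfl⟩ := h
    rw [coeff_phL_mul]; exact hf m
  · rw [coeff_phL_of_not_dvd p f n h]; exact PI_zero j

theorem LSC_g {j : ℕ} (a : ℤ) {f : LaurentSeries ℚ_[p]} (hf : IL j f) (T : ℕ) : PO j T (LSB_g a f) := by
  intro n _
  rw [LSB_coeff]; exact hf _

/-- Frobenius -/
theorem frobL {f : LaurentSeries ℚ_[p]} (hf : IL 0 f) : IL 1 (phL p ℚ_[p] f - f ^ p) := by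
  have ho : OL f.order f := fun n hn => HahnSeries.coeff_eq_zero_of_lt_order hn
  have hdec := LSB_dec ho
  set a := f.order
  set g := LSB_g a f with hg
  have hgi : ∀ T, PO 0 T g := fun T => LSC_g a hf T
  have h1 : phL p ℚ_[p] f - f ^ p = mon ℚ_[p] (p * a) * cL ℚ_[p] (ph p ℚ_[p] g - g ^ p) := by
    have h2 : phL p ℚ_[p] f = mon ℚ_[p] (p * a) * cL ℚ_[p] (ph p ℚ_[p] g) := by
      conv_lhs => rw [hdec]
      rw [map_mul, phL_mon, phL_cL]
    have h3 : f ^ p = mon ℚ_[p] (p * a) * cL ℚ_[p] (g ^ p) := by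
      conv_lhs => rw [hdec]
      rw [mul_pow, mon_pow, map_pow]
    rw [h2, h3, map_sub]; ring
  rw [h1]
  exact IL_mul_left (IL_mon _) (IL_cL fun T => frob p g hgi T)

theorem TL_of_IL {j : ℕ} (T : ℤ) {f : LaurentSeries ℚ_[p]} (hf : IL j f) : TL j T f :=
  fun n _ => hf n

theorem TL_mono {i j : ℕ} {S T : ℤ} (h : i ≤ j) (h' : S ≤ T) {f : LaurentSeries ℚ_[p]} (hf : TL j T f) :
    TL i S f := fun n hn => PI_mono h (hf n (by omega))

theorem TL_add {j : ℕ} {T : ℤ} {f g : LaurentSeries ℚ_[p]} (hf : TL j T f) (hg : TL j T g) :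
    TL j T (f + g) := fun n hn => by
  rw [HahnSeries.coeff_add]; exact PI_add (hf n hn) (hg n hn)

theorem TL_sub {j : ℕ} {T : ℤ} {f g : LaurentSeries ℚ_[p]} (hf : TL j T f) (hg : TL j T g) :
    TL j T (f - g) := fun n hn => by
  rw [HahnSeries.coeff_sub]; exact PI_sub (hf n hn) (hg n hn)

theorem TL_mul {j : ℕ} {T a : ℤ} {f g : LaurentSeries ℚ_[p]} (hf : IL 0 f) (ho : OL a f)
    (hg : TL j T g) : TL j (T + a) (f * g) := by
  intro n hn
  rw [HahnSeries.coeff_mul]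
  refine PI_sum _ _ fun ij hij => ?_
  rw [Finset.mem_addAntidiagonal] at hij
  obtain ⟨h1, _, h3⟩ := hij
  have h4 : a ≤ ij.1 := by
    by_contra hcon
    rw [HahnSeries.mem_support] at h1
    exact h1 (ho _ (by omega))
  have h5 := PI_mul (hf ij.1) (hg ij.2 (by omega))
  rwa [zero_add] at h5

theorem TL_cL {j T : ℕ} {f : PowerSeries ℚ_[p]} (hf : PO j T f) : TL j T (cL ℚ_[p] f) := by
  intro n hn
  rw [LSA_coeff_cL']
  split_ifs with h
  · exact PI_zero j
  · exact hf _ (by omega)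

/-- integrality of the inverse -/
theorem exists_unit_int {a : ℤ} {f : LaurentSeries ℚ_[p]} (hi : IL 0 f) (hf : OL a f)
    (h : ‖f.coeff a‖ = 1) : IL 0 f⁻¹ ∧ OL (-a) f⁻¹ := by
  have hdec := LSB_dec hf
  set g := LSB_g a f with hg
  have hgc : ‖constantCoeff g‖ = 1 := by rw [hg, LSB_const]; exact h
  have hgc0 : constantCoeff g ≠ 0 := by
    intro h0; rw [h0, norm_zero] at hgc; exact zero_ne_one hgc
  have hgi : ∀ T, PO 0 T g := fun T => LSC_g a hi T
  have h1 : f⁻¹ = mon ℚ_[p] (-a) * cL ℚ_[p] g⁻¹ := by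
    rw [hdec, mul_inv, mon_inv, cL_inv g hgc0]
  rw [h1]
  exact ⟨IL_mul_left (IL_mon _) (IL_cL fun T => PO_inv (hgi T) hgc), LSB_OL_mon_cL _ _⟩

end padic

end Pool.Agent.Lib_helper91.TN
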