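import Pool.Agent.Lib_helper91.TN.HF

/-! Block PTA: expansions at the CM point over `QK p D0`, `D0 = D(x0,n0)`.
exists_PPt: `x = x0 + X`; `η̃ ∈ (ZMod p²)⟦X⟧` with `η̃² = E(x0+X)`, constant term `n0` (unit); `ỹ ∈ (ZMod p²)⟦X⟧` with `D0 ỹ² = D(x0+X, η̃)`, constant
term `1` (`D0` unit); `η = iK η̃`, `Y = √D0 · iK ỹ` (exists_sqrt). -/

namespace Pool.Agent.Lib_helper91.TN

open PowerSeries Finset

/-- the inclusion on power series -/
noncomputable def PTA_m (p : ℕ) (D0 : ℤ) :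
    PowerSeries (ZMod (p ^ 2)) →+* PowerSeries (QK p D0) := PowerSeries.map (iK p D0)

theorem PTA_coeff_m (p : ℕ) (D0 : ℤ) (g : PowerSeries (ZMod (p ^ 2))) (n : ℕ) :
    coeff n (PTA_m p D0 g) = iK p D0 (coeff n g) := by
  simp [PTA_m]

theorem PTA_m_X (p : ℕ) (D0 : ℤ) : PTA_m p D0 X = X := by
  simp [PTA_m]

theorem PTA_m_C (p : ℕ) (D0 : ℤ) (c : ℤ) :
    PTA_m p D0 (C ((c : ℤ) : ZMod (p ^ 2))) = C ((c : ℤ) : QK p D0) := by
  simp [PTA_m]

/-- evaluation of an integer polynomial -/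
noncomputable def PTA_e {T : Type} [CommRing T] (x : T) (f : Polynomial ℤ) : T :=
  f.eval₂ (Int.castRingHom T) x

theorem PTA_ae {T : Type} [CommRing T] (x : T) (f : Polynomial ℤ) :
    Polynomial.aeval x f = PTA_e x f := by
  rw [Polynomial.aeval_def, PTA_e]
  congr 1

theorem PTA_hom {T T' : Type} [CommRing T] [CommRing T'] (φ : T →+* T') (x : T)
    (f : Polynomial ℤ) : φ (PTA_e x f) = PTA_e (φ x) f := by
  unfold PTA_e
  rw [Polynomial.hom_eval₂]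
  congr 1
  exact RingHom.ext_int _ _

theorem PTA_aeval (p : ℕ) (D0 x0 : ℤ) (f : Polynomial ℤ) :
    PTA_e (C ((x0 : ℤ) : QK p D0) + X) f =
      PTA_m p D0 (PTA_e (C ((x0 : ℤ) : ZMod (p ^ 2)) + X) f) := by
  rw [PTA_hom, map_add, PTA_m_X, PTA_m_C]

theorem PTA_const {R : Type} [CommRing R] (x0 : ℤ) (f : Polynomial ℤ) :
    constantCoeff (PTA_e (C ((x0 : ℤ) : R) + X) f) = ((f.eval x0 : ℤ) : R) := by
  rw [PTA_hom]
  have h2 : constantCoeff (C ((x0 : ℤ) : R) + X) = Int.castRingHom R x0 := by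
    simp
  rw [h2, ← PTA_hom]
  unfold PTA_e
  rw [Polynomial.eval]
  rfl

theorem PTA_unit (p : ℕ) [Fact p.Prime] {c : ℤ} (hc : ¬ (p : ℤ) ∣ c) :
    IsUnit ((c : ℤ) : ZMod (p ^ 2)) := by
  have hp : p.Prime := Fact.out
  have h1 : IsCoprime c ((p ^ 2 : ℕ) : ℤ) := by
    rw [Nat.cast_pow]
    apply IsCoprime.pow_right
    have h2 : IsCoprime (p : ℤ) c := (Nat.prime_iff_prime_int.1 hp).coprime_iff_not_dvd.2 hc
    exact h2.symm
  exact (ZMod.coe_int_isUnit_iff_isCoprime c (p ^ 2)).2 h1.symm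

theorem PTA_sq (p : ℕ) (D0 : ℤ) : sqD p D0 ^ 2 = ((D0 : ℤ) : QK p D0) := by
  rw [sq]
  ext
  · simp [sqD, QuadraticAlgebra.re_mul]
  · simp [sqD, QuadraticAlgebra.im_mul]

namespace MD

variable (M : MD)

/-- expansion at the point `(x0,n0)` -/
structure PPt (p : ℕ) (x0 n0 : ℤ) extends M.Pt (PowerSeries (QK p (M.evI x0 n0 M.D))) where
  hx : x = C ((x0 : ℤ) : QK p (M.evI x0 n0 M.D)) + X
  hη0 : constantCoeff η = ((n0 : ℤ) : QK p (M.evI x0 n0 M.D))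
  hY0 : constantCoeff Y = sqD p (M.evI x0 n0 M.D)
  hηr : ∀ n, (coeff n η).im = 0
  hYr : ∀ n, (coeff n Y).re = 0

variable (p : ℕ) [Fact p.Prime] {x0 n0 m a b s : ℤ}

theorem exists_PPt (hp : 3 < p) (hpt : M.Point x0 n0 m a b s) (hg : M.GoodPt x0 n0 m b p) :
    Nonempty (M.PPt p x0 n0) := by
  have h2 : IsUnit (2 : ZMod (p ^ 2)) := by
    have h := PTA_unit p (c := 2) (by
      intro h
      have := Int.le_of_dvd (by norm_num) h
      omega)
    simpa using h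
  set D0 : ℤ := M.evI x0 n0 M.D with hD0
  have huD := PTA_unit p hg.hD
  rw [← hD0] at huD
  set x1 : PowerSeries (ZMod (p ^ 2)) := C ((x0 : ℤ) : ZMod (p ^ 2)) + X with hx1
  obtain ⟨η1, hη1, hη1c⟩ := exists_sqrt h2 (PTA_e x1 M.E) ((n0 : ℤ) : ZMod (p ^ 2))
    (PTA_unit p hg.hn) (by
      rw [hx1, PTA_const, ← hpt.hη]
      push_cast
      ring)
  set D1 : PowerSeries (ZMod (p ^ 2)) :=
    PTA_e x1 M.D.re + PTA_e x1 M.D.im * η1 with hD1
  have hD1c : constantCoeff D1 = ((D0 : ℤ) : ZMod (p ^ 2)) := by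
    rw [hD1, map_add, map_mul, hx1, PTA_const, PTA_const, hη1c, hD0]
    unfold MD.evI
    push_cast
    ring
  obtain ⟨u, hu⟩ := huD
  have hDu : ((D0 : ℤ) : ZMod (p ^ 2)) * ((u⁻¹ : (ZMod (p ^ 2))ˣ) : ZMod (p ^ 2)) = 1 := by
    rw [← hu, Units.mul_inv]
  obtain ⟨y1, hy1, hy1c⟩ := exists_sqrt h2 (C ((u⁻¹ : (ZMod (p ^ 2))ˣ) : ZMod (p ^ 2)) * D1) 1
    isUnit_one (by
      rw [map_mul, hD1c, constantCoeff_C, ← hu, Units.inv_mul, one_pow])
  refine ⟨⟨⟨C ((x0 : ℤ) : QK p D0) + X, PTA_m p D0 η1, C (sqD p D0) * PTA_m p D0 y1, ?_, ?_⟩,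
    rfl, ?_, ?_, ?_, ?_⟩⟩
  · rw [← map_pow, hη1, PTA_ae, PTA_aeval]
  · rw [mul_pow, ← map_pow, ← map_pow, hy1, PTA_ae, PTA_ae, PTA_aeval, PTA_aeval, PTA_sq,
      ← map_mul (PTA_m p D0), ← map_add (PTA_m p D0), ← hD1, ← PTA_m_C,
      ← map_mul (PTA_m p D0), ← mul_assoc, ← map_mul C, hDu, map_one, one_mul]
  · change constantCoeff (PTA_m p D0 η1) = _
    rw [← coeff_zero_eq_constantCoeff_apply, PTA_coeff_m, coeff_zero_eq_constantCoeff_apply,
      hη1c, map_intCast]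
  · change constantCoeff (C (sqD p D0) * PTA_m p D0 y1) = _
    rw [map_mul, constantCoeff_C, ← coeff_zero_eq_constantCoeff_apply, PTA_coeff_m,
      coeff_zero_eq_constantCoeff_apply, hy1c, map_one, mul_one]
  · intro n
    change (coeff n (PTA_m p D0 η1)).im = 0
    rw [PTA_coeff_m]
    rfl
  · intro n
    change (coeff n (C (sqD p D0) * PTA_m p D0 y1)).re = 0
    rw [coeff_C_mul, PTA_coeff_m]
    simp [sqD, iK, QuadraticAlgebra.re_mul]

theorem PPt_const_evB (P : M.PPt p x0 n0) (c : M.B) :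
    constantCoeff (P.toPt.evB c) = ((M.evI x0 n0 c : ℤ) : QK p (M.evI x0 n0 M.D)) := by
  rw [Pt.evB_apply, Pt.evP_apply, Pt.evP_apply, PTA_ae, PTA_ae, P.hx, map_add, map_mul,
    PTA_const, PTA_const, P.hη0]
  unfold MD.evI
  push_cast
  ring

theorem PTA_evB (P : M.PPt p x0 n0) (c : M.B) :
    ∃ g, P.toPt.evB c = PTA_m p (M.evI x0 n0 M.D) g := by
  have h : P.η = PTA_m p (M.evI x0 n0 M.D) (PowerSeries.mk fun n => (coeff n P.η).re) := by
    ext n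
    · rw [PTA_coeff_m, coeff_mk]
      rfl
    · rw [PTA_coeff_m, P.hηr n]
      rfl
  refine ⟨PTA_e (C ((x0 : ℤ) : ZMod (p ^ 2)) + X) c.re +
    PTA_e (C ((x0 : ℤ) : ZMod (p ^ 2)) + X) c.im *
      (PowerSeries.mk fun n => (coeff n P.η).re), ?_⟩
  rw [Pt.evB_apply, Pt.evP_apply, Pt.evP_apply, PTA_ae, PTA_ae, P.hx, map_add, map_mul,
    ← PTA_aeval, ← PTA_aeval, ← h]

theorem PPt_evB_im (P : M.PPt p x0 n0) (c : M.B) (n : ℕ) : (coeff n (P.toPt.evB c)).im = 0 := by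
  obtain ⟨g, hg⟩ := PTA_evB M p P c
  rw [hg, PTA_coeff_m]
  rfl

theorem PTA_dX_evP (P : M.PPt p x0 n0) (f : Polynomial ℤ) :
    dX (P.toPt.evP f) = P.toPt.evP (Polynomial.derivative f) := by
  have hD := isDer_dX (R := QK p (M.evI x0 n0 M.D))
  have hx : dX P.x = 1 := by
    rw [P.hx, hD.add, dX_C, dX_X, zero_add]
  have hC : ∀ c : ℤ, P.toPt.evP (Polynomial.C c) = (c : PowerSeries (QK p (M.evI x0 n0 M.D))) := by
    intro c
    rw [Pt.evP_apply, PTA_ae, PTA_e, Polynomial.eval₂_C, eq_intCast]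
  have hX : P.toPt.evP Polynomial.X = P.x := by
    rw [Pt.evP_apply, PTA_ae, PTA_e, Polynomial.eval₂_X]
  induction f using Polynomial.induction_on' with
  | add f g hf hg =>
    rw [map_add, hD.add, hf, hg, Polynomial.derivative_add, map_add]
  | monomial n c =>
    rw [← Polynomial.C_mul_X_pow_eq_monomial, Polynomial.derivative_C_mul_X_pow, map_mul,
      map_pow, hC, hX, hD.mul, hD.intCast, hD.pow, hx, map_mul, map_pow, hC, hX]
    push_cast
    ring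

theorem PPt_dB (hp : 3 < p) (hg : M.GoodPt x0 n0 m b p) (P : M.PPt p x0 n0) (c : M.B) :
    P.toPt.evB (M.dB c) = 2 * P.η * dX (P.toPt.evB c) := by
  have hD := isDer_dX (R := QK p (M.evI x0 n0 M.D))
  have h1 : 2 * P.η * dX P.η = P.toPt.evP (Polynomial.derivative M.E) := by
    rw [← PTA_dX_evP, Pt.evP_E, pow_two P.η, hD.mul]
    ring
  have h2 := P.toPt.evP_E
  rw [Pt.evB_apply P.toPt c, hD.add, hD.mul, PTA_dX_evP, PTA_dX_evP]
  have h3 : P.toPt.evB (M.dB c) = P.toPt.evP (2 * M.E * Polynomial.derivative c.im +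
      c.im * Polynomial.derivative M.E) +
      P.toPt.evP (2 * Polynomial.derivative c.re) * P.η := rfl
  rw [h3, map_add, map_mul, map_mul, map_mul, map_mul, map_ofNat, h2, ← h1]
  ring

theorem PPt_dA (hp : 3 < p) (hg : M.GoodPt x0 n0 m b p) (P : M.PPt p x0 n0) (c : M.A) :
    P.toPt.ev (M.dA c) = 4 * P.η * P.Y * dX (P.toPt.ev c) := by
  have hD := isDer_dX (R := QK p (M.evI x0 n0 M.D))
  have h1 : 2 * P.η * (2 * P.Y * dX P.Y) = P.toPt.evB (M.dB M.D) := by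
    rw [PPt_dB M p hp hg P, Pt.evB_D, pow_two P.Y, hD.mul]
    ring
  have h2 := P.toPt.evB_D
  rw [Pt.ev_apply P.toPt c, hD.add, hD.mul]
  have h3 : P.toPt.ev (M.dA c) = P.toPt.evB (2 * M.D * M.dB c.im + c.im * M.dB M.D) +
      P.toPt.evB (2 * M.dB c.re) * P.Y := rfl
  rw [h3, map_add, map_mul, map_mul, map_mul, map_mul, map_ofNat, h2, ← h1,
    PPt_dB M p hp hg P, PPt_dB M p hp hg P]
  ring

/-- conjugation on coefficients -/
theorem PPt_cj (P : M.PPt p x0 n0) (c : M.A) (n : ℕ) :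
    coeff n (P.toPt.ev (M.cj c)) = tau p (M.evI x0 n0 M.D) (-1) (coeff n (P.toPt.ev c)) := by
  have h1 : P.toPt.ev (M.cj c) = P.toPt.evB c.re - P.toPt.evB c.im * P.Y := by
    rw [Pt.ev_apply]
    change P.toPt.evB c.re + P.toPt.evB (-c.im) * P.Y = _
    rw [map_neg]
    ring
  have hY : P.Y = C (sqD p (M.evI x0 n0 M.D)) *
      PTA_m p (M.evI x0 n0 M.D) (PowerSeries.mk fun n => (coeff n P.Y).im) := by
    ext n
    · rw [coeff_C_mul, PTA_coeff_m, P.hYr n]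
      simp [sqD, iK, QuadraticAlgebra.re_mul]
    · rw [coeff_C_mul, PTA_coeff_m, coeff_mk]
      simp [sqD, iK, QuadraticAlgebra.im_mul]
  have h2 : (coeff n (P.toPt.evB c.im * P.Y)).re = 0 := by
    obtain ⟨g, hg⟩ := PTA_evB M p P c.im
    rw [hg, hY, mul_left_comm, ← map_mul, coeff_C_mul, PTA_coeff_m]
    simp [sqD, iK, QuadraticAlgebra.re_mul]
  have h3 := PPt_evB_im M p P c.re n
  rw [h1, Pt.ev_apply, map_sub, map_add]
  generalize coeff n (P.toPt.evB c.im * P.Y) = β at *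
  generalize coeff n (P.toPt.evB c.re) = α at *
  ext
  · simp [tau, h2]
  · simp [tau, h3]

end MD

end Pool.Agent.Lib_helper91.TN
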