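import Pool.Agent.Lib_helper91.TN.LSApi
import Pool.Agent.Lib_helper91.TN.Z3

/-! Block Ricc: the Riccati equation of `F(z)`.
`∂ = υ thL`, `h = 1/z`, `F = F(z)`, `V = ∂F/F`, `Θ = (∂h)²/((h-16)(h+4))`:
 `2∂V + V² = 4 Θ (h+15)/h² + V ∂Θ/Θ`.
Proof: `μ = ∂z/z = -∂h/h`; `∂(f(z)) = μ (θf)(z)` (th_cmp, thL_cL).  Z2 composed with `z` (cmp_mul, ...):
 `P(z)(2 F F2 - F1²) = (28z+256z²) F F1 + (8z+96z²) F²` with `F1 = (θF)(z)`, `F2 = (θ²F)(z)`, `P(z) = 1-28z-128z² = (h-16)(h+4)/h²`.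
 `V = μ F1/F`, `∂V = ∂μ F1/F + μ² F2/F - μ² F1²/F²`, `Θ = μ²/P(z)`, `∂Θ/Θ = 2∂μ/μ + (28z+256z²) μ/P(z)`,
 `4 Θ (h+15)/h² = μ² (8z+96z²)/P(z)`. -/

namespace Pool.Agent.Lib_helper91.TN

open PowerSeries Finset

theorem ricc_alg (L : Type) [Field L] (μ dμ ζ h P F0 F1 F2 V dV Θ dΘ : L) (hh : h * ζ = 1)
    (hP0 : P ≠ 0) (hF0 : F0 ≠ 0) (hΘ0 : Θ ≠ 0)
    (hV : V * F0 = μ * F1) (hdV : dV * F0 + V * (μ * F1) = dμ * F1 + μ * (μ * F2))
    (hΘP : Θ * P = μ ^ 2)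
    (hdΘ : dΘ * P + Θ * (-(12 * ζ + 128 * ζ ^ 2) * μ) = 2 * μ * dμ)
    (hZ2 : P * (2 * F0 * F2 - F1 ^ 2) = (12 * ζ + 128 * ζ ^ 2) * F0 * F1
      + (4 * ζ + 60 * ζ ^ 2) * F0 ^ 2) :
    2 * dV + V ^ 2 = 4 * Θ * (h + 15) * (h⁻¹) ^ 2 + V * (dΘ * Θ⁻¹) := by
  have hμ : μ ≠ 0 := by
    intro h0
    apply mul_ne_zero hΘ0 hP0
    rw [hΘP, h0]; ring
  have hζ : ζ = h⁻¹ := eq_inv_of_mul_eq_one_right hh
  have hh0 : h ≠ 0 := left_ne_zero_of_mul_eq_one hh
  have e1 : V = μ * F1 / F0 := by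
    field_simp; exact hV
  have e2 : Θ = μ ^ 2 / P := by
    field_simp; exact hΘP
  have e3 : dV = (dμ * F1 + μ * (μ * F2) - V * (μ * F1)) / F0 := by
    field_simp; linear_combination hdV
  have e4 : dΘ = (2 * μ * dμ + Θ * ((12 * ζ + 128 * ζ ^ 2) * μ)) / P := by
    field_simp; linear_combination hdΘ
  have e5 : 4 * Θ * (h + 15) * (h⁻¹) ^ 2 = 4 * Θ * (ζ + 15 * ζ ^ 2) := by
    rw [hζ]; field_simp
  rw [e5, e3, e4, e2, e1]
  field_simp
  linear_combination (μ ^ 2) * hZ2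

theorem ricc (K : Type) [Field K] [CharZero K] (υ : LaurentSeries K) (z : PowerSeries K)
    (hz0 : constantCoeff z = 0) (h F V Θ : LaurentSeries K) (hh : h * cL K z = 1)
    (hF : F = cL K (cmp (FF K) z)) (hV : V * F = υ * thL F)
    (hΘ : Θ * ((h - 16) * (h + 4)) = (υ * thL h) ^ 2) (hΘ0 : Θ ≠ 0) :
    2 * (υ * thL V) + V ^ 2 = 4 * Θ * (h + 15) * (h⁻¹) ^ 2 + V * (υ * thL Θ * Θ⁻¹) := by
  -- chain rule
  have chain : ∀ f : PowerSeries K,
      υ * thL (cL K (cmp f z)) = (υ * thL (cL K z) * h) * cL K (cmp (th f) z) := by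
    intro f
    have h1 := th_cmp f z z (th z) hz0 (mul_comm _ _)
    have h2 := congrArg (cL K) h1
    rw [map_mul, map_mul, ← thL_cL, ← thL_cL] at h2
    calc υ * thL (cL K (cmp f z)) = υ * (h * cL K z) * thL (cL K (cmp f z)) := by rw [hh]; ring
      _ = υ * h * (cL K z * thL (cL K (cmp f z))) := by ring
      _ = υ * h * (thL (cL K z) * cL K (cmp (th f) z)) := by rw [h2]
      _ = _ := by ring
  have hne : ∀ u : PowerSeries K, constantCoeff u = 1 → cL K u ≠ 0 := by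
    intro u hu h0
    have h1 : cL K u = cL K 0 := by rw [h0, map_zero]
    have h2 := cL_injective h1
    rw [h2, map_zero] at hu
    exact zero_ne_one hu
  have hP0 : (1 - 12 * cL K z - 64 * (cL K z) ^ 2 : LaurentSeries K) ≠ 0 := by
    have h1 := hne (1 - 12 * z - 64 * z ^ 2) (by simp [hz0])
    rw [map_sub, map_sub, map_one, map_mul, map_mul, map_pow, map_ofNat, map_ofNat] at h1
    exact h1
  have hF0 : F ≠ 0 := by
    rw [hF]
    exact hne _ (by rw [constantCoeff_cmp _ _ hz0, constantCoeff_FF])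
  -- Z2 composed
  have hZ2 := congrArg (fun f => cL K (cmp f z)) (Z2 K)
  have c28 : cmp (12 : PowerSeries K) z = 12 := cmp_ofNat 12 z hz0
  have c128 : cmp (64 : PowerSeries K) z = 64 := cmp_ofNat 64 z hz0
  have c256 : cmp (128 : PowerSeries K) z = 128 := cmp_ofNat 128 z hz0
  have c8 : cmp (4 : PowerSeries K) z = 4 := cmp_ofNat 4 z hz0
  have c96 : cmp (60 : PowerSeries K) z = 60 := cmp_ofNat 60 z hz0
  have c2 : cmp (2 : PowerSeries K) z = 2 := cmp_ofNat 2 z hz0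
  simp only [PD, cmp_mul _ _ z hz0, cmp_add _ _ z hz0, cmp_sub _ _ z hz0, cmp_pow _ z hz0,
    cmp_one z hz0, cmp_X z hz0, c28, c128, c256, c8, c96, c2, map_mul, map_add, map_sub, map_pow,
    map_one, map_ofNat] at hZ2
  -- derivation rules
  set ζ := cL K z with hζdef
  set μ := υ * thL ζ * h with hμ
  have hμζ : υ * thL ζ = μ * ζ := by
    rw [hμ]; linear_combination (-(υ * thL ζ)) * hh
  have hdh : υ * thL h = -(μ * h) := by
    have h1 : thL (h * ζ) = 0 := by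
      rw [hh]
      have := thL_intCast (R := K) 1
      simpa using this
    rw [thL_mul] at h1
    have h2 : υ * thL h * ζ + h * (μ * ζ) = 0 := by
      rw [← hμζ]; linear_combination υ * h1
    linear_combination h * h2 - (υ * thL h + h * μ) * hh
  have hΘP : Θ * (1 - 12 * ζ - 64 * ζ ^ 2) = μ ^ 2 := by
    rw [hdh] at hΘ
    have hζ : ζ * h = 1 := by rw [mul_comm]; exact hh
    have h1 : Θ * ((h - 16) * (h + 4)) * ζ ^ 2 = (-(μ * h)) ^ 2 * ζ ^ 2 := by rw [hΘ]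
    linear_combination h1 + (μ ^ 2 * (h * ζ + 1) - Θ * (h * ζ + 1) + 12 * Θ * ζ) * hh
  have hV' : V * F = μ * cL K (cmp (th (FF K)) z) := by
    rw [hV, hF]; exact chain _
  have hdV : υ * thL V * F + V * (μ * cL K (cmp (th (FF K)) z)) =
      υ * thL μ * cL K (cmp (th (FF K)) z) + μ * (μ * cL K (cmp (th (th (FF K))) z)) := by
    have h1 := congrArg (fun f => υ * thL f) hV'
    simp only [thL_mul] at h1
    have h2 : υ * thL F = μ * cL K (cmp (th (FF K)) z) := by rw [hF]; exact chain _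
    have h3 := chain (th (FF K))
    rw [← h2]
    linear_combination h1 + μ * h3
  have hdΘ : υ * thL Θ * (1 - 12 * ζ - 64 * ζ ^ 2) + Θ * (-(12 * ζ + 128 * ζ ^ 2) * μ)
      = 2 * μ * (υ * thL μ) := by
    have h1 := congrArg (fun f => υ * thL f) hΘP
    have h2 : thL (1 - 12 * ζ - 64 * ζ ^ 2) = -12 * thL ζ - 128 * (ζ * thL ζ) := by
      have h3 := thL_intCast (R := K) 1
      rw [thL_sub, thL_sub, thL_ofNat_mul, thL_ofNat_mul, thL_pow]
      have h4 : thL (1 : LaurentSeries K) = 0 := by simpa using h3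
      rw [h4]
      push_cast
      ring
    simp only [thL_mul, h2, thL_pow] at h1
    push_cast at h1
    linear_combination h1 - Θ * (-12 - 128 * ζ) * hμζ
  exact ricc_alg _ μ (υ * thL μ) ζ h _ F _ _ V (υ * thL V) Θ (υ * thL Θ) hh hP0 hF0 hΘ0 hV' hdV
    hΘP hdΘ (by rw [hF]; linear_combination hZ2)

end Pool.Agent.Lib_helper91.TN
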