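import Pool.Agent.Lib_helper91.TN.POApi

/-! Block UB: factorials without their multiples of `p`.
`UU p n = ∏_{j ≤ n, p ∤ j} j`, `HU p n = ∑_{j ≤ n, p ∤ j} 1/j` in `ℚ_p`.
U2: block `(p s, p (s+1))`: `∏_{0<j<p} (ps+j) ≡ (p-1)! (1 + p s H_{p-1}) ≡ (p-1)! mod p²` (`H_{p-1} ≡ 0 mod p`,
pair `j` with `p-j`; `p` odd), then `∏_{j ≤ n0, p∤j} (pt+j) ≡ UU n0 (1 + p t HU n0)`. -/

namespace Pool.Agent.Lib_helper91.TN

open PowerSeries Finset

variable (p : ℕ) [Fact p.Prime]

theorem UB_Ioc_succ (n : ℕ) : Ioc 0 (n + 1) = insert (n + 1) (Ioc 0 n) := by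
  ext x
  simp only [mem_Ioc, mem_insert]
  omega

omit [Fact p.Prime] in
theorem UB_UU_succ (n : ℕ) : UU p (n + 1) = if p ∣ n + 1 then UU p n else (n + 1) * UU p n := by
  unfold UU
  rw [UB_Ioc_succ, filter_insert]
  by_cases h : p ∣ n + 1
  · rw [if_neg (by simpa using h), if_pos h]
  · rw [if_pos h, if_neg h, prod_insert (by simp)]

theorem UB_HU_succ (n : ℕ) : HU p (n + 1) =
    if p ∣ n + 1 then HU p n else ((n + 1 : ℕ) : ℚ_[p])⁻¹ + HU p n := by
  unfold HU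
  rw [UB_Ioc_succ, filter_insert]
  by_cases h : p ∣ n + 1
  · rw [if_neg (by simpa using h), if_pos h]
  · rw [if_pos h, if_neg h, sum_insert (by simp)]

theorem UB_Hn_succ (K : Type) [Field K] (n : ℕ) :
    Hn K (n + 1) = ((n + 1 : ℕ) : K)⁻¹ + Hn K n := by
  unfold Hn
  rw [UB_Ioc_succ, sum_insert (by simp)]

theorem U1 (n : ℕ) : n.factorial = p ^ (n / p) * (n / p).factorial * UU p n := by
  induction n with
  | zero => simp [UU]
  | succ n ih =>
    rw [UB_UU_succ, Nat.factorial_succ, ih, Nat.succ_div]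
    split_ifs with h
    · obtain ⟨c, hc⟩ := h
      have hp : 0 < p := (Fact.out : p.Prime).pos
      have h1 : (n + 1) / p = n / p + 1 := by
        rw [Nat.succ_div, if_pos ⟨c, hc⟩]
      have h2 : n + 1 = p * (n / p + 1) := by
        rw [← h1, hc, Nat.mul_div_cancel_left _ hp]
      rw [Nat.factorial_succ, pow_succ]
      calc (n + 1) * (p ^ (n / p) * (n / p).factorial * UU p n)
          = (p * (n / p + 1)) * (p ^ (n / p) * (n / p).factorial * UU p n) := by rw [← h2]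
        _ = _ := by ring
    · rw [add_zero]
      ring

theorem UU_not_dvd (n : ℕ) : ¬ p ∣ UU p n := by
  unfold UU
  rw [Prime.dvd_finsetProd_iff (Nat.Prime.prime Fact.out)]
  rintro ⟨j, hj, h⟩
  exact (mem_filter.mp hj).2 h

theorem PI_HU (n : ℕ) : PI 0 (HU p n) := by
  unfold HU
  exact PI_sum _ _ (fun j hj => PI_natCast_inv j (mem_filter.mp hj).2)

theorem UB_sum_range (f : ZMod p → ZMod p) : ∑ j ∈ range p, f (j : ZMod p) = ∑ x : ZMod p, f x := by
  refine sum_nbij' (fun j => (j : ZMod p)) (fun x => x.val) ?_ ?_ ?_ ?_ ?_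
  · intro j _; exact mem_univ _
  · intro x _; exact mem_range.mpr (ZMod.val_lt x)
  · intro j hj; exact ZMod.val_cast_of_lt (mem_range.mp hj)
  · intro x _; exact ZMod.natCast_zmod_val x
  · intro j _; rfl

theorem UB_sum_Ioc (f : ZMod p → ZMod p) (n : ℕ) :
    ∑ j ∈ Ioc n (n + p), f (j : ZMod p) = ∑ x : ZMod p, f x := by
  have hp : 0 < p := (Fact.out : p.Prime).pos
  induction n with
  | zero =>
    rw [← UB_sum_range p f]
    have e1 : ∑ j ∈ range (p + 1), f (j : ZMod p) = ∑ j ∈ range p, f (j : ZMod p) + f 0 := by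
      rw [sum_range_succ]; simp
    have e2 : ∑ j ∈ range (p + 1), f (j : ZMod p) = ∑ j ∈ Ioc 0 (0 + p), f (j : ZMod p) + f 0 := by
      rw [sum_range_succ']
      simp only [Nat.cast_zero, zero_add]
      congr 1
      rw [sum_bij (fun j _ => j + 1)]
      · intro a ha
        have := mem_range.mp ha
        simp only [mem_Ioc]; omega
      · intro a _ b _ h; omega
      · intro b hb
        have := mem_Ioc.mp hb
        exact ⟨b - 1, mem_range.mpr (by omega), by omega⟩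
      · intro a _; rfl
    have := e1.symm.trans e2
    exact (add_right_cancel this).symm
  | succ n ih =>
    rw [← ih]
    have e1 : Ioc n (n + 1 + p) = insert (n + 1) (Ioc (n + 1) (n + 1 + p)) := by
      ext x; simp only [mem_Ioc, mem_insert]; omega
    have e2 : Ioc n (n + 1 + p) = insert (n + 1 + p) (Ioc n (n + p)) := by
      ext x; simp only [mem_Ioc, mem_insert]; omega
    have s1 : ∑ j ∈ Ioc n (n + 1 + p), f (j : ZMod p)
        = f ((n + 1 : ℕ) : ZMod p) + ∑ j ∈ Ioc (n + 1) (n + 1 + p), f (j : ZMod p) := by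
      rw [e1, sum_insert (by simp)]
    have s2 : ∑ j ∈ Ioc n (n + 1 + p), f (j : ZMod p)
        = f ((n + 1 + p : ℕ) : ZMod p) + ∑ j ∈ Ioc n (n + p), f (j : ZMod p) := by
      rw [e2, sum_insert (by simp [mem_Ioc])]
    have s3 : ((n + 1 + p : ℕ) : ZMod p) = ((n + 1 : ℕ) : ZMod p) := by
      push_cast; simp
    rw [s3] at s2
    exact add_left_cancel (s1.symm.trans s2)

theorem UB_sum_inv (h3 : 3 ≤ p) : ∑ x : ZMod p, x⁻¹ = 0 := by
  have h1 : ∑ x : ZMod p, x⁻¹ = ∑ x : ZMod p, x := by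
    refine sum_nbij' (fun x => x⁻¹) (fun x => x⁻¹) ?_ ?_ ?_ ?_ ?_ <;> simp
  rw [h1]
  have := FiniteField.sum_pow_lt_card_sub_one (ZMod p) 1 (by rw [ZMod.card]; omega)
  simpa using this

/-- an element of `ℤ_p` whose value is `1/j` (or `0` if `p ∣ j`) and whose residue is `j⁻¹` -/
theorem UB_inv_lift (j : ℕ) : ∃ y : ℤ_[p], (y : ℚ_[p]) = (if p ∣ j then 0 else ((j : ℚ_[p]))⁻¹)
    ∧ PadicInt.toZMod y = ((j : ZMod p))⁻¹ := by
  by_cases h : p ∣ j
  · refine ⟨0, by simp [h], ?_⟩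
    rw [(ZMod.natCast_eq_zero_iff j p).mpr h]; simp
  · have hu : PI 0 ((j : ℚ_[p]))⁻¹ := PI_natCast_inv j h
    obtain ⟨y, hy⟩ := (PI_zero_iff_exists _).mp hu
    refine ⟨y, by simp [h, hy], ?_⟩
    have hj : (j : ℚ_[p]) ≠ 0 := by
      rw [Nat.cast_ne_zero]; rintro rfl; exact h (dvd_zero _)
    have h1 : (j : ℤ_[p]) * y = 1 := by
      apply PadicInt.ext
      push_cast
      rw [hy, mul_inv_cancel₀ hj]
    have h2 := congrArg (PadicInt.toZMod : ℤ_[p] →+* ZMod p) h1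
    rw [map_mul, map_natCast, map_one] at h2
    exact eq_inv_of_mul_eq_one_right h2

theorem UB_PI1_iff (y : ℤ_[p]) : PI 1 ((y : ℚ_[p])) ↔ PadicInt.toZMod y = 0 := by
  have h : PI 1 ((y : ℚ_[p])) ↔ ‖y‖ < 1 := by
    unfold PI
    rw [← PadicInt.norm_def]
    have := PadicInt.norm_lt_pow_iff_norm_le_pow_sub_one y 0
    simp only [zpow_zero] at this
    rw [this]
    norm_num
  rw [h, ← RingHom.mem_ker, PadicInt.ker_toZMod, IsLocalRing.mem_maximalIdeal, mem_nonunits_iff,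
    PadicInt.isUnit_iff]
  constructor
  · intro h1 h2; rw [h2] at h1; exact lt_irrefl _ h1
  · intro h1; exact lt_of_le_of_ne (PadicInt.norm_le_one y) h1

theorem UB_block (h3 : 3 ≤ p) (n : ℕ) : PI 1 (HU p (n + p) - HU p n) := by
  choose y hy1 hy2 using UB_inv_lift p
  have h1 : HU p (n + p) - HU p n = ((∑ j ∈ Ioc n (n + p), y j : ℤ_[p]) : ℚ_[p]) := by
    have e1 : ∀ m, HU p m = ∑ j ∈ Ioc 0 m, (y j : ℚ_[p]) := by
      intro m
      unfold HU
      rw [sum_filter]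
      apply sum_congr rfl
      intro j _
      rw [hy1 j]
      by_cases h : p ∣ j <;> simp [h]
    rw [e1, e1, ← Finset.sum_Ioc_consecutive _ (Nat.zero_le n) (Nat.le_add_right n p)]
    simp
  rw [h1, UB_PI1_iff, map_sum]
  simp only [hy2]
  rw [UB_sum_Ioc p (fun x => x⁻¹) n]
  exact UB_sum_inv p h3

theorem HU_block (h3 : 3 ≤ p) (n0 t : ℕ) : PI 1 (HU p (n0 + p * t) - HU p n0) := by
  induction t with
  | zero => simpa using PI_zero 1
  | succ t ih =>
    have e : HU p (n0 + p * (t + 1)) - HU p n0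
        = (HU p ((n0 + p * t) + p) - HU p (n0 + p * t)) + (HU p (n0 + p * t) - HU p n0) := by
      rw [show n0 + p * (t + 1) = (n0 + p * t) + p by ring]
      ring
    rw [e]
    exact PI_add (UB_block p h3 _) ih

theorem UB_prod (x : ℚ_[p]) (hx : PI 1 x) (s : Finset ℕ) (hs : ∀ j ∈ s, ¬ p ∣ j) :
    PI 2 (∏ j ∈ s, ((j : ℚ_[p]) + x) -
      (∏ j ∈ s, (j : ℚ_[p])) * (1 + x * ∑ j ∈ s, ((j : ℚ_[p]))⁻¹)) := by
  classical
  induction s using Finset.induction_on with
  | empty => simpa using PI_zero 2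
  | insert a s ha ih =>
    have ih' := ih (fun j hj => hs j (mem_insert_of_mem hj))
    have ha' : ¬ p ∣ a := hs a (mem_insert_self a s)
    have ha0 : (a : ℚ_[p]) ≠ 0 := by
      rw [Nat.cast_ne_zero]; rintro rfl; exact ha' (dvd_zero _)
    rw [prod_insert ha, prod_insert ha, sum_insert ha]
    set P := ∏ j ∈ s, ((j : ℚ_[p]) + x)
    set J := ∏ j ∈ s, (j : ℚ_[p])
    set H := ∑ j ∈ s, ((j : ℚ_[p]))⁻¹
    have e : ((a : ℚ_[p]) + x) * P - (a : ℚ_[p]) * J * (1 + x * (((a : ℚ_[p]))⁻¹ + H))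
        = ((a : ℚ_[p]) + x) * (P - J * (1 + x * H)) + (x * x) * (J * H) := by
      field_simp
      ring
    rw [e]
    have hJ : PI 0 J := PI_prod s _ (fun j _ => PI_natCast j)
    have hH : PI 0 H := PI_sum s _ (fun j hj => PI_natCast_inv j (hs j (mem_insert_of_mem hj)))
    have h1 : PI 0 ((a : ℚ_[p]) + x) := PI_add (PI_natCast a) (PI_mono (Nat.zero_le 1) hx)
    have h2 := PI_mul h1 ih'
    have h3 := PI_mul (PI_mul hx hx) (PI_mul hJ hH)
    exact PI_add (by simpa using h2) (by simpa using h3)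

omit [Fact p.Prime] in
theorem UB_UU_shift (n0 m : ℕ) : UU p (n0 + p * m) = UU p (p * m) *
    ∏ j ∈ (Ioc 0 n0).filter (fun j => ¬ p ∣ j), (j + p * m) := by
  induction n0 with
  | zero => simp
  | succ n ih =>
    have hd : p ∣ n + p * m + 1 ↔ p ∣ n + 1 := by
      rw [show n + p * m + 1 = (n + 1) + p * m by ring]
      exact (Nat.dvd_add_left (Dvd.intro _ rfl))
    rw [show n + 1 + p * m = (n + p * m) + 1 by ring, UB_UU_succ, ih, UB_Ioc_succ, filter_insert]
    by_cases h : p ∣ n + 1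
    · rw [if_pos (hd.mpr h), if_neg (by simpa using h)]
    · rw [if_neg (fun h' => h (hd.mp h')), if_pos h, prod_insert (by simp)]
      ring

theorem UB_UU_cast (n : ℕ) : (UU p n : ℚ_[p]) =
    ∏ j ∈ (Ioc 0 n).filter (fun j => ¬ p ∣ j), (j : ℚ_[p]) := by
  unfold UU
  push_cast
  rfl

theorem UB_shift (n0 t : ℕ) :
    PI 2 ((UU p (n0 + p * t) : ℚ_[p]) -
      (UU p (p * t) : ℚ_[p]) * ((UU p n0 : ℚ_[p]) * (1 + (p : ℚ_[p]) * (t : ℚ_[p]) * HU p n0))) := by
  rw [UB_UU_shift]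
  have hx : PI 1 ((p : ℚ_[p]) * (t : ℚ_[p])) := by
    have := PI_mul (p := p) PI_p (PI_natCast t)
    simpa using this
  have h1 := UB_prod p _ hx ((Ioc 0 n0).filter (fun j => ¬ p ∣ j)) (fun j hj => (mem_filter.mp hj).2)
  rw [← UB_UU_cast] at h1
  have h2 := PI_mul (PI_natCast (p := p) (UU p (p * t))) h1
  rw [zero_add] at h2
  convert h2 using 1
  unfold HU
  push_cast
  ring

theorem UB_pt (h3 : 3 ≤ p) (t : ℕ) : PI 2 ((UU p (p * t) : ℚ_[p]) - (UU p p : ℚ_[p]) ^ t) := by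
  have hHp : PI 1 (HU p p) := by
    have := UB_block p h3 0
    simpa [HU] using this
  induction t with
  | zero => simpa [UU] using PI_zero 2
  | succ t ih =>
    have h1 := UB_shift p p t
    rw [show p + p * t = p * (t + 1) by ring] at h1
    set A := (UU p (p * (t + 1)) : ℚ_[p])
    set B := (UU p (p * t) : ℚ_[p])
    set u := (UU p p : ℚ_[p])
    have e : A - u ^ (t + 1) = (A - B * (u * (1 + (p : ℚ_[p]) * (t : ℚ_[p]) * HU p p)))
        + (B - u ^ t) * u + ((p : ℚ_[p]) * HU p p) * (B * u * (t : ℚ_[p])) := by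
      ring
    rw [e]
    have hB : PI 0 B := PI_natCast _
    have hu : PI 0 u := PI_natCast _
    refine PI_add (PI_add h1 ?_) ?_
    · simpa using PI_mul ih hu
    · have := PI_mul (PI_mul (PI_p (p := p)) hHp) (PI_mul (PI_mul hB hu) (PI_natCast t))
      simpa using this

theorem U2 (h3 : 3 ≤ p) (n0 t : ℕ) :
    PI 2 ((UU p (n0 + p * t) : ℚ_[p]) - (UU p p : ℚ_[p]) ^ t * (UU p n0 : ℚ_[p]) * (1 + (p : ℚ_[p]) * (t : ℚ_[p]) * HU p n0)) := by
  have h1 := UB_shift p n0 t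
  have h2 := UB_pt p h3 t
  set A := (UU p (n0 + p * t) : ℚ_[p])
  set B := (UU p (p * t) : ℚ_[p])
  set u := (UU p p : ℚ_[p]) ^ t
  set v := (UU p n0 : ℚ_[p]) * (1 + (p : ℚ_[p]) * (t : ℚ_[p]) * HU p n0)
  have e : A - u * (UU p n0 : ℚ_[p]) * (1 + (p : ℚ_[p]) * (t : ℚ_[p]) * HU p n0)
      = (A - B * v) + (B - u) * v := by
    simp only [v]
    ring
  rw [e]
  have hv : PI 0 v := by
    have a1 : PI 0 ((p : ℚ_[p]) * (t : ℚ_[p]) * HU p n0) := by
      have := PI_mul (PI_mul (PI_natCast (p := p) p) (PI_natCast t)) (PI_HU p n0)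
      simpa using this
    have a2 : PI 0 (1 : ℚ_[p]) := by simpa using PI_natCast (p := p) 1
    have := PI_mul (PI_natCast (p := p) (UU p n0)) (PI_add a2 a1)
    simpa [v] using this
  refine PI_add h1 ?_
  simpa using PI_mul h2 hv

theorem U3 (n : ℕ) : Hn ℚ_[p] n = HU p n + (p : ℚ_[p])⁻¹ * Hn ℚ_[p] (n / p) := by
  have hp0 : (p : ℚ_[p]) ≠ 0 := by
    rw [Nat.cast_ne_zero]; exact (Fact.out : p.Prime).ne_zero
  induction n with
  | zero => simp [HU, Hn]
  | succ n ih =>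
    rw [UB_HU_succ, UB_Hn_succ, ih, Nat.succ_div]
    split_ifs with h
    · obtain ⟨c, hc⟩ := h
      have hp : 0 < p := (Fact.out : p.Prime).pos
      have h1 : (n + 1) / p = n / p + 1 := by
        rw [Nat.succ_div, if_pos ⟨c, hc⟩]
      have h2 : n + 1 = p * (n / p + 1) := by
        rw [← h1, hc, Nat.mul_div_cancel_left _ hp]
      rw [UB_Hn_succ]
      have h4 : (((n + 1 : ℕ) : ℚ_[p]))⁻¹ = (p : ℚ_[p])⁻¹ * (((n / p + 1 : ℕ) : ℚ_[p]))⁻¹ := by
        rw [← mul_inv, ← Nat.cast_mul, ← h2]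
      rw [h4]
      ring
    · rw [add_zero]
      ring

end Pool.Agent.Lib_helper91.TN
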